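import Mathlib

/-! The trigonometric tests realised by the geometric gadgets. -/

namespace Pool.Agent.MP_a4408f_lc

open Filter Topology

/-- A test (mirror, k1, k2, k3, k4, nu). -/
abbrev BT := Bool × ℕ × ℕ × ℕ × ℕ × ℕ

/-- The basic function. -/
noncomputable def fs (x : ℝ) : ℝ := Real.sin (Real.pi / 6 + x)

/-- The sign attached to the mirror bit. -/
def sg (b : Bool) : ℝ := if b = true then -1 else 1

@[simp] lemma sg_true : sg true = -1 := rfl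
@[simp] lemma sg_false : sg false = 1 := rfl

/-- The meaning of a test. -/
def bholds (q : BT) (φ : ℕ → ℝ) : Prop :=
  fs (-(sg q.1 * (φ q.2.2.2.1 - φ q.2.2.2.2.2))) + fs (sg q.1 * (φ q.2.2.2.2.1 - φ q.2.2.2.2.2)) <
    fs (sg q.1 * (φ q.2.1 - φ q.2.2.2.2.2)) + fs (sg q.1 * (φ q.2.2.1 - φ q.2.2.2.2.2))

/-- The four angles of a test lie in the window around the reference angle. -/
def bwin (q : BT) (φ : ℕ → ℝ) : Prop :=
  |φ q.2.1 - φ q.2.2.2.2.2| < Real.pi / 6 ∧ |φ q.2.2.1 - φ q.2.2.2.2.2| < Real.pi / 6 ∧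
    |φ q.2.2.2.1 - φ q.2.2.2.2.2| < Real.pi / 6 ∧ |φ q.2.2.2.2.1 - φ q.2.2.2.2.2| < Real.pi / 6

/-- Solvability arbitrarily close to zero. -/
def BNear (L : List BT) : Prop :=
  ∃ φ : ℝ → ℕ → ℝ, (∀ i, Tendsto (fun t => φ t i) (𝓝[>] 0) (𝓝 0)) ∧
    ∀ q ∈ L, ∀ᶠ t in 𝓝[>] 0, bholds q (φ t)

/-- What a drawing of the gadgets guarantees. -/
def BSat (L : List BT) : Prop :=
  ∃ φ : ℕ → ℝ, ∀ q ∈ L, -(Real.pi / 6) < sg q.1 * (φ q.2.1 - φ q.2.2.2.2.2) ∧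
    (bwin q φ → bholds q φ)

end Pool.Agent.MP_a4408f_lc
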