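import Mathlib
import Pool.Agent.MP_a4408f_lc.BDefs
import Pool.Agent.MP_485bb6_lc.Hard

/-! From systems near one to trigonometric tests. -/

namespace Pool.Agent.MP_a4408f_lc

open Filter Topology Pool.Agent.MP_485bb6_lc Pool.Agent.MP_2e8011_lc

lemma continuous_fs : Continuous fs := by unfold fs; fun_prop

lemma fs_zero : fs 0 = 1 / 2 := by simp [fs]

lemma fs_lt {x y : ℝ} (hx : |x| ≤ Real.pi / 3) (hy : |y| ≤ Real.pi / 3) (h : x < y) : fs x < fs y := by
  have := Real.pi_pos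
  rw [abs_le] at hx hy
  exact Real.sin_lt_sin_of_lt_of_le_pi_div_two (by linarith) (by linarith) (by linarith)

lemma lt_of_fs {x y : ℝ} (hx : |x| ≤ Real.pi / 3) (hy : |y| ≤ Real.pi / 3) (h : fs x < fs y) :
    x < y := by
  by_contra hn
  rcases (not_lt.1 hn).eq_or_lt with e | e
  · simp [e] at h
  · exact absurd (fs_lt hy hx e) (not_lt.2 h.le)

lemma fs_pos {x : ℝ} (hx : |x| < Real.pi / 6) : 0 < fs x := by
  have := Real.pi_pos
  rw [abs_lt] at hx
  exact Real.sin_pos_of_pos_of_lt_pi (by linarith) (by linarith)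

lemma fs_lip (x y : ℝ) : |fs x - fs y| ≤ |x - y| := by
  have := Real.abs_sin_sub_sin_le (Real.pi / 6 + x) (Real.pi / 6 + y)
  simpa [fs] using this

lemma fs_mul (a b : ℝ) : 2 * (fs a * fs b) = fs (a - b) + fs (b - a) - fs (-a - b) := by
  have h3 : (√3 : ℝ) ^ 2 = 3 := Real.sq_sqrt (by norm_num)
  simp only [fs, Real.sin_add, Real.sin_sub, Real.cos_sub, Real.sin_pi_div_six, Real.cos_pi_div_six,
    Real.sin_neg, Real.cos_neg]
  linear_combination (Real.sin a * Real.sin b / 2) * h3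

/-- The local inverse of `fs`. -/
noncomputable def gs (y : ℝ) : ℝ := Real.arcsin y - Real.pi / 6

lemma continuous_gs : Continuous gs := by unfold gs; fun_prop

lemma gs_half : gs (1 / 2) = 0 := by
  have := Real.pi_pos
  rw [gs, ← Real.sin_pi_div_six, Real.arcsin_sin (by linarith) (by linarith), sub_self]

lemma fs_gs {y : ℝ} (h : |y| ≤ 1) : fs (gs y) = y := by
  rw [abs_le] at h
  simp [fs, gs, Real.sin_arcsin h.1 h.2]

lemma tendsto_gs {F : Filter ℝ} {y : ℝ → ℝ} (h : Tendsto y F (𝓝 (1 / 2))) :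
    Tendsto (fun t => gs (y t)) F (𝓝 0) := by
  have := (continuous_gs.tendsto _).comp h
  rwa [gs_half] at this

lemma tendsto_fs {F : Filter ℝ} {y : ℝ → ℝ} (h : Tendsto y F (𝓝 0)) :
    Tendsto (fun t => fs (y t)) F (𝓝 (1 / 2)) := by
  have := (continuous_fs.tendsto _).comp h
  rwa [fs_zero] at this

lemma ev_fs_gs {F : Filter ℝ} {y : ℝ → ℝ} (h : Tendsto y F (𝓝 (1 / 2))) :
    ∀ᶠ t in F, fs (gs (y t)) = y t := by
  filter_upwards [h.eventually (Ioo_mem_nhds (show (-1 : ℝ) < 1 / 2 by norm_num)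
    (show (1 / 2 : ℝ) < 1 by norm_num))] with t ht
  exact fs_gs (abs_le.2 ⟨ht.1.le, ht.2.le⟩)

lemma ev_small {F : Filter ℝ} {y : ℝ → ℝ} (h : Tendsto y F (𝓝 0)) :
    ∀ᶠ t in F, |y t| ≤ Real.pi / 3 := by
  have := Real.pi_pos
  filter_upwards [h.eventually (Ioo_mem_nhds (show -(Real.pi / 3) < 0 by linarith)
    (show 0 < Real.pi / 3 by linarith))] with t ht
  exact abs_le.2 ⟨ht.1.le, ht.2.le⟩

/-! ### Windows -/

/-- Tests with all windows. -/
def CSat (L : List BT) : Prop :=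
  ∃ φ : ℕ → ℝ, ∀ q ∈ L, bwin q φ ∧ bwin (q.1, q.2.1, q.2.2.1, q.2.2.2.1, q.2.2.2.2.1, 0) φ ∧ bholds q φ

/-- The two tests bounding one difference of angles. -/
def wtests (k n : ℕ) : List BT :=
  [(false, 3 * k, 3 * n + 1, 3 * n + 1, 3 * k, 3 * n), (true, 3 * k, 3 * n + 2, 3 * n + 2, 3 * k, 3 * n)]

/-- A test with its windows. -/
def genW (q : BT) : List BT :=
  (q.1, 3 * q.2.1, 3 * q.2.2.1, 3 * q.2.2.2.1, 3 * q.2.2.2.2.1, 3 * q.2.2.2.2.2) ::
    [q.2.1, q.2.2.1, q.2.2.2.1, q.2.2.2.2.1].flatMap fun k => wtests k q.2.2.2.2.2 ++ wtests k 0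

/-- Adding all windows. -/
def toW (L : List BT) : List BT := L.flatMap genW

theorem csat_of_toW {L : List BT} (h : BSat (toW L)) : CSat L := by
  obtain ⟨φ, h⟩ := h
  refine ⟨fun i => φ (3 * i), fun q hq => ?_⟩
  have h1 : ∀ r ∈ genW q, _ := fun r hr => h r (List.mem_flatMap.2 ⟨q, hq, hr⟩)
  have h2 : ∀ k n, (∀ r ∈ wtests k n, r ∈ genW q) → |φ (3 * k) - φ (3 * n)| < Real.pi / 6 := by
    intro k n hk
    have a1 := (h1 _ (hk _ List.mem_cons_self)).1
    have a2 := (h1 _ (hk _ (List.mem_cons_of_mem _ List.mem_cons_self))).1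
    simp only [sg_true, sg_false] at a1 a2
    rw [abs_lt]; constructor <;> linarith
  have h3 : bwin q fun i => φ (3 * i) := by
    refine ⟨h2 _ _ ?_, h2 _ _ ?_, h2 _ _ ?_, h2 _ _ ?_⟩ <;> intro r hr <;> simp [genW, hr]
  refine ⟨h3, ⟨h2 _ 0 ?_, h2 _ 0 ?_, h2 _ 0 ?_, h2 _ 0 ?_⟩, (h1 _ List.mem_cons_self).2 h3⟩ <;>
    intro r hr <;> simp [genW, hr]

theorem toW_of_bnear {L : List BT} (h : BNear L) : BNear (toW L) := by
  obtain ⟨φ, h0, h⟩ := h
  let ψ : ℝ → ℕ → ℝ := fun t n => φ t (n / 3) + if n % 3 = 0 then 0 else if n % 3 = 1 then t else -t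
  have e0 : ∀ t i, ψ t (3 * i) = φ t i := by intro t i; simp [ψ]
  have e1 : ∀ t i, ψ t (3 * i + 1) = φ t i + t := by
    intro t i
    simp [ψ, show (3 * i + 1) / 3 = i by omega, show (3 * i + 1) % 3 = 1 by omega]
  have e2 : ∀ t i, ψ t (3 * i + 2) = φ t i - t := by
    intro t i
    simp [ψ, show (3 * i + 2) / 3 = i by omega, show (3 * i + 2) % 3 = 2 by omega, sub_eq_add_neg]
  have ht : Tendsto (fun t : ℝ => t) (𝓝[>] 0) (𝓝 0) := tendsto_id.mono_left nhdsWithin_le_nhds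
  refine ⟨ψ, fun i => ?_, fun r hr => ?_⟩
  · simp only [ψ]
    split_ifs
    · simpa using h0 (i / 3)
    · simpa using (h0 (i / 3)).add ht
    · simpa using (h0 (i / 3)).add ht.neg
  · obtain ⟨q, hq, hr⟩ := List.mem_flatMap.1 hr
    rcases List.mem_cons.1 hr with rfl | hr
    · filter_upwards [h q hq] with t ht
      simpa only [bholds, e0] using ht
    · have : ∃ k n, r ∈ wtests k n := by
        obtain ⟨k, -, hk⟩ := List.mem_flatMap.1 hr
        rcases List.mem_append.1 hk with hk | hk <;> exact ⟨_, _, hk⟩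
      obtain ⟨k, n, hk⟩ := this
      filter_upwards [ev_small ht, self_mem_nhdsWithin] with t h1 h2
      have h3 : fs (-t) < fs t := fs_lt (by rwa [abs_neg]) h1 (by have : 0 < t := h2; linarith)
      simp only [wtests, List.mem_cons, List.not_mem_nil, or_false] at hk
      rcases hk with rfl | rfl <;> simp only [bholds, e0, e1, e2, sg_true, sg_false] <;>
        ring_nf <;> linarith

/-! ### Mixed tests -/

/-- Mixed tests: sums of values of `fs`, or sums of angles. -/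
def mholds (q : TC) (φ : ℕ → ℝ) : Prop :=
  if q.1 = true then fs (φ q.2.1 - φ 0) + fs (φ q.2.2.1 - φ 0) <
    fs (φ q.2.2.2.1 - φ 0) + fs (φ q.2.2.2.2 - φ 0)
  else φ q.2.1 + φ q.2.2.1 < φ q.2.2.2.1 + φ q.2.2.2.2

/-- Solvability of mixed tests inside the window. -/
def MSat (L : List TC) : Prop :=
  ∃ φ : ℕ → ℝ, ∀ q ∈ L, (|φ q.2.1 - φ 0| < Real.pi / 6 ∧ |φ q.2.2.1 - φ 0| < Real.pi / 6 ∧
    |φ q.2.2.2.1 - φ 0| < Real.pi / 6 ∧ |φ q.2.2.2.2 - φ 0| < Real.pi / 6) ∧ mholds q φ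

/-- Solvability of mixed tests near zero. -/
def MNear (L : List TC) : Prop :=
  ∃ φ : ℝ → ℕ → ℝ, (∀ i, Tendsto (fun t => φ t i) (𝓝[>] 0) (𝓝 0)) ∧
    ∀ q ∈ L, ∀ᶠ t in 𝓝[>] 0, mholds q (φ t)

/-- Tests for one mixed test. -/
def genM (c : ℕ) (q : TC) : List BT :=
  if q.1 = true then
    [(true, 0, 2 * c + 1, 2 * q.2.1, 0, 0),
      (false, 2 * q.2.2.2.1, 2 * q.2.2.2.2, 2 * c + 1, 2 * q.2.2.1, 0)]
  else [(true, 2 * c + 1, 2 * q.2.1, 2 * q.2.2.1, 2 * c + 1, 2 * c + 1),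
    (false, 2 * c + 1, 2 * q.2.2.2.1, 2 * q.2.2.2.2, 2 * c + 1, 2 * c + 1)]

/-- Translation of mixed tests. -/
def toC (L : List TC) : List BT :=
  (List.range L.length).flatMap fun c => genM c (L.getD c (false, 0, 0, 0, 0))

theorem msat_of_toC {L : List TC} (h : CSat (toC L)) : MSat L := by
  obtain ⟨φ, h⟩ := h
  refine ⟨fun i => φ (2 * i), fun q hq => ?_⟩
  obtain ⟨c, hc, rfl⟩ := exists_getD L (false, 0, 0, 0, 0) hq
  have h1 : ∀ r ∈ genM c (L.getD c (false, 0, 0, 0, 0)), _ := fun r hr =>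
    h r (by simp only [toC, List.mem_flatMap, List.mem_range]; exact ⟨c, hc, hr⟩)
  generalize L.getD c (false, 0, 0, 0, 0) = q at h1 ⊢
  have hp := Real.pi_pos
  unfold genM at h1
  unfold mholds
  split_ifs at h1 ⊢ <;>
    simp only [List.forall_mem_cons, List.not_mem_nil, false_imp_iff, implies_true, and_true, bwin,
      bholds, sg_true, sg_false, mul_zero, one_mul, neg_mul, neg_neg, sub_self, neg_zero] at h1 ⊢ <;>
    obtain ⟨⟨a1, a2, a3⟩, b1, b2, b3⟩ := h1
  · exact ⟨⟨a1.2.2.1, b1.2.2.2, b1.1, b1.2.1⟩, by linarith⟩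
  · refine ⟨⟨a2.2.1, a2.2.2.1, b2.2.1, b2.2.2.1⟩, ?_⟩
    have c1 := lt_of_fs (x := φ (2 * q.2.2.1) - φ (2 * c + 1)) (y := -(φ (2 * q.2.1) - φ (2 * c + 1)))
      (by linarith [a1.2.2.1]) (by rw [abs_neg]; linarith [a1.2.1]) (by linarith)
    have c2 := lt_of_fs (x := -(φ (2 * q.2.2.2.2) - φ (2 * c + 1)))
      (y := φ (2 * q.2.2.2.1) - φ (2 * c + 1))
      (by rw [abs_neg]; linarith [b1.2.2.1]) (by linarith [b1.2.1]) (by linarith)
    linarith

/-- Auxiliary value for one mixed test. -/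
noncomputable def auxM (q : TC) (φ : ℕ → ℝ) : ℝ :=
  if q.1 = true then φ 0 - gs ((fs (φ q.2.1 - φ 0) - fs (φ q.2.2.1 - φ 0) +
    fs (φ q.2.2.2.1 - φ 0) + fs (φ q.2.2.2.2 - φ 0)) / 2)
  else (φ q.2.1 + φ q.2.2.1 + φ q.2.2.2.1 + φ q.2.2.2.2) / 4

theorem toC_of_mnear {L : List TC} (h : MNear L) : BNear (toC L) := by
  obtain ⟨φ, h0, h⟩ := h
  let ψ : ℝ → ℕ → ℝ := fun t n =>
    if n % 2 = 0 then φ t (n / 2) else auxM (L.getD (n / 2) (false, 0, 0, 0, 0)) (φ t)
  have e0 : ∀ t i, ψ t (2 * i) = φ t i := by intro t i; simp [ψ]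
  have e00 : ∀ t, ψ t 0 = φ t 0 := fun t => e0 t 0
  have e1 : ∀ t i, ψ t (2 * i + 1) = auxM (L.getD i (false, 0, 0, 0, 0)) (φ t) := by
    intro t i
    simp [ψ, show (2 * i + 1) / 2 = i by omega]
  have hd : ∀ i, Tendsto (fun t => φ t i - φ t 0) (𝓝[>] 0) (𝓝 0) := fun i => by
    simpa using (h0 i).sub (h0 0)
  have hg : ∀ q : TC, Tendsto (fun t => (fs (φ t q.2.1 - φ t 0) - fs (φ t q.2.2.1 - φ t 0) +
      fs (φ t q.2.2.2.1 - φ t 0) + fs (φ t q.2.2.2.2 - φ t 0)) / 2) (𝓝[>] 0) (𝓝 (1 / 2)) := by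
    intro q
    have := (((((tendsto_fs (hd q.2.1)).sub (tendsto_fs (hd q.2.2.1))).add
      (tendsto_fs (hd q.2.2.2.1))).add (tendsto_fs (hd q.2.2.2.2)))).div_const 2
    convert this using 2
    norm_num
  have ha : ∀ q : TC, Tendsto (fun t => auxM q (φ t)) (𝓝[>] 0) (𝓝 0) := by
    intro q
    unfold auxM
    split_ifs
    · simpa using (h0 0).sub (tendsto_gs (hg q))
    · simpa using ((((h0 q.2.1).add (h0 q.2.2.1)).add (h0 q.2.2.2.1)).add (h0 q.2.2.2.2)).div_const 4
  refine ⟨ψ, fun i => ?_, fun r hr => ?_⟩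
  · simp only [ψ]
    split_ifs
    · exact h0 _
    · exact ha _
  · simp only [toC, List.mem_flatMap, List.mem_range] at hr
    obtain ⟨c, hc, hr⟩ := hr
    have h1 := h _ (getD_mem L (false, 0, 0, 0, 0) hc)
    have e2 := fun t => e1 t c
    generalize L.getD c (false, 0, 0, 0, 0) = q at h1 hr e2
    have hs : ∀ i, ∀ᶠ t in 𝓝[>] 0, |φ t i - auxM q (φ t)| ≤ Real.pi / 3 := fun i =>
      ev_small (by simpa using (h0 i).sub (ha q))
    unfold genM at hr
    unfold mholds at h1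
    split_ifs at hr h1 with hq
    · filter_upwards [h1, ev_fs_gs (hg q)] with t ht hg
      simp only [List.mem_cons, List.not_mem_nil, or_false] at hr
      rcases hr with rfl | rfl <;>
        simp only [bholds, e0, e00, e2, auxM, hq, if_true, sg_true, sg_false, one_mul, neg_mul, neg_neg,
          sub_sub_cancel_left, hg] <;> linarith
    · filter_upwards [h1, hs q.2.1, hs q.2.2.1, hs q.2.2.2.1, hs q.2.2.2.2] with t ht s1 s2 s3 s4
      have e3 : auxM q (φ t) = (φ t q.2.1 + φ t q.2.2.1 + φ t q.2.2.2.1 + φ t q.2.2.2.2) / 4 := by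
        simp [auxM, hq]
      simp only [List.mem_cons, List.not_mem_nil, or_false] at hr
      rcases hr with rfl | rfl <;>
        simp only [bholds, e0, e2, sg_true, sg_false, one_mul, neg_mul, neg_neg]
      · have := fs_lt s2 (y := -(φ t q.2.1 - auxM q (φ t))) (by rwa [abs_neg]) (by linarith)
        linarith
      · have := fs_lt (x := -(φ t q.2.2.2.2 - auxM q (φ t))) (by rwa [abs_neg]) s3 (by linarith)
        linarith

/-! ### Products -/

/-- Mixed tests for one test near one. -/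
def genP (c : ℕ) (q : TC) : List TC :=
  if q.1 = true then
    [(false, 11 * q.2.1 + 1, 0, 11 * c + 2, 11 * q.2.2.1 + 1),
      (false, 11 * q.2.2.1 + 1, 0, 11 * c + 3, 11 * q.2.1 + 1),
      (false, 11 * c + 4, 0, 11 * q.2.2.2.1 + 1, 11 * q.2.2.2.2 + 1),
      (false, 0, 0, 11 * c + 5, 11 * c + 4),
      (false, 11 * c + 6, 11 * q.2.2.2.2 + 1, 11 * q.2.2.2.1 + 1, 0),
      (false, 11 * c + 7, 11 * q.2.2.2.1 + 1, 11 * q.2.2.2.2 + 1, 0),
      (false, 11 * q.2.1 + 1, 11 * q.2.2.1 + 1, 11 * c + 8, 0),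
      (false, 11 * c + 9, 11 * c + 8, 0, 0),
      (true, 11 * c + 2, 11 * c + 3, 11 * c + 10, 11 * c + 6),
      (true, 11 * c + 10, 11 * c + 5, 11 * c + 7, 11 * c + 9)]
  else [(true, 11 * q.2.1 + 1, 11 * q.2.2.1 + 1, 11 * q.2.2.2.1 + 1, 11 * q.2.2.2.2 + 1)]

/-- Translation of tests near one. -/
def toM (L : List TC) : List TC :=
  (List.range L.length).flatMap fun c => genP c (L.getD c (false, 0, 0, 0, 0))

theorem nsat_of_toM {L : List TC} (h : MSat (toM L)) : NSat L := by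
  classical
  obtain ⟨φ, h⟩ := h
  let A : ℕ → ℝ := fun i => if |φ (11 * i + 1) - φ 0| < Real.pi / 6 then fs (φ (11 * i + 1) - φ 0) else 1
  have hA : ∀ i, |φ (11 * i + 1) - φ 0| < Real.pi / 6 → A i = fs (φ (11 * i + 1) - φ 0) :=
    fun i hi => if_pos hi
  refine ⟨A, fun i => ?_, fun q hq => ?_⟩
  · simp only [A]
    split_ifs with hi
    · exact fs_pos hi
    · norm_num
  obtain ⟨c, hc, rfl⟩ := exists_getD L (false, 0, 0, 0, 0) hq
  have h1 : ∀ r ∈ genP c (L.getD c (false, 0, 0, 0, 0)), _ := fun r hr =>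
    h r (by simp only [toM, List.mem_flatMap, List.mem_range]; exact ⟨c, hc, hr⟩)
  generalize L.getD c (false, 0, 0, 0, 0) = q at h1 ⊢
  have hp := Real.pi_pos
  unfold genP at h1
  unfold holds
  split_ifs at h1 ⊢ <;>
    simp only [List.forall_mem_cons, List.not_mem_nil, false_imp_iff, implies_true, and_true, mholds,
      if_true, Bool.false_eq_true, if_false] at h1
  · obtain ⟨⟨⟨wa, -, w2, wb⟩, t1⟩, ⟨⟨-, -, w3, -⟩, t2⟩, ⟨⟨-, -, wc, wd⟩, t3⟩, ⟨⟨-, -, w5, -⟩, t4⟩,
      ⟨⟨w6, -⟩, t5⟩, ⟨⟨w7, -⟩, t6⟩, ⟨-, t7⟩, ⟨⟨w9, -⟩, t8⟩, ⟨-, t9⟩, ⟨-, t10⟩⟩ := h1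
    rw [hA _ wa, hA _ wb, hA _ wc, hA _ wd]
    generalize ha : φ (11 * q.2.1 + 1) - φ 0 = a at *
    generalize hb : φ (11 * q.2.2.1 + 1) - φ 0 = b at *
    generalize hc : φ (11 * q.2.2.2.1 + 1) - φ 0 = c' at *
    generalize hd : φ (11 * q.2.2.2.2 + 1) - φ 0 = d at *
    have m1 := fs_mul a b
    have m2 := fs_mul c' d
    have key : ∀ x y : ℝ, |x| < Real.pi / 6 → |y| < Real.pi / 6 → |x - y| ≤ Real.pi / 3 :=
      fun x y hx hy => (abs_sub x y).trans (by linarith)
    have key2 : ∀ x : ℝ, |x| < Real.pi / 6 → |x| ≤ Real.pi / 3 := fun x hx => by linarith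
    have c1 := fs_lt (key _ _ wa wb) (key2 _ w2) (by linarith)
    have c2 := fs_lt (key _ _ wb wa) (key2 _ w3) (by linarith)
    have c3 := fs_lt (key (-c') d (by rwa [abs_neg]) wd) (key2 _ w5) (by linarith)
    have c4 := fs_lt (key2 _ w6) (key _ _ wc wd) (by linarith)
    have c5 := fs_lt (key2 _ w7) (key _ _ wd wc) (by linarith)
    have c6 := fs_lt (key2 _ w9) (key (-a) b (by rwa [abs_neg]) wb) (by linarith)
    linarith
  · obtain ⟨⟨wa, wb, wc, wd⟩, t⟩ := h1
    rwa [hA _ wa, hA _ wb, hA _ wc, hA _ wd]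

/-- Auxiliary values for one product test. -/
noncomputable def auxP (a b c d η : ℝ) (r : ℕ) : ℝ :=
  if r = 0 then 0 else if r = 2 then a - b + η else if r = 3 then b - a + η
  else if r = 4 then c + d - η else if r = 5 then -c - d + 2 * η else if r = 6 then c - d - η
  else if r = 7 then d - c - η else if r = 8 then a + b + η else if r = 9 then -a - b - 2 * η
  else gs (fs (a - b + η) + fs (b - a + η) - fs (c - d - η) + η)

theorem toM_of_nnear {L : List TC} (h : NNear L) : MNear (toM L) := by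
  obtain ⟨A, h0, h⟩ := h
  let x : ℝ → ℕ → ℝ := fun t i => gs (A t i / 2)
  have hA : ∀ i, Tendsto (fun t => A t i / 2) (𝓝[>] 0) (𝓝 (1 / 2)) := fun i => (h0 i).div_const 2
  have hx : ∀ i, Tendsto (fun t => x t i) (𝓝[>] 0) (𝓝 0) := fun i => tendsto_gs (hA i)
  have hf : ∀ i, ∀ᶠ t in 𝓝[>] 0, fs (x t i) = A t i / 2 := fun i => ev_fs_gs (hA i)
  let η : TC → ℝ → ℝ := fun q t => (A t q.2.2.2.1 * A t q.2.2.2.2 - A t q.2.1 * A t q.2.2.1) / 20
  have hη : ∀ q, Tendsto (η q) (𝓝[>] 0) (𝓝 0) := fun q => by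
    simpa using (((h0 q.2.2.2.1).mul (h0 q.2.2.2.2)).sub ((h0 q.2.1).mul (h0 q.2.2.1))).div_const 20
  let aux : TC → ℝ → ℕ → ℝ := fun q t r =>
    auxP (x t q.2.1) (x t q.2.2.1) (x t q.2.2.2.1) (x t q.2.2.2.2) (η q t) r
  let ψ : ℝ → ℕ → ℝ := fun t n =>
    if n % 11 = 1 then x t (n / 11) else aux (L.getD (n / 11) (false, 0, 0, 0, 0)) t (n % 11)
  have e0 : ∀ t, ψ t 0 = 0 := by intro t; simp [ψ, aux, auxP]
  have e1 : ∀ t i, ψ t (11 * i + 1) = x t i := by
    intro t i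
    simp [ψ, show (11 * i + 1) / 11 = i by omega, show (11 * i + 1) % 11 = 1 by omega]
  have e2 : ∀ t i r, 1 < r → r < 11 → ψ t (11 * i + r) = aux (L.getD i (false, 0, 0, 0, 0)) t r := by
    intro t i r h1 h2
    simp only [ψ, show (11 * i + r) / 11 = i by omega, show (11 * i + r) % 11 = r by omega, h1.ne',
      if_false]
  have hg : ∀ q : TC, Tendsto (fun t => fs (x t q.2.1 - x t q.2.2.1 + η q t) +
      fs (x t q.2.2.1 - x t q.2.1 + η q t) - fs (x t q.2.2.2.1 - x t q.2.2.2.2 - η q t) + η q t)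
      (𝓝[>] 0) (𝓝 (1 / 2)) := by
    intro q
    have a1 := tendsto_fs (y := fun t => x t q.2.1 - x t q.2.2.1 + η q t)
      (by simpa using ((hx q.2.1).sub (hx q.2.2.1)).add (hη q))
    have a2 := tendsto_fs (y := fun t => x t q.2.2.1 - x t q.2.1 + η q t)
      (by simpa using ((hx q.2.2.1).sub (hx q.2.1)).add (hη q))
    have a3 := tendsto_fs (y := fun t => x t q.2.2.2.1 - x t q.2.2.2.2 - η q t)
      (by simpa using ((hx q.2.2.2.1).sub (hx q.2.2.2.2)).sub (hη q))
    convert ((a1.add a2).sub a3).add (hη q) using 2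
    norm_num
  refine ⟨ψ, fun i => ?_, fun r hr => ?_⟩
  · simp only [ψ]
    split_ifs
    · exact hx _
    · generalize L.getD (i / 11) (false, 0, 0, 0, 0) = q
      have a := hx q.2.1
      have b := hx q.2.2.1
      have c := hx q.2.2.2.1
      have d := hx q.2.2.2.2
      have e := hη q
      simp only [aux, auxP]
      split_ifs
      · exact tendsto_const_nhds
      · simpa using (a.sub b).add e
      · simpa using (b.sub a).add e
      · simpa using (c.add d).sub e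
      · simpa using (c.neg.sub d).add (e.const_mul 2)
      · simpa using (c.sub d).sub e
      · simpa using (d.sub c).sub e
      · simpa using (a.add b).add e
      · simpa using (a.neg.sub b).sub (e.const_mul 2)
      · exact tendsto_gs (hg q)
  · simp only [toM, List.mem_flatMap, List.mem_range] at hr
    obtain ⟨c, hc, hr⟩ := hr
    have h1 := fun t ht => h t ht _ (getD_mem L (false, 0, 0, 0, 0) hc)
    have e3 := fun t => e2 t c
    generalize L.getD c (false, 0, 0, 0, 0) = q at h1 hr e3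
    unfold genP at hr
    unfold holds at h1
    filter_upwards [self_mem_nhdsWithin, hf q.2.1, hf q.2.2.1, hf q.2.2.2.1, hf q.2.2.2.2,
      ev_fs_gs (hg q)] with t ht f1 f2 f3 f4 f5
    have h2 := h1 t ht
    split_ifs at hr h2 with hq
    · have m1 := fs_mul (x t q.2.1) (x t q.2.2.1)
      have m2 := fs_mul (x t q.2.2.2.1) (x t q.2.2.2.2)
      rw [f1, f2] at m1
      rw [f3, f4] at m2
      have hη0 : 0 < η q t := by simp only [η]; linarith
      have hη1 : 20 * η q t = A t q.2.2.2.1 * A t q.2.2.2.2 - A t q.2.1 * A t q.2.2.1 := by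
        simp only [η]; ring
      have up : ∀ y s : ℝ, 0 ≤ s → fs (y + s) ≤ fs y + s := fun y s hs => by
        have := fs_lip (y + s) y
        rw [add_sub_cancel_left, abs_of_nonneg hs, abs_le] at this
        linarith
      have dn : ∀ y s : ℝ, 0 ≤ s → fs y - s ≤ fs (y - s) := fun y s hs => by
        have := up (y - s) s hs
        rw [sub_add_cancel] at this
        linarith
      have u1 := up (x t q.2.1 - x t q.2.2.1) _ hη0.le
      have u2 := up (x t q.2.2.1 - x t q.2.1) _ hη0.le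
      have u3 := up (-x t q.2.2.2.1 - x t q.2.2.2.2) (2 * η q t) (by linarith)
      have u4 := dn (x t q.2.2.2.1 - x t q.2.2.2.2) _ hη0.le
      have u5 := dn (x t q.2.2.2.2 - x t q.2.2.2.1) _ hη0.le
      have u6 := dn (-x t q.2.1 - x t q.2.2.1) (2 * η q t) (by linarith)
      simp only [List.mem_cons, List.not_mem_nil, or_false] at hr
      rcases hr with rfl | rfl | rfl | rfl | rfl | rfl | rfl | rfl | rfl | rfl <;>
        simp only [mholds, if_true, Bool.false_eq_true, if_false, e0, e1, sub_zero,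
          e3 t 2 (by norm_num) (by norm_num), e3 t 3 (by norm_num) (by norm_num),
          e3 t 4 (by norm_num) (by norm_num), e3 t 5 (by norm_num) (by norm_num),
          e3 t 6 (by norm_num) (by norm_num), e3 t 7 (by norm_num) (by norm_num),
          e3 t 8 (by norm_num) (by norm_num), e3 t 9 (by norm_num) (by norm_num),
          e3 t 10 (by norm_num) (by norm_num), aux, auxP, Nat.reduceEqDiff, OfNat.ofNat_ne_zero, f5] <;>
        linarith
    · simp only [List.mem_cons, List.not_mem_nil, or_false] at hr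
      subst hr
      simp only [mholds, if_true, e0, e1, sub_zero, f1, f2, f3, f4]
      linarith

/-- The whole translation. -/
def toB (L : List TC) : List BT := toW (toC (toM L))

theorem toB_of_nnear {L : List TC} (h : NNear L) : BNear (toB L) :=
  toW_of_bnear (toC_of_mnear (toM_of_nnear h))

theorem nsat_of_toB {L : List TC} (h : BSat (toB L)) : NSat L :=
  nsat_of_toM (msat_of_toC (csat_of_toW h))

@[fun_prop] theorem pt_wtests : PT fun p : ℕ × ℕ => wtests p.1 p.2 := by unfold wtests; fun_prop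
@[fun_prop] theorem pt_genW : PT genW := by unfold genW; fun_prop
@[fun_prop] theorem pt_toW : PT toW := by unfold toW; fun_prop
@[fun_prop] theorem pt_genM : PT fun p : ℕ × TC => genM p.1 p.2 := by unfold genM; fun_prop
@[fun_prop] theorem pt_toC : PT toC := by unfold toC; fun_prop
@[fun_prop] theorem pt_genP : PT fun p : ℕ × TC => genP p.1 p.2 := by unfold genP; fun_prop
@[fun_prop] theorem pt_toM : PT toM := by unfold toM; fun_prop
@[fun_prop] theorem pt_toB : PT toB := by unfold toB; fun_prop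

/-- From formulas to trigonometric tests. -/
def bitsToB (x : List Bool) : List BT := toB (toNear (toStrict (bitsToQ x) (sz (bitsToQ x) + 1)))

theorem pt_bitsToB : PT bitsToB := by
  unfold bitsToB
  exact pt_toB.comp (pt_toNear.comp (pt_toStrict.comp
    (f := fun x => (bitsToQ x, sz (bitsToQ x) + 1)) (by fun_prop)))

theorem bnear_of_etr {x : List Bool} (h : ETR x = true) : BNear (bitsToB x) :=
  toB_of_nnear (toNear_of_ssat (toStrict_of_qsat (qbound_sz _) ((etr_iff_qsat x).1 h)))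

theorem etr_of_bsat {x : List Bool} (h : BSat (bitsToB x)) : ETR x = true :=
  (etr_iff_qsat x).2 (qsat_of_toStrict (qbound_sz _) (ssat_of_toNear (nsat_of_toB h)))

end Pool.Agent.MP_a4408f_lc
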