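import Mathlib
import Pool.Agent.MP_485bb6_lc.Defs

namespace Pool.Agent.MP_a4408f_lc

open Pool.Agent.MP_485bb6_lc

/-- A crossing-free straight-line drawing: distinct points, two different edges meet only in a
common endpoint, and no vertex lies in the relative interior of an edge. -/
def CrossingFree {n : ℕ} (G : SimpleGraph (Fin n)) (p : Fin n → EuclideanSpace ℝ (Fin 2)) : Prop :=
  Function.Injective p ∧
  (∀ u v u' v', G.Adj u v → G.Adj u' v' → ¬ ((u = u' ∧ v = v') ∨ (u = v' ∧ v = u')) →
    ∀ x ∈ segment ℝ (p u) (p v), x ∈ segment ℝ (p u') (p v') →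
      ∃ w, (w = u ∨ w = v) ∧ (w = u' ∨ w = v') ∧ x = p w) ∧
  ∀ u v w, G.Adj u v → p w ∉ openSegment ℝ (p u) (p v)

/-- An edge of `G` has length at most one if and only if it is an edge of `S`. -/
def Realizes {n : ℕ} (G S : SimpleGraph (Fin n)) (p : Fin n → EuclideanSpace ℝ (Fin 2)) : Prop :=
  ∀ u v, G.Adj u v → (dist (p u) (p v) ≤ 1 ↔ S.Adj u v)

open Classical in
/-- The crossing-free version as a language of bit strings: the adjacency matrix of `G` followed by
the adjacency matrix of the subgraph `S` formed by the short edges. -/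
noncomputable def CF (x : List Bool) : Bool :=
  decide (∃ (n : ℕ) (G S : SimpleGraph (Fin n)), S ≤ G ∧ graphCode G ++ graphCode S = x ∧
    ∃ p : Fin n → EuclideanSpace ℝ (Fin 2), CrossingFree G p ∧ Realizes G S p)

end Pool.Agent.MP_a4408f_lc
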