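import Mathlib
import Pool.Agent.MP_a4408f_lc.Defs
import Pool.Agent.MP_485bb6_lc.Member

/-! The language `CF` in terms of drawings in the complex plane. -/

namespace Pool.Agent.MP_a4408f_lc

open Pool.Agent.MP_485bb6_lc Pool.Agent.MP_2e8011_lc

/-- Edges or vertices without a common vertex are drawn as disjoint sets. -/
def Sep {V E : Type} [AddCommGroup E] [Module ℝ E] (S : Set V) (adj : V → V → Prop) (p : V → E) :
    Prop :=
  ∀ u ∈ S, ∀ v ∈ S, ∀ u' ∈ S, ∀ v' ∈ S, (adj u v ∨ u = v) → (adj u' v' ∨ u' = v') →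
    u ≠ u' → u ≠ v' → v ≠ u' → v ≠ v' → Disjoint (segment ℝ (p u) (p v)) (segment ℝ (p u') (p v'))

/-- A crossing-free drawing in the form of the problem statement. -/
structure Draw {V E : Type} [AddCommGroup E] [Module ℝ E] (S : Set V) (adj : V → V → Prop)
    (p : V → E) : Prop where
  inj : ∀ u ∈ S, ∀ v ∈ S, p u = p v → u = v
  cross : ∀ u ∈ S, ∀ v ∈ S, ∀ u' ∈ S, ∀ v' ∈ S, adj u v → adj u' v' →
    ¬ ((u = u' ∧ v = v') ∨ (u = v' ∧ v = u')) →
    ∀ x ∈ segment ℝ (p u) (p v), x ∈ segment ℝ (p u') (p v') →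
      ∃ w, (w = u ∨ w = v) ∧ (w = u' ∨ w = v') ∧ x = p w
  vert : ∀ u ∈ S, ∀ v ∈ S, ∀ w ∈ S, adj u v → p w ∉ openSegment ℝ (p u) (p v)

section
variable {V E : Type} [AddCommGroup E] [Module ℝ E] {S : Set V} {adj : V → V → Prop} {p : V → E}

lemma seg_common {a b c x : E} (h1 : x ∈ segment ℝ a b) (h2 : x ∈ segment ℝ a c) (hx : x ≠ a) :
    b ∈ segment ℝ a c ∨ c ∈ segment ℝ a b := by
  rw [segment_eq_image] at h1 h2
  obtain ⟨s, ⟨hs0, hs1⟩, rfl⟩ := h1
  obtain ⟨t, ⟨ht0, ht1⟩, ht⟩ := h2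
  simp only at ht hx
  have hs : s ≠ 0 := by rintro rfl; simp at hx
  have ht' : t ≠ 0 := by rintro rfl; apply hx; rw [← ht]; simp
  have hsp : 0 < s := lt_of_le_of_ne hs0 hs.symm
  have htp : 0 < t := lt_of_le_of_ne ht0 ht'.symm
  have key : t • (c - a) = s • (b - a) := by
    have : (1 - t) • a + t • c - a = (1 - s) • a + s • b - a := by rw [ht]
    simpa only [sub_smul, one_smul, smul_sub, show ∀ u v w : E, u - v + w - u = w - v from
      fun u v w => by abel] using this
  rcases le_total t s with h | h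
  · left
    rw [segment_eq_image']
    refine ⟨t / s, ⟨by positivity, (div_le_one hsp).2 h⟩, ?_⟩
    simp only
    rw [div_eq_inv_mul, mul_smul, key, smul_smul, inv_mul_cancel₀ hs, one_smul]
    abel
  · right
    rw [segment_eq_image']
    refine ⟨s / t, ⟨by positivity, (div_le_one htp).2 h⟩, ?_⟩
    simp only
    rw [div_eq_inv_mul, mul_smul, ← key, smul_smul, inv_mul_cancel₀ ht', one_smul]
    abel

theorem Draw.sep (h : Draw S adj p) : Sep S adj p := by
  intro u hu v hv u' hu' v' hv' h1 h2 n1 n2 n3 n4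
  rw [Set.disjoint_left]
  intro x hx hx'
  have vtx : ∀ a ∈ S, ∀ b ∈ S, ∀ w ∈ S, adj a b ∨ a = b → w ≠ a → w ≠ b →
      p w ∉ segment ℝ (p a) (p b) := by
    intro a ha b hb w hw hab m1 m2 hm
    rcases hab with hab | rfl
    · rw [← insert_endpoints_openSegment] at hm
      rcases hm with hm | hm | hm
      · exact m1 (h.inj _ hw _ ha hm)
      · exact m2 (h.inj _ hw _ hb hm)
      · exact h.vert a ha b hb w hw hab hm
    · rw [segment_same] at hm
      exact m1 (h.inj _ hw _ ha hm)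
  rcases h1 with h1 | rfl
  · rcases h2 with h2 | rfl
    · obtain ⟨w, hw1, hw2, -⟩ := h.cross u hu v hv u' hu' v' hv' h1 h2 (by tauto) x hx hx'
      rcases hw1 with rfl | rfl <;> rcases hw2 with rfl | rfl <;> contradiction
    · rw [segment_same] at hx'
      obtain rfl : x = p u' := hx'
      exact vtx u hu v hv u' hu' (Or.inl h1) n1.symm n3.symm hx
  · rw [segment_same] at hx
    obtain rfl : x = p u := hx
    exact vtx u' hu' v' hv' u hu h2 n1 n2 hx'

theorem Sep.draw (h : Sep S adj p) (irr : ∀ u ∈ S, ¬ adj u u)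
    (symm : ∀ u ∈ S, ∀ v ∈ S, adj u v → adj v u) : Draw S adj p := by
  have vtx : ∀ a ∈ S, ∀ b ∈ S, ∀ w ∈ S, adj a b ∨ a = b → w ≠ a → w ≠ b →
      p w ∉ segment ℝ (p a) (p b) := by
    intro a ha b hb w hw hab m1 m2 hm
    exact Set.disjoint_left.1 (h a ha b hb w hw w hw hab (Or.inr rfl) m1.symm m1.symm m2.symm m2.symm)
      hm (left_mem_segment _ _ _)
  have inj : ∀ u ∈ S, ∀ v ∈ S, p u = p v → u = v := by
    intro u hu v hv huv
    by_contra hne
    exact vtx v hv v hv u hu (Or.inr rfl) hne hne (huv ▸ left_mem_segment _ _ _)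
  have share : ∀ a ∈ S, ∀ b ∈ S, ∀ c ∈ S, adj a b → adj a c → b ≠ c →
      ∀ x ∈ segment ℝ (p a) (p b), x ∈ segment ℝ (p a) (p c) → x = p a := by
    intro a ha b hb c hc h1 h2 hbc x hx hx'
    by_contra hne
    have n1 : b ≠ a := by rintro rfl; exact irr _ ha h1
    have n2 : c ≠ a := by rintro rfl; exact irr _ ha h2
    rcases seg_common hx hx' hne with h3 | h3
    · exact vtx a ha c hc b hb (Or.inl h2) n1 hbc h3
    · exact vtx a ha b hb c hc (Or.inl h1) n2 hbc.symm h3
  refine ⟨inj, fun u hu v hv u' hu' v' hv' h1 h2 hne x hx hx' => ?_, fun u hu v hv w hw h1 hm => ?_⟩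
  · by_cases n1 : u = u'
    · subst n1
      exact ⟨u, Or.inl rfl, Or.inl rfl, share u hu v hv v' hv' h1 h2 (by tauto) x hx hx'⟩
    by_cases n2 : u = v'
    · subst n2
      exact ⟨u, Or.inl rfl, Or.inr rfl, share u hu v hv u' hu' h1 (symm _ hu' _ hu h2) (by tauto) x hx
        (by rwa [segment_symm])⟩
    by_cases n3 : v = u'
    · subst n3
      exact ⟨v, Or.inr rfl, Or.inl rfl, share v hv u hu v' hv' (symm _ hu _ hv h1) h2 n2 x
        (by rwa [segment_symm]) hx'⟩
    by_cases n4 : v = v'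
    · subst n4
      exact ⟨v, Or.inr rfl, Or.inr rfl, share v hv u hu u' hu' (symm _ hu _ hv h1)
        (symm _ hu' _ hv h2) n1 x (by rwa [segment_symm]) (by rwa [segment_symm])⟩
    exact absurd hx' (Set.disjoint_left.1
      (h u hu v hv u' hu' v' hv' (Or.inl h1) (Or.inl h2) n1 n2 n3 n4) hx)
  · have huv : p u ≠ p v := fun e => irr u hu (by have := inj u hu v hv e; subst this; exact h1)
    by_cases n1 : w = u
    · subst n1
      exact huv (left_mem_openSegment_iff.1 hm)
    by_cases n2 : w = v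
    · subst n2
      exact huv (right_mem_openSegment_iff.1 hm)
    exact vtx u hu v hv w hw (Or.inl h1) n1 n2 (openSegment_subset_segment _ _ _ hm)

lemma Sep.map {F : Type} [AddCommGroup F] [Module ℝ F] (h : Sep S adj p) (f : E →ₗ[ℝ] F)
    (hf : Function.Injective f) : Sep S adj fun v => f (p v) := by
  intro u hu v hv u' hu' v' hv' h1 h2 n1 n2 n3 n4
  have := h u hu v hv u' hu' v' hv' h1 h2 n1 n2 n3 n4
  have e : ∀ a b : E, segment ℝ (f a) (f b) = f '' segment ℝ a b := fun a b =>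
    (image_segment ℝ f.toAffineMap a b).symm
  rw [e, e]
  exact (Set.disjoint_image_iff hf).2 this

end

lemma crossingFree_iff {n : ℕ} (G : SimpleGraph (Fin n)) (p : Fin n → EuclideanSpace ℝ (Fin 2)) :
    CrossingFree G p ↔ Sep Set.univ G.Adj p := by
  constructor
  · rintro ⟨h1, h2, h3⟩
    exact Draw.sep ⟨fun u _ v _ h => h1 h, fun u _ v _ u' _ v' _ => h2 u v u' v',
      fun u _ v _ w _ => h3 u v w⟩
  · intro h
    have := h.draw (fun u _ => G.irrefl) (fun u _ v _ h => h.symm)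
    exact ⟨fun u v h => this.inj u trivial v trivial h,
      fun u v u' v' => this.cross u trivial v trivial u' trivial v' trivial,
      fun u v w => this.vert u trivial v trivial w trivial⟩

/-- The combinatorial conditions on the two matrices. -/
def Wf {V : Type} (S : Set V) (A B : V → V → Bool) : Prop :=
  (∀ u ∈ S, A u u = false) ∧ ∀ u ∈ S, ∀ v ∈ S, A u v = A v u ∧ B u v = B v u ∧ (B u v = true → A u v = true)

/-- A crossing-free drawing in the complex plane with the right edge lengths. -/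
def Real2 {V : Type} (S : Set V) (A B : V → V → Bool) (p : V → ℂ) : Prop :=
  Sep S (fun u v => A u v = true) p ∧
    ∀ u ∈ S, ∀ v ∈ S, A u v = true → (‖p u - p v‖ ≤ 1 ↔ B u v = true)

lemma cf_mat (n : ℕ) (A B : ℕ → ℕ → Bool) :
    CF (mat n n A ++ mat n n B) = true ↔ Wf {i | i < n} A B ∧ ∃ p, Real2 {i | i < n} A B p := by
  classical
  let e : ℂ ≃ₗᵢ[ℝ] EuclideanSpace ℝ (Fin 2) := Complex.orthonormalBasisOneI.repr
  unfold CF
  rw [decide_eq_true_iff]
  constructor
  · rintro ⟨m, G, S, hSG, hx, p, hp, hl⟩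
    rw [graphCode_eq, graphCode_eq] at hx
    have hmn : m = n := by
      have := congrArg List.length hx
      simp only [List.length_append, length_mat] at this
      exact Nat.mul_self_inj.1 (by omega)
    subst hmn
    obtain ⟨hA, hB⟩ := List.append_inj hx (by simp only [length_mat])
    have hA' : ∀ i (hi : i < m) j (hj : j < m), A i j = decide (G.Adj ⟨i, hi⟩ ⟨j, hj⟩) := by
      intro i hi j hj
      rw [← getD_mat m m A hi hj, ← hA, getD_mat _ _ _ hi hj, dif_pos ⟨hi, hj⟩]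
    have hB' : ∀ i (hi : i < m) j (hj : j < m), B i j = decide (S.Adj ⟨i, hi⟩ ⟨j, hj⟩) := by
      intro i hi j hj
      rw [← getD_mat m m B hi hj, ← hB, getD_mat _ _ _ hi hj, dif_pos ⟨hi, hj⟩]
    refine ⟨⟨fun u hu => by simp [hA' u hu u hu], fun u hu v hv => ?_⟩,
      fun i => if h : i < m then e.symm (p ⟨i, h⟩) else 0, ?_, fun u hu v hv h => ?_⟩
    · rw [hA' u hu v hv, hA' v hv u hu, hB' u hu v hv, hB' v hv u hu]
      refine ⟨by simp [G.adj_comm], by simp [S.adj_comm], fun h => ?_⟩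
      simpa using hSG (by simpa using h)
    · have h1 := ((crossingFree_iff G p).1 hp).map e.symm.toLinearEquiv.toLinearMap e.symm.injective
      intro u hu v hv u' hu' v' hv' a1 a2 n1 n2 n3 n4
      simp only [Set.mem_ofPred_eq] at hu hv hu' hv'
      simp only [dif_pos hu, dif_pos hv, dif_pos hu', dif_pos hv']
      refine h1 ⟨u, hu⟩ trivial ⟨v, hv⟩ trivial ⟨u', hu'⟩ trivial ⟨v', hv'⟩ trivial ?_ ?_
        (by simpa using n1) (by simpa using n2) (by simpa using n3) (by simpa using n4)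
      · simpa [hA' u hu v hv] using a1
      · simpa [hA' u' hu' v' hv'] using a2
    · simp only [Set.mem_ofPred_eq] at hu hv
      simp only [dif_pos hu, dif_pos hv]
      rw [hA' u hu v hv] at h
      rw [hB' u hu v hv, decide_eq_true_iff, ← hl _ _ (by simpa using h), ← map_sub,
        LinearIsometryEquiv.norm_map, dist_eq_norm]
  · rintro ⟨⟨h1, h2⟩, p, hp, hl⟩
    let G : SimpleGraph (Fin n) := ⟨fun i j => A i j = true,
      ⟨fun i j h => by rwa [← (h2 i i.2 j j.2).1]⟩, ⟨fun i h => by simp [h1 i i.2] at h⟩⟩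
    let S : SimpleGraph (Fin n) := ⟨fun i j => B i j = true,
      ⟨fun i j h => by rwa [← (h2 i i.2 j j.2).2.1]⟩,
      ⟨fun i h => by simpa [h1 i i.2] using (h2 i i.2 i i.2).2.2 h⟩⟩
    refine ⟨n, G, S, fun i j h => (h2 i i.2 j j.2).2.2 h, ?_, fun i => e (p i), ?_, fun u v h => ?_⟩
    · rw [graphCode_eq, graphCode_eq]
      congr 1 <;> refine eq_mat (length_mat _ _ _) fun i hi j hj => ?_ <;>
        rw [getD_mat _ _ _ hi hj, dif_pos ⟨hi, hj⟩] <;> simp [G, S]
    · rw [crossingFree_iff]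
      have h3 := hp.map e.toLinearEquiv.toLinearMap e.injective
      intro u _ v _ u' _ v' _ a1 a2 n1 n2 n3 n4
      exact h3 u u.2 v v.2 u' u'.2 v' v'.2 (by simpa [G, Fin.ext_iff] using a1)
        (by simpa [G, Fin.ext_iff] using a2) (by simpa [Fin.ext_iff] using n1)
        (by simpa [Fin.ext_iff] using n2) (by simpa [Fin.ext_iff] using n3)
        (by simpa [Fin.ext_iff] using n4)
    · rw [dist_eq_norm, ← map_sub, LinearIsometryEquiv.norm_map]
      exact hl u u.2 v v.2 h

/-- The code of a labelled graph given by a list of vertices. -/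
def bitsG {V : Type} (vs : List V) (d : V) (A B : V → V → Bool) : List Bool :=
  mat vs.length vs.length (fun i j => A (vs.getD i d) (vs.getD j d)) ++
    mat vs.length vs.length (fun i j => B (vs.getD i d) (vs.getD j d))

/-- The interface for the reduction. -/
theorem cf_bitsG {V : Type} {vs : List V} (hvs : vs.Nodup) (d : V) {A B : V → V → Bool}
    (hW : Wf {v | v ∈ vs} A B) :
    CF (bitsG vs d A B) = true ↔ ∃ p, Real2 {v | v ∈ vs} A B p := by
  have hm : ∀ i ∈ {i | i < vs.length}, vs.getD i d ∈ {v | v ∈ vs} := fun i hi => getD_mem vs d hi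
  have hinj : ∀ i ∈ {i | i < vs.length}, ∀ j ∈ {i | i < vs.length}, vs.getD i d = vs.getD j d → i = j := by
    intro i hi j hj h
    rw [List.getD_eq_getElem _ _ hi, List.getD_eq_getElem _ _ hj] at h
    exact (hvs.getElem_inj_iff).1 h
  unfold bitsG
  rw [cf_mat]
  constructor
  · rintro ⟨-, p, hp, hl⟩
    have hidx : ∀ v : V, ∃ i, v ∈ vs → i < vs.length ∧ vs.getD i d = v := by
      intro v
      by_cases hv : v ∈ vs
      · obtain ⟨i, hi⟩ := exists_getD _ d hv
        exact ⟨i, fun _ => hi⟩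
      · exact ⟨0, fun h => absurd h hv⟩
    choose ι hι using hidx
    have hne : ∀ u ∈ vs, ∀ v ∈ vs, u ≠ v → ι u ≠ ι v := fun u hu v hv h e =>
      h (by rw [← (hι u hu).2, ← (hι v hv).2, e])
    refine ⟨fun v => p (ι v), fun u hu v hv u' hu' v' hv' a1 a2 n1 n2 n3 n4 => ?_,
      fun u hu v hv h => ?_⟩
    · refine hp _ (hι u hu).1 _ (hι v hv).1 _ (hι u' hu').1 _ (hι v' hv').1 ?_ ?_
        (hne _ hu _ hu' n1) (hne _ hu _ hv' n2) (hne _ hv _ hu' n3) (hne _ hv _ hv' n4)
      · simp only [(hι u hu).2, (hι v hv).2]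
        exact a1.imp_right fun h => by rw [h]
      · simp only [(hι u' hu').2, (hι v' hv').2]
        exact a2.imp_right fun h => by rw [h]
    · have := hl _ (hι u hu).1 _ (hι v hv).1
      simp only [(hι u hu).2, (hι v hv).2] at this
      exact this h
  · rintro ⟨p, hp, hl⟩
    refine ⟨⟨fun u hu => hW.1 _ (hm u hu), fun u hu v hv => hW.2 _ (hm u hu) _ (hm v hv)⟩,
      fun i => p (vs.getD i d), fun u hu v hv u' hu' v' hv' a1 a2 n1 n2 n3 n4 => ?_,
      fun u hu v hv h => hl _ (hm u hu) _ (hm v hv) h⟩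
    exact hp _ (hm u hu) _ (hm v hv) _ (hm u' hu') _ (hm v' hv') (a1.imp_right fun h => by rw [h])
      (a2.imp_right fun h => by rw [h]) (fun h => n1 (hinj _ hu _ hu' h))
      (fun h => n2 (hinj _ hu _ hv' h)) (fun h => n3 (hinj _ hv _ hu' h))
      (fun h => n4 (hinj _ hv _ hv' h))

/-- The code is computable in polynomial time. -/
theorem pt_bitsG {α V : Type} [Enc α] [Enc V] {vs : α → List V} (hvs : PT vs) (d : V)
    {A B : α → V → V → Bool} (hA : PT fun p : α × V × V => A p.1 p.2.1 p.2.2)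
    (hB : PT fun p : α × V × V => B p.1 p.2.1 p.2.2) :
    PT fun a => bitsG (vs a) d (A a) (B a) := by
  have : Inhabited V := ⟨d⟩
  have h1 : PT fun p : (α × ℕ) × ℕ => A p.1.1 ((vs p.1.1).getD p.1.2 d) ((vs p.1.1).getD p.2 d) :=
    hA.comp (f := fun p : (α × ℕ) × ℕ => (p.1.1, (vs p.1.1).getD p.1.2 d, (vs p.1.1).getD p.2 d))
      (by fun_prop)
  have h2 : PT fun p : (α × ℕ) × ℕ => B p.1.1 ((vs p.1.1).getD p.1.2 d) ((vs p.1.1).getD p.2 d) :=
    hB.comp (f := fun p : (α × ℕ) × ℕ => (p.1.1, (vs p.1.1).getD p.1.2 d, (vs p.1.1).getD p.2 d))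
      (by fun_prop)
  unfold bitsG mat
  refine PT.append (PT.flatMap (PT.map h1 (by fun_prop)) (by fun_prop))
    (PT.flatMap (PT.map h2 (by fun_prop)) (by fun_prop))

end Pool.Agent.MP_a4408f_lc
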