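import Mathlib
import Pool.Agent.MP_a4408f_lc.Iface

/-! The language `CF` reduces to ETR in polynomial time. -/

namespace Pool.Agent.MP_a4408f_lc

open Pool.Agent.MP_485bb6_lc Pool.Agent.MP_2e8011_lc

/-- The number of vertices. -/
def nvx (x : List Bool) : ℕ := side (x.drop (x.length / 2))

/-- The first matrix. -/
def mA (x : List Bool) (i j : ℕ) : Bool := x.getD (i * nvx x + j) false

/-- The second matrix. -/
def mB (x : List Bool) (i j : ℕ) : Bool := x.getD (nvx x * nvx x + (i * nvx x + j)) false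

lemma cf_iff (x : List Bool) : CF x = true ↔ x.length = nvx x * nvx x + nvx x * nvx x ∧
    Wf {i | i < nvx x} (mA x) (mB x) ∧ ∃ p, Real2 {i | i < nvx x} (mA x) (mB x) p := by
  have key : x.length = nvx x * nvx x + nvx x * nvx x →
      x = mat (nvx x) (nvx x) (mA x) ++ mat (nvx x) (nvx x) (mB x) := by
    intro h
    conv_lhs => rw [← List.take_append_drop (nvx x * nvx x) x]
    congr 1
    · refine eq_mat (by simp; omega) fun i hi j hj => ?_
      have : i * nvx x + j < nvx x * nvx x := by nlinarith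
      simp [mA, List.getD_eq_getElem?_getD, List.getElem?_take, this]
    · refine eq_mat (by simp; omega) fun i hi j hj => ?_
      simp [mB, List.getD_eq_getElem?_getD]
  constructor
  · intro h
    have h1 : x.length = nvx x * nvx x + nvx x * nvx x := by
      classical
      unfold CF at h
      rw [decide_eq_true_iff] at h
      obtain ⟨m, G, S, -, hx, -⟩ := h
      have := congrArg List.length hx
      rw [graphCode_eq, graphCode_eq] at this
      simp only [List.length_append, length_mat] at this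
      have h2 : nvx x = m := side_eq (by simp; omega)
      rw [h2, this]
    refine ⟨h1, ?_⟩
    rwa [key h1, cf_mat] at h
  · rintro ⟨h1, h2⟩
    rw [key h1, cf_mat]
    exact h2

/-- The squared distance as a term. -/
def dT (i j : ℕ) : PTerm :=
  .add (.mul (.add (.var (vn i 0)) (.neg (.var (vn j 0)))) (.add (.var (vn i 0)) (.neg (.var (vn j 0)))))
    (.mul (.add (.var (vn i 1)) (.neg (.var (vn j 1)))) (.add (.var (vn i 1)) (.neg (.var (vn j 1)))))

/-- The length condition of one pair. -/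
def lenF (i j : ℕ) (a b : Bool) : Formula :=
  if a = true then (if b = true then .not (.lt .one (dT i j)) else .lt .one (dT i j)) else .lt .zero .one

/-- A linear form evaluated at a point. -/
def lT (c w : ℕ) : PTerm :=
  .add (.mul (.var (vn c 2)) (.var (vn w 0))) (.mul (.var (vn c 3)) (.var (vn w 1)))

/-- The index of a quadruple. -/
def qi (q : (ℕ × ℕ) × ℕ × ℕ) : ℕ := Nat.pair (Nat.pair q.1.1 q.1.2) (Nat.pair q.2.1 q.2.2)

/-- The separation condition of one quadruple. -/
def sepF (q : (ℕ × ℕ) × ℕ × ℕ) (b : Bool) : Formula :=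
  if b = true then
    .and (.and (.lt (lT (qi q) q.1.1) (.var (vn (qi q) 4))) (.lt (lT (qi q) q.1.2) (.var (vn (qi q) 4))))
      (.and (.lt (.var (vn (qi q) 4)) (lT (qi q) q.2.1)) (.lt (.var (vn (qi q) 4)) (lT (qi q) q.2.2)))
  else .lt .zero .one

/-- The quadruples that have to be separated. -/
def need (x : List Bool) (q : (ℕ × ℕ) × ℕ × ℕ) : Bool :=
  decide ((mA x q.1.1 q.1.2 = true ∨ q.1.1 = q.1.2) ∧ (mA x q.2.1 q.2.2 = true ∨ q.2.1 = q.2.2) ∧
    q.1.1 ≠ q.2.1 ∧ q.1.1 ≠ q.2.2 ∧ q.1.2 ≠ q.2.1 ∧ q.1.2 ≠ q.2.2)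

/-- The combinatorial check. -/
def okC (x : List Bool) : Bool :=
  decide (x.length = nvx x * nvx x + nvx x * nvx x) && (pairs (nvx x)).all fun p =>
    decide (mA x p.1 p.1 = false ∧ mA x p.1 p.2 = mA x p.2 p.1 ∧ mB x p.1 p.2 = mB x p.2 p.1 ∧
      (mB x p.1 p.2 = true → mA x p.1 p.2 = true))

/-- All quadruples. -/
def quads (n : ℕ) : List ((ℕ × ℕ) × ℕ × ℕ) := (pairs n).flatMap fun p => (pairs n).map fun q => (p, q)

lemma mem_quads {n : ℕ} {q : (ℕ × ℕ) × ℕ × ℕ} :
    q ∈ quads n ↔ (q.1.1 < n ∧ q.1.2 < n) ∧ q.2.1 < n ∧ q.2.2 < n := by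
  obtain ⟨p, q⟩ := q
  simp [quads, mem_pairs]

lemma okC_iff (x : List Bool) : okC x = true ↔ x.length = nvx x * nvx x + nvx x * nvx x ∧
    Wf {i | i < nvx x} (mA x) (mB x) := by
  simp only [okC, Bool.and_eq_true, decide_eq_true_eq, List.all_eq_true, Wf, mem_pairs, Prod.forall,
    Set.mem_ofPred_eq]
  refine and_congr_right fun _ => ⟨fun h => ⟨fun u hu => (h u u ⟨hu, hu⟩).1,
    fun u hu v hv => (h u v ⟨hu, hv⟩).2⟩, fun h u v huv => ⟨h.1 u huv.1, h.2 u huv.1 v huv.2⟩⟩

/-- The formula of an input. -/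
def wholeF (x : List Bool) : Formula :=
  (quads (nvx x)).foldl (fun acc q => .and acc (sepF q (need x q)))
    ((pairs (nvx x)).foldl (fun acc p => .and acc (lenF p.1 p.2 (mA x p.1 p.2) (mB x p.1 p.2)))
      (if okC x = true then .lt .zero .one else .lt .one .one))

lemma norm_le_one_iff (z w : ℂ) : ‖z - w‖ ≤ 1 ↔
    (z.re + -w.re) * (z.re + -w.re) + (z.im + -w.im) * (z.im + -w.im) ≤ 1 := by
  rw [← sq_le_one_iff₀ (norm_nonneg _), Complex.sq_norm, Complex.normSq_apply]
  simp [sub_eq_add_neg]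

lemma exists_line {a b c d : ℂ} (h : Disjoint (segment ℝ a b) (segment ℝ c d)) :
    ∃ l : ℝ × ℝ × ℝ, (l.1 * a.re + l.2.1 * a.im < l.2.2 ∧ l.1 * b.re + l.2.1 * b.im < l.2.2) ∧
      l.2.2 < l.1 * c.re + l.2.1 * c.im ∧ l.2.2 < l.1 * d.re + l.2.1 * d.im := by
  have hc : ∀ a b : ℂ, IsCompact (segment ℝ a b) := fun a b => by
    rw [segment_eq_image]
    exact isCompact_Icc.image (by fun_prop)
  obtain ⟨f, u, v, h1, h2, h3⟩ := geometric_hahn_banach_compact_closed (convex_segment a b) (hc a b)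
    (convex_segment c d) (hc c d).isClosed h
  have e : ∀ z : ℂ, f z = f 1 * z.re + f Complex.I * z.im := by
    intro z
    conv_lhs => rw [show z = z.re • (1 : ℂ) + z.im • Complex.I by simp]
    rw [map_add, map_smul, map_smul, smul_eq_mul, smul_eq_mul]
    ring
  refine ⟨(f 1, f Complex.I, u), ⟨?_, ?_⟩, ?_, ?_⟩ <;> simp only [← e]
  · exact h1 _ (left_mem_segment _ _ _)
  · exact h1 _ (right_mem_segment _ _ _)
  · exact h2.trans (h3 _ (left_mem_segment _ _ _))
  · exact h2.trans (h3 _ (right_mem_segment _ _ _))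

lemma disjoint_of_line {a b c d : ℂ} {α β γ : ℝ} (h1 : α * a.re + β * a.im < γ)
    (h2 : α * b.re + β * b.im < γ) (h3 : γ < α * c.re + β * c.im) (h4 : γ < α * d.re + β * d.im) :
    Disjoint (segment ℝ a b) (segment ℝ c d) := by
  rw [Set.disjoint_left]
  rintro _ ⟨s, t, hs, ht, hst, rfl⟩ ⟨s', t', hs', ht', hst', e⟩
  have e1 := congrArg Complex.re e
  have e2 := congrArg Complex.im e
  simp only [Complex.add_re, Complex.add_im, Complex.smul_re, Complex.smul_im, smul_eq_mul] at e1 e2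
  have a1 : s * (α * a.re + β * a.im) + t * (α * b.re + β * b.im) < γ :=
    (Convex.combo_le_max _ _ hs ht hst).trans_lt (max_lt h1 h2)
  have a2 : γ < s' * (α * c.re + β * c.im) + t' * (α * d.re + β * d.im) :=
    (lt_min h3 h4).trans_le (Convex.min_le_combo _ _ hs' ht' hst')
  have : s' * (α * c.re + β * c.im) + t' * (α * d.re + β * d.im) =
      s * (α * a.re + β * a.im) + t * (α * b.re + β * b.im) := by
    linear_combination α * e1 + β * e2
  linarith

lemma wholeF_iff (x : List Bool) : CF x = true ↔ ∃ ρ : List Bool → ℝ, (wholeF x).Holds ρ := by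
  rw [cf_iff, ← and_assoc, ← okC_iff]
  unfold wholeF
  simp only [foldl_and_holds]
  constructor
  · rintro ⟨hok, p, hp, hl⟩
    have hline : ∀ c : ℕ, ∃ l : ℝ × ℝ × ℝ, ∀ q ∈ quads (nvx x), qi q = c → need x q = true →
        (l.1 * (p q.1.1).re + l.2.1 * (p q.1.1).im < l.2.2 ∧
          l.1 * (p q.1.2).re + l.2.1 * (p q.1.2).im < l.2.2) ∧
        l.2.2 < l.1 * (p q.2.1).re + l.2.1 * (p q.2.1).im ∧
          l.2.2 < l.1 * (p q.2.2).re + l.2.1 * (p q.2.2).im := by
      intro c
      by_cases h : ∃ q ∈ quads (nvx x), qi q = c ∧ need x q = true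
      · obtain ⟨q, hq, rfl, hn⟩ := h
        obtain ⟨⟨a1, a2⟩, a3, a4⟩ := mem_quads.1 hq
        simp only [need, decide_eq_true_eq] at hn
        obtain ⟨l, hl⟩ := exists_line (hp _ a1 _ a2 _ a3 _ a4 hn.1 hn.2.1 hn.2.2.1 hn.2.2.2.1
          hn.2.2.2.2.1 hn.2.2.2.2.2)
        refine ⟨l, fun q' _ e _ => ?_⟩
        obtain rfl : q' = q := by
          obtain ⟨⟨a, b⟩, c, d⟩ := q
          obtain ⟨⟨a', b'⟩, c', d'⟩ := q'
          simpa [qi, and_assoc] using e
        exact hl
      · exact ⟨0, fun q hq e hn => absurd ⟨q, hq, e, hn⟩ h⟩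
    choose l hl' using hline
    let val : ℕ → ℕ → ℝ := fun i k => if k = 0 then (p i).re else if k = 1 then (p i).im
      else if k = 2 then (l i).1 else if k = 3 then (l i).2.1 else (l i).2.2
    let ρ : List Bool → ℝ := fun name =>
      val (Nat.unpair (name.length - 1)).1 (Nat.unpair (name.length - 1)).2
    have h1 : ∀ i k, ρ (vn i k) = val i k := by intro i k; simp [ρ, vn]
    refine ⟨ρ, ⟨by simp [hok, Formula.Holds, PTerm.eval], fun q hq => ?_⟩, fun q hq => ?_⟩
    · obtain ⟨hi, hj⟩ := mem_pairs.1 hq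
      have h2 := hl _ hi _ hj
      rw [norm_le_one_iff] at h2
      unfold lenF
      split_ifs with e1 e2
      · simpa [Formula.Holds, PTerm.eval, dT, h1, val] using (h2 e1).2 e2
      · simpa [Formula.Holds, PTerm.eval, dT, h1, val] using mt (h2 e1).1 e2
      · simp [Formula.Holds, PTerm.eval]
    · unfold sepF
      split_ifs with e
      · simpa [Formula.Holds, PTerm.eval, lT, h1, val] using hl' _ q hq rfl e
      · simp [Formula.Holds, PTerm.eval]
  · rintro ⟨ρ, ⟨h0, h1⟩, h2⟩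
    split_ifs at h0 with hok
    swap
    · simp [Formula.Holds] at h0
    refine ⟨hok, fun i => ⟨ρ (vn i 0), ρ (vn i 1)⟩,
      fun u hu v hv u' hu' v' hv' a1 a2 n1 n2 n3 n4 => ?_, fun u hu v hv h => ?_⟩
    · have := h2 ((u, v), u', v') (mem_quads.2 ⟨⟨hu, hv⟩, hu', hv'⟩)
      rw [sepF, if_pos (by simp only [need, decide_eq_true_eq]; exact ⟨a1, a2, n1, n2, n3, n4⟩)] at this
      simp only [Formula.Holds, PTerm.eval, lT] at this
      exact disjoint_of_line this.1.1 this.1.2 this.2.1 this.2.2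
    · have := h1 (u, v) (mem_pairs.2 ⟨hu, hv⟩)
      rw [lenF, if_pos h] at this
      rw [norm_le_one_iff]
      split_ifs at this with e <;> simp only [Formula.Holds, PTerm.eval, dT, not_lt] at this
      · exact ⟨fun _ => e, fun _ => this⟩
      · exact ⟨fun h => absurd this (not_lt.2 h), fun h => absurd h e⟩

@[fun_prop] theorem pt_nvx : PT nvx := by unfold nvx; fun_prop
@[fun_prop] theorem pt_mA : PT fun p : List Bool × ℕ × ℕ => mA p.1 p.2.1 p.2.2 := by
  unfold mA; fun_prop
@[fun_prop] theorem pt_mB : PT fun p : List Bool × ℕ × ℕ => mB p.1 p.2.1 p.2.2 := by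
  unfold mB; fun_prop
@[fun_prop] theorem pt_qi : PT qi := by unfold qi; fun_prop
@[fun_prop] theorem pt_quads : PT quads := by unfold quads; fun_prop
set_option synthInstance.maxSize 2048 in
@[fun_prop] theorem pt_need : PT fun p : List Bool × (ℕ × ℕ) × ℕ × ℕ => need p.1 p.2 := by
  unfold need; fun_prop
set_option synthInstance.maxSize 2048 in
@[fun_prop] theorem pt_okC : PT okC := by unfold okC; fun_prop

theorem pt_lenF : PT fun p : ℕ × ℕ × Bool × Bool => (lenF p.1 p.2.1 p.2.2.1 p.2.2.2).tokens := by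
  simp only [lenF, apply_ite Formula.tokens, Formula.tokens, PTerm.tokens, dT]
  fun_prop

theorem pt_sepF : PT fun p : ((ℕ × ℕ) × ℕ × ℕ) × Bool => (sepF p.1 p.2).tokens := by
  simp only [sepF, apply_ite Formula.tokens, Formula.tokens, PTerm.tokens, lT]
  fun_prop

theorem pt_wholeF : PT fun x => (wholeF x).tokens := by
  simp only [wholeF, foldl_and_tokens, apply_ite Formula.tokens, Formula.tokens, PTerm.tokens]
  refine PT.append (PT.append (by fun_prop) (PT.flatMap (PT.append ?_ (PT.const _)) (by fun_prop)))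
    (PT.flatMap (PT.append ?_ (PT.const _)) (by fun_prop))
  · exact pt_lenF.comp (f := fun p : List Bool × ℕ × ℕ =>
      (p.2.1, p.2.2, mA p.1 p.2.1 p.2.2, mB p.1 p.2.1 p.2.2)) (by fun_prop)
  · exact pt_sepF.comp (f := fun p : List Bool × (ℕ × ℕ) × ℕ × ℕ => (p.2, need p.1 p.2)) (by fun_prop)

theorem cf_mem : CF ∈ ExistsR := by
  refine ⟨fun x => unparse (wholeF x).tokens, PT.isPolyTime_bits (pt_unparse.comp pt_wholeF),
    fun x => ?_⟩
  rw [Bool.eq_iff_iff, wholeF_iff, ← etr_code, Formula.code, ← unparse_eq]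

end Pool.Agent.MP_a4408f_lc
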