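import Mathlib
import Pool.Agent.MP_a4408f_lc.Member
import Pool.Agent.MP_a4408f_lc.Alg
import Pool.Agent.MP_a4408f_lc.Comp

/-! Completeness follows from a geometric realisation of the trigonometric tests. -/

namespace Pool.Agent.MP_a4408f_lc

open Pool.Agent.MP_485bb6_lc Pool.Agent.MP_2e8011_lc

theorem complete_of_reduction (g : List BT → List Bool) (hg : PT g)
    (hc : ∀ L, BNear L → CF (g L) = true) (hs : ∀ L, CF (g L) = true → BSat L) :
    N793a5b8e.IsCompleteFor ExistsR CF := by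
  refine ⟨cf_mem, fun L' hL' => reducible_trans hL' ⟨fun x => g (bitsToB x),
    (hg.comp pt_bitsToB).isPolyTime_bits, fun x => ?_⟩⟩
  rw [Bool.eq_iff_iff]
  exact ⟨fun h => hc _ (bnear_of_etr h), fun h => etr_of_bsat (hs _ h)⟩

theorem complete_of_geometry {V : Type} [Enc V] (d : V) (vs : List BT → List V)
    (A B : List BT → V → V → Bool) (hvs : PT vs)
    (hA : PT fun p : List BT × V × V => A p.1 p.2.1 p.2.2)
    (hB : PT fun p : List BT × V × V => B p.1 p.2.1 p.2.2)
    (hnd : ∀ L, (vs L).Nodup) (hW : ∀ L, Wf {v | v ∈ vs L} (A L) (B L))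
    (hc : ∀ L, BNear L → ∃ p, Real2 {v | v ∈ vs L} (A L) (B L) p)
    (hs : ∀ L p, Real2 {v | v ∈ vs L} (A L) (B L) p → BSat L) :
    N793a5b8e.IsCompleteFor ExistsR CF :=
  complete_of_reduction (fun L => bitsG (vs L) d (A L) (B L)) (pt_bitsG hvs d hA hB)
    (fun L h => (cf_bitsG (hnd L) d (hW L)).2 (hc L h))
    (fun L h => by
      obtain ⟨p, hp⟩ := (cf_bitsG (hnd L) d (hW L)).1 h
      exact hs L p hp)

end Pool.Agent.MP_a4408f_lc
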