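import Mathlib
import Pool.Agent.MP_a4408f_lc.GeoE
import Pool.Agent.MP_a4408f_lc.Iface

/-! Rigidity of crossing-free drawings of a triangulated region. -/

namespace Pool.Agent.MP_a4408f_lc

open Filter Topology

lemma seg_meet {a b c d : ℂ} (h1 : ar a b c ≤ 0) (h2 : 0 ≤ ar a b d) (h3 : ar c d b ≤ 0)
    (h4 : 0 ≤ ar c d a) (h5 : ar a b c < ar a b d) :
    ∃ x ∈ segment ℝ a b, x ∈ segment ℝ c d := by
  have e : ar c d a - ar c d b = ar a b d - ar a b c := by simp [ar, cr]; ring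
  have hp : 0 < ar a b d - ar a b c := by linarith
  refine ⟨a + (ar c d a / (ar a b d - ar a b c) : ℝ) * (b - a),
    mem_seg.2 ⟨_, by positivity, by rw [div_le_one hp]; linarith, rfl⟩,
    mem_seg.2 ⟨-ar a b c / (ar a b d - ar a b c), div_nonneg (by linarith) hp.le,
      by rw [div_le_one hp]; linarith, ?_⟩⟩
  apply Complex.ext
  · simp only [Complex.add_re, Complex.re_ofReal_mul]
    field_simp
    simp [ar, cr]; ring
  · simp only [Complex.add_im, Complex.im_ofReal_mul]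
    field_simp
    simp [ar, cr]; ring

lemma ins_lt {a b c x : ℂ} {M : ℝ} (h : Ins a b c x) (ha : a.re ≤ M) (hb : b.re ≤ M)
    (hc : c.re ≤ M) : x.re < M := by
  by_contra hx
  push Not at hx
  obtain ⟨h1, h2, h3⟩ := h
  have hi : (a.re - x.re) * ar b c x + (b.re - x.re) * ar c a x + (c.re - x.re) * ar a b x = 0 := by
    simp [ar, cr]; ring
  have e1 := mul_nonneg (sub_nonneg.2 (ha.trans hx)) h2.le
  have e2 := mul_nonneg (sub_nonneg.2 (hb.trans hx)) h3.le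
  have e3 := mul_nonneg (sub_nonneg.2 (hc.trans hx)) h1.le
  have f1 : x.re - a.re = 0 :=
    (mul_eq_zero.1 (show (x.re - a.re) * ar b c x = 0 by linarith)).resolve_right h2.ne'
  have f2 : x.re - b.re = 0 :=
    (mul_eq_zero.1 (show (x.re - b.re) * ar c a x = 0 by linarith)).resolve_right h3.ne'
  have : ar a b x = 0 := by
    simp only [ar, cr, Complex.sub_re, Complex.sub_im]
    rw [f1, show b.re - a.re = 0 by linarith]; ring
  linarith

/-- Strictly inside a triangle of either orientation. -/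
def InsU (a b c x : ℂ) : Prop := Ins a b c x ∨ Ins a c b x

lemma InsU.rot {a b c x : ℂ} (h : InsU a b c x) : InsU b c a x :=
  h.imp Ins.rot fun h => h.rot.rot

variable {V I : Type}

lemma Cn.insU {t : V × V × V} {u v w : V} (h : Cn t u v w) (p : V → ℂ) (x : ℂ) :
    onT p InsU t x ↔ InsU (p u) (p v) (p w) x := by
  rcases h with rfl | rfl | rfl
  · rfl
  · exact ⟨fun h => h.rot.rot, fun h => h.rot⟩
  · exact ⟨fun h => h.rot, fun h => h.rot.rot⟩

/-- A plane drawing of a graph. -/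
structure PG (Vs : Set V) (A : V → V → Prop) (p : V → ℂ) : Prop where
  sep : Sep Vs A p
  mem : ∀ u v, A u v → u ∈ Vs
  symm : ∀ u v, A u v → A v u
  irr : ∀ u v, A u v → u ≠ v

variable {Vs : Set V} {A : V → V → Prop} {p : V → ℂ}

lemma PG.nx (h : PG Vs A p) {a b c d : V} (h1 : A a b) (h2 : A c d) (n1 : a ≠ c) (n2 : a ≠ d)
    (n3 : b ≠ c) (n4 : b ≠ d) {x : ℂ} (x1 : x ∈ segment ℝ (p a) (p b))
    (x2 : x ∈ segment ℝ (p c) (p d)) : False :=
  Set.disjoint_left.1 (h.sep a (h.mem _ _ h1) b (h.mem _ _ (h.symm _ _ h1)) c (h.mem _ _ h2) d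
    (h.mem _ _ (h.symm _ _ h2)) (Or.inl h1) (Or.inl h2) n1 n2 n3 n4) x1 x2

lemma PG.nv (h : PG Vs A p) {a b w : V} (h1 : A a b) (hw : w ∈ Vs) (n1 : a ≠ w) (n2 : b ≠ w)
    (x1 : p w ∈ segment ℝ (p a) (p b)) : False :=
  Set.disjoint_left.1 (h.sep a (h.mem _ _ h1) b (h.mem _ _ (h.symm _ _ h1)) w hw w hw
    (Or.inl h1) (Or.inr rfl) n1 n1 n2 n2) x1 (left_mem_segment _ _ _)

lemma PG.ne (h : PG Vs A p) {a b : V} (h1 : A a b) : p a ≠ p b := fun e =>
  Set.disjoint_left.1 (h.sep a (h.mem _ _ h1) a (h.mem _ _ h1) b (h.mem _ _ (h.symm _ _ h1)) b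
    (h.mem _ _ (h.symm _ _ h1)) (Or.inr rfl) (Or.inr rfl) (h.irr _ _ h1) (h.irr _ _ h1)
    (h.irr _ _ h1) (h.irr _ _ h1)) (left_mem_segment _ _ _) (e ▸ left_mem_segment _ _ _)

lemma collinear_cases {a b c : ℂ} (hab : a ≠ b) (h : ar a b c = 0) :
    a ∈ segment ℝ c b ∨ c ∈ segment ℝ a b ∨ b ∈ segment ℝ a c := by
  have hn : 0 < (b - a).re ^ 2 + (b - a).im ^ 2 := by
    have := Complex.normSq_pos.2 (sub_ne_zero.2 hab.symm)
    rw [Complex.normSq_apply] at this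
    nlinarith
  obtain ⟨t, ht⟩ : ∃ t : ℝ, c = a + t * (b - a) := by
    refine ⟨((c - a).re * (b - a).re + (c - a).im * (b - a).im) / ((b - a).re ^ 2 + (b - a).im ^ 2), ?_⟩
    simp only [ar, cr] at h
    apply Complex.ext
    · simp only [Complex.add_re, Complex.re_ofReal_mul]
      field_simp
      simp only [Complex.sub_re, Complex.sub_im] at h ⊢
      linear_combination (a.im - b.im) * h
    · simp only [Complex.add_im, Complex.im_ofReal_mul]
      field_simp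
      simp only [Complex.sub_re, Complex.sub_im] at h ⊢
      linear_combination (b.re - a.re) * h
  rcases lt_or_ge t 0 with h0 | h0
  · left
    have h1 : 0 < 1 - t := by linarith
    refine mem_seg.2 ⟨-t / (1 - t), div_nonneg (by linarith) h1.le, by rw [div_le_one h1]; linarith, ?_⟩
    have h2 : (1 - (t : ℂ)) ≠ 0 := by exact_mod_cast h1.ne'
    rw [ht]; push_cast; field_simp; ring
  rcases le_or_gt t 1 with h1 | h1
  · exact Or.inr (Or.inl (mem_seg.2 ⟨t, h0, h1, ht⟩))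
  · right; right
    have h2 : (t : ℂ) ≠ 0 := by exact_mod_cast (show t ≠ 0 by linarith)
    refine mem_seg.2 ⟨1 / t, by positivity, by rw [div_le_one (by linarith)]; linarith, ?_⟩
    rw [ht]; push_cast; field_simp; ring

lemma PG.nondeg (h : PG Vs A p) {a b c : V} (h1 : A a b) (h2 : A b c) (h3 : A c a) :
    ar (p a) (p b) (p c) ≠ 0 := by
  intro e
  have n1 := h.irr _ _ h1
  have n2 := h.irr _ _ h2
  have n3 := h.irr _ _ h3
  rcases collinear_cases (h.ne h1) e with x | x | x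
  · exact h.nv (h.symm _ _ h2) (h.mem _ _ h1) n3 n1.symm x
  · exact h.nv h1 (h.mem _ _ h3) n3.symm n2 x
  · exact h.nv (h.symm _ _ h3) (h.mem _ _ h2) n1 n2.symm x

lemma PG.prop_aux (h : PG Vs A p) {a b c w w' : V} (h1 : A a b) (h2 : A b c) (h3 : A c a)
    (hw : A w w') (n : w ≠ a ∧ w ≠ b ∧ w ≠ c) (n' : w' ≠ a ∧ w' ≠ b ∧ w' ≠ c)
    (hi : Ins (p a) (p b) (p c) (p w)) : Ins (p a) (p b) (p c) (p w') := by
  by_contra hcon
  let x : ℝ → ℂ := fun t => p w + t * (p w' - p w)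
  let g : ℝ → ℝ := fun t => min (ar (p a) (p b) (x t)) (min (ar (p b) (p c) (x t)) (ar (p c) (p a) (x t)))
  have hg : Continuous g := by simp only [g, x]; fun_prop
  have g0 : 0 ≤ g 0 := by simpa [g, x] using ⟨hi.1.le, hi.2.1.le, hi.2.2.le⟩
  have g1 : g 1 ≤ 0 := by
    by_contra h4
    apply hcon
    simpa [g, x, Ins] using h4
  obtain ⟨t, ht, h0⟩ := intermediate_value_Icc' zero_le_one hg.continuousOn ⟨g1, g0⟩
  have hx : x t ∈ segment ℝ (p w) (p w') := mem_seg.2 ⟨t, ht.1, ht.2, rfl⟩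
  have hc : Cl (p a) (p b) (p c) (x t) := by
    have : 0 ≤ g t := h0.ge
    simpa only [g, le_min_iff, Cl] using this
  have hp := hi.pos
  have h5 : g t ≤ 0 := h0.le
  simp only [g, min_le_iff] at h5
  rcases h5 with h5 | h5 | h5
  · exact h.nx hw h1 n.1 n.2.1 n'.1 n'.2.1 hx (seg_of_cl hp hc (le_antisymm h5 hc.1))
  · exact h.nx hw h2 n.2.1 n.2.2 n'.2.1 n'.2.2 hx
      (seg_of_cl (by rwa [ar_rot]) hc.rot (le_antisymm h5 hc.2.1))
  · exact h.nx hw h3 n.2.2 n.1 n'.2.2 n'.1 hx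
      (seg_of_cl (by rwa [← ar_rot]) hc.rot.rot (le_antisymm h5 hc.2.2))

lemma PG.prop (h : PG Vs A p) {a b c w w' : V} (h1 : A a b) (h2 : A b c) (h3 : A c a)
    (hw : A w w') (n : w ≠ a ∧ w ≠ b ∧ w ≠ c) (n' : w' ≠ a ∧ w' ≠ b ∧ w' ≠ c)
    (hi : InsU (p a) (p b) (p c) (p w)) : InsU (p a) (p b) (p c) (p w') :=
  hi.imp (h.prop_aux h1 h2 h3 hw n n') (h.prop_aux (h.symm _ _ h3) (h.symm _ _ h2) (h.symm _ _ h1) hw
    ⟨n.1, n.2.2, n.2.1⟩ ⟨n'.1, n'.2.2, n'.2.1⟩)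

lemma PG.fold_aux (h : PG Vs A p) {u v a b : V} (h1 : A u v) (h2 : A v a) (h3 : A a u) (h4 : A u b)
    (h5 : A b v) (n : a ≠ b) (p1 : 0 < ar (p u) (p v) (p a)) (p2 : 0 < ar (p u) (p v) (p b)) :
    Ins (p u) (p v) (p a) (p b) ∨ Ins (p u) (p v) (p b) (p a) := by
  have n1 := h.irr _ _ h1
  have n2 := h.irr _ _ h2
  have n3 := h.irr _ _ h3
  have n4 := h.irr _ _ h4
  have n5 := h.irr _ _ h5
  have c1 : 0 ≤ ar (p u) (p a) (p b) → 0 ≤ ar (p v) (p a) (p b) → False := fun s1 s2 => by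
    obtain ⟨x, x1, x2⟩ := seg_meet (a := p u) (b := p a) (c := p v) (d := p b)
      (by rw [ar_swap']; linarith) s1 (by rw [ar_swap']; linarith)
      (by rw [ar_rot]; exact p2.le) (by rw [ar_swap']; linarith)
    exact h.nx (h.symm _ _ h3) (h.symm _ _ h5) n1 n4 n2.symm n x1 x2
  have c2 : ar (p u) (p a) (p b) ≤ 0 → ar (p v) (p a) (p b) ≤ 0 → False := fun s1 s2 => by
    obtain ⟨x, x1, x2⟩ := seg_meet (a := p v) (b := p a) (c := p b) (d := p u)
      s2 (by rw [ar_rot]; exact p1.le) (by rw [← ar_rot]; exact s1)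
      (by rw [← ar_rot]; exact p2.le) (by rw [ar_rot (p u)]; linarith)
    exact h.nx h2 (h.symm _ _ h4) n5.symm n1.symm n n3 x1 x2
  rcases lt_trichotomy (ar (p u) (p a) (p b)) 0 with s1 | s1 | s1
  · have s2 : 0 < ar (p v) (p a) (p b) := lt_of_not_ge fun s2 => c2 s1.le s2
    exact Or.inl ⟨p2, s2, by rw [ar_swap]; linarith⟩
  · rcases le_total 0 (ar (p v) (p a) (p b)) with s2 | s2
    · exact (c1 s1.ge s2).elim
    · exact (c2 s1.le s2).elim
  · have s2 : ar (p v) (p a) (p b) < 0 := lt_of_not_ge fun s2 => c1 s1.le s2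
    exact Or.inr ⟨p1, by rw [ar_swap']; linarith, by rw [← ar_rot]; exact s1⟩

lemma PG.fold (h : PG Vs A p) {u v a b : V} (h1 : A u v) (h2 : A v a) (h3 : A a u) (h4 : A u b)
    (h5 : A b v) (n : a ≠ b) (b1 : ¬ InsU (p u) (p v) (p a) (p b))
    (b2 : ¬ InsU (p v) (p u) (p b) (p a)) : 0 < ar (p u) (p v) (p a) ↔ 0 < ar (p v) (p u) (p b) := by
  have e1 := h.nondeg h1 h2 h3
  have e2 := h.nondeg (h.symm _ _ h1) h4 h5
  constructor
  · intro p1
    by_contra p2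
    have p3 : 0 < ar (p u) (p v) (p b) := by
      rw [ar_swap]; have := lt_of_le_of_ne (not_lt.1 p2) e2; linarith
    rcases h.fold_aux h1 h2 h3 h4 h5 n p1 p3 with x | x
    · exact b1 (Or.inl x)
    · exact b2 (Or.inr x.rot)
  · intro p2
    by_contra p1
    have p3 : 0 < ar (p v) (p u) (p a) := by
      rw [ar_swap]; have := lt_of_le_of_ne (not_lt.1 p1) e1; linarith
    rcases h.fold_aux (h.symm _ _ h1) h4 h5 h2 h3 n.symm p2 p3 with x | x
    · exact b2 (Or.inl x)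
    · exact b1 (Or.inr x.rot)

lemma PG.cone (h : PG Vs A p) {w u v z : V} (h1 : A w u) (h2 : A u v) (h4 : A w z)
    (n1 : z ≠ u) (n2 : z ≠ v) (n3 : w ≠ v) (p1 : 0 < ar (p w) (p u) (p v))
    (p2 : 0 ≤ ar (p w) (p u) (p z)) (p3 : 0 < ar (p v) (p w) (p z)) :
    Ins (p w) (p u) (p v) (p z) := by
  rcases le_or_gt (ar (p u) (p v) (p z)) 0 with s | s
  · exfalso
    obtain ⟨x, x1, x2⟩ := seg_meet (a := p u) (b := p v) (c := p z) (d := p w)
      s (by rw [ar_rot]; exact p1.le) (by rw [ar_swap, ar_rot (p v)]; linarith)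
      (by rw [← ar_rot]; exact p2) (by rw [ar_rot (p w)]; linarith)
    exact h.nx h2 (h.symm _ _ h4) n1.symm (h.irr _ _ h1).symm n2.symm n3.symm x1 x2
  · rcases p2.eq_or_lt with e | e
    · exact (h.nv h1 (h.mem _ _ (h.symm _ _ h4)) (h.irr _ _ h4) n1.symm
        (seg_of_cl p1 ⟨p2, s.le, p3.le⟩ e.symm)).elim
    · exact ⟨e, s, p3⟩

/-- The triangle contains a vertex. -/
def Bad (Vs : Set V) (p : V → ℂ) (t : V × V × V) : Prop := ∃ w ∈ Vs, ¬ Vt t w ∧ onT p InsU t (p w)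

variable {S G : Finset I} {T : I → V × V × V} {Q : V → ℂ}

lemma ad_tri {i : I} (hi : i ∈ G) {u v w : V} (h : Cn (T i) u v w) :
    Ad G T u v ∧ Ad G T v w ∧ Ad G T w u :=
  ⟨⟨i, hi, w, Or.inl h⟩, ⟨i, hi, u, Or.inl h.rot⟩, ⟨i, hi, v, Or.inl h.rot.rot⟩⟩

theorem PG.escape (h : PG Vs (Ad G T) p) (hQ : Emb S T Q) (hG : G ⊆ S) (hfin : Vs.Finite)
    (hF : ∀ w ∈ Vs, Full S T w) {Fr : V → Prop} (hFr : ∀ w ∈ Vs, Fr w ∨ Full G T w)
    (hcon : ∀ R : V → Prop, (∀ u v, Ad G T u v → Fr u → Fr v → R u → R v) →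
      ∀ u ∈ Vs, ∀ v ∈ Vs, Fr u → Fr v → R u → R v)
    {i : I} (hi : i ∈ G) (hT : ∀ w, Fr w → ¬ Vt (T i) w) (hb : Bad Vs p (T i)) :
    ∀ w ∈ Vs, ¬ Vt (T i) w → onT p InsU (T i) (p w) := by
  obtain ⟨a1, a2, a3⟩ := ad_tri hi (cn_self (T i))
  have step : ∀ u v, Ad G T u v → ¬ Vt (T i) u → ¬ Vt (T i) v → onT p InsU (T i) (p u) →
      onT p InsU (T i) (p v) := fun u v huv hu hv =>
    h.prop a1 a2 a3 huv (by simpa [Vt, not_or] using hu) (by simpa [Vt, not_or] using hv)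
  have key : ∀ w ∈ Vs, ¬ Vt (T i) w → ∃ f ∈ Vs, Fr f ∧
      (onT p InsU (T i) (p w) ↔ onT p InsU (T i) (p f)) := by
    intro w hw hv
    have h1 : ¬ onT Q Cl (T i) (Q w) := fun e => hv (hQ.vertex (hF w hw) (hG hi) e)
    obtain ⟨a, b, c, hc, h2⟩ : ∃ a b c, Cn (T i) a b c ∧ ar (Q a) (Q b) (Q w) < 0 := by
      simp only [onT, Cl, not_and_or, not_le] at h1
      rcases h1 with e | e | e
      exacts [⟨_, _, _, cn_self _, e⟩, ⟨_, _, _, (cn_self _).rot, e⟩, ⟨_, _, _, (cn_self _).rot.rot, e⟩]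
    have hp := hQ.pos i (hG hi)
    rw [hc.ar] at hp
    have h3 : ∀ v, ar (Q a) (Q b) (Q v) < 0 → ¬ Vt (T i) v := fun v e hv => by
      rcases (hc.vt v).1 hv with rfl | rfl | rfl
      · simp at e
      · simp at e
      · linarith
    obtain ⟨v, ⟨hv1, hv2, hv3⟩, hmin⟩ := Set.exists_min_image
      (Vs ∩ {v | ar (Q a) (Q b) (Q v) < 0 ∧ (onT p InsU (T i) (p w) ↔ onT p InsU (T i) (p v))})
      (fun v => ar (Q a) (Q b) (Q v)) (hfin.inter_of_left _) ⟨w, hw, h2, Iff.rfl⟩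
    refine ⟨v, hv1, ?_, hv3⟩
    by_contra hf
    obtain ⟨k, hk, u1, u2, hc2, e1, e2⟩ := cone_cover (p := Q) (fun j hj => hQ.pos j (hG hj))
      ((hFr v hv1).resolve_left hf) (Q v - Complex.I * (Q b - Q a))
    have e3 := hQ.pos k (hG hk)
    rw [hc2.ar] at e3
    obtain ⟨b1, -, b3⟩ := ad_tri hk hc2
    have nb : ∀ u, Ad G T v u → ar (Q a) (Q b) (Q v) ≤ ar (Q a) (Q b) (Q u) := fun u hu => by
      by_contra hlt
      push Not at hlt
      have h5 := h3 u (hlt.trans hv2)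
      have h6 := h3 v hv2
      exact absurd (hmin u ⟨h.mem _ _ hu.symm, hlt.trans hv2,
        hv3.trans ⟨step v u hu h6 h5, step u v hu.symm h5 h6⟩⟩) (not_le.2 hlt)
    have f1 := nb u1 b1
    have f2 := nb u2 b3.symm
    have hn : 0 < (Q b - Q a).re ^ 2 + (Q b - Q a).im ^ 2 := by
      have := Complex.normSq_pos.2 (sub_ne_zero.2 (hQ.ne (hG hi) hc).symm)
      rw [Complex.normSq_apply] at this
      nlinarith
    have id : -(ar (Q v) (Q u1) (Q u2) * ((Q b - Q a).re ^ 2 + (Q b - Q a).im ^ 2)) =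
        ar (Q u2) (Q v) (Q v - Complex.I * (Q b - Q a)) *
          (ar (Q a) (Q b) (Q u1) - ar (Q a) (Q b) (Q v)) +
        ar (Q v) (Q u1) (Q v - Complex.I * (Q b - Q a)) *
          (ar (Q a) (Q b) (Q u2) - ar (Q a) (Q b) (Q v)) := by
      simp [ar, cr]; ring
    nlinarith [mul_pos e3 hn, mul_nonneg e2 (sub_nonneg.2 f1), mul_nonneg e1 (sub_nonneg.2 f2)]
  obtain ⟨w0, hw0, hv0, hi0⟩ := hb
  intro w hw hv
  obtain ⟨f0, m0, r0, e0⟩ := key w0 hw0 hv0
  obtain ⟨f1, m1, r1, e1⟩ := key w hw hv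
  exact e1.2 (hcon (fun v => onT p InsU (T i) (p v))
    (fun u v huv hu hv => step u v huv (hT u hu) (hT v hv)) f0 m0 f1 m1 r0 r1 (e0.1 hi0))

lemma mutual_false {t t' : V × V × V} (h1 : ∀ w, Vt t' w → onT p InsU t (p w))
    (h2 : ∀ w, Vt t w → onT p InsU t' (p w)) : False := by
  have k : ∀ {a b c x : ℂ} {M : ℝ}, InsU a b c x → a.re ≤ M → b.re ≤ M → c.re ≤ M → x.re < M :=
    fun h ha hb hc => h.elim (fun h => ins_lt h ha hb hc) fun h => ins_lt h ha hc hb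
  obtain ⟨w, hw, hmax⟩ := Set.exists_max_image {t.1, t.2.1, t.2.2, t'.1, t'.2.1, t'.2.2}
    (fun w => (p w).re) (by simp) ⟨t.1, by simp⟩
  have hw' : Vt t w ∨ Vt t' w := by simpa [Vt, or_assoc] using hw
  rcases hw' with e | e
  · exact lt_irrefl _ (k (h2 w e) (hmax _ (by simp)) (hmax _ (by simp)) (hmax _ (by simp)))
  · exact lt_irrefl _ (k (h1 w e) (hmax _ (by simp)) (hmax _ (by simp)) (hmax _ (by simp)))

end Pool.Agent.MP_a4408f_lc
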