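import Mathlib
import Pool.Agent.MP_a4408f_lc.GeoS
import Pool.Agent.MP_a4408f_lc.BDefs

/-! Angles: vertex sums, label lemmas and the gadget inequality. -/

namespace Pool.Agent.MP_a4408f_lc

open Real

/-- The angle at the first point. -/
noncomputable def ang (a b c : ℂ) : ℝ := EuclideanGeometry.angle b a c

lemma ang_comm (a b c : ℂ) : ang a c b = ang a b c := EuclideanGeometry.angle_comm _ _ _

lemma ang_nonneg (a b c : ℂ) : 0 ≤ ang a b c := EuclideanGeometry.angle_nonneg _ _ _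
lemma ang_le_pi (a b c : ℂ) : ang a b c ≤ π := EuclideanGeometry.angle_le_pi _ _ _

lemma ang_sum {a b : ℂ} (c : ℂ) (h : a ≠ b) : ang a b c + ang b c a + ang c a b = π := by
  have := EuclideanGeometry.angle_add_angle_add_angle_eq_pi c h
  unfold ang
  linarith [EuclideanGeometry.angle_comm c b a, EuclideanGeometry.angle_comm a c b,
    EuclideanGeometry.angle_comm a b c, EuclideanGeometry.angle_comm b c a]

lemma ne_of_ar {a b c : ℂ} (h : ar a b c ≠ 0) : a ≠ b ∧ b ≠ c ∧ c ≠ a := by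
  refine ⟨?_, ?_, ?_⟩ <;> rintro rfl <;> simp at h

lemma ang_arg {a b c : ℂ} (h : 0 < ar a b c) :
    ang a b c = ((c - a) / (b - a)).arg ∧ 0 < ang a b c ∧ ang a b c < π := by
  obtain ⟨n1, -, n3⟩ := ne_of_ar h.ne'
  have hb : b - a ≠ 0 := sub_ne_zero.2 n1.symm
  have hc : c - a ≠ 0 := sub_ne_zero.2 n3
  have him : 0 < ((c - a) / (b - a)).im := by
    rw [Complex.div_im, ← sub_div]
    refine div_pos ?_ (Complex.normSq_pos.2 hb)
    simp only [ar, cr] at h
    linarith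
  have e : ang a b c = ((c - a) / (b - a)).arg := by
    rw [← ang_comm]
    unfold ang EuclideanGeometry.angle
    rw [vsub_eq_sub, vsub_eq_sub, Complex.angle_eq_abs_arg hc hb,
      abs_of_nonneg (Complex.arg_nonneg_iff.2 him.le)]
  refine ⟨e, ?_, ?_⟩ <;> rw [e]
  · refine lt_of_le_of_ne (Complex.arg_nonneg_iff.2 him.le) fun h0 => ?_
    exact him.ne' (Complex.arg_eq_zero_iff.1 h0.symm).2
  · exact Complex.arg_lt_pi_iff.2 (Or.inr him.ne')

lemma ang_cos (a b c : ℂ) : ‖b - c‖ ^ 2 =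
    ‖a - b‖ ^ 2 + ‖a - c‖ ^ 2 - 2 * ‖a - b‖ * ‖a - c‖ * cos (ang a b c) := by
  have := EuclideanGeometry.law_cos b a c
  simp only [dist_eq_norm] at this
  rw [norm_sub_rev a b, norm_sub_rev a c]
  unfold ang
  linarith

lemma ang_lt_of_cos {a b c a' b' c' : ℂ} (h : cos (ang a' b' c') < cos (ang a b c)) :
    ang a b c < ang a' b' c' := by
  by_contra h1
  exact absurd (cos_le_cos_of_nonneg_of_le_pi (ang_nonneg _ _ _) (ang_le_pi _ _ _) (not_lt.1 h1))
    (not_le.2 h)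

lemma angT2 {x y z : ℂ} (h : ar x y z ≠ 0) (h1 : ‖y - z‖ ≤ 1) (h2 : 1 < ‖x - z‖) :
    ang x y z < ang y x z := by
  have hc : ¬ Collinear ℝ {z, y, x} := by
    intro hc
    obtain ⟨p0, v, hv⟩ := (collinear_iff_exists_forall_eq_smul_vadd _).1 hc
    obtain ⟨r1, e1⟩ := hv x (by simp)
    obtain ⟨r2, e2⟩ := hv y (by simp)
    obtain ⟨r3, e3⟩ := hv z (by simp)
    apply h
    rw [e1, e2, e3]
    simp [ar, cr]; ring
  have := (EuclideanGeometry.angle_lt_iff_dist_lt hc).2 (by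
    rw [dist_eq_norm, dist_eq_norm, norm_sub_rev z y, norm_sub_rev z x]; linarith)
  rwa [← ang_comm x, ← ang_comm y]

lemma angT3 {x y z x' y' z' : ℂ} (h : ar x y z ≠ 0) (h' : ar x' y' z' ≠ 0)
    (e : ‖x' - y'‖ = ‖x - y‖) (h0 : ‖x - y‖ ≤ 1) (h1 : 1 < ‖x - z‖) (h2 : ‖y - z‖ ≤ 1)
    (h3 : ‖x' - z'‖ ≤ 1) (h4 : 1 < ‖y' - z'‖) : ang x y z < ang x' y' z' := by
  refine ang_lt_of_cos (lt_trans (b := ‖x - y‖ / 2) ?_ ?_)
  · have k := ang_cos x' y' z'
    have t0 : 0 < ‖x - y‖ := norm_pos_iff.2 (sub_ne_zero.2 (ne_of_ar h).1)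
    have b0 : 0 < ‖x' - z'‖ := norm_pos_iff.2 (sub_ne_zero.2 (ne_of_ar h').2.2.symm)
    rw [e] at k
    by_contra hc
    push Not at hc
    have k1 := mul_le_mul_of_nonneg_left hc (show 0 ≤ 2 * ‖x - y‖ * ‖x' - z'‖ by positivity)
    have k2 : ‖x - y‖ ^ 2 ≤ 1 := by nlinarith
    nlinarith [mul_nonneg (sub_nonneg.2 h3) (show 0 ≤ 1 + ‖x' - z'‖ - ‖x - y‖ ^ 2 by linarith)]
  · have k := ang_cos x y z
    have t0 : 0 < ‖x - y‖ := norm_pos_iff.2 (sub_ne_zero.2 (ne_of_ar h).1)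
    by_contra hc
    push Not at hc
    have k1 := mul_le_mul_of_nonneg_left hc (show 0 ≤ 2 * ‖x - y‖ * ‖x - z‖ by positivity)
    have k2 : ‖x - y‖ ^ 2 ≤ 1 := by nlinarith
    have k3 : ‖y - z‖ ^ 2 ≤ 1 := by nlinarith [norm_nonneg (y - z)]
    nlinarith [mul_pos (sub_pos.2 h1) (show 0 < 1 + ‖x - z‖ - ‖x - y‖ ^ 2 by linarith)]

lemma ang_wrap {a b c : ℂ} (h : 0 < ar a b c) : ang a b c =
    (c - a).arg - (b - a).arg + if (c - a).arg < (b - a).arg then 2 * π else 0 := by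
  obtain ⟨n1, -, n3⟩ := ne_of_ar h.ne'
  obtain ⟨e, h0, h1⟩ := ang_arg h
  have h2 := Complex.arg_div_coe_angle (sub_ne_zero.2 n3) (sub_ne_zero.2 n1.symm)
  rw [← e, ← Real.Angle.coe_sub, Real.Angle.angle_eq_iff_two_pi_dvd_sub] at h2
  obtain ⟨k, hk⟩ := h2
  have a1 := Complex.neg_pi_lt_arg (c - a)
  have a2 := Complex.neg_pi_lt_arg (b - a)
  have a3 := Complex.arg_le_pi (c - a)
  have a4 := Complex.arg_le_pi (b - a)
  have hp := pi_pos
  split_ifs with hl
  · have k1 : (0 : ℝ) < k := by nlinarith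
    have k2 : (k : ℝ) < 2 := by nlinarith
    have k3 : k = 1 := by
      have : (0 : ℤ) < k := by exact_mod_cast k1
      have : k < (2 : ℤ) := by exact_mod_cast k2
      omega
    rw [k3] at hk; push_cast at hk; linarith
  · push Not at hl
    have k1 : (-1 : ℝ) < k := by nlinarith
    have k2 : (k : ℝ) < 1 := by nlinarith
    have k3 : k = 0 := by
      have : (-1 : ℤ) < k := by exact_mod_cast k1
      have : k < (1 : ℤ) := by exact_mod_cast k2
      omega
    rw [k3] at hk; push_cast at hk; linarith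

lemma cr_arg (x y : ℂ) : cr x y = ‖x‖ * ‖y‖ * sin (y.arg - x.arg) := by
  have hx := Complex.norm_mul_cos_arg x
  have hx' := Complex.norm_mul_sin_arg x
  have hy := Complex.norm_mul_cos_arg y
  have hy' := Complex.norm_mul_sin_arg y
  rw [cr, sin_sub, ← hx, ← hx', ← hy, ← hy']
  ring

section
variable {V I : Type} [DecidableEq V]

/-- The angle of a triangle at a vertex. -/
noncomputable def angAt (p : V → ℂ) (w : V) (t : V × V × V) : ℝ :=
  (if t.1 = w then ang (p t.1) (p t.2.1) (p t.2.2) else 0) +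
    (if t.2.1 = w then ang (p t.2.1) (p t.2.2) (p t.1) else 0) +
    (if t.2.2 = w then ang (p t.2.2) (p t.1) (p t.2.1) else 0)

/-- The antisymmetric function used for the angle sum. -/
noncomputable def fW (p : V → ℂ) (w u v : V) : ℝ :=
  (if u = w then (p v - p w).arg else 0) - (if v = w then (p u - p w).arg else 0)

lemma fW_anti (p : V → ℂ) (w u v : V) : fW p w v u = -fW p w u v := by simp [fW]

variable {Vs : Set V} {p Q : V → ℂ} {S G R : Finset I} {T : I → V × V × V}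

theorem PG.vsum (h : PG Vs (Ad G T) p) (hQ : Emb S T Q) (hG : G ⊆ S) (hR : R ⊆ G)
    (hF : ∀ w ∈ Vs, Full S T w) (pos : ∀ i ∈ R, 0 < onT p ar (T i))
    (nb : ∀ i ∈ R, ¬ Bad Vs p (T i)) {w : V} (hw : ∃ i ∈ R, Vt (T i) w)
    (tel : ∑ i ∈ R, bsum (fW p w) (T i) = 0) : ∑ i ∈ R, angAt p w (T i) = 2 * π := by
  classical
  let K : I → Prop := fun i => ∃ u v, Cn (T i) w u v ∧ (p v - p w).arg < (p u - p w).arg
  have cn : ∀ i ∈ R, ∀ u v, Cn (T i) w u v → angAt p w (T i) = ang (p w) (p u) (p v) ∧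
      bsum (fW p w) (T i) = (p u - p w).arg - (p v - p w).arg ∧
      (K i ↔ (p v - p w).arg < (p u - p w).arg) := by
    intro i hi u v hc
    have h1 := pos i hi
    rw [hc.ar] at h1
    obtain ⟨n1, n2, n3⟩ := ne_of_ar h1.ne'
    have m1 : u ≠ w := fun e => n1 (by rw [e])
    have m3 : v ≠ w := fun e => n3 (by rw [e])
    refine ⟨?_, ?_, fun ⟨u', v', hc', hl⟩ => ?_, fun hl => ⟨u, v, hc, hl⟩⟩
    · rcases hc with e | e | e <;> simp [angAt, e, m1, m3]
    · rcases hc with e | e | e <;> simp [bsum, fW, e, m1, m3] <;> ring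
    · have : u' = u ∧ v' = v := by
        rcases hc with e | e | e <;> rcases hc' with e' | e' | e' <;> rw [e] at e' <;>
          simp only [Prod.mk.injEq] at e' <;> obtain ⟨e1, e2, e3⟩ := e' <;> simp_all
      rwa [this.1, this.2] at hl
  have e1 : ∀ i ∈ R, angAt p w (T i) + bsum (fW p w) (T i) = if K i then 2 * π else 0 := by
    intro i hi
    by_cases hv : Vt (T i) w
    · obtain ⟨u, v, hc⟩ := hv.cn
      obtain ⟨c1, c2, c3⟩ := cn i hi u v hc
      have h1 := pos i hi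
      rw [hc.ar] at h1
      rw [c1, c2, ang_wrap h1]
      simp only [c3]
      ring
    · have hK : ¬ K i := fun ⟨u, v, hc, _⟩ => hv ((hc.vt w).2 (Or.inl rfl))
      simp only [Vt, not_or] at hv
      simp [hK, angAt, bsum, fW, Ne.symm hv.1, Ne.symm hv.2.1, Ne.symm hv.2.2]
  have e2 : ∑ i ∈ R, angAt p w (T i) = (R.filter K).card * (2 * π) := by
    have := Finset.sum_congr rfl e1
    rw [Finset.sum_add_distrib, tel, add_zero, ← Finset.sum_filter] at this
    simpa using this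
  have e3 : 0 < ∑ i ∈ R, angAt p w (T i) := by
    obtain ⟨i, hi, hv⟩ := hw
    obtain ⟨u, v, hc⟩ := hv.cn
    refine Finset.sum_pos' (fun j _ => ?_) ⟨i, hi, ?_⟩
    · unfold angAt
      have := ang_nonneg
      refine add_nonneg (add_nonneg ?_ ?_) ?_ <;> split_ifs <;> simp [ang_nonneg]
    · have h1 := pos i hi
      rw [hc.ar] at h1
      rw [(cn i hi u v hc).1]
      exact (ang_arg h1).2.1
  have half : ∀ i ∈ R, ∀ j ∈ R, ∀ u v u' v', Cn (T i) w u v → Cn (T j) w u' v' →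
      (p v - p w).arg < (p u - p w).arg → (p u - p w).arg ≤ (p u' - p w).arg → i = j := by
    intro i hi j hj u v u' v' c1 c2 l1 l2
    obtain ⟨a1, a2, a3⟩ := ad_tri (hR hi) c1
    obtain ⟨b1, -, -⟩ := ad_tri (hR hj) c2
    by_cases e : u' = u
    · subst e
      exact hQ.uniq (hG (hR hi)) (hG (hR hj)) (hF _ (h.mem _ _ a2)) c1 c2
    exfalso
    have h1 := pos i hi
    rw [c1.ar] at h1
    have h2 := ang_wrap h1
    rw [if_pos l1] at h2
    have h3 := (ang_arg h1).2.2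
    have a4 := Complex.neg_pi_lt_arg (p v - p w)
    have a5 := Complex.arg_le_pi (p u' - p w)
    have n0 : 0 < ‖p u' - p w‖ := norm_pos_iff.2 (sub_ne_zero.2 (h.ne b1).symm)
    have n1 : 0 < ‖p v - p w‖ := norm_pos_iff.2 (sub_ne_zero.2 (h.ne a3))
    have s1 : 0 ≤ ar (p w) (p u) (p u') := by
      rw [ar, cr_arg]
      exact mul_nonneg (by positivity) (sin_nonneg_of_nonneg_of_le_pi (by linarith) (by linarith))
    have s2 : 0 < ar (p v) (p w) (p u') := by
      rw [← ar_rot, ar, cr_arg, ← sin_add_two_pi]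
      exact mul_pos (by positivity) (sin_pos_of_pos_of_lt_pi (by linarith) (by linarith))
    have e' : u' ≠ v := by rintro rfl; linarith
    refine nb i hi ⟨u', h.mem _ _ b1.symm, ?_, (c1.insU p _).2 (Or.inl
      (h.cone a1 a2 b1 e e' (h.irr _ _ a3).symm h1 s1 s2))⟩
    rw [c1.vt]
    simp [e, e', (h.irr _ _ b1).symm]
  have e4 : (R.filter K).card ≤ 1 := by
    refine Finset.card_le_one.2 fun i hi j hj => ?_
    obtain ⟨hi, u, v, c1, l1⟩ := Finset.mem_filter.1 hi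
    obtain ⟨hj, u', v', c2, l2⟩ := Finset.mem_filter.1 hj
    rcases le_total (p u - p w).arg (p u' - p w).arg with l | l
    · exact half i hi j hj u v u' v' c1 c2 l1 l
    · exact (half j hj i hi u' v' u v c2 c1 l2 l).symm
  have e5 : (R.filter K).card ≠ 0 := by
    intro e
    rw [e2, e] at e3
    simp at e3
  have e6 : (R.filter K).card = 1 := by omega
  rw [e2, e6]; simp

end

/-- Direction. -/
noncomputable def un (z : ℂ) : ℂ := z / ‖z‖

/-- Rotation. -/
noncomputable def ex (t : ℝ) : ℂ := Complex.exp (t * Complex.I)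

lemma ex_add (s t : ℝ) : ex s * ex t = ex (s + t) := by
  simp only [ex, ← Complex.exp_add]; congr 1; push_cast; ring

lemma un_ang {a b c : ℂ} (h : 0 < ar a b c) : un (c - a) = ex (ang a b c) * un (b - a) := by
  obtain ⟨n1, -, n3⟩ := ne_of_ar h.ne'
  have hb : b - a ≠ 0 := sub_ne_zero.2 n1.symm
  have hc : c - a ≠ 0 := sub_ne_zero.2 n3
  have hb' : ((‖b - a‖ : ℝ) : ℂ) ≠ 0 := by exact_mod_cast norm_ne_zero_iff.2 hb
  have hc' : ((‖c - a‖ : ℝ) : ℂ) ≠ 0 := by exact_mod_cast norm_ne_zero_iff.2 hc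
  have := Complex.norm_mul_exp_arg_mul_I ((c - a) / (b - a))
  rw [← (ang_arg h).1, norm_div] at this
  unfold un ex
  push_cast at this
  field_simp at this ⊢
  linear_combination -this

lemma un_rev (a b : ℂ) : un (a - b) = ex (-π) * un (b - a) := by
  unfold un ex
  rw [norm_sub_rev]
  push_cast
  rw [neg_mul, Complex.exp_neg, Complex.exp_pi_mul_I]
  ring

lemma norm_un (z : ℂ) : (‖z‖ : ℂ) * un z = z := by
  unfold un
  by_cases h : z = 0
  · simp [h]
  · have : ((‖z‖ : ℝ) : ℂ) ≠ 0 := by exact_mod_cast norm_ne_zero_iff.2 h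
    field_simp

lemma sin_up {l A x : ℝ} (l0 : 0 ≤ l) (l1 : l ≤ 1) (hx : |x| < π / 6) (h0 : -π ≤ A)
    (h1 : A ≤ π / 6 + x) : l * sin A ≤ fs x := by
  obtain ⟨x0, x1⟩ := abs_lt.1 hx
  have hp := pi_pos
  have f0 : 0 ≤ fs x := sin_nonneg_of_nonneg_of_le_pi (by linarith) (by linarith)
  rcases le_total A 0 with h | h
  · have := sin_nonpos_of_nonpos_of_neg_pi_le h h0
    nlinarith
  · have : sin A ≤ fs x := sin_le_sin_of_le_of_le_pi_div_two (by linarith) (by linarith) h1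
    have := sin_nonneg_of_nonneg_of_le_pi h (by linarith)
    nlinarith

lemma sin_dn {l A x : ℝ} (l1 : 1 < l) (hx : |x| < π / 6) (h0 : A ≤ -(π / 6 + x))
    (h1 : -(5 * π / 6 - x) ≤ A) : l * sin A < -fs x := by
  obtain ⟨x0, x1⟩ := abs_lt.1 hx
  have hp := pi_pos
  have f0 : 0 < fs x := sin_pos_of_pos_of_lt_pi (by linarith) (by linarith)
  have : fs x ≤ sin (-A) := by
    rcases le_total (-A) (π / 2) with h | h
    · exact sin_le_sin_of_le_of_le_pi_div_two (by linarith) h (by linarith)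
    · rw [← sin_pi_sub]
      exact sin_le_sin_of_le_of_le_pi_div_two (by linarith) (by linarith) (by linarith)
  rw [sin_neg] at this
  nlinarith

theorem gadget {q p s a b c : ℂ} (t1 : 0 < ar q p s) (t2 : 0 < ar q s a) (t3 : 0 < ar a s b)
    (t4 : 0 < ar s c b) (t5 : 0 < ar s p c) (l1 : ‖q - a‖ ≤ 1) (l2 : ‖a - b‖ ≤ 1)
    (l3 : 1 < ‖b - c‖) (l4 : 1 < ‖c - p‖) (l5 : 1 < ‖s - c‖) (l6 : ‖s - b‖ ≤ 1) (l7 : ‖s - p‖ ≤ 1)
    {x1 x2 x3 x4 : ℝ} (w1 : |x1| < π / 6) (w2 : |x2| < π / 6) (w3 : |x3| < π / 6)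
    (w4 : |x4| < π / 6) {a1 i1 i2 i3 : ℝ} (d1 : a1 = ang q p s + ang q s a)
    (d2 : i1 = ang a q s + ang a s b) (d3 : i2 = ang b a s + ang b s c)
    (d4 : i3 = ang c b s + ang c s p)
    (h1 : a1 ≤ π / 6 + x1) (h2 : a1 + i1 ≤ 7 * π / 6 + x2) (h3 : a1 + i1 + i2 ≤ 11 * π / 6 + x3)
    (h4 : -(i1 + i2 + i3) ≤ -2 * π + x1 - x4) (h5 : -(i2 + i3) ≤ -π + x2 - x4)
    (h6 : -i3 ≤ -π / 3 + x3 - x4) : fs (-x3) + fs x4 < fs x1 + fs x2 := by
  have t2' : 0 < ar a q s := by rwa [← ar_rot]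
  have t3' : 0 < ar b a s := by rwa [← ar_rot]
  have t4' : 0 < ar b s c := by rwa [← ar_rot]
  have t4'' : 0 < ar c b s := by rwa [ar_rot]
  have t5' : 0 < ar c s p := by rwa [← ar_rot]
  have u1 : un (a - q) = ex a1 * un (p - q) := by
    rw [un_ang t2, un_ang t1, ← mul_assoc, ex_add, d1, add_comm]
  have u2 : un (b - a) = ex (a1 + i1 - π) * un (p - q) := by
    rw [un_ang t3, un_ang t2', un_rev, u1]
    simp only [← mul_assoc, ex_add]
    congr 2; rw [d2]; ring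
  have u3 : un (c - b) = ex (a1 + i1 + i2 - 2 * π) * un (p - q) := by
    rw [un_ang t4', un_ang t3', un_rev, u2]
    simp only [← mul_assoc, ex_add]
    congr 2; rw [d3]; ring
  have u4 : un (p - c) = ex (a1 + i1 + i2 + i3 - 3 * π) * un (p - q) := by
    rw [un_ang t5', un_ang t4'', un_rev, u3]
    simp only [← mul_assoc, ex_add]
    congr 2; rw [d4]; ring
  have hu : un (p - q) ≠ 0 := by
    intro e
    have := norm_un (p - q)
    rw [e, mul_zero] at this
    exact (ne_of_ar t1.ne').1 (sub_eq_zero.1 this.symm).symm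
  have cl : (‖p - q‖ : ℂ) = ‖a - q‖ * ex a1 + ‖b - a‖ * ex (a1 + i1 - π) +
      ‖c - b‖ * ex (a1 + i1 + i2 - 2 * π) + ‖p - c‖ * ex (a1 + i1 + i2 + i3 - 3 * π) := by
    refine mul_right_cancel₀ hu ?_
    simp only [add_mul, mul_assoc, ← u1, ← u2, ← u3, ← u4, norm_un]
    ring
  have cl2 : ∀ δ : ℝ, ‖p - q‖ * sin δ = ‖a - q‖ * sin (a1 + δ) + ‖b - a‖ * sin (a1 + i1 - π + δ) +
      ‖c - b‖ * sin (a1 + i1 + i2 - 2 * π + δ) + ‖p - c‖ * sin (a1 + i1 + i2 + i3 - 3 * π + δ) := by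
    intro δ
    have := congrArg (fun z => (z * ex δ).im) cl
    simp only [add_mul, mul_assoc, ex_add] at this
    simpa only [ex, Complex.add_im, Complex.im_ofReal_mul, Complex.exp_ofReal_mul_I_im] using this
  have hp := pi_pos
  have p1 : 0 < a1 := by rw [d1]; linarith [(ang_arg t1).2.1, (ang_arg t2).2.1]
  have p2 : 0 < i1 := by rw [d2]; linarith [(ang_arg t2').2.1, (ang_arg t3).2.1]
  have p3 : i3 < 2 * π / 3 := by
    have s1 := ang_sum s (ne_of_ar t4''.ne').1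
    have s2 := ang_sum p (ne_of_ar t5'.ne').1
    have k1 := angT2 t4''.ne' (by rwa [norm_sub_rev]) (by rwa [norm_sub_rev])
    have k2 := angT2 (x := c) (y := s) (z := b) (by rw [ar_swap']; linarith) l6 (by rwa [norm_sub_rev])
    have k3 := angT2 t5'.ne' l7 l4
    have k4 := angT2 (x := c) (y := p) (z := s) (by rw [ar_swap']; linarith)
      (by rwa [norm_sub_rev]) (by rwa [norm_sub_rev])
    rw [ang_comm c b s] at k2
    rw [ang_comm c s p] at k4
    rw [ang_comm b s c] at k1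
    rw [ang_comm s p c] at k3
    rw [d4]
    linarith
  obtain ⟨x10, x11⟩ := abs_lt.1 w1
  obtain ⟨x30, x31⟩ := abs_lt.1 w3
  obtain ⟨x40, x41⟩ := abs_lt.1 w4
  obtain ⟨δ, e0, e1, e2, e3, e4⟩ : ∃ δ : ℝ, 0 ≤ δ ∧ a1 + δ ≤ π / 6 + x1 ∧
      a1 + i1 - π + δ ≤ π / 6 + x2 ∧ a1 + i1 + i2 - 2 * π + δ ≤ -π / 6 + x3 ∧
      -5 * π / 6 + x4 ≤ a1 + i1 + i2 + i3 - 3 * π + δ := by
    rcases le_total (-5 * π / 6 + x4) (a1 + i1 + i2 + i3 - 3 * π) with h | h
    · exact ⟨0, le_rfl, by linarith, by linarith, by linarith, by linarith⟩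
    · exact ⟨-5 * π / 6 + x4 - (a1 + i1 + i2 + i3 - 3 * π), by linarith, by linarith, by linarith,
        by linarith, by linarith⟩
  have g0 : 0 ≤ ‖p - q‖ * sin δ :=
    mul_nonneg (norm_nonneg _) (sin_nonneg_of_nonneg_of_le_pi e0 (by linarith))
  have g1 := sin_up (norm_nonneg (a - q)) (by rwa [norm_sub_rev]) w1 (by linarith) e1
  have g2 := sin_up (norm_nonneg (b - a)) (by rwa [norm_sub_rev]) w2 (by linarith) e2
  have g3 := sin_dn (l := ‖c - b‖) (A := a1 + i1 + i2 - 2 * π + δ) (x := -x3)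
    (by rwa [norm_sub_rev]) (by rwa [abs_neg]) (by linarith) (by linarith)
  have g4 := sin_dn (l := ‖p - c‖) (A := a1 + i1 + i2 + i3 - 3 * π + δ)
    (by rwa [norm_sub_rev]) w4 (by linarith) (by linarith)
  linarith [cl2 δ]

end Pool.Agent.MP_a4408f_lc
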