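import Mathlib
import Pool.Agent.MP_a4408f_lc.GeoA

/-! Complexes assembled from triangulated tiles on a coarse grid. -/

namespace Pool.Agent.MP_a4408f_lc

open Finset Real

/-- Vertices, and also local triangles. -/
abbrev Vx := ℕ × ℕ × ℕ

/-- Triangle indices. -/
abbrev Ix := (_ : ℕ × ℕ) × ℕ

/-- Offset and canonical name of a local vertex. -/
def loc (v : ℕ) : Vx :=
  if v < 16 then [(0, 0, 0), (0, 0, 3), (0, 0, 4), (0, 0, 5), (0, 0, 6), (1, 0, 0), (1, 0, 1), (1, 0, 2),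
    (1, 1, 0), (0, 1, 6), (0, 1, 5), (0, 1, 4), (0, 1, 3), (0, 1, 0), (0, 0, 2), (0, 0, 1)].getD v (0, 0, 0)
  else (0, 0, v)

/-- Global name of a local vertex. -/
def gl (i j v : ℕ) : Vx := (i + (loc v).1, j + (loc v).2.1, (loc v).2.2)

lemma loc_big {v : ℕ} (h : 16 ≤ v) : loc v = (0, 0, v) := by simp [loc, not_lt.2 h]

lemma gl_big (i j : ℕ) {v : ℕ} (h : 16 ≤ v) : gl i j v = (i, j, v) := by simp [gl, loc_big h]

lemma loc_prop (v : ℕ) : (loc v).1 ≤ 1 ∧ (loc v).2.1 ≤ 1 ∧ ((loc v).1 = 1 → (loc v).2.2 ≤ 2) ∧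
    ((loc v).2.1 = 1 → (loc v).2.2 = 0 ∨ 3 ≤ (loc v).2.2 ∧ (loc v).2.2 ≤ 6) ∧
    (v < 16 ↔ (loc v).2.2 ≤ 6) := by
  by_cases h : v < 16
  · interval_cases v <;> simp [loc]
  · rw [loc_big (not_lt.1 h)]; simp; omega

lemma loc_inj {u v : ℕ} (h : loc u = loc v) : u = v := by
  have h1 := (loc_prop u).2.2.2.2
  have h2 := (loc_prop v).2.2.2.2
  rw [h] at h1
  by_cases hu : u < 16
  · have hv : v < 16 := h2.2 (h1.1 hu)
    have : ∀ u < 16, ∀ v < 16, loc u = loc v → u = v := by decide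
    exact this u hu v hv h
  · have hv : ¬ v < 16 := fun hv => hu (h1.2 (h2.1 hv))
    rw [loc_big (not_lt.1 hu), loc_big (not_lt.1 hv)] at h
    simpa using h

lemma gl_inj (i j : ℕ) : Function.Injective (gl i j) := fun u v h => by
  simp only [gl, Prod.mk.injEq, Nat.add_left_cancel_iff] at h
  exact loc_inj (Prod.ext h.1 (Prod.ext h.2.1 h.2.2))

/-- Map a triple. -/
def m3 {α β : Type} (g : α → β) (t : α × α × α) : β × β × β := (g t.1, g t.2.1, g t.2.2)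

lemma Cn.map {α β : Type} (g : α → β) {t : α × α × α} {x y z : α} (h : Cn t x y z) :
    Cn (m3 g t) (g x) (g y) (g z) := by
  rcases h with rfl | rfl | rfl <;> simp [Cn, m3]

lemma Cn.unmap {α β : Type} {g : α → β} {t : α × α × α} {u v w : β} (h : Cn (m3 g t) u v w) :
    ∃ x y z, Cn t x y z ∧ u = g x ∧ v = g y ∧ w = g z := by
  simp only [Cn, m3, Prod.mk.injEq] at h
  rcases h with ⟨rfl, rfl, rfl⟩ | ⟨rfl, rfl, rfl⟩ | ⟨rfl, rfl, rfl⟩
  exacts [⟨_, _, _, cn_self t, rfl, rfl, rfl⟩, ⟨_, _, _, (cn_self t).rot.rot, rfl, rfl, rfl⟩,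
    ⟨_, _, _, (cn_self t).rot, rfl, rfl, rfl⟩]

/-- Directed edges. -/
def edges (l : List Vx) : List (ℕ × ℕ) :=
  l.flatMap fun t => [(t.1, t.2.1), (t.2.1, t.2.2), (t.2.2, t.1)]

/-- The reversed boundary. -/
def rbd : List (ℕ × ℕ) := (List.range 16).map fun s => ((s + 1) % 16, s)

/-- The triangles form a chain whose boundary is the standard cycle. -/
def TOk (l : List Vx) : Prop := (edges l ++ rbd).Perm ((edges l ++ rbd).map Prod.swap)

lemma mem_edges {l : List Vx} {x y : ℕ} : (x, y) ∈ edges l ↔ ∃ t ∈ l, ∃ z, Cn t x y z := by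
  simp only [edges, List.mem_flatMap, List.mem_cons, Prod.mk.injEq, List.not_mem_nil, or_false]
  refine exists_congr fun t => and_congr_right fun _ => ⟨?_, ?_⟩
  · rintro (⟨rfl, rfl⟩ | ⟨rfl, rfl⟩ | ⟨rfl, rfl⟩)
    exacts [⟨_, cn_self t⟩, ⟨_, (cn_self t).rot⟩, ⟨_, (cn_self t).rot.rot⟩]
  · rintro ⟨z, rfl | rfl | rfl⟩ <;> simp

lemma TOk.swap {l : List Vx} (h : TOk l) {x y : ℕ} (hm : (x, y) ∈ edges l ++ rbd) :
    (y, x) ∈ edges l ++ rbd := by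
  obtain ⟨⟨a, b⟩, hab, e⟩ := List.mem_map.1 (h.subset hm)
  simp only [Prod.swap, Prod.mk.injEq] at e
  rwa [e.1, e.2] at hab

lemma mem_rbd {x y : ℕ} : (x, y) ∈ rbd ↔ y < 16 ∧ x = (y + 1) % 16 := by
  simp only [rbd, List.mem_map, List.mem_range, Prod.mk.injEq]
  exact ⟨fun ⟨s, h, e1, e2⟩ => by subst e2; exact ⟨h, e1.symm⟩, fun ⟨h, e⟩ => ⟨y, h, e.symm, rfl⟩⟩

lemma TOk.bd {l : List Vx} (h : TOk l) {s : ℕ} (hs : s < 16) :
    ∃ t ∈ l, ∃ z, Cn t s ((s + 1) % 16) z := by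
  rcases List.mem_append.1 (h.swap (List.mem_append_right _ (mem_rbd.2 ⟨hs, rfl⟩))) with e | e
  · exact mem_edges.1 e
  · have := mem_rbd.1 e
    omega

lemma TOk.sum {l : List Vx} (h : TOk l) {f : ℕ → ℕ → ℝ} (hf : ∀ u v, f v u = -f u v) :
    (l.map (bsum f)).sum = ∑ s ∈ range 16, f s ((s + 1) % 16) := by
  have h1 := (h.map fun e => f e.1 e.2).sum_eq
  rw [List.map_map] at h1
  have h2 : ((fun e : ℕ × ℕ => f e.1 e.2) ∘ Prod.swap) = fun e => -f e.1 e.2 :=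
    funext fun e => hf _ _
  have h3 : ∀ L : List (ℕ × ℕ), (L.map fun e => -f e.1 e.2).sum = -(L.map fun e => f e.1 e.2).sum := by
    intro L; induction L with
    | nil => simp
    | cons a L ih => simp only [List.map_cons, List.sum_cons, ih]; ring
  have h4 : ∀ l : List Vx, ((edges l).map fun e => f e.1 e.2).sum = (l.map (bsum f)).sum := by
    intro l; induction l with
    | nil => simp [edges]
    | cons a l ih =>
      simp only [edges, List.flatMap_cons, List.map_append, List.sum_append] at ih ⊢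
      rw [ih]; simp [bsum]; ring
  have h5 : (rbd.map fun e => f e.1 e.2).sum = -∑ s ∈ range 16, f s ((s + 1) % 16) := by
    rw [← sum_neg_distrib, rbd, List.map_map]
    exact congrArg List.sum (List.map_congr_left fun s _ => hf _ _)
  rw [h2, h3, List.map_append, List.sum_append, h4, h5] at h1
  linarith

lemma sum_getD {α : Type} (l : List α) (d : α) (f : α → ℝ) :
    ∑ t ∈ range l.length, f (l.getD t d) = (l.map f).sum := by
  induction l with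
  | nil => simp
  | cons a l ih => rw [List.length_cons, sum_range_succ']; simp [← ih, add_comm]

variable (tr : ℕ → ℕ → List Vx)

/-- The global triangles. -/
def TT (k : Ix) : Vx × Vx × Vx := m3 (gl k.1.1 k.1.2) ((tr k.1.1 k.1.2).getD k.2 (0, 0, 0))

/-- The triangles of a rectangle of tiles. -/
def Rect (a b c d : ℕ) : Finset Ix :=
  (Ico a b ×ˢ Ico c d).sigma fun x => range (tr x.1 x.2).length

variable {tr} {a b c d : ℕ}

lemma mem_rect {k : Ix} : k ∈ Rect tr a b c d ↔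
    (a ≤ k.1.1 ∧ k.1.1 < b) ∧ (c ≤ k.1.2 ∧ k.1.2 < d) ∧ k.2 < (tr k.1.1 k.1.2).length := by
  simp [Rect, and_assoc]

lemma rect_tri {k : Ix} (h : k ∈ Rect tr a b c d) :
    ∃ t ∈ tr k.1.1 k.1.2, TT tr k = m3 (gl k.1.1 k.1.2) t :=
  ⟨_, MP_485bb6_lc.getD_mem _ _ (mem_rect.1 h).2.2, rfl⟩

lemma tri_rect {i j : ℕ} (hi : a ≤ i ∧ i < b) (hj : c ≤ j ∧ j < d) {t : Vx} (ht : t ∈ tr i j) :
    ∃ k ∈ Rect tr a b c d, k.1 = (i, j) ∧ TT tr k = m3 (gl i j) t := by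
  obtain ⟨n, hn, e⟩ := MP_485bb6_lc.exists_getD _ (0, 0, 0) ht
  exact ⟨⟨(i, j), n⟩, mem_rect.2 ⟨hi, hj, hn⟩, rfl, by simp only [TT, e]⟩

lemma rect_mono {a' b' c' d' : ℕ} (h1 : a' ≤ a) (h2 : b ≤ b') (h3 : c' ≤ c) (h4 : d ≤ d') :
    Rect tr a b c d ⊆ Rect tr a' b' c' d' := fun k hk => by
  rw [mem_rect] at hk ⊢
  exact ⟨by omega, by omega, hk.2.2⟩

lemma rect_sum (F : Vx × Vx × Vx → ℝ) : ∑ k ∈ Rect tr a b c d, F (TT tr k) =
    ∑ x ∈ Ico a b ×ˢ Ico c d, ((tr x.1 x.2).map fun t => F (m3 (gl x.1 x.2) t)).sum := by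
  rw [Rect, sum_sigma]
  exact sum_congr rfl fun x _ => sum_getD _ (0, 0, 0) fun t => F (m3 (gl x.1 x.2) t)

/-- All tiles containing the vertex lie in the rectangle. -/
def Inn (a b c d : ℕ) (w : Vx) : Prop := w.1 < b ∧ w.2.1 < d ∧ a ≤ w.1 ∧ c ≤ w.2.1 ∧
  (w.2.2 ≤ 2 → a < w.1) ∧ (w.2.2 = 0 ∨ 3 ≤ w.2.2 ∧ w.2.2 ≤ 6 → c < w.2.1)

lemma Inn.tile {i j v : ℕ} (h : Inn a b c d (gl i j v)) : (a ≤ i ∧ i < b) ∧ (c ≤ j ∧ j < d) := by
  have := loc_prop v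
  simp only [Inn, gl] at h
  omega

lemma nbr {i j s : ℕ} (hs : s < 16) (h : Inn a b c d (gl i j ((s + 1) % 16))) :
    ∃ i' j', ∃ s' < 16, gl i' j' s' = gl i j ((s + 1) % 16) ∧ gl i' j' ((s' + 1) % 16) = gl i j s := by
  have ht := h.tile
  by_cases h1 : s < 5
  · refine ⟨i, j - 1, 12 - s, by omega, ?_⟩
    interval_cases s <;> simp [Inn, gl, loc] at h ⊢ <;> omega
  by_cases h2 : s < 8
  · refine ⟨i + 1, j, 20 - s, by omega, ?_⟩
    interval_cases s <;> simp [gl, loc]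
  by_cases h3 : s < 13
  · refine ⟨i, j + 1, 12 - s, by omega, ?_⟩
    interval_cases s <;> simp [gl, loc]
  · refine ⟨i - 1, j, 20 - s, by omega, ?_⟩
    interval_cases s <;> simp [Inn, gl, loc] at h ⊢ <;> omega

theorem full_of_inn (hT : ∀ i j, TOk (tr i j)) {w : Vx} (h : Inn a b c d w)
    (hw : ∃ i j, ∃ t ∈ tr i j, Vt (m3 (gl i j) t) w) : Full (Rect tr a b c d) (TT tr) w := by
  constructor
  · obtain ⟨i, j, t, ht, hv⟩ := hw
    obtain ⟨u, v, hc⟩ := hv.cn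
    obtain ⟨x, y, z, -, rfl, -, -⟩ := hc.unmap
    obtain ⟨k, hk, -, e⟩ := tri_rect h.tile.1 h.tile.2 ht
    exact ⟨k, hk, e ▸ hv⟩
  · intro k hk u v hc
    obtain ⟨t, ht, e⟩ := rect_tri hk
    rw [e] at hc
    obtain ⟨x, y, z, hc', rfl, rfl, rfl⟩ := hc.unmap
    have h1 := (hT _ _).swap (List.mem_append_left _ (mem_edges.2 ⟨t, ht, y, hc'.rot.rot⟩))
    rcases List.mem_append.1 h1 with h2 | h2
    · obtain ⟨t', ht', z', hc2⟩ := mem_edges.1 h2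
      obtain ⟨k', hk', -, e'⟩ := tri_rect h.tile.1 h.tile.2 ht'
      exact ⟨k', hk', _, e' ▸ hc2.map _⟩
    · obtain ⟨hs, rfl⟩ := mem_rbd.1 h2
      obtain ⟨i', j', s', hs', e1, e2⟩ := nbr hs h
      obtain ⟨t', ht', z', hc2⟩ := (hT i' j').bd hs'
      rw [← e1] at h
      obtain ⟨k', hk', -, e'⟩ := tri_rect h.tile.1 h.tile.2 ht'
      exact ⟨k', hk', _, by rw [e', ← e1, ← e2]; exact hc2.map _⟩

/-- Sum along the bottom side. -/
def Hs (f : Vx → Vx → ℝ) (i j : ℕ) : ℝ := f (i, j, 0) (i, j, 3) + f (i, j, 3) (i, j, 4) +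
  f (i, j, 4) (i, j, 5) + f (i, j, 5) (i, j, 6) + f (i, j, 6) (i + 1, j, 0)

/-- Sum along the left side. -/
def Vs (f : Vx → Vx → ℝ) (i j : ℕ) : ℝ :=
  f (i, j, 0) (i, j, 1) + f (i, j, 1) (i, j, 2) + f (i, j, 2) (i, j + 1, 0)

theorem rect_tel (hT : ∀ i j, TOk (tr i j)) (hab : a ≤ b) (hcd : c ≤ d) {f : Vx → Vx → ℝ}
    (hf : ∀ u v, f v u = -f u v) : ∑ k ∈ Rect tr a b c d, bsum f (TT tr k) =
      ∑ i ∈ Ico a b, (Hs f i c - Hs f i d) + ∑ j ∈ Ico c d, (Vs f b j - Vs f a j) := by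
  rw [rect_sum (bsum f)]
  have h1 : ∀ i j, ((tr i j).map fun t => bsum f (m3 (gl i j) t)).sum =
      -(Hs f i (j + 1) - Hs f i j) + (Vs f (i + 1) j - Vs f i j) := by
    intro i j
    have := (hT i j).sum (f := fun u v => f (gl i j u) (gl i j v)) fun u v => hf _ _
    refine Eq.trans this ?_
    simp only [sum_range_succ, sum_range_zero, gl, loc, Hs, Vs]
    simp
    linarith [hf (i, j + 1, 0) (i, j + 1, 3), hf (i, j + 1, 3) (i, j + 1, 4),
      hf (i, j + 1, 4) (i, j + 1, 5), hf (i, j + 1, 5) (i, j + 1, 6),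
      hf (i, j + 1, 6) (i + 1, j + 1, 0), hf (i, j, 0) (i, j, 1), hf (i, j, 1) (i, j, 2),
      hf (i, j, 2) (i, j + 1, 0)]
  simp only [h1, sum_add_distrib]
  congr 1
  · rw [sum_product]
    refine sum_congr rfl fun i _ => ?_
    simp only [sum_neg_distrib]
    rw [sum_Ico_sub (fun j => Hs f i j) hcd]; ring
  · rw [sum_product_right]
    exact sum_congr rfl fun j _ => sum_Ico_sub (fun i => Vs f i j) hab

/-- The bottom side is monotone. -/
def HM (p : Vx → ℂ) (i j : ℕ) : Prop := (p (i, j, 0)).re ≤ (p (i, j, 3)).re ∧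
  (p (i, j, 3)).re ≤ (p (i, j, 4)).re ∧ (p (i, j, 4)).re ≤ (p (i, j, 5)).re ∧
  (p (i, j, 5)).re ≤ (p (i, j, 6)).re ∧ (p (i, j, 6)).re ≤ (p (i + 1, j, 0)).re

/-- The left side is vertical. -/
def VC (p : Vx → ℂ) (i j : ℕ) : Prop := (p (i, j, 0)).re = (p (i, j, 1)).re ∧
  (p (i, j, 1)).re = (p (i, j, 2)).re ∧ (p (i, j, 2)).re = (p (i, j + 1, 0)).re

theorem rect_emb (hT : ∀ i j, TOk (tr i j)) (hab : a ≤ b) (hcd : c ≤ d) {p : Vx → ℂ}
    (pos : ∀ i j, (a ≤ i ∧ i < b) → (c ≤ j ∧ j < d) → ∀ t ∈ tr i j, 0 < onT p ar (m3 (gl i j) t))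
    (h1 : ∀ i, a ≤ i → i < b → HM p i c ∧ HM p i d) (h2 : ∀ j, c ≤ j → j < d → VC p a j ∧ VC p b j) :
    Emb (Rect tr a b c d) (TT tr) p := by
  refine emb_of_wind (fun k hk => ?_) fun x => ?_
  · obtain ⟨t, ht, e⟩ := rect_tri hk
    rw [e]
    exact pos _ _ (mem_rect.1 hk).1 (mem_rect.1 hk).2.1 t ht
  rw [rect_tel hT hab hcd fun u v => cw_anti x _ _]
  let g : ℂ → ℝ := fun z => if z.re ≤ x.re then 1 else 0
  have k1 : ∀ u v : ℂ, u.re ≤ v.re → cw x u v ≤ 0 ∧ -cw x u v ≤ g u - g v := by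
    intro u v huv
    simp only [cw, g]
    split_ifs <;> simp_all <;> linarith
  have k2 : ∀ u v : ℂ, u.re = v.re → cw x u v = 0 := by
    intro u v huv
    simp only [cw, huv]
    split_ifs <;> simp_all <;> linarith
  have e1 : ∑ j ∈ Ico c d, (Vs (fun u v => cw x (p u) (p v)) b j -
      Vs (fun u v => cw x (p u) (p v)) a j) = 0 := by
    refine sum_eq_zero fun j hj => ?_
    obtain ⟨⟨a1, a2, a3⟩, b1, b2, b3⟩ := h2 j (mem_Ico.1 hj).1 (mem_Ico.1 hj).2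
    simp only [Vs, k2 _ _ a1, k2 _ _ a2, k2 _ _ a3, k2 _ _ b1, k2 _ _ b2, k2 _ _ b3]; simp
  have e2 : ∑ i ∈ Ico a b, (Hs (fun u v => cw x (p u) (p v)) i c -
      Hs (fun u v => cw x (p u) (p v)) i d) ≤
      ∑ i ∈ Ico a b, (-g (p (i + 1, d, 0)) - -g (p (i, d, 0))) := by
    refine sum_le_sum fun i hi => ?_
    obtain ⟨⟨a1, a2, a3, a4, a5⟩, b1, b2, b3, b4, b5⟩ := h1 i (mem_Ico.1 hi).1 (mem_Ico.1 hi).2
    simp only [Hs]
    linarith [(k1 _ _ a1).1, (k1 _ _ a2).1, (k1 _ _ a3).1, (k1 _ _ a4).1, (k1 _ _ a5).1,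
      (k1 _ _ b1).2, (k1 _ _ b2).2, (k1 _ _ b3).2, (k1 _ _ b4).2, (k1 _ _ b5).2]
  rw [sum_Ico_sub (fun i => -g (p (i, d, 0))) hab] at e2
  have e3 : g (p (a, d, 0)) ≤ 1 := by simp only [g]; split_ifs <;> norm_num
  have e4 : 0 ≤ g (p (b, d, 0)) := by simp only [g]; split_ifs <;> norm_num
  linarith

lemma tel_inn (hT : ∀ i j, TOk (tr i j)) (p : Vx → ℂ) {w : Vx} (h : Inn a b c d w) :
    ∑ k ∈ Rect tr a b c d, bsum (fW p w) (TT tr k) = 0 := by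
  obtain ⟨i, j, e⟩ := w
  simp only [Inn] at h
  rw [rect_tel hT (by omega) (by omega) (fW_anti p _)]
  have k : ∀ u v, u ≠ (i, j, e) → v ≠ (i, j, e) → fW p (i, j, e) u v = 0 := fun u v hu hv => by
    simp [fW, hu, hv]
  rw [sum_eq_zero, sum_eq_zero, add_zero]
  · intro y _
    simp (disch := simp only [ne_eq, Prod.mk.injEq]; omega) only [Vs, k]
    simp
  · intro y _
    simp (disch := simp only [ne_eq, Prod.mk.injEq]; omega) only [Hs, k]
    simp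

/-- Total angle of a tile at a global vertex. -/
noncomputable def Dg (tr : ℕ → ℕ → List Vx) (p : Vx → ℂ) (i j : ℕ) (w : Vx) : ℝ :=
  ((tr i j).map fun t => angAt p w (m3 (gl i j) t)).sum

/-- Total angle of a tile at a local vertex. -/
noncomputable def Dl (l : List Vx) (q : ℕ → ℂ) (v : ℕ) : ℝ := (l.map (angAt q v)).sum

lemma Dg_gl (p : Vx → ℂ) (i j v : ℕ) :
    Dg tr p i j (gl i j v) = Dl (tr i j) (fun x => p (gl i j x)) v := by
  simp only [Dg, Dl, angAt, m3, (gl_inj i j).eq_iff]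
  rfl

lemma Dg_zero (p : Vx → ℂ) {i j : ℕ} {w : Vx} (h : ∀ v, gl i j v ≠ w) : Dg tr p i j w = 0 := by
  simp [Dg, angAt, m3, h]

lemma sum4 (p : Vx → ℂ) {i j e : ℕ} (h : Inn a b c d (i + 1, j + 1, e)) :
    ∑ k ∈ Rect tr a b c d, angAt p (i + 1, j + 1, e) (TT tr k) =
      Dg tr p (i + 1) (j + 1) (i + 1, j + 1, e) + Dg tr p i (j + 1) (i + 1, j + 1, e) +
      Dg tr p (i + 1) j (i + 1, j + 1, e) + Dg tr p i j (i + 1, j + 1, e) := by
  rw [rect_sum (angAt p _)]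
  let U : Finset (ℕ × ℕ) := {(i + 1, j + 1), (i, j + 1), (i + 1, j), (i, j)}
  have e1 : ∑ x ∈ Ico a b ×ˢ Ico c d, Dg tr p x.1 x.2 (i + 1, j + 1, e) =
      ∑ x ∈ U, Dg tr p x.1 x.2 (i + 1, j + 1, e) := by
    rw [← sum_subset (inter_subset_left (s₂ := U)), ← sum_subset (inter_subset_right
      (s₁ := Ico a b ×ˢ Ico c d) (s₂ := U))]
    · intro x hx hx'
      refine Dg_zero p fun v hv => hx' (mem_inter.2 ⟨?_, hx⟩)
      rw [← hv] at h
      simpa [and_assoc] using h.tile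
    · intro x hx hx'
      refine Dg_zero p fun v hv => hx' (mem_inter.2 ⟨hx, ?_⟩)
      have := loc_prop v
      obtain ⟨x1, x2⟩ := x
      simp only [gl, Prod.mk.injEq] at hv
      simp only [U, mem_insert, mem_singleton, Prod.mk.injEq]
      omega
  refine Eq.trans e1 ?_
  simp only [U]
  rw [sum_insert (by simp), sum_insert (by simp), sum_insert (by simp), sum_singleton]
  ring

/-- Directions of the boundary edges relative to the first one. -/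
noncomputable def th0 (D : ℕ → ℝ) (s : ℕ) : ℝ := ∑ r ∈ range s, (π - D (r + 1))

theorem potentials {D : ℕ → ℕ → ℕ → ℝ}
    (h0 : ∀ i j, (a ≤ i ∧ i < b) → (c ≤ j ∧ j < d) → ∑ r ∈ range 16, D i j r = 14 * π)
    (h1 : ∀ i j, (a ≤ i ∧ i + 1 < b) → (c ≤ j ∧ j < d) →
      D i j 6 + D (i + 1) j 15 = 2 * π ∧ D i j 7 + D (i + 1) j 14 = 2 * π)
    (h2 : ∀ i j, (a ≤ i ∧ i < b) → (c ≤ j ∧ j + 1 < d) → D i j 12 + D i (j + 1) 1 = 2 * π ∧
      D i j 11 + D i (j + 1) 2 = 2 * π ∧ D i j 10 + D i (j + 1) 3 = 2 * π ∧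
      D i j 9 + D i (j + 1) 4 = 2 * π)
    (h3 : ∀ i j, (a ≤ i ∧ i + 1 < b) → (c ≤ j ∧ j + 1 < d) →
      D (i + 1) (j + 1) 0 + D i (j + 1) 5 + D (i + 1) j 13 + D i j 8 = 2 * π) :
    ∃ k : ℕ → ℕ → ℝ, (∀ i j, (a ≤ i ∧ i + 1 < b) → (c ≤ j ∧ j < d) →
        k i j + th0 (D i j) 6 = k (i + 1) j + th0 (D (i + 1) j) 14 - π) ∧
      ∀ i j, (a ≤ i ∧ i < b) → (c ≤ j ∧ j + 1 < d) →
        k i j + th0 (D i j) 11 - π = k i (j + 1) + th0 (D i (j + 1)) 1 ∧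
        k i j + th0 (D i j) 9 - π = k i (j + 1) + th0 (D i (j + 1)) 3 := by
  let X : ℕ → ℕ → ℝ := fun i j => th0 (D i j) 5 + π - th0 (D (i + 1) j) 15
  let Y : ℕ → ℕ → ℝ := fun i j => th0 (D i j) 12 - π
  let k : ℕ → ℕ → ℝ := fun i j => ∑ i' ∈ Ico a i, X i' c + ∑ j' ∈ Ico c j, Y i j'
  have kY : ∀ i j, c ≤ j → k i (j + 1) = k i j + Y i j := fun i j hj => by
    simp only [k, sum_Ico_succ_top hj]; ring
  have kX : ∀ i, a ≤ i ∧ i + 1 < b → ∀ j, c ≤ j → j < d → k (i + 1) j = k i j + X i j := by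
    intro i hi j hj
    induction j, hj using Nat.le_induction with
    | base => intro _; simp only [k, sum_Ico_succ_top hi.1, Ico_self, sum_empty]; ring
    | succ j hj ih =>
      intro hd
      rw [kY _ _ hj, kY _ _ hj, ih (by omega)]
      obtain ⟨e1, e2⟩ := h1 i j hi ⟨hj, by omega⟩
      obtain ⟨e3, e4, e5, e6⟩ := h2 i j ⟨hi.1, by omega⟩ ⟨hj, hd⟩
      have e7 := h3 i j hi ⟨hj, hd⟩
      have e8 := h0 (i + 1) (j + 1) ⟨by omega, hi.2⟩ ⟨by omega, hd⟩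
      simp only [X, Y, th0, sum_range_succ, sum_range_zero] at e8 ⊢
      norm_num at e8 ⊢
      linarith
  refine ⟨k, fun i j hi hj => ?_, fun i j hi hj => ?_⟩
  · rw [kX i hi j hj.1 hj.2]
    obtain ⟨e1, -⟩ := h1 i j hi hj
    simp only [X, th0, sum_range_succ, sum_range_zero]
    norm_num
    linarith
  · rw [kY i j hj.1]
    obtain ⟨e3, e4, e5, e6⟩ := h2 i j hi hj
    simp only [Y, th0, sum_range_succ, sum_range_zero]
    norm_num
    constructor <;> linarith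

end Pool.Agent.MP_a4408f_lc
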