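import Mathlib
import Pool.Agent.MP_a4408f_lc.Tile

/-! Rigidity for tile complexes. -/

namespace Pool.Agent.MP_a4408f_lc

open Finset Real

/-- Reference coordinates of the boundary vertices. -/
def bq (c : ℕ) : ℤ × ℤ :=
  [(0, 0), (0, 10000000), (0, 20000000), (10000000, 0), (20000000, 0), (30000000, 0),
    (40000000, 0)].getD c (0, 0)

/-- Reference coordinates of a local vertex. -/
def qloc (ql : List (ℤ × ℤ)) (v : ℕ) : ℤ × ℤ :=
  if v < 16 then (50000000 * (loc v).1 + (bq (loc v).2.2).1, 30000000 * (loc v).2.1 + (bq (loc v).2.2).2)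
  else ql.getD (v - 16) (0, 0)

/-- Integer area. -/
def zar (a b c : ℤ × ℤ) : ℤ := (b.1 - a.1) * (c.2 - a.2) - (b.2 - a.2) * (c.1 - a.1)

/-- Two triangles share an edge with opposite directions. -/
def share (t t' : Vx) : Bool :=
  (t'.2.1, t'.1) ∈ edges [t] ∨ (t'.2.2, t'.2.1) ∈ edges [t] ∨ (t'.1, t'.2.2) ∈ edges [t]

/-- The topological conditions on a tile. -/
structure Top (l : List Vx) (n : ℕ) (ql : List (ℤ × ℤ)) : Prop where
  ok : TOk l
  pos : ∀ t ∈ l, 0 < zar (qloc ql t.1) (qloc ql t.2.1) (qloc ql t.2.2)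
  lt : ∀ t ∈ l, t.1 < n ∧ t.2.1 < n ∧ t.2.2 < n
  use : ∀ v, 16 ≤ v → v < n → ∃ t ∈ l, Vt t v
  len : 16 ≤ n ∧ l.length = 2 * (n - 16) + 14
  dual : ∀ k < l.length, k = 0 ∨ ∃ m < k, share (l.getD m (0, 0, 0)) (l.getD k (0, 0, 0)) = true

lemma share_cn {t t' : Vx} (h : share t t' = true) : ∃ u v x y, Cn t u v x ∧ Cn t' v u y := by
  simp only [share, decide_eq_true_eq, mem_edges, List.mem_singleton, exists_eq_left] at h
  rcases h with ⟨z, h⟩ | ⟨z, h⟩ | ⟨z, h⟩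
  exacts [⟨_, _, _, _, h, cn_self t'⟩, ⟨_, _, _, _, h, (cn_self t').rot⟩,
    ⟨_, _, _, _, h, (cn_self t').rot.rot⟩]

lemma Top.used {l : List Vx} {n : ℕ} {ql : List (ℤ × ℤ)} (h : Top l n ql) {v : ℕ} (hv : v < n) :
    ∃ t ∈ l, Vt t v := by
  by_cases h1 : v < 16
  · obtain ⟨t, ht, z, hc⟩ := h.ok.bd h1
    exact ⟨t, ht, (hc.vt v).2 (Or.inl rfl)⟩
  · exact h.use v (not_lt.1 h1) hv

lemma vt_map {α β : Type} {g : α → β} {t : α × α × α} {w : β} :
    Vt (m3 g t) w ↔ ∃ v, Vt t v ∧ w = g v := by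
  simp [Vt, m3, or_and_right, exists_or]

lemma lin_D {l : List Vx} {n : ℕ} (h : ∀ t ∈ l, t.1 < n ∧ t.2.1 < n ∧ t.2.2 < n) (q : ℕ → ℂ)
    (μ : ℕ → ℝ) : ∑ v ∈ range n, μ v * Dl l q v =
      (l.map fun t => μ t.1 * ang (q t.1) (q t.2.1) (q t.2.2) + μ t.2.1 * ang (q t.2.1) (q t.2.2) (q t.1)
        + μ t.2.2 * ang (q t.2.2) (q t.1) (q t.2.1)).sum := by
  induction l with
  | nil => simp [Dl]
  | cons t l ih =>
    have ih := ih fun t ht => h t (List.mem_cons_of_mem _ ht)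
    obtain ⟨h1, h2, h3⟩ := h t List.mem_cons_self
    simp only [Dl, List.map_cons, List.sum_cons, mul_add, sum_add_distrib] at ih ⊢
    rw [ih]
    simp [angAt, mul_add, sum_add_distrib, h1, h2, h3]

variable {tr : ℕ → ℕ → List Vx} {nn : ℕ → ℕ → ℕ} {ql : ℕ → ℕ → List (ℤ × ℤ)}

/-- The reference drawing. -/
noncomputable def Qg (ql : ℕ → ℕ → List (ℤ × ℤ)) (w : Vx) : ℂ :=
  let z := if w.2.2 ≤ 6 then bq w.2.2 else (ql w.1 w.2.1).getD (w.2.2 - 16) (0, 0)
  ⟨50000000 * w.1 + z.1, 30000000 * w.2.1 + z.2⟩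

lemma Qg_gl (i j v : ℕ) : Qg ql (gl i j v) =
    ⟨50000000 * i + (qloc (ql i j) v).1, 30000000 * j + (qloc (ql i j) v).2⟩ := by
  by_cases h : v < 16
  · have := (loc_prop v).2.2.2.2.1 h
    simp only [Qg, gl, qloc, if_pos h, if_pos this]
    apply Complex.ext <;> simp <;> ring
  · simp [Qg, gl_big i j (not_lt.1 h), qloc, h, show ¬ v ≤ 6 by omega]

theorem Q_emb (hT : ∀ i j, Top (tr i j) (nn i j) (ql i j)) {a b c d : ℕ} (hab : a ≤ b) (hcd : c ≤ d) :
    Emb (Rect tr a b c d) (TT tr) (Qg ql) := by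
  refine rect_emb (fun i j => (hT i j).ok) hab hcd (fun i j _ _ t ht => ?_) (fun i _ _ => ?_)
    fun j _ _ => ?_
  · have h1 : (0 : ℝ) < zar (qloc (ql i j) t.1) (qloc (ql i j) t.2.1) (qloc (ql i j) t.2.2) := by
      exact_mod_cast (hT i j).pos t ht
    simp only [onT, m3, Qg_gl, ar, cr, Complex.sub_re, Complex.sub_im]
    simp only [zar] at h1
    push_cast at h1
    linarith
  · simp [HM, Qg, bq]; norm_num; linarith
  · simp [VC, Qg, bq]

/-- The vertices of the graph. -/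
def VG (tr : ℕ → ℕ → List Vx) (W H : ℕ) : Set Vx :=
  {w | ∃ k ∈ Rect tr 1 (W + 1) 1 (H + 1), Vt (TT tr k) w}

variable {W H : ℕ}

lemma mem_VG (hT : ∀ i j, Top (tr i j) (nn i j) (ql i j)) {w : Vx} : w ∈ VG tr W H ↔
    ∃ i j v, (1 ≤ i ∧ i < W + 1) ∧ (1 ≤ j ∧ j < H + 1) ∧ v < nn i j ∧ w = gl i j v := by
  constructor
  · rintro ⟨k, hk, hv⟩
    obtain ⟨t, ht, e⟩ := rect_tri hk
    rw [e, vt_map] at hv
    obtain ⟨v, hv, rfl⟩ := hv
    have := (hT _ _).lt t ht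
    refine ⟨_, _, v, (mem_rect.1 hk).1, (mem_rect.1 hk).2.1, ?_, rfl⟩
    rcases hv with rfl | rfl | rfl <;> tauto
  · rintro ⟨i, j, v, hi, hj, hv, rfl⟩
    obtain ⟨t, ht, h⟩ := (hT i j).used hv
    obtain ⟨k, hk, -, e⟩ := tri_rect hi hj ht
    exact ⟨k, hk, e ▸ vt_map.2 ⟨v, h, rfl⟩⟩

lemma inn_gl {a b c d i j : ℕ} (v : ℕ) (hi : a < i ∧ i + 1 < b) (hj : c < j ∧ j + 1 < d) :
    Inn a b c d (gl i j v) := by
  have := loc_prop v
  simp only [Inn, gl]
  omega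

lemma full_VG (hT : ∀ i j, Top (tr i j) (nn i j) (ql i j)) {w : Vx} (hw : w ∈ VG tr W H)
    {a b c d : ℕ} (h : Inn a b c d w) : Full (Rect tr a b c d) (TT tr) w := by
  obtain ⟨k, hk, hv⟩ := hw
  obtain ⟨t, ht, e⟩ := rect_tri hk
  exact full_of_inn (fun i j => (hT i j).ok) h ⟨_, _, t, ht, e ▸ hv⟩

lemma full_S (hT : ∀ i j, Top (tr i j) (nn i j) (ql i j)) {w : Vx} (hw : w ∈ VG tr W H) :
    Full (Rect tr 0 (W + 2) 0 (H + 2)) (TT tr) w := by
  refine full_VG hT hw ?_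
  obtain ⟨i, j, v, hi, hj, -, rfl⟩ := (mem_VG hT).1 hw
  exact inn_gl v (by omega) (by omega)

lemma VG_finite : (VG tr W H).Finite := by
  refine ((Rect tr 1 (W + 1) 1 (H + 1)).finite_toSet.biUnion
    (t := fun k => {(TT tr k).1, (TT tr k).2.1, (TT tr k).2.2}) fun i _ => by simp).subset ?_
  rintro v ⟨k, hk, h⟩
  simp only [Set.mem_iUnion]
  exact ⟨k, hk, h⟩

lemma frame_con (hT : ∀ i j, Top (tr i j) (nn i j) (ql i j)) (R : Vx → Prop)
    (hR : ∀ u v, Ad (Rect tr 1 (W + 1) 1 (H + 1)) (TT tr) u v → ¬ Inn 1 (W + 1) 1 (H + 1) u →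
      ¬ Inn 1 (W + 1) 1 (H + 1) v → R u → R v) {u : Vx} (hu : u ∈ VG tr W H)
    (hf : ¬ Inn 1 (W + 1) 1 (H + 1) u) : R u ↔ R (1, 1, 0) := by
  have lk : ∀ i j s, (1 ≤ i ∧ i < W + 1) → (1 ≤ j ∧ j < H + 1) → s < 16 →
      ¬ Inn 1 (W + 1) 1 (H + 1) (gl i j s) → ¬ Inn 1 (W + 1) 1 (H + 1) (gl i j ((s + 1) % 16)) →
      (R (gl i j s) ↔ R (gl i j ((s + 1) % 16))) := by
    intro i j s hi hj hs f1 f2
    obtain ⟨t, ht, z, hc⟩ := (hT i j).ok.bd hs
    obtain ⟨k, hk, -, e⟩ := tri_rect hi hj ht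
    have ad := (ad_tri hk (e ▸ hc.map (gl i j))).1
    exact ⟨hR _ _ ad f1 f2, hR _ _ ad.symm f2 f1⟩
  obtain ⟨i0, j0, v, hi0, hj0, -, rfl⟩ := (mem_VG hT).1 hu
  have hz : ∀ i y, (1 ≤ i ∧ i < W + 1) → y = 1 ∨ y = H + 1 → (R (i, y, 3) ↔ R (i, y, 0)) ∧
      (R (i, y, 4) ↔ R (i, y, 0)) ∧ (R (i, y, 5) ↔ R (i, y, 0)) ∧ (R (i, y, 6) ↔ R (i, y, 0)) ∧
      (R (i + 1, y, 0) ↔ R (i, y, 0)) := by
    rintro i y hi (rfl | rfl)
    · have k := fun s hs => lk i 1 s hi (by omega) hs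
      have k0 := k 0 (by omega); have k1 := k 1 (by omega); have k2 := k 2 (by omega)
      have k3 := k 3 (by omega); have k4 := k 4 (by omega)
      simp [gl, loc, Inn] at k0 k1 k2 k3 k4
      tauto
    · have k := fun s hs => lk i H s hi (by omega) hs
      have k0 := k 8 (by omega); have k1 := k 9 (by omega); have k2 := k 10 (by omega)
      have k3 := k 11 (by omega); have k4 := k 12 (by omega)
      simp [gl, loc, Inn] at k0 k1 k2 k3 k4
      tauto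
  have vt : ∀ x j, (1 ≤ j ∧ j < H + 1) → x = 1 ∨ x = W + 1 → (R (x, j, 1) ↔ R (x, j, 0)) ∧
      (R (x, j, 2) ↔ R (x, j, 0)) ∧ (R (x, j + 1, 0) ↔ R (x, j, 0)) := by
    rintro x j hj (rfl | rfl)
    · have k := fun s hs => lk 1 j s (by omega) hj hs
      have k0 := k 13 (by omega); have k1 := k 14 (by omega); have k2 := k 15 (by omega)
      simp [gl, loc, Inn] at k0 k1 k2
      tauto
    · have k := fun s hs => lk W j s (by omega) hj hs
      have k0 := k 5 (by omega); have k1 := k 6 (by omega); have k2 := k 7 (by omega)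
      simp [gl, loc, Inn] at k0 k1 k2
      tauto
  have hc : ∀ y, y = 1 ∨ y = H + 1 → ∀ i, 1 ≤ i → i ≤ W + 1 → (R (i, y, 0) ↔ R (1, y, 0)) := by
    intro y hy i hi
    induction i, hi using Nat.le_induction with
    | base => intro _; rfl
    | succ i hi ih => intro h; exact (hz i y ⟨hi, by omega⟩ hy).2.2.2.2.trans (ih (by omega))
  have vc : ∀ x, x = 1 ∨ x = W + 1 → ∀ j, 1 ≤ j → j ≤ H + 1 → (R (x, j, 0) ↔ R (x, 1, 0)) := by
    intro x hx j hj
    induction j, hj using Nat.le_induction with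
    | base => intro _; rfl
    | succ j hj ih => intro h; exact (vt x j ⟨hj, by omega⟩ hx).2.2.trans (ih (by omega))
  have c0 : ∀ x y, 1 ≤ x → x ≤ W + 1 → 1 ≤ y → y ≤ H + 1 →
      (x = 1 ∨ x = W + 1) ∨ (y = 1 ∨ y = H + 1) → (R (x, y, 0) ↔ R (1, 1, 0)) := by
    rintro x y h1 h2 h3 h4 (h | h)
    · exact (vc x h y h3 h4).trans (hc 1 (Or.inl rfl) x h1 h2)
    · exact (hc y h x h1 h2).trans (vc 1 (Or.inl rfl) y h3 h4)
  have lp := loc_prop v
  have hv : v < 16 := by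
    by_contra h
    rw [gl_big _ _ (not_lt.1 h)] at hf
    simp only [Inn] at hf
    omega
  generalize hx : gl i0 j0 v = w at hf ⊢
  obtain ⟨x, y, e⟩ := w
  simp only [gl, Prod.mk.injEq] at hx
  simp only [Inn] at hf
  have he : e ≤ 6 := by omega
  interval_cases e
  · exact c0 x y (by omega) (by omega) (by omega) (by omega) (by omega)
  · exact (vt x y (by omega) (by omega)).1.trans
      (c0 x y (by omega) (by omega) (by omega) (by omega) (by omega))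
  · exact (vt x y (by omega) (by omega)).2.1.trans
      (c0 x y (by omega) (by omega) (by omega) (by omega) (by omega))
  · exact (hz x y (by omega) (by omega)).1.trans
      (c0 x y (by omega) (by omega) (by omega) (by omega) (by omega))
  · exact (hz x y (by omega) (by omega)).2.1.trans
      (c0 x y (by omega) (by omega) (by omega) (by omega) (by omega))
  · exact (hz x y (by omega) (by omega)).2.2.1.trans
      (c0 x y (by omega) (by omega) (by omega) (by omega) (by omega))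
  · exact (hz x y (by omega) (by omega)).2.2.2.1.trans
      (c0 x y (by omega) (by omega) (by omega) (by omega) (by omega))

variable {p : Vx → ℂ}

theorem good_copy (hT : ∀ i j, Top (tr i j) (nn i j) (ql i j))
    (h : PG (VG tr W H) (Ad (Rect tr 1 (W + 1) 1 (H + 1)) (TT tr)) p) {a b a' b' c d : ℕ}
    (h1 : 2 ≤ a) (h2 : b < a') (h3 : b' ≤ W) (h4 : 2 ≤ c) (h5 : d ≤ H) (h6 : a ≤ b) (h7 : a' ≤ b') :
    (∀ k ∈ Rect tr a b c d, ¬ Bad (VG tr W H) p (TT tr k)) ∨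
      ∀ k ∈ Rect tr a' b' c d, ¬ Bad (VG tr W H) p (TT tr k) := by
  by_contra hc
  push Not at hc
  obtain ⟨⟨k, hk, b1⟩, k', hk', b2⟩ := hc
  have esc : ∀ k, (2 ≤ k.1.1 ∧ k.1.1 < W) → (2 ≤ k.1.2 ∧ k.1.2 < H) →
      k ∈ Rect tr 1 (W + 1) 1 (H + 1) → Bad (VG tr W H) p (TT tr k) →
      ∀ w ∈ VG tr W H, ¬ Vt (TT tr k) w → onT p InsU (TT tr k) (p w) := by
    intro k e1 e2 hk hb
    refine h.escape (Q_emb hT (Nat.zero_le (W + 2)) (Nat.zero_le (H + 2)))
      (rect_mono (by omega) (by omega) (by omega) (by omega)) VG_finite (fun w hw => full_S hT hw)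
      (Fr := fun w => ¬ Inn 1 (W + 1) 1 (H + 1) w) (fun w hw => ?_) (fun R hR u hu v hv f1 f2 r => ?_)
      hk (fun w hw hv => ?_) hb
    · by_cases e : Inn 1 (W + 1) 1 (H + 1) w
      · exact Or.inr (full_VG hT hw e)
      · exact Or.inl e
    · exact (frame_con hT R hR hv f2).2 ((frame_con hT R hR hu f1).1 r)
    · obtain ⟨v, -, rfl⟩ := vt_map.1 hv
      exact hw (inn_gl v (by omega) (by omega))
  have m1 := mem_rect.1 hk
  have m2 := mem_rect.1 hk'
  have g1 : k ∈ Rect tr 1 (W + 1) 1 (H + 1) := rect_mono (by omega) (by omega) (by omega) (by omega) hk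
  have g2 : k' ∈ Rect tr 1 (W + 1) 1 (H + 1) := rect_mono (by omega) (by omega) (by omega) (by omega) hk'
  have dj : ∀ w, Vt (TT tr k) w → Vt (TT tr k') w → False := by
    intro w e1 e2
    obtain ⟨v, -, rfl⟩ := vt_map.1 e1
    obtain ⟨v', -, e⟩ := vt_map.1 e2
    have := loc_prop v
    simp only [gl, Prod.mk.injEq] at e
    omega
  exact mutual_false (fun w hw => esc k (by omega) (by omega) g1 b1 w ⟨k', g2, hw⟩ fun e => dj w e hw)
    fun w hw => esc k' (by omega) (by omega) g2 b2 w ⟨k, g1, hw⟩ (dj w hw)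

theorem orient (hT : ∀ i j, Top (tr i j) (nn i j) (ql i j))
    (h : PG (VG tr W H) (Ad (Rect tr 1 (W + 1) 1 (H + 1)) (TT tr)) p) {a b c d : ℕ}
    (h1 : 1 ≤ a) (h3 : b ≤ W) (h4 : 1 ≤ c) (h5 : d ≤ H)
    (nb : ∀ k ∈ Rect tr a b c d, ¬ Bad (VG tr W H) p (TT tr k)) :
    (∀ k ∈ Rect tr a b c d, 0 < onT p ar (TT tr k)) ∨ ∀ k ∈ Rect tr a b c d, onT p ar (TT tr k) < 0 := by
  have sub : Rect tr a b c d ⊆ Rect tr 1 (W + 1) 1 (H + 1) :=
    rect_mono (by omega) (by omega) (by omega) (by omega)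
  have hQ := Q_emb hT (Nat.le_add_left 1 W) (Nat.le_add_left 1 H)
  have step : ∀ k ∈ Rect tr a b c d, ∀ k' ∈ Rect tr a b c d, ∀ u v x y, Cn (TT tr k) u v x →
      Cn (TT tr k') v u y → (0 < onT p ar (TT tr k) ↔ 0 < onT p ar (TT tr k')) := by
    intro k hk k' hk' u v x y c1 c2
    obtain ⟨a1, a2, a3⟩ := ad_tri (sub hk) c1
    obtain ⟨b1, b2, b3⟩ := ad_tri (sub hk') c2
    have q1 := hQ.pos k (sub hk)
    have q2 := hQ.pos k' (sub hk')
    rw [c1.ar] at q1 ⊢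
    rw [c2.ar] at q2 ⊢
    have n : x ≠ y := by rintro rfl; rw [ar_swap] at q2; linarith
    refine h.fold a1 a2 a3 b2 b3 n (fun e => nb k hk ⟨y, h.mem _ _ b3, ?_, (c1.insU p _).2 e⟩)
      fun e => nb k' hk' ⟨x, h.mem _ _ a3, ?_, (c2.insU p _).2 e⟩
    · rw [c1.vt]; simp [n.symm, (h.irr _ _ b2).symm, h.irr _ _ b3]
    · rw [c2.vt]; simp [n, (h.irr _ _ a2).symm, h.irr _ _ a3]
  let τ : ℕ → ℕ → Prop := fun i j => 0 < onT p ar (TT tr ⟨(i, j), 0⟩)
  have tile : ∀ i j, (a ≤ i ∧ i < b) → (c ≤ j ∧ j < d) → ∀ n < (tr i j).length,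
      (0 < onT p ar (TT tr ⟨(i, j), n⟩) ↔ τ i j) := by
    intro i j hi hj n
    induction n using Nat.strong_induction_on with
    | _ n ih =>
      intro hn
      rcases (hT i j).dual n hn with rfl | ⟨m, hm, hs⟩
      · rfl
      · obtain ⟨u, v, x, y, c1, c2⟩ := share_cn hs
        exact (step ⟨(i, j), m⟩ (mem_rect.2 ⟨hi, hj, by simp; omega⟩) ⟨(i, j), n⟩
          (mem_rect.2 ⟨hi, hj, hn⟩) _ _ _ _ (c1.map _) (c2.map _)).symm.trans (ih m hm (by omega))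
  have tile' : ∀ k ∈ Rect tr a b c d, (0 < onT p ar (TT tr k) ↔ τ k.1.1 k.1.2) := fun k hk =>
    tile _ _ (mem_rect.1 hk).1 (mem_rect.1 hk).2.1 _ (mem_rect.1 hk).2.2
  have link : ∀ i j i' j' s s', (a ≤ i ∧ i < b) → (c ≤ j ∧ j < d) → (a ≤ i' ∧ i' < b) →
      (c ≤ j' ∧ j' < d) → s < 16 → s' < 16 → gl i j s = gl i' j' ((s' + 1) % 16) →
      gl i j ((s + 1) % 16) = gl i' j' s' → (τ i j ↔ τ i' j') := by
    intro i j i' j' s s' hi hj hi' hj' hs hs' e1 e2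
    obtain ⟨t, ht, z, hc⟩ := (hT i j).ok.bd hs
    obtain ⟨t', ht', z', hc'⟩ := (hT i' j').ok.bd hs'
    obtain ⟨k, hk, f1, e⟩ := tri_rect hi hj ht
    obtain ⟨k', hk', f2, e'⟩ := tri_rect hi' hj' ht'
    have := step k hk k' hk' _ _ _ _ (e ▸ hc.map (gl i j)) (by rw [e', e1, e2]; exact hc'.map _)
    rwa [tile' k hk, tile' k' hk', f1, f2] at this
  have all : ∀ i, a ≤ i → i < b → ∀ j, c ≤ j → j < d → (τ i j ↔ τ a c) := by
    intro i hi hi' j hj hj'
    have e1 : ∀ j, c ≤ j → j < d → (τ i j ↔ τ i c) := by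
      intro j hj
      induction j, hj using Nat.le_induction with
      | base => intro _; rfl
      | succ j hj ih =>
        intro h
        exact (link i j i (j + 1) 11 1 (by omega) (by omega) (by omega) (by omega) (by omega)
          (by omega) (by simp [gl, loc]) (by simp [gl, loc])).symm.trans (ih (by omega))
    have e2 : ∀ i, a ≤ i → i < b → (τ i c ↔ τ a c) := by
      intro i hi
      induction i, hi using Nat.le_induction with
      | base => intro _; rfl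
      | succ i hi ih =>
        intro h
        exact (link i c (i + 1) c 6 14 (by omega) (by omega) (by omega) (by omega) (by omega)
          (by omega) (by simp [gl, loc]) (by simp [gl, loc])).symm.trans (ih (by omega))
    exact (e1 j hj hj').trans (e2 i hi hi')
  have fin : ∀ k ∈ Rect tr a b c d, (0 < onT p ar (TT tr k) ↔ τ a c) := fun k hk => by
    have m := mem_rect.1 hk
    exact (tile' k hk).trans (all _ m.1.1 m.1.2 _ m.2.1.1 m.2.1.2)
  by_cases e : τ a c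
  · exact Or.inl fun k hk => (fin k hk).2 e
  · refine Or.inr fun k hk => lt_of_le_of_ne (not_lt.1 fun x => e ((fin k hk).1 x)) ?_
    obtain ⟨a1, a2, a3⟩ := ad_tri (sub hk) (cn_self _)
    exact h.nondeg a1 a2 a3

/-- The angle system on a rectangle of tiles. -/
structure Ang (tr : ℕ → ℕ → List Vx) (nn : ℕ → ℕ → ℕ) (p : Vx → ℂ) (a b c d : ℕ)
    (θ : ℕ → ℕ → ℕ → ℝ) : Prop where
  pos : ∀ i j, (a ≤ i ∧ i < b) → (c ≤ j ∧ j < d) → ∀ t ∈ tr i j, 0 < onT (fun v => p (gl i j v)) ar t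
  int : ∀ i j, (a ≤ i ∧ i < b) → (c ≤ j ∧ j < d) → ∀ v, 16 ≤ v → v < nn i j →
    Dl (tr i j) (fun v => p (gl i j v)) v = 2 * π
  dif : ∀ i j s s', θ i j s - θ i j s' = th0 (Dl (tr i j) fun v => p (gl i j v)) s -
    th0 (Dl (tr i j) fun v => p (gl i j v)) s'
  hor : ∀ i j, (a ≤ i ∧ i + 1 < b) → (c ≤ j ∧ j < d) → θ i j 6 = θ (i + 1) j 14 - π
  ver : ∀ i j, (a ≤ i ∧ i < b) → (c ≤ j ∧ j + 1 < d) →
    θ i j 11 - π = θ i (j + 1) 1 ∧ θ i j 9 - π = θ i (j + 1) 3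

theorem ang_of_pos (hT : ∀ i j, Top (tr i j) (nn i j) (ql i j))
    (h : PG (VG tr W H) (Ad (Rect tr 1 (W + 1) 1 (H + 1)) (TT tr)) p) {a b c d : ℕ}
    (h1 : 1 ≤ a) (h3 : b ≤ W) (h4 : 1 ≤ c) (h5 : d ≤ H)
    (nb : ∀ k ∈ Rect tr a b c d, ¬ Bad (VG tr W H) p (TT tr k))
    (pos : ∀ k ∈ Rect tr a b c d, 0 < onT p ar (TT tr k)) : ∃ θ, Ang tr nn p a b c d θ := by
  let D : ℕ → ℕ → ℕ → ℝ := fun i j => Dl (tr i j) fun v => p (gl i j v)
  have pos' : ∀ i j, (a ≤ i ∧ i < b) → (c ≤ j ∧ j < d) → ∀ t ∈ tr i j,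
      0 < onT (fun v => p (gl i j v)) ar t := by
    intro i j hi hj t ht
    obtain ⟨k, hk, -, e⟩ := tri_rect hi hj ht
    have := pos k hk
    rwa [e] at this
  have vs : ∀ i j v e, v < nn (i + 1) (j + 1) → loc v = (0, 0, e) → Inn a b c d (i + 1, j + 1, e) →
      D (i + 1) (j + 1) v + Dg tr p i (j + 1) (i + 1, j + 1, e) +
      Dg tr p (i + 1) j (i + 1, j + 1, e) + Dg tr p i j (i + 1, j + 1, e) = 2 * π := by
    intro i j v e0 hv e1 hi
    have e : gl (i + 1) (j + 1) v = (i + 1, j + 1, e0) := by simp [gl, e1]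
    have hi' : Inn a b c d (gl (i + 1) (j + 1) v) := e ▸ hi
    obtain ⟨t, ht, hv⟩ := (hT _ _).used hv
    obtain ⟨k, hk, -, ek⟩ := tri_rect hi'.tile.1 hi'.tile.2 ht
    have := h.vsum (Q_emb hT (Nat.zero_le (W + 2)) (Nat.zero_le (H + 2)))
      (rect_mono (by omega) (by omega) (by omega) (by omega))
      (rect_mono (by omega) (by omega) (by omega) (by omega)) (fun w hw => full_S hT hw) pos nb
      ⟨k, hk, ek ▸ vt_map.2 ⟨v, hv, e.symm⟩⟩ (tel_inn (fun i j => (hT i j).ok) p hi)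
    rwa [sum4 p hi, ← e, Dg_gl, e] at this
  have z : ∀ i j x y e, (x = i + 1 ∧ ¬ e ≤ 2) ∨ (y = j + 1 ∧ ¬ (e = 0 ∨ 3 ≤ e ∧ e ≤ 6)) →
      Dg tr p i j (x, y, e) = 0 := by
    intro i j x y e he
    refine Dg_zero p fun v hv => ?_
    have := loc_prop v
    simp only [gl, Prod.mk.injEq] at hv
    omega
  have g : ∀ i j v w, gl i j v = w → Dg tr p i j w = D i j v := by
    rintro i j v w rfl; exact Dg_gl p i j v
  have int : ∀ i j, (a ≤ i ∧ i < b) → (c ≤ j ∧ j < d) → ∀ v, 16 ≤ v → v < nn i j → D i j v = 2 * π := by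
    intro i j hi hj v h16 hv
    obtain ⟨i, rfl⟩ : ∃ x, i = x + 1 := ⟨i - 1, by omega⟩
    obtain ⟨j, rfl⟩ : ∃ x, j = x + 1 := ⟨j - 1, by omega⟩
    have := vs i j v v hv (loc_big h16) (by simp only [Inn]; omega)
    rw [z i (j + 1) _ _ _ (by omega), z (i + 1) j _ _ _ (by omega), z i j _ _ _ (by omega)] at this
    linarith
  have n16 : ∀ i j, 16 ≤ nn i j := fun i j => (hT i j).len.1
  obtain ⟨k, k1, k2⟩ := potentials (a := a) (b := b) (c := c) (d := d) (D := D)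
    (fun i j hi hj => by
      have e1 := lin_D (hT i j).lt (fun v => p (gl i j v)) fun _ => 1
      simp only [one_mul] at e1
      rw [List.map_congr_left (g := fun _ => π) fun t ht =>
        ang_sum _ (ne_of_ar (pos' i j hi hj t ht).ne').1, ← sum_range_add_sum_Ico _ (n16 i j),
        sum_congr rfl fun v hv => int i j hi hj v (mem_Ico.1 hv).1 (mem_Ico.1 hv).2] at e1
      simp only [sum_const, Nat.card_Ico, List.map_const', List.sum_replicate, (hT i j).len.2,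
        nsmul_eq_mul] at e1
      push_cast at e1
      linarith)
    (fun i j hi hj => by
      obtain ⟨j, rfl⟩ : ∃ x, j = x + 1 := ⟨j - 1, by omega⟩
      have e1 := vs i j 15 1 (by have := n16 (i + 1) (j + 1); omega) rfl (by simp only [Inn]; omega)
      have e2 := vs i j 14 2 (by have := n16 (i + 1) (j + 1); omega) rfl (by simp only [Inn]; omega)
      rw [g i (j + 1) 6 (i + 1, j + 1, 1) rfl, z (i + 1) j _ _ _ (by omega), z i j _ _ _ (by omega)] at e1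
      rw [g i (j + 1) 7 (i + 1, j + 1, 2) rfl, z (i + 1) j _ _ _ (by omega), z i j _ _ _ (by omega)] at e2
      constructor <;> linarith)
    (fun i j hi hj => by
      obtain ⟨i, rfl⟩ : ∃ x, i = x + 1 := ⟨i - 1, by omega⟩
      have e1 := vs i j 1 3 (by have := n16 (i + 1) (j + 1); omega) rfl (by simp only [Inn]; omega)
      have e2 := vs i j 2 4 (by have := n16 (i + 1) (j + 1); omega) rfl (by simp only [Inn]; omega)
      have e3 := vs i j 3 5 (by have := n16 (i + 1) (j + 1); omega) rfl (by simp only [Inn]; omega)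
      have e4 := vs i j 4 6 (by have := n16 (i + 1) (j + 1); omega) rfl (by simp only [Inn]; omega)
      rw [z i (j + 1) _ _ _ (by omega), g (i + 1) j 12 (i + 1, j + 1, 3) rfl, z i j _ _ _ (by omega)] at e1
      rw [z i (j + 1) _ _ _ (by omega), g (i + 1) j 11 (i + 1, j + 1, 4) rfl, z i j _ _ _ (by omega)] at e2
      rw [z i (j + 1) _ _ _ (by omega), g (i + 1) j 10 (i + 1, j + 1, 5) rfl, z i j _ _ _ (by omega)] at e3
      rw [z i (j + 1) _ _ _ (by omega), g (i + 1) j 9 (i + 1, j + 1, 6) rfl, z i j _ _ _ (by omega)] at e4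
      refine ⟨?_, ?_, ?_, ?_⟩ <;> linarith)
    (fun i j hi hj => by
      have e1 := vs i j 0 0 (by have := n16 (i + 1) (j + 1); omega) rfl (by simp only [Inn]; omega)
      rwa [g i (j + 1) 5 (i + 1, j + 1, 0) rfl, g (i + 1) j 13 (i + 1, j + 1, 0) rfl,
        g i j 8 (i + 1, j + 1, 0) rfl] at e1)
  exact ⟨fun i j s => k i j + th0 (D i j) s, pos', int, fun i j s s' => by simp [D], k1, k2⟩

theorem rigid (hT : ∀ i j, Top (tr i j) (nn i j) (ql i j))
    (h : PG (VG tr W H) (Ad (Rect tr 1 (W + 1) 1 (H + 1)) (TT tr)) p) {a b a' b' c d : ℕ}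
    (h1 : 2 ≤ a) (h2 : b < a') (h3 : b' ≤ W) (h4 : 2 ≤ c) (h5 : d ≤ H) (h6 : a ≤ b) (h7 : a' ≤ b') :
    ∃ p' : Vx → ℂ, (∀ u v, ‖p' u - p' v‖ = ‖p u - p v‖) ∧
      ∃ θ, Ang tr nn p' a b c d θ ∨ Ang tr nn p' a' b' c d θ := by
  have key : ∀ a b, 1 ≤ a → b ≤ W → (∀ k ∈ Rect tr a b c d, ¬ Bad (VG tr W H) p (TT tr k)) →
      ∃ p' : Vx → ℂ, (∀ u v, ‖p' u - p' v‖ = ‖p u - p v‖) ∧ ∃ θ, Ang tr nn p' a b c d θ := by
    intro a b e1 e2 nb
    rcases orient hT h e1 e2 (by omega) h5 nb with e | e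
    · exact ⟨p, fun _ _ => rfl, ang_of_pos hT h e1 e2 (by omega) h5 nb e⟩
    · have hc : ∀ a b c : ℂ, ar ((starRingEnd ℂ) a) ((starRingEnd ℂ) b) ((starRingEnd ℂ) c) =
          -ar a b c := fun a b c => by simp [ar, cr]; ring
      refine ⟨fun v => (starRingEnd ℂ) (p v), fun u v => by rw [← map_sub, Complex.norm_conj],
        ang_of_pos (p := fun v => (starRingEnd ℂ) (p v)) hT ⟨h.sep.map Complex.conjAe.toLinearMap Complex.conjAe.injective, h.mem, h.symm,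
          h.irr⟩ e1 e2 (by omega) h5 (fun k hk ⟨w, hw, hv, hi⟩ => nb k hk ⟨w, hw, hv, ?_⟩)
          fun k hk => ?_⟩
      · simp only [onT, InsU, Ins, hc] at hi ⊢
        rcases hi with ⟨x, y, z⟩ | ⟨x, y, z⟩
        · exact Or.inr ⟨by rwa [ar_swap], by rwa [ar_swap], by rwa [ar_swap]⟩
        · exact Or.inl ⟨by rwa [ar_swap], by rwa [ar_swap], by rwa [ar_swap]⟩
      · have := e k hk
        simp only [onT, hc] at this ⊢
        linarith
  rcases good_copy hT h h1 h2 h3 h4 h5 h6 h7 with e | e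
  · obtain ⟨p', e1, θ, e2⟩ := key a b (by omega) (by omega) e
    exact ⟨p', e1, θ, Or.inl e2⟩
  · obtain ⟨p', e1, θ, e2⟩ := key a' b' (by omega) (by omega) e
    exact ⟨p', e1, θ, Or.inr e2⟩

end Pool.Agent.MP_a4408f_lc
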