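import Mathlib
import Pool.Agent.MP_a4408f_lc.Rigid

/-! Certificates for linear inequalities between angles in a tile. -/

namespace Pool.Agent.MP_a4408f_lc

open Finset Real

/-- A triangle with the labels (true = short) of its three sides. -/
abbrev TD := ℕ × ℕ × ℕ × Bool × Bool × Bool

/-- Forget the labels. -/
def tri (t : TD) : Vx := (t.1, t.2.1, t.2.2.1)

/-- Rotate. -/
def rt (t : TD) : TD := (t.2.1, t.2.2.1, t.1, t.2.2.2.2.1, t.2.2.2.2.2, t.2.2.2.1)

/-- Default triangle. -/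
def td0 : TD := (0, 0, 0, true, true, true)

/-- A corner. -/
def crn (l : List TD) (c : ℕ × ℕ) : TD :=
  if c.2 = 0 then l.getD c.1 td0 else if c.2 = 1 then rt (l.getD c.1 td0) else rt (rt (l.getD c.1 td0))

/-- The angle at the first vertex. -/
noncomputable def A1 (q : ℕ → ℂ) (t : TD) : ℝ := ang (q t.1) (q t.2.1) (q t.2.2.1)

/-- The label is correct. -/
def Lb {V : Type} (q : V → ℂ) (u v : V) (s : Bool) : Prop := ‖q u - q v‖ ≤ 1 ↔ s = true

/-- The labels of the triangle are correct. -/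
def Lab (q : ℕ → ℂ) (t : TD) : Prop :=
  Lb q t.1 t.2.1 t.2.2.2.1 ∧ Lb q t.2.1 t.2.2.1 t.2.2.2.2.1 ∧ Lb q t.2.2.1 t.1 t.2.2.2.2.2

/-- Positive with correct labels. -/
def Good (q : ℕ → ℂ) (t : TD) : Prop := 0 < ar (q t.1) (q t.2.1) (q t.2.2.1) ∧ Lab q t

lemma Good.rt {q : ℕ → ℂ} {t : TD} (h : Good q t) : Good q (rt t) :=
  ⟨by simpa only [MP_a4408f_lc.rt, ar_rot (q t.1)] using h.1, h.2.2.1, h.2.2.2, h.2.1⟩

lemma good_crn {q : ℕ → ℂ} {l : List TD} (h : ∀ t ∈ l, Good q t) {c : ℕ × ℕ} (hc : c.1 < l.length) :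
    Good q (crn l c) := by
  have := h _ (MP_485bb6_lc.getD_mem l td0 hc)
  unfold crn
  split_ifs
  exacts [this, this.rt, this.rt.rt]

/-- The first angle is smaller than the second, in one triangle. -/
def t2 (x y : TD) : Bool :=
  x.2.2.2.2.1 && ((y == rt x && !x.2.2.2.2.2) || (y == rt (rt x) && !x.2.2.2.1))

/-- The first angle is smaller than the second, in two triangles with a common short base. -/
def t3 (x y : TD) : Bool :=
  x.2.2.2.2.1 && y.2.2.2.1 && y.2.2.2.2.2 && !y.2.2.2.2.1 && (y.2.1 == x.1 || y.2.2.1 == x.1) &&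
    ((!x.2.2.2.2.2 && y.1 == x.2.1) || (!x.2.2.2.1 && y.1 == x.2.2.1))

lemma t2_ok {q : ℕ → ℂ} {x y : TD} (hx : Good q x) (h : t2 x y = true) : A1 q x < A1 q y := by
  obtain ⟨a, b, c, s1, s2, s3⟩ := x
  obtain ⟨h0, h1, h2, h3⟩ := hx
  simp only [t2, Bool.and_eq_true, Bool.or_eq_true, beq_iff_eq, Bool.not_eq_true'] at h
  simp only [Lb] at h0 h1 h2 h3
  obtain ⟨rfl, ⟨rfl, rfl⟩ | ⟨rfl, rfl⟩⟩ := h
  · simp only [A1, rt]
    rw [ang_comm (q b) (q a)]
    exact angT2 h0.ne' (h2.2 rfl) (by rw [norm_sub_rev]; simpa using h3)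
  · simp only [A1, rt]
    rw [← ang_comm (q a)]
    exact angT2 (by rw [ar_swap']; linarith) (by rw [norm_sub_rev]; exact h2.2 rfl) (by simpa using h1)

lemma t3_ok {q : ℕ → ℂ} {x y : TD} (hx : Good q x) (hy : Good q y) (h : t3 x y = true) :
    A1 q x < A1 q y := by
  obtain ⟨a, b, c, s1, s2, s3⟩ := x
  obtain ⟨a', b', c', s1', s2', s3'⟩ := y
  obtain ⟨h0, h1, h2, h3⟩ := hx
  obtain ⟨g0, g1, g2, g3⟩ := hy
  simp only [t3, Bool.and_eq_true, Bool.or_eq_true, beq_iff_eq, Bool.not_eq_true'] at h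
  simp only [Lb] at h0 h1 h2 h3 g0 g1 g2 g3
  obtain ⟨⟨⟨⟨⟨rfl, rfl⟩, rfl⟩, rfl⟩, e1⟩, e2⟩ := h
  have h2 := h2.2 rfl
  have g1 := g1.2 rfl
  have g3 := g3.2 rfl
  have g2 : 1 < ‖q b' - q c'‖ := by simpa using g2
  have h0' : ar (q a) (q c) (q b) ≠ 0 := by rw [ar_swap']; linarith
  have g0' : ar (q a') (q c') (q b') ≠ 0 := by rw [ar_swap']; linarith
  simp only [A1]
  rcases e1 with rfl | rfl <;> rcases e2 with ⟨rfl, rfl⟩ | ⟨rfl, rfl⟩
  · exact angT3 h0.ne' g0.ne' (norm_sub_rev _ _) (by rwa [norm_sub_rev])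
      (by rw [norm_sub_rev]; simpa using h3) h2 (by rwa [norm_sub_rev]) g2
  · rw [← ang_comm (q b')]
    exact angT3 h0' g0.ne' (norm_sub_rev _ _) (by rwa [norm_sub_rev])
      (by simpa using h1) (by rwa [norm_sub_rev]) (by rwa [norm_sub_rev]) g2
  · rw [← ang_comm (q a')]
    exact angT3 h0.ne' g0' (norm_sub_rev _ _) g3
      (by rw [norm_sub_rev]; simpa using h3) h2 g1 (by rwa [norm_sub_rev])
  · rw [← ang_comm (q c'), ← ang_comm (q a')]
    exact angT3 h0' g0' (norm_sub_rev _ _) g3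
      (by simpa using h1) (by rwa [norm_sub_rev]) g1 (by rwa [norm_sub_rev])

/-- A linear form in the corner angles. -/
abbrev LF := List ((ℕ × ℕ) × ℤ)

/-- Its value. -/
noncomputable def ev (q : ℕ → ℂ) (l : List TD) (es : LF) : ℝ :=
  (es.map fun e => (e.2 : ℝ) * A1 q (crn l e.1)).sum

/-- Its coefficients. -/
def cf (es : LF) (k j : ℕ) : ℤ :=
  ((es.filter fun e => e.1.1 == k).map fun e => if e.1.2 = j then e.2 else 0).sum

lemma ev_eq (q : ℕ → ℂ) (l : List TD) (es : LF) (h : ∀ e ∈ es, e.1.1 < l.length ∧ e.1.2 < 3) :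
    ev q l es = ∑ n ∈ range l.length, (cf es n 0 * A1 q (crn l (n, 0)) +
      cf es n 1 * A1 q (crn l (n, 1)) + cf es n 2 * A1 q (crn l (n, 2))) := by
  induction es with
  | nil => simp [ev, cf]
  | cons e es ih =>
    have ih := ih fun e he => h e (List.mem_cons_of_mem _ he)
    obtain ⟨h1, h2⟩ := h e List.mem_cons_self
    obtain ⟨⟨n, k⟩, z⟩ := e
    have e : ∀ m j, cf (((n, k), z) :: es) m j = (if n = m then if k = j then z else 0 else 0) + cf es m j := by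
      intro m j
      by_cases a : n = m <;> simp [cf, a]
    simp only [ev, e, List.map_cons, List.sum_cons, Int.cast_add, add_mul, sum_add_distrib] at ih ⊢
    rw [ih]
    simp only at h1 h2
    interval_cases k <;> simp [h1] <;> ring

/-- A primitive inequality: low corner, high corner, coefficient, kind. -/
abbrev Pr := (ℕ × ℕ) × (ℕ × ℕ) × ℕ × ℕ

/-- The linear form of the primitive inequalities. -/
def pes (P : List Pr) : LF :=
  P.flatMap fun x => if x.2.2.2 = 0 then [(x.2.1, (x.2.2.1 : ℤ))]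
    else [(x.2.1, (x.2.2.1 : ℤ)), (x.1, -(x.2.2.1 : ℤ))]

/-- Validity of a primitive inequality. -/
def prOk (l : List TD) (x : Pr) : Bool :=
  x.2.2.2 == 0 || (decide (x.1.1 < l.length) && decide (x.2.1.1 < l.length) &&
    (t2 (crn l x.1) (crn l x.2.1) || t3 (crn l x.1) (crn l x.2.1)))

lemma ev_append (q : ℕ → ℂ) (l : List TD) (e1 e2 : LF) : ev q l (e1 ++ e2) = ev q l e1 + ev q l e2 := by
  simp [ev]

lemma pes_nonneg {q : ℕ → ℂ} {l : List TD} (h : ∀ t ∈ l, Good q t) (P : List Pr)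
    (hP : ∀ x ∈ P, prOk l x = true) : 0 ≤ ev q l (pes P) := by
  induction P with
  | nil => simp [ev, pes]
  | cons x P ih =>
    have ih := ih fun e he => hP e (List.mem_cons_of_mem _ he)
    have hx := hP x List.mem_cons_self
    simp only [pes, List.flatMap_cons] at ih ⊢
    rw [ev_append]
    refine add_nonneg ?_ ih
    split_ifs with h0
    · simp only [ev, List.map_cons, List.map_nil, List.sum_cons, List.sum_nil, add_zero]
      exact mul_nonneg (by positivity) (ang_nonneg _ _ _)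
    · simp only [prOk, Bool.or_eq_true, beq_iff_eq, h0, false_or, Bool.and_eq_true,
        decide_eq_true_eq] at hx
      have : A1 q (crn l x.1) < A1 q (crn l x.2.1) :=
        hx.2.elim (t2_ok (good_crn h hx.1.1)) (t3_ok (good_crn h hx.1.1) (good_crn h hx.1.2))
      simp only [ev, List.map_cons, List.map_nil, List.sum_cons, List.sum_nil, add_zero]
      push_cast
      nlinarith [Nat.cast_nonneg (α := ℝ) x.2.2.1]

/-- A certificate. -/
structure Ce where
  s1 : ℕ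
  s0 : ℕ
  N : ℕ
  kap : ℤ
  E : LF
  P : List Pr
  mu : ℕ

/-- Vertex multipliers. -/
def Ce.muf (c : Ce) (v : ℕ) : ℤ := ((c.mu >>> (8 * v)) % 256 : ℕ) - 128

/-- Triangle multipliers. -/
def Ce.lam (c : Ce) (l : List TD) (k : ℕ) : ℤ := cf (c.E ++ pes c.P) k 0 - c.muf (l.getD k td0).1

/-- The check of a certificate. -/
def Ce.ok (c : Ce) (l : List TD) (n : ℕ) : Bool :=
  decide (c.s1 < 16) && decide (c.s0 < 16) &&
  (List.range 16).all (fun v => c.muf v ==
    c.N * ((if 1 ≤ v ∧ v ≤ c.s1 then 1 else 0) - (if 1 ≤ v ∧ v ≤ c.s0 then 1 else 0))) &&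
  decide (c.kap = c.N * ((c.s1 : ℤ) - c.s0) + ((List.range l.length).map (c.lam l)).sum +
    2 * ((List.range (n - 16)).map fun v => c.muf (16 + v)).sum) &&
  c.P.all (prOk l) && (c.E ++ pes c.P).all (fun e => decide (e.1.1 < l.length) && decide (e.1.2 < 3)) &&
  (List.range l.length).all fun k =>
    cf (c.E ++ pes c.P) k 1 == c.lam l k + c.muf (l.getD k td0).2.1 &&
    cf (c.E ++ pes c.P) k 2 == c.lam l k + c.muf (l.getD k td0).2.2.1

lemma th0_eq (D : ℕ → ℝ) {s : ℕ} (hs : s < 16) :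
    th0 D s = s * π - ∑ v ∈ range 16, (if 1 ≤ v ∧ v ≤ s then 1 else 0) * D v := by
  interval_cases s <;> simp [th0, sum_range_succ] <;> ring

lemma sum_range_eq (n : ℕ) (f : ℕ → ℤ) : ∑ v ∈ range n, f v = ((List.range n).map f).sum := rfl

theorem Ce.sound {c : Ce} {l : List TD} {n : ℕ} (hc : c.ok l n = true) {q : ℕ → ℂ}
    (h : ∀ t ∈ l, Good q t) (lt : ∀ t ∈ l.map tri, t.1 < n ∧ t.2.1 < n ∧ t.2.2 < n) (h16 : 16 ≤ n)
    (int : ∀ v, 16 ≤ v → v < n → Dl (l.map tri) q v = 2 * π) :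
    c.N * (th0 (Dl (l.map tri) q) c.s1 - th0 (Dl (l.map tri) q) c.s0) + ev q l c.E ≤ c.kap * π := by
  simp only [Ce.ok, Bool.and_eq_true, decide_eq_true_eq, List.all_eq_true, List.mem_range,
    beq_iff_eq] at hc
  obtain ⟨⟨⟨⟨⟨⟨c1, c2⟩, c3⟩, c5⟩, c6⟩, c7⟩, c8⟩ := hc
  rw [← sum_range_eq, ← sum_range_eq] at c5
  have e1 := pes_nonneg h c.P c6
  have e2 := ev_eq q l _ c7
  have e3 := lin_D lt q fun v => c.muf v
  rw [List.map_map, ← sum_getD l td0, ← sum_range_add_sum_Ico _ h16] at e3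
  have e4 : ∑ v ∈ Ico 16 n, (c.muf v : ℝ) * Dl (l.map tri) q v =
      (∑ v ∈ range (n - 16), (c.muf (16 + v) : ℝ)) * (2 * π) := by
    rw [sum_congr rfl fun v hv => by rw [int v (mem_Ico.1 hv).1 (mem_Ico.1 hv).2], ← sum_mul,
      sum_Ico_eq_sum_range]
  have e5 : ∑ v ∈ range 16, (c.muf v : ℝ) * Dl (l.map tri) q v = c.N *
      (∑ v ∈ range 16, (if 1 ≤ v ∧ v ≤ c.s1 then 1 else 0) * Dl (l.map tri) q v -
        ∑ v ∈ range 16, (if 1 ≤ v ∧ v ≤ c.s0 then 1 else 0) * Dl (l.map tri) q v) := by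
    rw [← sum_sub_distrib, mul_sum]
    refine sum_congr rfl fun v hv => ?_
    rw [c3 v (mem_range.1 hv)]
    push_cast
    ring
  have e6 : ev q l (c.E ++ pes c.P) = (∑ k ∈ range l.length, (c.lam l k : ℝ)) * π + ∑ t ∈ range l.length,
      ((fun t : Vx => (c.muf t.1 : ℝ) * ang (q t.1) (q t.2.1) (q t.2.2) +
        c.muf t.2.1 * ang (q t.2.1) (q t.2.2) (q t.1) +
        c.muf t.2.2 * ang (q t.2.2) (q t.1) (q t.2.1)) ∘ tri) (l.getD t td0) := by
    rw [e2, sum_mul, ← sum_add_distrib]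
    refine sum_congr rfl fun k hk => ?_
    obtain ⟨a2, a3⟩ := c8 k (mem_range.1 hk)
    have a1 : cf (c.E ++ pes c.P) k 0 = c.lam l k + c.muf (l.getD k td0).1 := by simp [Ce.lam]
    have g := (h _ (MP_485bb6_lc.getD_mem l td0 (mem_range.1 hk))).1
    rw [a1, a2, a3, ← ang_sum _ (ne_of_ar g.ne').1]
    simp [crn, A1, rt, tri]
    ring
  rw [ev_append, ← e3, e4, e5] at e6
  rw [th0_eq _ c1, th0_eq _ c2, c5]
  simp only [Int.cast_add, Int.cast_mul, Int.cast_sub, Int.cast_natCast, Int.cast_ofNat, Int.cast_sum]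
  linarith

end Pool.Agent.MP_a4408f_lc
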