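import Mathlib
import Pool.Agent.MP_a4408f_lc.Cert
import Pool.Agent.MP_a4408f_lc.BDefs

/-! The layout of the tiles and the local facts guaranteed by each type of tile. -/

namespace Pool.Agent.MP_a4408f_lc

open Real

/-- The number of variables. -/
def nv (L : List BT) : ℕ :=
  (L.map fun q => q.2.1 + q.2.2.1 + q.2.2.2.1 + q.2.2.2.2.1 + q.2.2.2.2.2).sum + 1

/-- The width. -/
def Wd (L : List BT) : ℕ := 2 * nv L + 5

/-- The height. -/
def Ht (L : List BT) : ℕ := 3 + 5 * L.length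

/-- The column inside its copy. -/
def col (L : List BT) (i : ℕ) : ℕ := if i ≤ nv L + 3 then i else i - (nv L + 2)

/-- The test of a row. -/
def gq (L : List BT) (j : ℕ) : BT := L.getD ((j - 3) / 5) (false, 0, 0, 0, 0, 0)

/-- The variable tapped in a row. -/
def tv (L : List BT) (j : ℕ) : ℕ :=
  (if (gq L j).1 = true then
    [(gq L j).2.2.2.1, (gq L j).2.2.1, (gq L j).2.1, (gq L j).2.2.2.2.2, (gq L j).2.2.2.2.1]
  else [(gq L j).2.2.2.2.1, (gq L j).2.2.2.2.2, (gq L j).2.1, (gq L j).2.2.1, (gq L j).2.2.2.1]).getD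
    ((j - 3) % 5) 0

/-- The polarity of a row: one for upper bounds, zero for lower bounds. -/
def pol (L : List BT) (j : ℕ) : ℕ :=
  if (j - 3) % 5 ≤ (if (gq L j).1 = true then 2 else 1) then 1 else 0

/-- The type of a tile: 0 empty, 1 source, 2 end, 3 bus, 4 and 5 start of a tap,
6 and 7 crossing, 8 to 12 the gadget, 13 to 17 the mirrored gadget. -/
def ty (L : List BT) (i j : ℕ) : ℕ :=
  if j < 2 ∨ Ht L < j ∨ col L i < 2 ∨ nv L + 2 < col L i then 0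
  else if col L i = nv L + 2 then
    if j = 2 ∨ j = Ht L then 0 else (if (gq L j).1 = true then 13 else 8) + (j - 3) % 5
  else if j = 2 then 1
  else if j = Ht L then 2
  else if col L i - 2 < tv L j then 3
  else (if col L i - 2 = tv L j then 4 else 6) + pol L j

lemma ty_lt (L : List BT) (i j : ℕ) : ty L i j < 18 := by
  unfold ty pol
  split_ifs <;> omega

/-- The linear inequalities guaranteed by a tile. -/
def ineqs (y : ℕ) : List (ℕ × ℕ × ℤ) :=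
  [[], [(11, 9, 0)], [], [(11, 1, 6), (3, 9, -6)], [(11, 1, 6), (3, 9, -6), (6, 1, 1)],
    [(11, 1, 6), (3, 9, -6), (3, 6, -5)], [(11, 1, 6), (3, 9, -6), (6, 14, -6)],
    [(11, 1, 6), (3, 9, -6), (14, 6, 6)], [(14, 9, 6)], [(3, 9, -6), (14, 11, 5)], [],
    [(1, 14, -4), (3, 9, -6)], [(3, 14, -6)], [(14, 9, 6)], [(14, 11, 8), (3, 9, -6)], [],
    [(3, 9, -6), (1, 14, -7)], [(3, 14, -6)]].getD y []

/-- The fact guaranteed by the central tile of the gadget. -/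
def GadB (θ : ℕ → ℝ) : Prop :=
  ∀ f1 f2 f3 f4 fn : ℝ, θ 14 ≤ f1 + 7 * π / 6 → θ 11 ≤ f2 + 3 * π / 2 → θ 9 ≤ f3 + 7 * π / 6 →
    f4 - π / 6 ≤ θ 3 → fn ≤ θ 1 → -(π / 6) < f1 - fn ∧
      (|f1 - fn| < π / 6 → |f2 - fn| < π / 6 → |f3 - fn| < π / 6 → |f4 - fn| < π / 6 →
        fs (-(f3 - fn)) + fs (f4 - fn) < fs (f1 - fn) + fs (f2 - fn))

/-- The fact guaranteed by the central tile of the mirrored gadget. -/
def GadC (θ : ℕ → ℝ) : Prop :=
  ∀ f1 f2 f3 f4 fn : ℝ, f1 + 11 * π / 6 ≤ θ 14 → f2 - π / 2 ≤ θ 1 → f3 - π / 6 ≤ θ 3 →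
    θ 9 ≤ f4 + 7 * π / 6 → θ 11 ≤ fn + π → -(π / 6) < fn - f1 ∧
      (|f1 - fn| < π / 6 → |f2 - fn| < π / 6 → |f3 - fn| < π / 6 → |f4 - fn| < π / 6 →
        fs (-(fn - f3)) + fs (fn - f4) < fs (fn - f1) + fs (fn - f2))

/-- All local facts. -/
def Fact (y : ℕ) (θ : ℕ → ℝ) : Prop :=
  (∀ e ∈ ineqs y, θ e.1 - θ e.2.1 ≤ e.2.2 * (π / 6)) ∧ (y = 10 → GadB θ) ∧ (y = 15 → GadC θ)

/-- What the tile data have to satisfy. -/
structure Tiles (tl : ℕ → List TD) (tn : ℕ → ℕ) (tq : ℕ → List (ℤ × ℤ)) : Prop where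
  top : ∀ y < 18, Top ((tl y).map tri) (tn y) (tq y)
  fact : ∀ y < 18, ∀ (q : ℕ → ℂ) (θ : ℕ → ℝ), (∀ t ∈ tl y, Good q t) →
    (∀ v, 16 ≤ v → v < tn y → Dl ((tl y).map tri) q v = 2 * π) →
    (∀ s s', θ s - θ s' = th0 (Dl ((tl y).map tri) q) s - th0 (Dl ((tl y).map tri) q) s') → Fact y θ
  lab : ∀ L, ∃ p : Vx → ℂ, ∀ i < Wd L + 2, ∀ j < Ht L + 2, ∀ t ∈ tl (ty L i j),
    Lab (fun v => p (gl i j v)) t
  flex : ∀ L, BNear L → ∃ p : Vx → ℂ,
    (∀ i < Wd L + 2, ∀ j < Ht L + 2, ∀ t ∈ tl (ty L i j), Good (fun v => p (gl i j v)) t) ∧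
    (∀ i, HM p i 0 ∧ HM p i (Ht L + 2)) ∧ ∀ j, VC p 0 j ∧ VC p (Wd L + 2) j

end Pool.Agent.MP_a4408f_lc
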