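import Mathlib
import Pool.Agent.MP_a4408f_lc.Lay

/-! From the local facts of the tiles to the tests. -/

namespace Pool.Agent.MP_a4408f_lc

open Real

lemma nv_bound {L : List BT} {q : BT} (hq : q ∈ L) :
    q.2.1 + q.2.2.1 + q.2.2.2.1 + q.2.2.2.2.1 + q.2.2.2.2.2 < nv L :=
  Nat.lt_succ_of_le (List.single_le_sum (fun _ _ => Nat.zero_le _) _
    (List.mem_map_of_mem (f := fun q : BT =>
      q.2.1 + q.2.2.1 + q.2.2.2.1 + q.2.2.2.2.1 + q.2.2.2.2.2) hq))

lemma tv_lt {L : List BT} {j : ℕ} (h3 : 3 ≤ j) (hj : j < Ht L) : tv L j < nv L := by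
  have hm : gq L j ∈ L := MP_485bb6_lc.getD_mem _ _ (by unfold Ht at hj; omega)
  have := nv_bound hm
  have h5 : (j - 3) % 5 < 5 := Nat.mod_lt _ (by norm_num)
  unfold tv
  generalize (j - 3) % 5 = r at h5
  split_ifs <;> interval_cases r <;> simp <;> omega

lemma ty_shift (L : List BT) {c : ℕ} (j : ℕ) (h2 : 2 ≤ c) (hc : c ≤ nv L + 2) :
    ty L (c + (nv L + 2)) j = ty L c j := by
  have e1 : col L (c + (nv L + 2)) = c := by unfold col; split_ifs <;> omega
  have e2 : col L c = c := by unfold col; split_ifs <;> omega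
  simp only [ty, e1, e2]

lemma ty_src {L : List BT} {k : ℕ} (hk : k < nv L) : ty L (k + 2) 2 = 1 := by
  have e2 : col L (k + 2) = k + 2 := by unfold col; split_ifs <;> omega
  have : 3 ≤ Ht L := by unfold Ht; omega
  simp only [ty, e2]
  rw [if_neg (by omega), if_neg (by omega)]
  simp

lemma ty_bus {L : List BT} {k j : ℕ} (hk : k < nv L) (h3 : 3 ≤ j) (hj : j < Ht L) :
    ty L (k + 2) j = if k < tv L j then 3 else (if k = tv L j then 4 else 6) + pol L j := by
  have e2 : col L (k + 2) = k + 2 := by unfold col; split_ifs <;> omega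
  simp only [ty, e2, Nat.add_sub_cancel]
  rw [if_neg (by omega), if_neg (by omega), if_neg (by omega), if_neg (by omega)]

lemma ty_gad {L : List BT} {j : ℕ} (h3 : 3 ≤ j) (hj : j < Ht L) :
    ty L (nv L + 2) j = (if (gq L j).1 = true then 13 else 8) + (j - 3) % 5 := by
  have e2 : col L (nv L + 2) = nv L + 2 := by unfold col; split_ifs <;> omega
  simp only [ty, e2]
  rw [if_neg (by omega), if_pos trivial, if_neg (by omega)]

lemma pol_le (L : List BT) (j : ℕ) : pol L j = 0 ∨ pol L j = 1 := by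
  unfold pol; split_ifs <;> simp

theorem chain {L : List BT} {θ : ℕ → ℕ → ℕ → ℝ}
    (hor : ∀ c j, 2 ≤ c → c < nv L + 2 → 2 ≤ j → j < Ht L → θ c j 6 = θ (c + 1) j 14 - π)
    (ver : ∀ c j, 2 ≤ c → c ≤ nv L + 2 → 2 ≤ j → j + 1 < Ht L →
      θ c j 11 - π = θ c (j + 1) 1 ∧ θ c j 9 - π = θ c (j + 1) 3)
    (fact : ∀ c j, 2 ≤ c → c ≤ nv L + 2 → 2 ≤ j → j < Ht L → Fact (ty L c j) (θ c j)) :
    BSat L := by
  let φ : ℕ → ℝ := fun k => θ (k + 2) 2 11 - π
  have fb : ∀ k j, k < nv L → 3 ≤ j → j < Ht L →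
      (θ (k + 2) j 11 - θ (k + 2) j 1 ≤ π ∧ θ (k + 2) j 3 - θ (k + 2) j 9 ≤ -π) ∧
      (k = tv L j → (pol L j = 0 → θ (k + 2) j 6 - θ (k + 2) j 1 ≤ π / 6) ∧
        (pol L j = 1 → θ (k + 2) j 3 - θ (k + 2) j 6 ≤ -(5 * π / 6))) ∧
      (tv L j < k → (pol L j = 0 → θ (k + 2) j 6 - θ (k + 2) j 14 ≤ -π) ∧
        (pol L j = 1 → θ (k + 2) j 14 - θ (k + 2) j 6 ≤ π)) := by
    intro k j hk h3 hj
    have f := (fact (k + 2) j (by omega) (by omega) (by omega) hj).1
    rw [ty_bus hk h3 hj] at f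
    rcases lt_trichotomy k (tv L j) with h | h | h
    · rw [if_pos h] at f
      simp [ineqs] at f
      exact ⟨⟨by linarith [f.1], by linarith [f.2]⟩, by omega, by omega⟩
    · rw [if_neg (by omega), if_pos h] at f
      rcases pol_le L j with e | e <;> rw [e] at f ⊢ <;> simp [ineqs] at f <;>
        refine ⟨⟨by linarith [f.1], by linarith [f.2.1]⟩, fun _ => ⟨fun _ => ?_, fun _ => ?_⟩,
          by omega⟩ <;> first | omega | linarith [f.2.2]
    · rw [if_neg (by omega), if_neg (by omega)] at f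
      rcases pol_le L j with e | e <;> rw [e] at f ⊢ <;> simp [ineqs] at f <;>
        refine ⟨⟨by linarith [f.1], by linarith [f.2.1]⟩, by omega,
          fun _ => ⟨fun _ => ?_, fun _ => ?_⟩⟩ <;> first | omega | linarith [f.2.2]
  have bus : ∀ k, k < nv L → ∀ j, 3 ≤ j → j < Ht L →
      θ (k + 2) j 1 ≤ φ k ∧ φ k ≤ θ (k + 2) j 3 := by
    intro k hk j h3
    induction j, h3 using Nat.le_induction with
    | base =>
      intro hj
      have f := (fact (k + 2) 2 (by omega) (by omega) le_rfl (by omega)).1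
      rw [ty_src hk] at f
      simp [ineqs] at f
      obtain ⟨v1, v2⟩ := ver (k + 2) 2 (by omega) (by omega) le_rfl hj
      simp only [φ]
      constructor <;> linarith
    | succ j h3 ih =>
      intro hj
      obtain ⟨i1, i2⟩ := ih (by omega)
      obtain ⟨v1, v2⟩ := ver (k + 2) j (by omega) (by omega) (by omega) hj
      obtain ⟨⟨f1, f2⟩, -⟩ := fb k j hk h3 (by omega)
      constructor <;> linarith
  have tap : ∀ j, 3 ≤ j → j < Ht L → ∀ k, tv L j + 1 ≤ k → k ≤ nv L →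
      (pol L j = 0 → θ (k + 2) j 14 - π ≤ φ (tv L j) + π / 6) ∧
      (pol L j = 1 → φ (tv L j) + 5 * π / 6 ≤ θ (k + 2) j 14 - π) := by
    intro j h3 hj k hk
    induction k, hk using Nat.le_induction with
    | base =>
      intro hk
      have e := hor (tv L j + 2) j (by omega) (by omega) (by omega) hj
      obtain ⟨b1, b2⟩ := bus _ hk j h3 hj
      obtain ⟨f1, f2⟩ := (fb _ j hk h3 hj).2.1 rfl
      rw [show tv L j + 1 + 2 = tv L j + 2 + 1 from rfl, ← e]
      exact ⟨fun h => by linarith [f1 h], fun h => by linarith [f2 h]⟩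
    | succ k hk ih =>
      intro hn
      have e := hor (k + 2) j (by omega) (by omega) (by omega) hj
      obtain ⟨i1, i2⟩ := ih (by omega)
      obtain ⟨f1, f2⟩ := (fb k j hn h3 hj).2.2 hk
      rw [show k + 1 + 2 = k + 2 + 1 from rfl, ← e]
      exact ⟨fun h => by linarith [f1 h, i1 h], fun h => by linarith [f2 h, i2 h]⟩
  refine ⟨φ, fun q hq => ?_⟩
  obtain ⟨g, hg, eg⟩ := MP_485bb6_lc.exists_getD L (false, 0, 0, 0, 0, 0) hq
  have hH : ∀ r < 5, 3 ≤ 3 + 5 * g + r ∧ 3 + 5 * g + r < Ht L := fun r hr => by unfold Ht; omega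
  have eq : ∀ r < 5, gq L (3 + 5 * g + r) = q := fun r hr => by
    rw [gq, show (3 + 5 * g + r - 3) / 5 = g by omega, eg]
  have em : ∀ r < 5, (3 + 5 * g + r - 3) % 5 = r := fun r hr => by omega
  have T := fun r hr => tap _ (hH r hr).1 (hH r hr).2 (nv L) (tv_lt (hH r hr).1 (hH r hr).2) le_rfl
  have F : ∀ r < 5, Fact ((if q.1 = true then 13 else 8) + r) (θ (nv L + 2) (3 + 5 * g + r)) := by
    intro r hr
    have := fact (nv L + 2) _ (by omega) le_rfl (by have := (hH r hr).1; omega) (hH r hr).2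
    rwa [ty_gad (hH r hr).1 (hH r hr).2, eq r hr, em r hr] at this
  have V := fun r (hr : r < 4) => ver (nv L + 2) (3 + 5 * g + r) (by omega) le_rfl (by omega)
    (hH (r + 1) (by omega)).2
  have T0 := T 0 (by omega); have T1 := T 1 (by omega); have T2 := T 2 (by omega)
  have T3 := T 3 (by omega); have T4 := T 4 (by omega)
  simp only [tv, pol, eq 0 (by omega), eq 1 (by omega), eq 2 (by omega), eq 3 (by omega),
    eq 4 (by omega), em 0 (by omega), em 1 (by omega), em 2 (by omega), em 3 (by omega),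
    em 4 (by omega)] at T0 T1 T2 T3 T4
  have F0 := (F 0 (by omega)).1; have F1 := (F 1 (by omega)).1; have F2 := (F 2 (by omega)).2
  have F3 := (F 3 (by omega)).1; have F4 := (F 4 (by omega)).1
  obtain ⟨v0, w0⟩ := V 0 (by omega); obtain ⟨v1, w1⟩ := V 1 (by omega)
  obtain ⟨v2, w2⟩ := V 2 (by omega); obtain ⟨v3, w3⟩ := V 3 (by omega)
  simp only [add_assoc, Nat.reduceAdd, add_zero] at v0 w0 v1 w1 v2 w2 v3 w3 T0 T1 T2 T3 T4 F0 F1 F2 F3 F4
  obtain ⟨m, k1, k2, k3, k4, n⟩ := q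
  cases m
  · simp [ineqs] at T0 T1 T2 T3 T4 F0 F1 F2 F3 F4
    have := F2 (φ k1) (φ k2) (φ k3) (φ k4) (φ n) (by linarith) (by linarith [F3.1])
      (by linarith [F3.2]) (by linarith [F1.1]) (by linarith [F1.2])
    simp only [bwin, bholds, sg_false, one_mul]
    exact ⟨this.1, fun h => this.2 h.1 h.2.1 h.2.2.1 h.2.2.2⟩
  · simp [ineqs] at T0 T1 T2 T3 T4 F0 F1 F2 F3 F4
    have := F2 (φ k1) (φ k2) (φ k3) (φ k4) (φ n) (by linarith) (by linarith [F1.1])
      (by linarith [F1.2]) (by linarith [F3.1]) (by linarith [F3.2])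
    simp only [bwin, bholds, sg_true, neg_mul, one_mul, neg_sub]
    exact ⟨this.1, fun h => by simpa only [neg_sub] using this.2 h.1 h.2.1 h.2.2.1 h.2.2.2⟩

end Pool.Agent.MP_a4408f_lc
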