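import Mathlib
import Pool.Agent.MP_a4408f_lc.Cert

/-! Flexible realisations of a tile. -/

namespace Pool.Agent.MP_a4408f_lc

open Filter Topology

/-- Numbers of the form a + b r + (c + d r) i with r the square root of three. -/
abbrev Z4 := ℤ × ℤ × ℤ × ℤ

/-- The value. -/
noncomputable def v4 (c : Z4) : ℂ := ⟨c.1 + c.2.1 * √3, c.2.2.1 + c.2.2.2 * √3⟩

/-- The value of a real number. -/
noncomputable def v2 (x : ℤ × ℤ) : ℝ := x.1 + x.2 * √3

/-- Inner product. -/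
def dt (a b : ℂ) : ℝ := a.re * b.re + a.im * b.im

/-- Product. -/
def mul4 (a b : Z4) : Z4 :=
  (a.1 * b.1 + 3 * a.2.1 * b.2.1 - a.2.2.1 * b.2.2.1 - 3 * a.2.2.2 * b.2.2.2,
    a.1 * b.2.1 + a.2.1 * b.1 - a.2.2.1 * b.2.2.2 - a.2.2.2 * b.2.2.1,
    a.1 * b.2.2.1 + 3 * a.2.1 * b.2.2.2 + a.2.2.1 * b.1 + 3 * a.2.2.2 * b.2.1,
    a.1 * b.2.2.2 + a.2.1 * b.2.2.1 + a.2.2.1 * b.2.1 + a.2.2.2 * b.1)

/-- Cross product. -/
def cr4 (a b : Z4) : ℤ × ℤ :=
  (a.1 * b.2.2.1 + 3 * a.2.1 * b.2.2.2 - a.2.2.1 * b.1 - 3 * a.2.2.2 * b.2.1,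
    a.1 * b.2.2.2 + a.2.1 * b.2.2.1 - a.2.2.1 * b.2.1 - a.2.2.2 * b.1)

/-- Inner product. -/
def dt4 (a b : Z4) : ℤ × ℤ :=
  (a.1 * b.1 + 3 * a.2.1 * b.2.1 + a.2.2.1 * b.2.2.1 + 3 * a.2.2.2 * b.2.2.2,
    a.1 * b.2.1 + a.2.1 * b.1 + a.2.2.1 * b.2.2.2 + a.2.2.2 * b.2.2.1)

/-- Positivity test. -/
def pos2 (x : ℤ × ℤ) : Bool :=
  decide (0 < 10000000 * x.1 + 17320508 * x.2) && decide (0 < 10000000 * x.1 + 17320509 * x.2)

lemma s3 : √3 * √3 = (3 : ℝ) := Real.mul_self_sqrt (by norm_num)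

lemma v4_add (a b : Z4) : v4 (a + b) = v4 a + v4 b := by
  apply Complex.ext <;> simp [v4] <;> ring

lemma v4_sub (a b : Z4) : v4 (a - b) = v4 a - v4 b := by
  apply Complex.ext <;> simp [v4] <;> ring

lemma v4_neg (a : Z4) : v4 (-a) = -v4 a := by
  apply Complex.ext <;> simp [v4] <;> ring

@[simp] lemma v4_zero : v4 0 = 0 := by apply Complex.ext <;> simp [v4]

lemma v4_one : v4 (1, 0, 0, 0) = 1 := by apply Complex.ext <;> simp [v4]

lemma v4_mul (a b : Z4) : v4 (mul4 a b) = v4 a * v4 b := by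
  apply Complex.ext <;> simp [v4, mul4]
  · linear_combination ((a.2.2.2 : ℝ) * b.2.2.2 - a.2.1 * b.2.1) * s3
  · linear_combination (-(a.2.1 : ℝ) * b.2.2.2 - a.2.2.2 * b.2.1) * s3

lemma v2_cr (a b : Z4) : v2 (cr4 a b) = cr (v4 a) (v4 b) := by
  simp [v4, v2, cr4, cr]
  linear_combination ((a.2.2.2 : ℝ) * b.2.1 - a.2.1 * b.2.2.2) * s3

lemma v2_dt (a b : Z4) : v2 (dt4 a b) = dt (v4 a) (v4 b) := by
  simp [v4, v2, dt4, dt]
  linear_combination (-(a.2.1 : ℝ) * b.2.1 - a.2.2.2 * b.2.2.2) * s3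

lemma v2_add (a b : ℤ × ℤ) : v2 (a + b) = v2 a + v2 b := by simp [v2]; ring
lemma v2_sub (a b : ℤ × ℤ) : v2 (a - b) = v2 a - v2 b := by simp [v2]; ring
lemma v2_c : v2 (10000, 0) = 10000 := by simp [v2]

lemma pos2_ok {x : ℤ × ℤ} (h : pos2 x = true) : 0 < v2 x := by
  simp only [pos2, Bool.and_eq_true, decide_eq_true_eq] at h
  have h1 : (0 : ℝ) < 10000000 * x.1 + 17320508 * x.2 := by exact_mod_cast h.1
  have h2 : (0 : ℝ) < 10000000 * x.1 + 17320509 * x.2 := by exact_mod_cast h.2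
  have a : (1.7320508 : ℝ) < √3 := Real.lt_sqrt_of_sq_lt (by norm_num)
  have b : √3 < (1.7320509 : ℝ) := (Real.sqrt_lt' (by norm_num)).2 (by norm_num)
  unfold v2
  rcases le_total (0 : ℝ) x.2 with c | c <;> nlinarith

lemma dt_self (a : ℂ) : dt a a = ‖a‖ ^ 2 := by rw [Complex.sq_norm, Complex.normSq_apply, dt]

/-- Sparse linear combinations. -/
abbrev Rc := List (ℕ × Z4)

/-- The value. -/
noncomputable def evR (b : ℕ → ℂ) (r : Rc) : ℂ := (r.map fun x => v4 x.2 * b x.1).sum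

@[simp] lemma evR_nil (b : ℕ → ℂ) : evR b [] = 0 := rfl
@[simp] lemma evR_cons (b : ℕ → ℂ) (x : ℕ × Z4) (r : Rc) : evR b (x :: r) = v4 x.2 * b x.1 + evR b r := by
  simp [evR]

/-- Add a term. -/
def ins (x : ℕ × Z4) : Rc → Rc
  | [] => [x]
  | y :: r => if x.1 = y.1 then (y.1, x.2 + y.2) :: r else y :: ins x r

lemma evR_ins (b : ℕ → ℂ) (x : ℕ × Z4) (r : Rc) : evR b (ins x r) = v4 x.2 * b x.1 + evR b r := by
  induction r with
  | nil => simp [ins]
  | cons y r ih =>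
    unfold ins
    split_ifs with h
    · simp [v4_add, h]; ring
    · simp [ih]; ring

/-- Difference. -/
def subR (r s : Rc) : Rc := (s.foldr (fun x a => ins (x.1, -x.2) a) r).filter fun x => x.2 != 0

lemma evR_sub (b : ℕ → ℂ) (r s : Rc) : evR b (subR r s) = evR b r - evR b s := by
  have h1 : ∀ r : Rc, evR b (r.filter fun x => x.2 != 0) = evR b r := by
    intro r
    induction r with
    | nil => rfl
    | cons y r ih =>
      by_cases h : y.2 = 0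
      · rw [List.filter_cons_of_neg (by simpa using h), ih]; simp [h]
      · rw [List.filter_cons_of_pos (by simpa using h)]; simp [ih]
  rw [subR, h1]
  induction s with
  | nil => simp
  | cons y s ih => rw [List.foldr_cons, evR_ins, ih]; simp [v4_neg]; ring

/-- The apex of an isosceles triangle with legs of length one hundred. -/
noncomputable def Jf (d : ℂ) : ℂ := d / 2 + Complex.I * d * (√(10000 / ‖d‖ ^ 2 - 1 / 4) : ℝ)

lemma Jf_unit {d : ℂ} (h0 : d ≠ 0) (h : 0 ≤ 10000 / ‖d‖ ^ 2 - 1 / 4) :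
    dt (Jf d) (Jf d) = 10000 ∧ dt (d - Jf d) (d - Jf d) = 10000 := by
  have h1 := Real.mul_self_sqrt h
  have h2 : ‖d‖ ^ 2 ≠ 0 := by simpa using h0
  have h3 : 10000 / ‖d‖ ^ 2 * (d.re * d.re + d.im * d.im) = 10000 := by
    rw [← dt, dt_self]; field_simp
  unfold Jf
  generalize √(10000 / ‖d‖ ^ 2 - 1 / 4) = y at h1 ⊢
  generalize 10000 / ‖d‖ ^ 2 = w at h1 h3
  constructor <;> simp [dt] <;> linear_combination (d.re * d.re + d.im * d.im) * h1 + h3

lemma Jf_eq {d a : ℂ} (h1 : dt a a = 10000) (h2 : dt (d - a) (d - a) = 10000) (h3 : 0 < cr d a) :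
    d ≠ 0 ∧ 0 < 10000 / ‖d‖ ^ 2 - 1 / 4 ∧ Jf d = a := by
  have h0 : d ≠ 0 := by rintro rfl; simp [cr] at h3
  have hn : 0 < ‖d‖ ^ 2 := by positivity
  have e : ‖d‖ ^ 2 = d.re * d.re + d.im * d.im := (dt_self d).symm
  simp only [dt, cr, Complex.sub_re, Complex.sub_im] at h1 h2 h3
  have k : 10000 / ‖d‖ ^ 2 - 1 / 4 = (cr d a / ‖d‖ ^ 2) ^ 2 := by
    simp only [cr]
    field_simp
    rw [e]
    linear_combination (-4 * (d.re * d.re + d.im * d.im)) * h1 +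
      (-(d.re * d.re + d.im * d.im) - 2 * (d.re * a.re + d.im * a.im)) * (h2 - h1)
  have hp : 0 < cr d a / ‖d‖ ^ 2 := div_pos h3 hn
  refine ⟨h0, k ▸ by positivity, ?_⟩
  unfold Jf
  rw [k, Real.sqrt_sq hp.le]
  have hn' := hn.ne'
  apply Complex.ext <;> simp only [cr, Complex.add_re, Complex.add_im, Complex.mul_re, Complex.mul_im,
    Complex.div_ofNat_re, Complex.div_ofNat_im, Complex.I_re, Complex.I_im, Complex.ofReal_re,
    Complex.ofReal_im] <;> field_simp <;> rw [e]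
  · linear_combination d.re * (h2 - h1)
  · linear_combination d.im * (h2 - h1)

/-- The filter of parameters. -/
noncomputable def FF : Filter (ℝ × ℝ × ℝ) := atTop.curry ((𝓝[>] 0).curry (𝓝[>] 0))

lemma ev_FF {P : ℝ × ℝ × ℝ → Prop} :
    (∀ᶠ x in FF, P x) ↔ ∀ᶠ K in atTop, ∀ᶠ t in 𝓝[>] 0, ∀ᶠ s in 𝓝[>] 0, P (K, t, s) := Iff.rfl

lemma FF_ex {P : ℝ × ℝ × ℝ → Prop} (h : ∀ᶠ x in FF, P x) : ∃ x, P x := by
  obtain ⟨K, h⟩ := (ev_FF.1 h).exists
  obtain ⟨t, h⟩ := h.exists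
  obtain ⟨s, h⟩ := h.exists
  exact ⟨_, h⟩

lemma ev_quad {A B C : ℝ} (h : 0 < A ∨ A = 0 ∧ 0 < B) :
    ∀ᶠ s in 𝓝[>] (0 : ℝ), 0 < A + s * B + s ^ 2 * C := by
  rcases h with h | ⟨rfl, h⟩
  · have : Tendsto (fun s : ℝ => A + s * B + s ^ 2 * C) (𝓝 0) (𝓝 (A + 0 * B + 0 ^ 2 * C)) :=
      Continuous.tendsto (by fun_prop) 0
    exact nhdsWithin_le_nhds (this.eventually (lt_mem_nhds (by simpa using h)))
  · have : Tendsto (fun s : ℝ => B + s * C) (𝓝 0) (𝓝 (B + 0 * C)) :=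
      Continuous.tendsto (by fun_prop) 0
    filter_upwards [nhdsWithin_le_nhds (this.eventually (lt_mem_nhds (by simpa using h))),
      self_mem_nhdsWithin] with s h1 h2
    have : 0 < s * (B + s * C) := mul_pos h2 h1
    linarith

/-- Keep the terms of maximal rank. -/
def msk (r m : ℕ) (x : ℤ × ℤ) : ℤ × ℤ := if r = m then x else 0

lemma dom1 {r m : ℕ} (h : r ≤ m) (x : ℤ × ℤ) :
    Tendsto (fun K : ℝ => K ^ r / K ^ m * v2 x) atTop (𝓝 (v2 (msk r m x))) := by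
  unfold msk
  split_ifs with e
  · subst e
    refine tendsto_const_nhds.congr' ?_
    filter_upwards [eventually_gt_atTop 0] with K hK
    rw [div_self (by positivity), one_mul]
  · simpa [v2] using (tendsto_pow_div_pow_atTop_zero (𝕜 := ℝ) (lt_of_le_of_ne h e)).mul_const (v2 x)

lemma key {A b1 b2 b3 : ℝ → ℝ} {C : ℝ → ℝ → ℝ} {r1 r2 r3 : ℕ} (a : ℕ) {x1 x2 x3 : ℤ × ℤ}
    (t1 : Tendsto b1 (𝓝[>] 0) (𝓝 (v2 x1))) (t2 : Tendsto b2 (𝓝[>] 0) (𝓝 (v2 x2)))
    (t3 : Tendsto b3 (𝓝[>] 0) (𝓝 (v2 x3)))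
    (h : (∀ᶠ t in 𝓝[>] 0, 0 < A t) ∨ (∀ᶠ t in 𝓝[>] 0, A t = 0) ∧
      0 < v2 (msk r1 (max r1 (max r2 r3)) x1 + msk r2 (max r1 (max r2 r3)) x2 +
        msk r3 (max r1 (max r2 r3)) x3)) :
    ∀ᶠ x in FF, 0 < A x.2.1 + x.2.2 * (x.1 ^ (a + r1) * b1 x.2.1 + x.1 ^ (a + r2) * b2 x.2.1 +
      x.1 ^ (a + r3) * b3 x.2.1) + x.2.2 ^ 2 * C x.1 x.2.1 := by
  rw [ev_FF]
  dsimp only
  rcases h with h | ⟨h, h'⟩
  · exact Eventually.of_forall fun K => h.mono fun t ht => ev_quad (Or.inl ht)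
  set m := max r1 (max r2 r3)
  rw [v2_add, v2_add] at h'
  filter_upwards [(((dom1 (by omega : r1 ≤ m) x1).add (dom1 (by omega : r2 ≤ m) x2)).add
    (dom1 (by omega : r3 ≤ m) x3)).eventually (lt_mem_nhds h'), eventually_gt_atTop 0] with K k1 k2
  have k3 : 0 < K ^ (a + r1) * v2 x1 + K ^ (a + r2) * v2 x2 + K ^ (a + r3) * v2 x3 := by
    refine (mul_pos (pow_pos k2 (a + m)) k1).trans_eq ?_
    simp only [pow_add]
    field_simp
  filter_upwards [(((t1.const_mul _).add (t2.const_mul _)).add (t3.const_mul _)).eventually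
    (lt_mem_nhds k3), h] with t e1 e2
  exact ev_quad (Or.inr ⟨e2, e1⟩)

/-- Joints: the base and the nominal leg. -/
abbrev JD := Rc × Z4

/-- Vertices: nominal position, recipe, velocity, rank. -/
abbrev VD := Z4 × Rc × Z4 × ℕ

/-- The values of the basis vectors. -/
noncomputable def bv (js : List JD) (z : ℕ → ℂ) (k : ℕ) : ℂ :=
  if k < 8 then z k else Jf (evR z (js.getD (k - 8) ([], 0)).1)

/-- The nominal value. -/
def nomR (js : List JD) (r : Rc) : Z4 :=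
  (r.map fun x => if x.1 < 8 then x.2 else mul4 x.2 (js.getD (x.1 - 8) ([], 0)).2).sum

/-- Check of a joint. -/
def jOk (j : JD) : Bool :=
  j.1.all (fun x => decide (x.1 < 8)) && dt4 j.2 j.2 == (10000, 0) &&
    dt4 (nomR [] j.1 - j.2) (nomR [] j.1 - j.2) == (10000, 0) && pos2 (cr4 (nomR [] j.1) j.2)

lemma tend_ev {b : ℝ → ℕ → ℂ} {js : List JD} {r : Rc}
    (h : ∀ x ∈ r, Tendsto (fun t => b t x.1) (𝓝[>] 0)
      (𝓝 (if x.1 < 8 then 1 else v4 (js.getD (x.1 - 8) ([], 0)).2))) :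
    Tendsto (fun t => evR (b t) r) (𝓝[>] 0) (𝓝 (v4 (nomR js r))) := by
  induction r with
  | nil => simpa [nomR] using tendsto_const_nhds
  | cons y r ih =>
    have h1 := ((h y List.mem_cons_self).const_mul (v4 y.2)).add
      (ih fun x hx => h x (List.mem_cons_of_mem _ hx))
    simp only [evR_cons]
    convert h1 using 2
    simp only [nomR, List.map_cons, List.sum_cons, v4_add]
    split_ifs <;> simp [v4_mul]

variable {js : List JD} {z : ℝ → ℕ → ℂ}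

/-- Admissible unit vectors. -/
structure Adm (z : ℝ → ℕ → ℂ) : Prop where
  one : ∀ t k, ‖z t k‖ = 1
  lim : ∀ k, Tendsto (fun t => z t k) (𝓝[>] 0) (𝓝 1)

lemma j_ok (hz : Adm z) {j : JD} (h : jOk j = true) :
    Tendsto (fun t => Jf (evR (z t) j.1)) (𝓝[>] 0) (𝓝 (v4 j.2)) ∧ ∀ᶠ t in 𝓝[>] 0,
      dt (Jf (evR (z t) j.1)) (Jf (evR (z t) j.1)) = 10000 ∧
      dt (evR (z t) j.1 - Jf (evR (z t) j.1)) (evR (z t) j.1 - Jf (evR (z t) j.1)) = 10000 := by
  simp only [jOk, Bool.and_eq_true, List.all_eq_true, decide_eq_true_eq, beq_iff_eq] at h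
  obtain ⟨⟨⟨h1, h2⟩, h3⟩, h4⟩ := h
  have t1 : Tendsto (fun t => evR (z t) j.1) (𝓝[>] 0) (𝓝 (v4 (nomR [] j.1))) :=
    tend_ev fun x hx => by simpa [h1 x hx] using hz.lim x.1
  obtain ⟨k1, k2, k3⟩ := Jf_eq (d := v4 (nomR [] j.1)) (a := v4 j.2) (by rw [← v2_dt, h2, v2_c])
    (by rw [← v4_sub, ← v2_dt, h3, v2_c]) (by rw [← v2_cr]; exact pos2_ok h4)
  have hn : ‖v4 (nomR [] j.1)‖ ^ 2 ≠ 0 := by simpa using k1
  have c1 : ContinuousAt (fun d : ℂ => 10000 / ‖d‖ ^ 2 - 1 / 4) (v4 (nomR [] j.1)) := by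
    fun_prop (disch := exact hn)
  have c2 : ContinuousAt Jf (v4 (nomR [] j.1)) := by
    unfold Jf
    fun_prop (disch := exact hn)
  refine ⟨k3 ▸ c2.tendsto.comp t1, ?_⟩
  filter_upwards [(c1.tendsto.comp t1).eventually (lt_mem_nhds k2), t1.eventually_ne k1] with t a b
  exact Jf_unit b a.le

lemma tend_bv (hz : Adm z) (hj : ∀ j ∈ js, jOk j = true) (r : Rc) :
    Tendsto (fun t => evR (bv js (z t)) r) (𝓝[>] 0) (𝓝 (v4 (nomR js r))) := by
  refine tend_ev fun x _ => ?_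
  unfold bv
  split_ifs
  · exact hz.lim _
  · by_cases h : x.1 - 8 < js.length
    · exact (j_ok hz (hj _ (MP_485bb6_lc.getD_mem js _ h))).1
    · rw [List.getD_eq_default _ _ (not_lt.1 h)]
      simpa [Jf] using tendsto_const_nhds

/-- The vector has length one hundred for all parameters. -/
def unit1 (js : List JD) (e : Rc) : Bool :=
  (e.length == 1 && e.all fun x => decide (x.1 < 8) && dt4 x.2 x.2 == (10000, 0)) ||
    (List.range js.length).any fun m => e == [(8 + m, (1, 0, 0, 0))] ||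
      subR e (subR (js.getD m ([], 0)).1 [(8 + m, (1, 0, 0, 0))]) == []

lemma evR_bv {z : ℕ → ℂ} {r : Rc} (h : ∀ x ∈ r, x.1 < 8) : evR (bv js z) r = evR z r :=
  congrArg List.sum (List.map_congr_left fun x hx => by simp [bv, h x hx])

lemma unit_ok (hz : Adm z) (hj : ∀ j ∈ js, jOk j = true) {e : Rc} (h : unit1 js e = true) :
    ∀ᶠ t in 𝓝[>] 0, dt (evR (bv js (z t)) e) (evR (bv js (z t)) e) = 10000 := by
  simp only [unit1, Bool.or_eq_true, Bool.and_eq_true, beq_iff_eq, List.all_eq_true,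
    decide_eq_true_eq, List.any_eq_true, List.mem_range] at h
  rcases h with ⟨h1, h2⟩ | ⟨m, hm, h⟩
  · obtain ⟨x, rfl⟩ := List.length_eq_one_iff.1 h1
    obtain ⟨h3, h4⟩ := h2 x List.mem_cons_self
    refine Eventually.of_forall fun t => ?_
    rw [dt_self, evR_cons, evR_nil, add_zero, norm_mul, mul_pow, ← dt_self, ← v2_dt, h4, v2_c]
    simp [bv, h3, hz.one]
  · have hm' := hj _ (MP_485bb6_lc.getD_mem js ([], 0) hm)
    have b8 : ∀ t, bv js (z t) (8 + m) = Jf (evR (z t) (js.getD m ([], 0)).1) := fun t => by simp [bv]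
    filter_upwards [(j_ok hz hm').2] with t ht
    rcases h with rfl | h
    · simpa only [evR_cons, evR_nil, v4_one, one_mul, add_zero, b8] using ht.1
    · have := congrArg (evR (bv js (z t))) h
      simp only [jOk, Bool.and_eq_true, List.all_eq_true, decide_eq_true_eq] at hm'
      simp only [evR_sub, evR_cons, evR_nil, v4_one, one_mul, add_zero, b8, evR_bv hm'.1.1.1,
        sub_eq_zero] at this
      rw [this]
      exact ht.2

/-- Check of an edge. -/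
def edgeOk (js : List JD) (u v : VD) (s : Bool) : Bool :=
  pos2 ((if s then -1 else 1 : ℤ) • (dt4 (v.1 - u.1) (v.1 - u.1) - (10000, 0))) ||
    (unit1 js (subR v.2.1 u.2.1) || unit1 js (subR u.2.1 v.2.1)) &&
      pos2 (msk u.2.2.2 (max u.2.2.2 v.2.2.2) ((if s then 1 else -1 : ℤ) • dt4 (v.1 - u.1) u.2.2.1) +
        msk v.2.2.2 (max u.2.2.2 v.2.2.2) ((if s then -1 else 1 : ℤ) • dt4 (v.1 - u.1) v.2.2.1))

/-- The two vectors are parallel for all parameters. -/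
def degen (e f : Rc) : Bool :=
  e == [] || f == [] || subR e f == [] ||
    (e.length == 1 && f.length == 1 && e.all fun x => f.all fun y => x.1 == y.1 && cr4 x.2 y.2 == 0)

/-- Check of a triangle. -/
def triOk (a b c : VD) : Bool :=
  pos2 (cr4 (b.1 - a.1) (c.1 - a.1)) || degen (subR b.2.1 a.2.1) (subR c.2.1 a.2.1) &&
    pos2 (msk a.2.2.2 (max a.2.2.2 (max b.2.2.2 c.2.2.2)) (cr4 a.2.2.1 (b.1 - c.1)) +
      msk b.2.2.2 (max a.2.2.2 (max b.2.2.2 c.2.2.2)) (cr4 b.2.2.1 (c.1 - a.1)) +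
      msk c.2.2.2 (max a.2.2.2 (max b.2.2.2 c.2.2.2)) (cr4 c.2.2.1 (a.1 - b.1)))

lemma degen_ok {e f : Rc} (h : degen e f = true) (b : ℕ → ℂ) : cr (evR b e) (evR b f) = 0 := by
  simp only [degen, Bool.or_eq_true, Bool.and_eq_true, beq_iff_eq, List.all_eq_true] at h
  rcases h with ((rfl | rfl) | h) | ⟨⟨h1, h2⟩, h⟩
  · simp [cr]
  · simp [cr]
  · have := congrArg (evR b) h
    rw [evR_sub, evR_nil, sub_eq_zero] at this
    rw [this, cr]; ring
  · obtain ⟨x, rfl⟩ := List.length_eq_one_iff.1 h1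
    obtain ⟨y, rfl⟩ := List.length_eq_one_iff.1 h2
    obtain ⟨h3, h4⟩ := h x List.mem_cons_self y List.mem_cons_self
    have := v2_cr x.2 y.2
    rw [h4] at this
    simp only [v2, cr, Prod.fst_zero, Prod.snd_zero, Int.cast_zero, zero_mul, add_zero] at this
    simp only [evR_cons, evR_nil, add_zero, h3, cr, Complex.mul_re, Complex.mul_im]
    linear_combination (-((b y.1).re ^ 2 + (b y.1).im ^ 2)) * this

/-- The position of a vertex. -/
noncomputable def ps (js : List JD) (z : ℝ → ℕ → ℂ) (o : ℂ) (a : ℕ) (x : ℝ × ℝ × ℝ) (v : VD) : ℂ :=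
  (o + evR (bv js (z x.2.1)) v.2.1 + (x.2.2 * x.1 ^ (a + v.2.2.2) : ℝ) * v4 v.2.2.1) / 100

lemma tend_dt {f g : ℝ → ℂ} {a b : Z4} (hf : Tendsto f (𝓝[>] 0) (𝓝 (v4 a)))
    (hg : Tendsto g (𝓝[>] 0) (𝓝 (v4 b))) :
    Tendsto (fun t => dt (f t) (g t)) (𝓝[>] 0) (𝓝 (v2 (dt4 a b))) := by
  have : Continuous fun x : ℂ × ℂ => dt x.1 x.2 := by unfold dt; fun_prop
  exact v2_dt a b ▸ (this.tendsto _).comp (hf.prodMk_nhds hg)

lemma tend_cr {f g : ℝ → ℂ} {a b : Z4} (hf : Tendsto f (𝓝[>] 0) (𝓝 (v4 a)))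
    (hg : Tendsto g (𝓝[>] 0) (𝓝 (v4 b))) :
    Tendsto (fun t => cr (f t) (g t)) (𝓝[>] 0) (𝓝 (v2 (cr4 a b))) := by
  have : Continuous fun x : ℂ × ℂ => cr x.1 x.2 := by unfold cr; fun_prop
  exact v2_cr a b ▸ (this.tendsto _).comp (hf.prodMk_nhds hg)

lemma tend_sub (hz : Adm z) (hj : ∀ j ∈ js, jOk j = true) {u v : VD} (hu : u.1 = nomR js u.2.1)
    (hv : v.1 = nomR js v.2.1) : Tendsto (fun t => evR (bv js (z t)) v.2.1 - evR (bv js (z t)) u.2.1)
      (𝓝[>] 0) (𝓝 (v4 (v.1 - u.1))) := by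
  rw [v4_sub, hu, hv]
  exact (tend_bv hz hj _).sub (tend_bv hz hj _)

lemma v2_smul (n : ℤ) (x : ℤ × ℤ) : v2 (n • x) = n * v2 x := by simp [v2]; ring

theorem edge_ok (hz : Adm z) (hj : ∀ j ∈ js, jOk j = true) {u v : VD} (hu : u.1 = nomR js u.2.1)
    (hv : v.1 = nomR js v.2.1) {s : Bool} (h : edgeOk js u v s = true) (o : ℂ) (a : ℕ) :
    ∀ᶠ x in FF, ‖ps js z o a x u - ps js z o a x v‖ ≤ 1 ↔ s = true := by
  have t0 := tend_sub hz hj hu hv
  set e := fun t => evR (bv js (z t)) v.2.1 - evR (bv js (z t)) u.2.1 with he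
  let σ : ℤ := if s then -1 else 1
  have hσ : (if s then 1 else -1 : ℤ) = -σ := by simp only [σ]; split_ifs <;> simp
  have := key (A := fun t => σ * (dt (e t) (e t) - 10000) / 2) (r1 := u.2.2.2) (r2 := v.2.2.2) (r3 := 0)
    (C := fun K _ => σ / 2 * ‖(K ^ (a + v.2.2.2) : ℝ) * v4 v.2.2.1 - (K ^ (a + u.2.2.2) : ℝ) * v4 u.2.2.1‖ ^ 2)
    (b3 := fun _ => 0) (x3 := 0) a
    (v2_smul _ _ ▸ (tend_dt t0 (tendsto_const_nhds (x := v4 u.2.2.1))).const_mul ((-σ : ℤ) : ℝ))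
    (v2_smul _ _ ▸ (tend_dt t0 (tendsto_const_nhds (x := v4 v.2.2.1))).const_mul (σ : ℝ))
    (by simpa [v2] using tendsto_const_nhds) (by
      simp only [edgeOk, Bool.or_eq_true, Bool.and_eq_true, hσ] at h
      rcases h with h | ⟨h1, h2⟩
      · have h3 := pos2_ok h
        rw [v2_smul, v2_sub, v2_c] at h3
        exact Or.inl (((((tend_dt t0 t0).sub_const 10000).const_mul (σ : ℝ)).div_const 2).eventually
          (lt_mem_nhds (by linarith)))
      · refine Or.inr ⟨?_, by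
          rw [Nat.max_zero, show ∀ m, msk 0 m 0 = 0 by simp [msk], add_zero]; exact pos2_ok h2⟩
        rcases h1 with h1 | h1 <;> filter_upwards [unit_ok hz hj h1] with t ht
        · rw [evR_sub] at ht
          simp [he, ht]
        · rw [evR_sub, dt_self, norm_sub_rev, ← dt_self] at ht
          simp [he, ht])
  refine this.mono fun x hx => ?_
  have k : 0 < σ * (‖ps js z o a x u - ps js z o a x v‖ ^ 2 - 1) := by
    simp only [← dt_self, ps, dt, he] at hx ⊢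
    simp only [Complex.sub_re, Complex.sub_im, Complex.add_re, Complex.add_im, Complex.mul_re,
      Complex.mul_im, Complex.div_ofNat_re, Complex.div_ofNat_im, Complex.ofReal_re,
      Complex.ofReal_im] at hx ⊢
    push_cast at hx
    linarith
  have n0 := norm_nonneg (ps js z o a x u - ps js z o a x v)
  cases s <;> simp [σ] at k ⊢ <;> nlinarith

theorem tri_ok (hz : Adm z) (hj : ∀ j ∈ js, jOk j = true) {u v w : VD} (hu : u.1 = nomR js u.2.1)
    (hv : v.1 = nomR js v.2.1) (hw : w.1 = nomR js w.2.1)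
    (h : triOk u v w = true ∨ ∀ᶠ t in 𝓝[>] 0,
      0 < cr (evR (bv js (z t)) (subR v.2.1 u.2.1)) (evR (bv js (z t)) (subR w.2.1 u.2.1)))
    (o : ℂ) (a : ℕ) : ∀ᶠ x in FF, 0 < ar (ps js z o a x u) (ps js z o a x v) (ps js z o a x w) := by
  have := key (r1 := u.2.2.2) (r2 := v.2.2.2) (r3 := w.2.2.2)
    (A := fun t => cr (evR (bv js (z t)) (subR v.2.1 u.2.1)) (evR (bv js (z t)) (subR w.2.1 u.2.1)))
    (C := fun K _ => cr ((K ^ (a + v.2.2.2) : ℝ) * v4 v.2.2.1 - (K ^ (a + u.2.2.2) : ℝ) * v4 u.2.2.1)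
      ((K ^ (a + w.2.2.2) : ℝ) * v4 w.2.2.1 - (K ^ (a + u.2.2.2) : ℝ) * v4 u.2.2.1)) a
    (tend_cr (tendsto_const_nhds (x := v4 u.2.2.1)) (tend_sub hz hj hw hv))
    (tend_cr (tendsto_const_nhds (x := v4 v.2.2.1)) (tend_sub hz hj hu hw))
    (tend_cr (tendsto_const_nhds (x := v4 w.2.2.1)) (tend_sub hz hj hv hu)) (by
      simp only [triOk, Bool.or_eq_true, Bool.and_eq_true] at h
      rcases h with (h | ⟨h1, h2⟩) | h
      · simp only [evR_sub]
        exact Or.inl ((tend_cr (tend_sub hz hj hu hv) (tend_sub hz hj hu hw)).eventually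
          (lt_mem_nhds (pos2_ok h)))
      · exact Or.inr ⟨Eventually.of_forall fun t => degen_ok h1 _, pos2_ok h2⟩
      · exact Or.inl h)
  refine this.mono fun x hx => ?_
  simp only [evR_sub, ps, ar, cr] at hx ⊢
  simp only [Complex.sub_re, Complex.sub_im, Complex.add_re, Complex.add_im, Complex.mul_re,
    Complex.mul_im, Complex.div_ofNat_re, Complex.div_ofNat_im, Complex.ofReal_re,
    Complex.ofReal_im] at hx ⊢
  linarith

end Pool.Agent.MP_a4408f_lc
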