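import Mathlib
import Pool.Agent.MP_a4408f_lc.Flex
import Pool.Agent.MP_a4408f_lc.Lay

/-! Decidable checks for the tile data. -/

namespace Pool.Agent.MP_a4408f_lc

open Filter Topology Real

/-- Horizontal period. -/
def UX : Z4 := (920, 100, 0, 0)

/-- Vertical period. -/
def VY : Z4 := (0, 0, 580, 100)

/-- Vertices on vertical sides: constant part, rotating part, velocity. -/
def sV (c n : ℕ) : Z4 × Z4 × Z4 :=
  ([[((0, 0, 250, 0), 0, 0), ((0, 0, 330, 100), 0, 0)],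
    [((170, -50, 290, 50), 0, 0), ((170, -50, 290, 50), (0, 50, 50, 0), (483, 0, -876, 0))],
    [((170, -50, 290, 50), (0, 50, -50, 0), (483, 0, 876, 0)), ((170, -50, 290, 50), 0, 0)]].getD
      c []).getD n 0

/-- Vertices on horizontal sides: variable, rank, constant part, rotating part, velocity. -/
def sH (c n : ℕ) : ℕ × ℕ × Z4 × Z4 × Z4 :=
  ([[(1, 0, (200, 0, 0, 0), 0, 0),
      (1, 0, (440, 0, 0, 0), 0, 0),
      (1, 0, (660, 0, 0, 0), 0, 0),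
      (1, 0, (880, 0, 0, 0), 0, 0)],
    [(1, 0, (270, 0, 120, 50), 0, (-20, 0, 1000, 0)),
      (1, 0, (270, 0, 120, 50), (100, 0, 0, 0), 0),
      (1, 0, (730, 0, 120, 50), 0, 0),
      (1, 0, (730, 0, 120, 50), (100, 0, 0, 0), (20, 0, 1000, 0))],
    [(1, 0, (240, 0, 0, 0), 0, 0),
      (1, 0, (540, 0, 0, 0), 0, 0),
      (6, 0, (770, -50, -290, 50), (0, 100, 200, 0), 0),
      (6, 0, (770, -50, -290, 50), (0, 150, 150, 0), (517, 0, 856, 0))],
    [(7, 0, (530, -150, -110, -50), (0, 100, 0, 100), 0),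
      (7, 0, (530, -150, -110, -50), (100, 100, 0, 100), (20, 0, 1000, 0)),
      (6, 0, (670, -50, -870, 50), (0, 100, 800, 0), 0),
      (6, 0, (670, -50, -870, 50), (0, 150, 750, 0), (517, 0, 856, 0))],
    [(4, 0, (590, -50, 130, -50), (0, 50, -50, 0), 0),
      (4, 3, (590, -50, 130, -50), (0, 50, 50, 0), (1000, 0, 20, 0)),
      (5, 0, (770, -50, 870, -50), (0, 100, -800, 0), 0),
      (5, 3, (770, -50, 870, -50), (0, 150, -750, 0), (517, 0, -856, 0))],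
    [(1, 0, (240, 0, 0, 0), 0, 0),
      (1, 0, (540, 0, 0, 0), 0, 0),
      (5, 0, (770, -50, 290, -50), (0, 100, -200, 0), 0),
      (5, 1, (770, -50, 290, -50), (0, 150, -150, 0), (517, 0, -856, 0))],
    [(1, 0, (240, 0, 0, 0), 0, 0),
      (1, 0, (540, 0, 0, 0), 0, 0),
      (5, 0, (770, -50, -290, 50), (0, 100, 200, 0), 0),
      (5, 0, (770, -50, -290, 50), (0, 150, 150, 0), (517, 0, 856, 0))],
    [(4, 0, (590, -50, -130, 50), (0, 50, 50, 0), 0),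
      (4, 0, (590, -50, -130, 50), (0, 50, -50, 0), (1000, 0, -20, 0)),
      (5, 0, (770, -50, -870, 50), (0, 100, 800, 0), 0),
      (5, 0, (770, -50, -870, 50), (0, 150, 750, 0), (517, 0, 856, 0))],
    [(7, 0, (530, -150, 110, 50), (0, 100, 0, -100), 0),
      (7, 3, (530, -150, 110, 50), (100, 100, 0, -100), (20, 0, -1000, 0)),
      (6, 0, (670, -50, 870, -50), (0, 100, -800, 0), 0),
      (6, 3, (670, -50, 870, -50), (0, 150, -750, 0), (517, 0, -856, 0))],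
    [(1, 0, (240, 0, 0, 0), 0, 0),
      (1, 0, (540, 0, 0, 0), 0, 0),
      (6, 0, (770, -50, 290, -50), (0, 100, -200, 0), 0),
      (6, 1, (770, -50, 290, -50), (0, 150, -150, 0), (517, 0, -856, 0))]].getD c []).getD n 0

/-- The classes of the bottom, right, top and left side and the variables of the right and left side. -/
def cls (y : ℕ) : ℕ × ℕ × ℕ × ℕ × ℕ × ℕ :=
  [(0, 0, 0, 0, 2, 2), (0, 0, 1, 0, 2, 2), (1, 0, 0, 0, 2, 2), (1, 0, 1, 0, 2, 2), (1, 1, 1, 0, 1, 2),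
    (1, 2, 1, 0, 1, 2), (1, 1, 1, 1, 2, 2), (1, 2, 1, 2, 2, 2), (0, 0, 2, 2, 2, 6), (2, 0, 3, 2, 2, 7),
    (3, 0, 4, 1, 2, 3), (4, 0, 5, 1, 2, 4), (5, 0, 0, 1, 2, 5), (0, 0, 6, 2, 2, 5), (6, 0, 7, 2, 2, 4),
    (7, 0, 8, 2, 2, 3), (8, 0, 9, 1, 2, 7), (9, 0, 0, 1, 2, 6)].getD y (0, 0, 0, 0, 2, 2)

/-- A boundary vertex. -/
def mkV (o : Z4) (k r : ℕ) (e : Z4 × Z4 × Z4) : VD :=
  (o + e.1 + e.2.1, [(0, o + e.1), (k, e.2.1)], e.2.2, r)

/-- A vertex on a horizontal side. -/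
def mkH (o : Z4) (d c n : ℕ) : VD := mkV o (sH c n).1 ((sH c n).2.1 + d) (sH c n).2.2

/-- The boundary vertices of a tile. -/
def bdv (y : ℕ) : List VD :=
  [mkV 0 0 0 0, mkH 0 0 (cls y).1 0, mkH 0 0 (cls y).1 1, mkH 0 0 (cls y).1 2, mkH 0 0 (cls y).1 3,
    mkV UX 0 0 0, mkV UX (cls y).2.2.2.2.1 1 (sV (cls y).2.1 0),
    mkV UX (cls y).2.2.2.2.1 1 (sV (cls y).2.1 1), mkV (UX + VY) 0 0 0,
    mkH VY 1 (cls y).2.2.1 3, mkH VY 1 (cls y).2.2.1 2, mkH VY 1 (cls y).2.2.1 1,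
    mkH VY 1 (cls y).2.2.1 0, mkV VY 0 0 0, mkV 0 (cls y).2.2.2.2.2 0 (sV (cls y).2.2.2.1 1),
    mkV 0 (cls y).2.2.2.2.2 0 (sV (cls y).2.2.2.1 0)]

/-- The data of a tile. -/
structure TDa where
  l : List TD
  q : List (ℤ × ℤ)
  par : List ℕ
  iv : List VD
  js : List JD
  ce : List Ce

/-- The number of vertices. -/
def TDa.n (d : TDa) : ℕ := 16 + d.iv.length

/-- The vertices. -/
def TDa.vd (d : TDa) (y v : ℕ) : VD := (bdv y ++ d.iv).getD v (0, [], 0, 0)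

/-- The bit mask of a list. -/
def mask (l : List ℕ) : ℕ := l.foldr (fun x m => m ||| 2 ^ x) 0

lemma mem_mask {l : List ℕ} {x : ℕ} : (mask l).testBit x = true ↔ x ∈ l := by
  induction l with
  | nil => simp [mask]
  | cons a l ih =>
    simp only [mask, List.foldr_cons, Nat.testBit_or, Bool.or_eq_true, List.mem_cons] at ih ⊢
    rw [ih, Nat.testBit_two_pow, decide_eq_true_eq, or_comm, eq_comm]

/-- No duplicates. -/
def ndup : List ℕ → Bool
  | [] => true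
  | x :: l => !(mask l).testBit x && ndup l

lemma ndup_ok {l : List ℕ} (h : ndup l = true) : l.Nodup := by
  induction l with
  | nil => simp
  | cons a l ih =>
    simp only [ndup, Bool.and_eq_true, Bool.not_eq_true'] at h
    exact List.nodup_cons.2 ⟨fun e => by simp [mem_mask.2 e] at h, ih h.2⟩

/-- The topological check. -/
def topOk (l : List Vx) (n : ℕ) (ql : List (ℤ × ℤ)) (par : List ℕ) : Bool :=
  ndup ((edges l ++ rbd).map fun e => Nat.pair e.1 e.2) &&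
  mask ((edges l ++ rbd).map fun e => Nat.pair e.1 e.2) ==
    mask (((edges l ++ rbd).map Prod.swap).map fun e => Nat.pair e.1 e.2) &&
  l.all (fun t => decide (0 < zar (qloc ql t.1) (qloc ql t.2.1) (qloc ql t.2.2))) &&
  mask ((edges l).map Prod.fst) == 2 ^ n - 1 && decide (16 ≤ n) && l.length == 2 * (n - 16) + 14 &&
  (List.range l.length).all fun k => k == 0 || decide (par.getD k 0 < k) &&
    share (l.getD (par.getD k 0) (0, 0, 0)) (l.getD k (0, 0, 0))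

lemma top_of_ok {l : List Vx} {n : ℕ} {ql : List (ℤ × ℤ)} {par : List ℕ}
    (h : topOk l n ql par = true) : Top l n ql := by
  simp only [topOk, Bool.and_eq_true, decide_eq_true_eq, List.all_eq_true,
    Bool.or_eq_true, beq_iff_eq, List.mem_range] at h
  obtain ⟨⟨⟨⟨⟨⟨h0, h1⟩, h2⟩, h3⟩, h4⟩, h5⟩, h6⟩ := h
  have inj : Function.Injective fun e : ℕ × ℕ => Nat.pair e.1 e.2 := fun a b h =>
    Prod.ext (Nat.pair_eq_pair.1 h).1 (Nat.pair_eq_pair.1 h).2
  have nd := (ndup_ok h0).of_map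
  have k : ∀ v, v < n ↔ ∃ t ∈ l, Vt t v := fun v => by
    have := mem_mask (l := (edges l).map Prod.fst) (x := v)
    rw [h3, Nat.testBit_two_pow_sub_one, decide_eq_true_eq] at this
    rw [this, List.mem_map]
    constructor
    · rintro ⟨⟨x, y⟩, he, rfl⟩
      obtain ⟨t, ht, z, hc⟩ := mem_edges.1 he
      exact ⟨t, ht, (hc.vt x).2 (Or.inl rfl)⟩
    · rintro ⟨t, ht, hv⟩
      obtain ⟨y, z, hc⟩ := hv.cn
      exact ⟨(v, y), mem_edges.2 ⟨t, ht, z, hc⟩, rfl⟩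
  refine ⟨(List.perm_ext_iff_of_nodup nd (nd.map Prod.swap_injective)).2 fun e => ?_, h2,
    fun t ht => ⟨(k _).2 ⟨t, ht, Or.inl rfl⟩, (k _).2 ⟨t, ht, Or.inr (Or.inl rfl)⟩,
      (k _).2 ⟨t, ht, Or.inr (Or.inr rfl)⟩⟩,
    fun v _ hv => (k v).1 hv, ⟨h4, h5⟩, fun k hk => (h6 k hk).imp_right fun h => ⟨_, h⟩⟩
  rw [← List.mem_map_of_injective inj, ← mem_mask, h1, mem_mask, List.mem_map_of_injective inj]

/-- The angle sums in the central tiles. -/
def eA (s : ℕ) : List LF :=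
  [[((1, 0), 1), ((2, 0), 1)], [((2, s), 1), ((3, 0), 1)], [((3, s), 1), ((4, s), 1)],
    [((4, 3 - s), 1), ((5, s), 1)]]

/-- The six linear forms. -/
def eF (s : ℕ) (a b : ℕ) (σ : ℤ) : LF := (((eA s).take b).drop a).flatten.map fun e => (e.1, σ * e.2)

/-- All certified inequalities. -/
def gin (y : ℕ) : List (ℕ × ℕ × ℤ × LF) :=
  (ineqs y).map (fun e => (e.1, e.2.1, e.2.2, [])) ++
    if y = 10 then [(1, 14, -6, eF 2 0 1 1), (3, 14, -20, eF 2 1 4 (-1)), (1, 11, -2, eF 2 0 2 1),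
      (3, 11, -16, eF 2 2 4 (-1)), (1, 9, 4, eF 2 0 3 1), (3, 9, -10, eF 2 3 4 (-1))]
    else if y = 15 then [(14, 11, 6, eF 1 0 1 1), (14, 9, -8, eF 1 1 4 (-1)), (1, 11, -2, eF 1 0 2 1),
      (1, 9, -16, eF 1 2 4 (-1)), (3, 11, 4, eF 1 0 3 1), (3, 9, -10, eF 1 3 4 (-1))]
    else []

/-- The check of the certificates. -/
def ceOk (y : ℕ) (d : TDa) : Bool :=
  (gin y).all fun e => d.ce.any fun c => c.s1 == e.1 && c.s0 == e.2.1 && decide (0 < c.N) &&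
    c.E == e.2.2.2.map (fun x => (x.1, (c.N : ℤ) * x.2)) && 6 * c.kap == c.N * e.2.2.1 && c.ok d.l d.n

lemma ce_of_ok {y : ℕ} {d : TDa} (h : ceOk y d = true) (hT : Top (d.l.map tri) d.n d.q) {q : ℕ → ℂ}
    {θ : ℕ → ℝ} (hG : ∀ t ∈ d.l, Good q t)
    (int : ∀ v, 16 ≤ v → v < d.n → Dl (d.l.map tri) q v = 2 * π)
    (dif : ∀ s s', θ s - θ s' = th0 (Dl (d.l.map tri) q) s - th0 (Dl (d.l.map tri) q) s') :
    ∀ e ∈ gin y, θ e.1 - θ e.2.1 + ev q d.l e.2.2.2 ≤ e.2.2.1 * (π / 6) := by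
  intro e he
  simp only [ceOk, Bool.and_eq_true, decide_eq_true_eq, List.all_eq_true, List.any_eq_true,
    beq_iff_eq] at h
  obtain ⟨c, -, ⟨⟨⟨⟨h1, h2⟩, h3⟩, h4⟩, h5⟩, h6⟩ := h e he
  have k := Ce.sound h6 hG hT.lt hT.len.1 int
  have k2 : ev q d.l c.E = c.N * ev q d.l e.2.2.2 := by
    simp only [h4, ev, List.map_map, ← List.sum_map_mul_left]
    exact congrArg List.sum (List.map_congr_left fun x _ => by simp; ring)
  have k3 : (6 : ℝ) * c.kap = c.N * e.2.2.1 := by exact_mod_cast h5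
  rw [k2, ← dif, h1, h2] at k
  have k4 : (0 : ℝ) < c.N := by exact_mod_cast h3
  refine le_of_mul_le_mul_left ?_ k4
  rw [mul_add, ← mul_assoc, ← k3]
  linarith

/-- The flexibility check. -/
def flexOk (y : ℕ) (d : TDa) : Bool :=
  d.js.all jOk && (bdv y ++ d.iv).all (fun v => v.1 == nomR d.js v.2.1) &&
  d.l.all (fun t => edgeOk d.js (d.vd y t.1) (d.vd y t.2.1) t.2.2.2.1 &&
    edgeOk d.js (d.vd y t.2.1) (d.vd y t.2.2.1) t.2.2.2.2.1 &&
    edgeOk d.js (d.vd y t.2.2.1) (d.vd y t.1) t.2.2.2.2.2) &&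
  (d.l.drop (if y = 10 ∨ y = 15 then 1 else 0)).all
    fun t => triOk (d.vd y t.1) (d.vd y t.2.1) (d.vd y t.2.2.1)

lemma flex_of_ok {y : ℕ} {d : TDa} (h : flexOk y d = true) {z : ℝ → ℕ → ℂ} (hz : Adm z) (o : ℂ)
    (a : ℕ) : (∀ᶠ x in FF, ∀ t ∈ d.l, Lab (fun v => ps d.js z o a x (d.vd y v)) t) ∧
      ((y = 10 ∨ y = 15 → ∀ t ∈ d.l.head?, ∀ᶠ s in 𝓝[>] 0,
        0 < cr (evR (bv d.js (z s)) (subR (d.vd y t.2.1).2.1 (d.vd y t.1).2.1))
          (evR (bv d.js (z s)) (subR (d.vd y t.2.2.1).2.1 (d.vd y t.1).2.1))) →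
        ∀ᶠ x in FF, ∀ t ∈ d.l, Good (fun v => ps d.js z o a x (d.vd y v)) t) := by
  simp only [flexOk, Bool.and_eq_true, List.all_eq_true, beq_iff_eq] at h
  obtain ⟨⟨⟨h1, h2⟩, h3⟩, h4⟩ := h
  have hv : ∀ v, (d.vd y v).1 = nomR d.js (d.vd y v).2.1 := fun v => by
    unfold TDa.vd
    by_cases hv : v < (bdv y ++ d.iv).length
    · exact h2 _ (MP_485bb6_lc.getD_mem _ _ hv)
    · rw [List.getD_eq_default _ _ (not_lt.1 hv)]; rfl
  have lab : ∀ t ∈ d.l, ∀ᶠ x in FF, Lab (fun v => ps d.js z o a x (d.vd y v)) t := fun t ht =>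
    (edge_ok hz h1 (hv _) (hv _) (h3 t ht).1.1 o a).and
      ((edge_ok hz h1 (hv _) (hv _) (h3 t ht).1.2 o a).and (edge_ok hz h1 (hv _) (hv _) (h3 t ht).2 o a))
  refine ⟨(eventually_all_finite d.l.finite_toSet).2 lab,
    fun hs => (eventually_all_finite d.l.finite_toSet).2 fun t ht =>
      (tri_ok hz h1 (hv _) (hv _) (hv _) ?_ o a).and (lab t ht)⟩
  by_cases hy : y = 10 ∨ y = 15
  · rw [if_pos hy] at h4
    replace hs := hs hy
    replace ht : t ∈ d.l := ht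
    generalize d.l = l at hs ht h4
    cases l with
    | nil => simp at ht
    | cons b l =>
      rcases List.mem_cons.1 ht with rfl | ht
      · exact Or.inr (hs _ rfl)
      · exact Or.inl (h4 t ht)
  · rw [if_neg hy] at h4
    exact Or.inl (h4 t ht)

/-- The complete check of a tile. -/
def allOk (y : ℕ) (d : TDa) : Bool := topOk (d.l.map tri) d.n d.q d.par && ceOk y d && flexOk y d

end Pool.Agent.MP_a4408f_lc
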