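import Mathlib
import Pool.Agent.MP_a4408f_lc.Check

/-! Neighbouring tiles fit together. -/

namespace Pool.Agent.MP_a4408f_lc

open Filter Topology Real

/-- Global variable of a local variable. -/
def gv (L : List BT) (i j k : ℕ) : ℕ :=
  [0, col L i - 2, tv L j, (gq L j).2.1, (gq L j).2.2.1, (gq L j).2.2.2.1, (gq L j).2.2.2.2.1,
    (gq L j).2.2.2.2.2].getD k 0

lemma tv_lt' (L : List BT) (j : ℕ) : tv L j < nv L := by
  have h : (gq L j).2.1 + (gq L j).2.2.1 + (gq L j).2.2.2.1 + (gq L j).2.2.2.2.1 + (gq L j).2.2.2.2.2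
      < nv L := by
    unfold gq nv
    by_cases h : (j - 3) / 5 < L.length
    · exact Nat.lt_succ_of_le (List.single_le_sum (fun _ _ => Nat.zero_le _) _
        (List.mem_map_of_mem (MP_485bb6_lc.getD_mem L _ h)))
    · rw [List.getD_eq_default _ _ (not_lt.1 h)]; simp
  have h5 := Nat.mod_lt (j - 3) (show 0 < 5 by norm_num)
  unfold tv
  generalize (j - 3) % 5 = r at h5
  split_ifs <;> interval_cases r <;> simp <;> omega

lemma ty_spec (L : List BT) (i j : ℕ) :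
    (ty L i j = 0 ∧ (j < 2 ∨ Ht L < j ∨ col L i < 2 ∨ nv L + 2 < col L i ∨
      col L i = nv L + 2 ∧ (j = 2 ∨ j = Ht L))) ∨
    (ty L i j = (if (gq L j).1 = true then 13 else 8) + (j - 3) % 5 ∧ col L i = nv L + 2 ∧ 3 ≤ j ∧
      j < Ht L) ∨
    (2 ≤ col L i ∧ col L i < nv L + 2 ∧ (ty L i j = 1 ∧ j = 2 ∨ ty L i j = 2 ∧ j = Ht L ∨
      3 ≤ j ∧ j < Ht L ∧ (ty L i j = 3 ∧ col L i - 2 < tv L j ∨
        ty L i j = 4 + pol L j ∧ col L i - 2 = tv L j ∨ ty L i j = 6 + pol L j ∧ tv L j < col L i - 2))) := by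
  unfold ty
  split_ifs <;> omega

lemma cls_spec : ∀ y < 18,
    ((cls y).1 = 0 ∧ (y < 2 ∨ y = 8 ∨ y = 13) ∨ (cls y).1 = 1 ∧ 2 ≤ y ∧ y ≤ 7 ∨
      (cls y).1 + 7 = y ∧ 9 ≤ y ∧ y ≤ 12 ∨ (cls y).1 + 8 = y ∧ 14 ≤ y) ∧
    ((cls y).2.1 = 0 ∧ (y < 4 ∨ 8 ≤ y) ∨ (cls y).2.1 + 3 = y ∧ 4 ≤ y ∧ y ≤ 5 ∨
      (cls y).2.1 + 5 = y ∧ 6 ≤ y ∧ y ≤ 7) ∧
    ((cls y).2.2.1 = 0 ∧ (y = 0 ∨ y = 2 ∨ y = 12 ∨ y = 17) ∨ (cls y).2.2.1 = 1 ∧ (y = 1 ∨ 3 ≤ y ∧ y ≤ 7) ∨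
      (cls y).2.2.1 + 6 = y ∧ 8 ≤ y ∧ y ≤ 11 ∨ (cls y).2.2.1 + 7 = y ∧ 13 ≤ y ∧ y ≤ 16) ∧
    ((cls y).2.2.2.1 = 0 ∧ y < 6 ∨ (cls y).2.2.2.1 = 1 ∧ (y = 6 ∨ 10 ≤ y ∧ y ≤ 12 ∨ 16 ≤ y) ∨
      (cls y).2.2.2.1 = 2 ∧ (7 ≤ y ∧ y ≤ 9 ∨ 13 ≤ y ∧ y ≤ 15)) ∧
    ((cls y).2.2.2.2.1 = 2 ∨ (cls y).2.2.2.2.1 = 1 ∧ 4 ≤ y ∧ y ≤ 5) ∧
    (y < 8 → (cls y).2.2.2.2.2 = 2) ∧ (cls y).2.2.2.2.2 < 8 ∧ (cls y).2.2.2.2.2 ≠ 0 ∧
    ∀ n < 4, (sH (cls y).2.2.1 n).1 < 8 ∧ (sH (cls y).1 n).1 < 8 ∧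
      ((sH (cls y).2.2.1 n).1 = 1 ∨ 3 ≤ (sH (cls y).2.2.1 n).1 ∧ 2 ≤ (cls y).2.2.1) := by
  intro y hy
  interval_cases y <;> refine ⟨?_, ?_, ?_, ?_, ?_, ?_, ?_, ?_, ?_⟩ <;> decide

lemma gq_succ (L : List BT) {j : ℕ} (h1 : 3 ≤ j) (h2 : (j - 3) % 5 ≠ 4) : gq L (j + 1) = gq L j := by
  unfold gq
  congr 1
  omega

lemma fit_h (L : List BT) (i j : ℕ) : (cls (ty L i j)).2.1 = (cls (ty L (i + 1) j)).2.2.2.1 := by
  have h1 := (cls_spec _ (ty_lt L i j)).2.1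
  have h2 := (cls_spec _ (ty_lt L (i + 1) j)).2.2.2.1
  have h3 := ty_spec L i j
  have h4 := ty_spec L (i + 1) j
  have h5 := tv_lt' L j
  have h6 : col L (i + 1) = col L i + 1 ∨ col L i = nv L + 3 ∧ col L (i + 1) = 2 := by
    unfold col; split_ifs <;> omega
  unfold pol at h3 h4
  split_ifs at h3 h4 <;> omega

lemma fit_v (L : List BT) (i j : ℕ) : (cls (ty L i j)).2.2.1 = (cls (ty L i (j + 1))).1 := by
  have h1 := (cls_spec _ (ty_lt L i j)).2.2.1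
  have h2 := (cls_spec _ (ty_lt L i (j + 1))).1
  have h3 := ty_spec L i j
  have h4 := ty_spec L i (j + 1)
  have h5 : pol L j ≤ 1 ∧ pol L (j + 1) ≤ 1 := by unfold pol; split_ifs <;> omega
  unfold Ht at h3 h4
  by_cases h : 3 ≤ j ∧ (j - 3) % 5 ≠ 4
  · rw [gq_succ L h.1 h.2] at h4
    split_ifs at h3 h4 <;> omega
  · split_ifs at h3 h4 <;> omega

lemma gv_r (L : List BT) (i j : ℕ) : gv L i j (cls (ty L i j)).2.2.2.2.1 = tv L j := by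
  have h3 := ty_spec L i j
  have h5 : pol L j ≤ 1 := by unfold pol; split_ifs <;> omega
  rcases (cls_spec _ (ty_lt L i j)).2.2.2.2.1 with h | h
  · simp [h, gv]
  · rw [h.1]
    show col L i - 2 = _
    split_ifs at h3 <;> omega

lemma gv_l (L : List BT) (i j : ℕ) : gv L i j (cls (ty L i j)).2.2.2.2.2 = tv L j := by
  have h5 : pol L j ≤ 1 := by unfold pol; split_ifs <;> omega
  by_cases h : ty L i j < 8
  · simp [(cls_spec _ (ty_lt L i j)).2.2.2.2.2.1 h, gv]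
  · have h3 : ty L i j = (if (gq L j).1 = true then 13 else 8) + (j - 3) % 5 := by
      have := ty_spec L i j
      omega
    have h4 := Nat.mod_lt (j - 3) (show 0 < 5 by norm_num)
    rw [h3]
    unfold tv
    generalize (j - 3) % 5 = r at h4
    split_ifs <;> interval_cases r <;> rfl

lemma gv_v (L : List BT) (i j : ℕ) {n : ℕ} (hn : n < 4) :
    gv L i (j + 1) (sH (cls (ty L i j)).2.2.1 n).1 = gv L i j (sH (cls (ty L i j)).2.2.1 n).1 := by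
  obtain ⟨h0, -, h | h⟩ := (cls_spec _ (ty_lt L i j)).2.2.2.2.2.2.2.2 n hn
  · rw [h]; rfl
  · have h1 := (cls_spec _ (ty_lt L i j)).2.2.1
    have h3 := ty_spec L i j
    have h5 : pol L j ≤ 1 := by unfold pol; split_ifs <;> omega
    have e : gq L (j + 1) = gq L j := by apply gq_succ <;> split_ifs at h3 <;> omega
    have h6 := h.1
    generalize (sH (cls (ty L i j)).2.2.1 n).1 = k at h0 h6
    interval_cases k <;> simp [gv, e]

/-- The unit vectors of a tile. -/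
noncomputable def zz (L : List BT) (φ : ℝ → ℕ → ℝ) (i j : ℕ) (t : ℝ) (k : ℕ) : ℂ :=
  if k = 0 then 1 else ex (φ t (gv L i j k))

/-- The offset of a tile. -/
noncomputable def off (i j : ℕ) : ℂ := i * v4 UX + j * v4 VY

/-- The local name in the canonical tile. -/
def lv (e : ℕ) : ℕ := if e ≤ 6 then [0, 15, 14, 1, 2, 3, 4].getD e 0 else e

variable (dd : ℕ → TDa) (L : List BT) (φ : ℝ → ℕ → ℝ) (x : ℝ × ℝ × ℝ)

/-- Positions in a tile. -/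
noncomputable def PL (i j v : ℕ) : ℂ :=
  ps (dd (ty L i j)).js (zz L φ i j) (off i j) (i + j) x ((dd (ty L i j)).vd (ty L i j) v)

/-- The drawing. -/
noncomputable def PP (w : Vx) : ℂ := PL dd L φ x w.1 w.2.1 (lv w.2.2)

lemma ps_mkV (js : List JD) (i j : ℕ) (o : Z4) {k : ℕ} (hk : k < 8) (r : ℕ) (e : Z4 × Z4 × Z4) :
    ps js (zz L φ i j) (off i j) (i + j) x (mkV o k r e) = (off i j + v4 o + v4 e.1 +
      v4 e.2.1 * zz L φ i j x.2.1 k + (x.2.2 * x.1 ^ (i + j + r) : ℝ) * v4 e.2.2) / 100 := by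
  simp [ps, mkV, bv, hk, v4_add, zz, add_assoc]

lemma PL_bd (i j : ℕ) {v : ℕ} (hv : v < 16) : PL dd L φ x i j v =
    ps (dd (ty L i j)).js (zz L φ i j) (off i j) (i + j) x ((bdv (ty L i j)).getD v (0, [], 0, 0)) := by
  rw [PL, TDa.vd, List.getD_append _ _ _ _ (by simpa [bdv] using hv)]

lemma PL_c (i j : ℕ) : PL dd L φ x i j 0 = off i j / 100 ∧ PL dd L φ x i j 5 = off (i + 1) j / 100 ∧
    PL dd L φ x i j 8 = off (i + 1) (j + 1) / 100 ∧ PL dd L φ x i j 13 = off i (j + 1) / 100 := by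
  refine ⟨?_, ?_, ?_, ?_⟩ <;> rw [PL_bd _ _ _ _ _ _ (by norm_num)] <;>
    simp [bdv, ps_mkV] <;> simp [off, v4_add] <;> ring

lemma PL_v (i j n : ℕ) (hn : n < 2) : PL dd L φ x i j (6 + n) = PL dd L φ x (i + 1) j (15 - n) := by
  have a := cls_spec _ (ty_lt L i j)
  have b := cls_spec _ (ty_lt L (i + 1) j)
  have e : zz L φ i j x.2.1 (cls (ty L i j)).2.2.2.2.1 =
      zz L φ (i + 1) j x.2.1 (cls (ty L (i + 1) j)).2.2.2.2.2 := by
    rw [zz, zz, gv_r, gv_l, if_neg (by omega), if_neg b.2.2.2.2.2.2.2.1]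
  rw [PL_bd _ _ _ _ _ _ (by omega), PL_bd _ _ _ _ _ _ (by omega)]
  have k : ∀ n, ps (dd (ty L i j)).js (zz L φ i j) (off i j) (i + j) x
      (mkV UX (cls (ty L i j)).2.2.2.2.1 1 (sV (cls (ty L i j)).2.1 n)) =
      ps (dd (ty L (i + 1) j)).js (zz L φ (i + 1) j) (off (i + 1) j) (i + 1 + j) x
      (mkV 0 (cls (ty L (i + 1) j)).2.2.2.2.2 0 (sV (cls (ty L (i + 1) j)).2.2.2.1 n)) := by
    intro n
    rw [ps_mkV _ _ _ _ _ _ _ (by omega), ps_mkV _ _ _ _ _ _ _ (by omega), e, fit_h]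
    simp [off]; ring
  interval_cases n
  exacts [k 0, k 1]

lemma PL_h (i j n : ℕ) (hn : n < 4) : PL dd L φ x i j (12 - n) = PL dd L φ x i (j + 1) (1 + n) := by
  have a := (cls_spec _ (ty_lt L i j)).2.2.2.2.2.2.2.2 n hn
  have e : zz L φ i j x.2.1 (sH (cls (ty L i j)).2.2.1 n).1 =
      zz L φ i (j + 1) x.2.1 (sH (cls (ty L i j)).2.2.1 n).1 := by
    rw [zz, zz, gv_v L i j hn]
  rw [PL_bd _ _ _ _ _ _ (by omega), PL_bd _ _ _ _ _ _ (by omega)]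
  have k : ps (dd (ty L i j)).js (zz L φ i j) (off i j) (i + j) x (mkH VY 1 (cls (ty L i j)).2.2.1 n) =
      ps (dd (ty L i (j + 1))).js (zz L φ i (j + 1)) (off i (j + 1)) (i + (j + 1)) x
      (mkH 0 0 (cls (ty L i (j + 1))).1 n) := by
    rw [← fit_v, mkH, mkH, ps_mkV _ _ _ _ _ _ _ a.1, ps_mkV _ _ _ _ _ _ _ a.1, e]
    simp [off]; ring
  interval_cases n <;> exact k

theorem PP_gl (i j v : ℕ) : PP dd L φ x (gl i j v) = PL dd L φ x i j v := by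
  by_cases hv : v < 16
  · have c := PL_c dd L φ x
    have a := PL_v dd L φ x i j
    have b := PL_h dd L φ x i j
    interval_cases v
    exacts [rfl, rfl, rfl, rfl, rfl, (c (i + 1) j).1.trans (c i j).2.1.symm, (a 0 (by omega)).symm,
      (a 1 (by omega)).symm, (c (i + 1) (j + 1)).1.trans (c i j).2.2.1.symm, (b 3 (by omega)).symm,
      (b 2 (by omega)).symm, (b 1 (by omega)).symm, (b 0 (by omega)).symm,
      (c i (j + 1)).1.trans (c i j).2.2.2.symm, rfl, rfl]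
  · rw [gl_big _ _ (not_lt.1 hv), PP, lv, if_neg (by simp only; omega)]

lemma PP_frame {i j : ℕ} (h : ty L i j = 0) :
    (PP dd L φ x (i, j, 1)).re = (off i j).re / 100 ∧ (PP dd L φ x (i, j, 2)).re = (off i j).re / 100 ∧
    (PP dd L φ x (i, j, 3)).re = ((off i j).re + 200) / 100 ∧
    (PP dd L φ x (i, j, 4)).re = ((off i j).re + 440) / 100 ∧
    (PP dd L φ x (i, j, 5)).re = ((off i j).re + 660) / 100 ∧
    (PP dd L φ x (i, j, 6)).re = ((off i j).re + 880) / 100 := by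
  refine ⟨?_, ?_, ?_, ?_, ?_, ?_⟩ <;> rw [PP, PL_bd _ _ _ _ _ _ (by simp [lv]), h] <;>
    simp [lv, bdv, mkH, cls, sH, sV, ps_mkV, v4]

theorem PP_bd : (∀ i, HM (PP dd L φ x) i 0 ∧ HM (PP dd L φ x) i (Ht L + 2)) ∧
    ∀ j, VC (PP dd L φ x) 0 j ∧ VC (PP dd L φ x) (Wd L + 2) j := by
  have c : ∀ i j, (PP dd L φ x (i, j, 0)).re = (off i j).re / 100 := fun i j => by
    rw [show PP dd L φ x (i, j, 0) = _ from (PL_c dd L φ x i j).1]; simp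
  have s : (0 : ℝ) ≤ √3 := Real.sqrt_nonneg _
  have hm : ∀ i j, ty L i j = 0 → HM (PP dd L φ x) i j := fun i j h => by
    obtain ⟨-, -, a, b, d, e⟩ := PP_frame dd L φ x h
    simp only [HM, a, b, d, e, c]
    simp [off, v4, UX, VY]
    refine ⟨?_, ?_, ?_, ?_, ?_⟩ <;> linarith
  have vc : ∀ i j, ty L i j = 0 → VC (PP dd L φ x) i j := fun i j h => by
    obtain ⟨a, b, -⟩ := PP_frame dd L φ x h
    simp only [VC, a, b, c]
    simp [off, v4, VY]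
  exact ⟨fun i => ⟨hm _ _ (by simp [ty]), hm _ _ (by simp [ty])⟩, fun j => ⟨vc _ _ (by simp [ty, col]),
    vc _ _ (by rw [ty, if_pos]; unfold col Wd; split_ifs <;> omega)⟩⟩

end Pool.Agent.MP_a4408f_lc
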