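import Mathlib
import Pool.Agent.MP_a4408f_lc.Side

/-! Propagation of the angle inequalities through the layout. -/

namespace Pool.Agent.MP_a4408f_lc

open Real

theorem chain {L : List BT} {θ : ℕ → ℕ → ℕ → ℝ} {a : ℕ}
    (ha : ∀ c, 2 ≤ c → c ≤ nv L + 2 → col L (a + c) = c)
    (hF : ∀ i j, (a + 2 ≤ i ∧ i < a + nv L + 3) → (2 ≤ j ∧ j < Ht L) → Fact (ty L i j) (θ i j))
    (hor : ∀ i j, (a + 2 ≤ i ∧ i + 1 < a + nv L + 3) → (2 ≤ j ∧ j < Ht L) → θ i j 6 = θ (i + 1) j 14 - π)
    (ver : ∀ i j, (a + 2 ≤ i ∧ i < a + nv L + 3) → (2 ≤ j ∧ j + 1 < Ht L) →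
      θ i j 11 - π = θ i (j + 1) 1 ∧ θ i j 9 - π = θ i (j + 1) 3) : BSat L := by
  let φ : ℕ → ℝ := fun k => θ (a + (k + 2)) 2 11 - π
  have pl : ∀ j, pol L j ≤ 1 := fun j => by unfold pol; split_ifs <;> omega
  have F : ∀ c j y, 2 ≤ c → c ≤ nv L + 2 → 2 ≤ j → j < Ht L → ty L (a + c) j = y →
      Fact y (θ (a + c) j) := fun c j y _ _ _ _ e => e ▸ hF _ _ (by omega) (by omega)
  have T : ∀ c j, 2 ≤ c → c < nv L + 2 → 2 ≤ j → j < Ht L → ty L (a + c) j =
      if j = 2 then 1 else if c - 2 < tv L j then 3 else if c - 2 = tv L j then 4 + pol L j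
        else 6 + pol L j := by
    intro c j _ _ _ _
    have := ty_spec L (a + c) j
    rw [ha c (by omega) (by omega)] at this
    split_ifs at this ⊢ <;> omega
  have bus : ∀ k < nv L, ∀ j, 3 ≤ j → j < Ht L →
      θ (a + (k + 2)) j 1 ≤ φ k ∧ φ k ≤ θ (a + (k + 2)) j 3 := by
    intro k hk j hj
    induction j, hj using Nat.le_induction with
    | base =>
      intro h
      have h1 := (F (k + 2) 2 1 (by omega) (by omega) (by omega) (by omega)
        (by rw [T] <;> first | rfl | omega)).1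
      have h2 := ver (a + (k + 2)) 2 (by omega) (by omega)
      simp [ineqs] at h1 h2
      constructor <;> simp only [φ] <;> linarith [h2.1, h2.2]
    | succ j hj ih =>
      intro h
      obtain ⟨i1, i2⟩ := ih (by omega)
      have h0 := T (k + 2) j (by omega) (by omega) (by omega) (by omega)
      have h1 := (F (k + 2) j _ (by omega) (by omega) (by omega) (by omega) rfl).1
      have h2 := ver (a + (k + 2)) j (by omega) (by omega)
      have h3 : 3 ≤ ty L (a + (k + 2)) j ∧ ty L (a + (k + 2)) j ≤ 7 := by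
        have := pl j
        split_ifs at h0 <;> omega
      generalize ty L (a + (k + 2)) j = y at h1 h3
      obtain ⟨h3, h4⟩ := h3
      interval_cases y <;> simp [ineqs] at h1 <;> constructor <;> linarith [h2.1, h2.2, h1.1, h1.2]
  have tap : ∀ j, 3 ≤ j → j < Ht L → ∀ c, tv L j + 3 ≤ c → c ≤ nv L + 2 →
      (pol L j = 0 → θ (a + c) j 14 ≤ φ (tv L j) + 7 * π / 6) ∧
      (pol L j = 1 → φ (tv L j) + 11 * π / 6 ≤ θ (a + c) j 14) := by
    intro j h1 h2 c hc
    induction c, hc using Nat.le_induction with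
    | base =>
      intro h
      have h0 := T (tv L j + 2) j (by omega) (by omega) (by omega) (by omega)
      rw [if_neg (by omega), if_neg (by omega), if_pos (by omega)] at h0
      have h3 := (F _ j _ (by omega) (by omega) (by omega) h2 h0).1
      have h4 := hor (a + (tv L j + 2)) j (by omega) (by omega)
      have h5 := bus _ (tv_lt' L j) j h1 h2
      rw [show a + (tv L j + 2) + 1 = a + (tv L j + 3) from rfl] at h4
      constructor <;> intro e <;> simp [e, ineqs] at h3 <;> linarith [h3.2.2, h5.1, h5.2]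
    | succ c hc ih =>
      intro h
      have h0 := T c j (by omega) (by omega) (by omega) (by omega)
      rw [if_neg (by omega), if_neg (by omega), if_neg (by omega)] at h0
      have h3 := (F _ j _ (by omega) (by omega) (by omega) h2 h0).1
      have h4 := hor (a + c) j (by omega) (by omega)
      have h5 := ih (by omega)
      rw [add_assoc] at h4
      constructor <;> intro e <;> simp [e, ineqs] at h3 h5 <;> linarith [h3.2.2]
  refine ⟨φ, fun q hq => ?_⟩
  obtain ⟨g, hg, e⟩ := MP_485bb6_lc.exists_getD L (false, 0, 0, 0, 0, 0) hq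
  have row : ∀ r < 5, let j := 3 + 5 * g + r
      gq L j = q ∧ (j - 3) % 5 = r ∧ j < Ht L ∧
        Fact ((if q.1 = true then 13 else 8) + r) (θ (a + (nv L + 2)) j) ∧
        (pol L j = 0 → θ (a + (nv L + 2)) j 14 ≤ φ (tv L j) + 7 * π / 6) ∧
        (pol L j = 1 → φ (tv L j) + 11 * π / 6 ≤ θ (a + (nv L + 2)) j 14) := by
    intro r hr j
    have e1 : gq L j = q := by rw [← e, gq]; congr 1; omega
    have e2 : (j - 3) % 5 = r := by omega
    have e3 : j < Ht L := by unfold Ht; omega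
    have := ty_spec L (a + (nv L + 2)) j
    rw [ha _ (by omega) le_rfl, e1, e2] at this
    exact ⟨e1, e2, e3, F _ j _ (by omega) le_rfl (by omega) e3 (by omega),
      tap j (by omega) e3 _ (by have := tv_lt' L j; omega) le_rfl⟩
  obtain ⟨a0, b0, c0, f0, t0⟩ := row 0 (by omega)
  obtain ⟨a1, b1, c1, f1, t1⟩ := row 1 (by omega)
  obtain ⟨a2, b2, c2, f2, t2⟩ := row 2 (by omega)
  obtain ⟨a3, b3, c3, f3, t3⟩ := row 3 (by omega)
  obtain ⟨a4, b4, c4, f4, t4⟩ := row 4 (by omega)
  obtain ⟨u0, v0⟩ := ver (a + (nv L + 2)) (3 + 5 * g + 0) (by omega) (by omega)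
  obtain ⟨u1, v1⟩ := ver (a + (nv L + 2)) (3 + 5 * g + 1) (by omega) (by omega)
  obtain ⟨u2, v2⟩ := ver (a + (nv L + 2)) (3 + 5 * g + 2) (by omega) (by omega)
  obtain ⟨u3, v3⟩ := ver (a + (nv L + 2)) (3 + 5 * g + 3) (by omega) (by omega)
  simp only [pol, tv, a0, a1, a2, a3, a4, b0, b1, b2, b3, b4] at t0 t1 t2 t3 t4
  simp only [add_assoc (3 + 5 * g), Nat.reduceAdd] at u0 u1 u2 u3 v0 v1 v2 v3
  obtain ⟨m, k1, k2, k3, k4, kn⟩ := q
  replace f0 := f0.1
  replace f1 := f1.1
  replace f3 := f3.1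
  replace f4 := f4.1
  cases m <;> simp [ineqs] at f0 f1 f3 f4 t0 t1 t2 t3 t4 u0 v0
  · have := f2.2.1 rfl (φ k1) (φ k2) (φ k3) (φ k4) (φ kn) (by linarith) (by linarith [f3.1])
      (by linarith [f3.2]) (by linarith [f1.1]) (by linarith [f1.2])
    exact ⟨by simpa using this.1, fun h => by simpa [bholds] using this.2 h.1 h.2.1 h.2.2.1 h.2.2.2⟩
  · have := f2.2.2 rfl (φ k1) (φ k2) (φ k3) (φ k4) (φ kn) (by linarith) (by linarith [f1.1])
      (by linarith [f1.2]) (by linarith [f3.1]) (by linarith [f3.2])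
    exact ⟨by simpa using this.1, fun h => by simpa [bholds] using this.2 h.1 h.2.1 h.2.2.1 h.2.2.2⟩

end Pool.Agent.MP_a4408f_lc
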