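import Mathlib
import Pool.Agent.MP_a4408f_lc.Check

/-! Generated tile data. -/

namespace Pool.Agent.MP_a4408f_lc

/-- Tile 0. -/
def d0 : TDa where
  l := [(2, 3, 11, false, false, false), (3, 7, 11, false, false, false),
    (11, 14, 2, false, false, false), (6, 7, 3, false, false, false),
    (10, 11, 7, false, false, false), (11, 12, 14, false, false, false),
    (14, 15, 2, false, false, false), (3, 4, 6, false, false, false),
    (9, 10, 7, false, false, false), (13, 14, 12, false, false, false),
    (1, 2, 15, false, false, false), (4, 5, 6, false, false, false),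
    (8, 9, 7, false, false, false), (0, 1, 15, false, false, false)]
  q := []
  par := [0, 0, 0, 1, 1, 2, 2, 3, 4, 5, 6, 7, 8, 10]
  iv := []
  js := []
  ce := []

theorem ok0 : allOk 0 d0 = true := by decide +kernel

/-- Tile 1. -/
def d1 : TDa where
  l := List.flatten [[(16, 17, 18, true, true, false), (16, 19, 17, true, false, true),
    (18, 17, 20, true, false, true), (16, 18, 21, false, true, false),
    (16, 21, 19, false, false, true), (19, 22, 17, true, true, false),
    (20, 17, 23, false, true, true), (18, 20, 21, true, true, true),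
    (19, 21, 24, false, false, false), (19, 24, 22, false, true, true),
    (17, 22, 10, true, false, false), (11, 23, 17, false, true, false),
    (20, 23, 25, true, true, false), (20, 25, 21, false, true, true),
    (24, 21, 26, false, false, true), (24, 26, 22, true, false, true),
    (22, 27, 10, false, false, false), (10, 11, 17, false, false, false),
    (11, 28, 23, false, false, false), (25, 23, 29, true, false, true),
    (25, 29, 21, true, true, true), (26, 21, 30, false, false, false),
    (26, 31, 22, true, true, false), (22, 31, 27, true, true, false),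
    (27, 32, 10, true, true, false), (11, 33, 28, true, true, false),
    (23, 28, 34, false, true, true), (29, 23, 34, false, true, true),
    (35, 21, 29, false, true, false), (30, 21, 36, false, false, true)],
    [(26, 30, 31, false, true, true), (37, 27, 31, true, true, true),
    (38, 32, 27, true, true, false), (32, 9, 10, true, false, true),
    (33, 11, 12, true, false, true), (39, 28, 33, false, true, true),
    (40, 34, 28, true, true, true), (29, 34, 35, true, true, false),
    (35, 41, 21, true, false, false), (42, 36, 21, false, false, false),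
    (30, 36, 31, true, false, true), (37, 38, 27, true, false, true),
    (36, 37, 31, true, true, false), (38, 43, 32, false, true, true),
    (43, 9, 32, false, true, true), (44, 33, 12, true, true, false),
    (40, 28, 39, true, false, true), (39, 33, 44, true, true, false),
    (41, 34, 40, false, true, true), (35, 34, 41, true, false, true),
    (41, 45, 21, false, false, false), (36, 42, 37, false, true, true),
    (42, 21, 45, false, false, false), (46, 38, 37, false, true, true),
    (46, 43, 38, false, false, false), (9, 43, 8, false, false, false),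
    (12, 13, 44, false, false, false), (47, 40, 39, true, true, false),
    (47, 39, 44, false, false, false), (41, 40, 45, true, true, false)],
    [(42, 46, 37, false, true, true), (2, 42, 45, false, false, false),
    (8, 43, 46, false, false, false), (47, 44, 13, false, false, false),
    (45, 40, 47, true, true, false), (8, 46, 42, false, false, false),
    (2, 3, 42, false, false, false), (2, 45, 15, false, false, false),
    (45, 47, 13, false, false, false), (8, 42, 7, false, false, false),
    (6, 42, 3, false, false, false), (14, 15, 45, false, false, false),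
    (1, 2, 15, false, false, false), (13, 14, 45, false, false, false),
    (6, 7, 42, false, false, false), (3, 4, 6, false, false, false),
    (0, 1, 15, false, false, false), (4, 5, 6, false, false, false)]]
  q := List.flatten [[(24730612, 25256000), (24664539, 26704346), (24304709, 25266746), (25593713, 25345458),
    (23464194, 25399188), (24359488, 23707449), (27937793, 26105707), (21285291, 26261673),
    (26276134, 24953787), (22706945, 25055723), (27213541, 24656535), (32105031, 26478204),
    (17211562, 26807829), (21718808, 24854583), (27782692, 23914114), (29711595, 24601616),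
    (35626143, 28128529), (14014214, 28338249), (19230988, 25010044), (21011327, 24238024),
    (29846146, 22690855), (33384364, 23764282), (35970292, 26269094), (13315961, 26718871),
    (15422916, 24518135), (18736024, 23380020), (33992593, 17466814), (40055393, 27895346),
    (9543548, 28164544), (13655398, 19426446)],
    [(38680528, 25079107), (10387565, 25765599)]]
  par := List.flatten [[0, 0, 0, 0, 1, 1, 2, 2, 4, 5, 5, 6, 6, 7, 8, 9, 10, 10, 11, 12, 13, 14, 15, 16, 16, 18, 18, 19,
    20, 21],
    [21, 23, 24, 24, 25, 25, 26, 27, 28, 29, 29, 31, 31, 32, 33, 34, 35, 35, 36, 37, 38, 39, 39, 41,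
    43, 44, 45, 46, 47, 48],
    [51, 52, 54, 56, 57, 60, 61, 61, 63, 65, 66, 67, 67, 68, 69, 70, 72, 75]]
  iv := List.flatten [[((600, 0, 640, 100), [(0, (550, 0, 640, 150)), (1, (50, 0, 0, -50))], (-59586, 0, -59616, 0), 1),
    ((550, 0, 640, 150), [(0, (550, 0, 640, 150))], (-59680, 0, -59692, 0), 1),
    ((500, 0, 640, 100), [(0, (550, 0, 640, 150)), (1, (-50, 0, 0, -50))], (-59605, 0, -59714, 0), 1),
    ((600, 0, 640, 100), [(0, (550, 0, 640, 150)), (1, (50, 0, 0, -50))], (-59551, 0, -59640, 0), 1),
    ((500, 0, 640, 100), [(0, (550, 0, 640, 150)), (1, (-50, 0, 0, -50))], (-59696, 0, -59705, 0), 1),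
    ((495, 0, 793, 0), [(0, (495, 0, 793, 0))], (-60000, 0, -60000, 0), 1),
    ((630, 0, 580, 150), [(0, (630, 0, 580, 150))], (-59934, 0, -60000, 0), 1),
    ((470, 0, 580, 150), [(0, (470, 0, 580, 150))], (-59425, 0, -60000, 0), 1),
    ((680, 0, 580, 100), [(0, (630, 0, 580, 150)), (1, (50, 0, 0, -50))], (-59664, 0, -59822, 0), 1),
    ((420, 0, 580, 100), [(0, (470, 0, 580, 150)), (1, (-50, 0, 0, -50))], (-59582, 0, -59887, 0), 1),
    ((680, 0, 580, 100), [(0, (630, 0, 580, 150)), (1, (50, 0, 0, -50))], (-59629, 0, -59846, 0), 1),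
    ((730, 0, 540, 150), [(0, (730, 0, 540, 150))], (-49925, 0, -52481, 0), 1),
    ((370, 0, 540, 150), [(0, (370, 0, 540, 150))], (-59981, 0, -59571, 0), 1),
    ((420, 0, 580, 100), [(0, (470, 0, 580, 150)), (1, (-50, 0, 0, -50))], (-59635, 0, -59940, 0), 1),
    ((760, 0, 520, 100), [(0, (710, 0, 520, 150)), (1, (50, 0, 0, -50))], (-59512, 0, -59721, 0), 1),
    ((710, 0, 520, 150), [(0, (710, 0, 520, 150))], (-59958, 0, -60000, 0), 1),
    ((790, 0, 620, 150), [(0, (730, 0, 700, 150)), (9, (-1, 0, 0, 0))], (-59981, 0, -44962, 0), 1),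
    ((310, 0, 620, 150), [(0, (370, 0, 540, 150)), (8, (1, 0, 0, 0))], (9755, 0, -7293, 0), 1),
    ((390, 0, 520, 150), [(0, (390, 0, 520, 150))], (-59402, 0, -60000, 0), 1),
    ((340, 0, 520, 100), [(0, (390, 0, 520, 150)), (1, (-50, 0, 0, -50))], (-59804, 0, -59746, 0), 1),
    ((760, 0, 520, 100), [(0, (710, 0, 520, 150)), (1, (50, 0, 0, -50))], (-59476, 0, -59744, 0), 1),
    ((790, 0, 460, 150), [(0, (790, 0, 460, 150))], (-59981, 0, -60000, 0), 1),
    ((830, 0, 540, 150), [(0, (730, 0, 540, 150)), (1, (100, 0, 0, 0))], (-49906, 0, -51633, 0), 1),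
    ((270, 0, 540, 150), [(0, (370, 0, 540, 150)), (1, (-100, 0, 0, 0))], (-60000, 0, -58723, 0), 1),
    ((310, 0, 460, 150), [(0, (310, 0, 460, 150))], (-59378, 0, -60000, 0), 1),
    ((340, 0, 520, 100), [(0, (390, 0, 520, 150)), (1, (-50, 0, 0, -50))], (-59850, 0, -59787, 0), 1),
    ((840, 0, 460, 100), [(0, (790, 0, 460, 150)), (1, (50, 0, 0, -50))], (-59359, 0, -59619, 0), 1),
    ((890, 0, 620, 150), [(0, (730, 0, 700, 150)), (1, (100, 0, 0, 0)), (9, (-1, 0, 0, 0))], (-60000, 0, -44039, 0), 1),
    ((210, 0, 620, 150), [(0, (370, 0, 540, 150)), (1, (-100, 0, 0, 0)), (8, (1, 0, 0, 0))], (9774, 0, -6369, 0), 1),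
    ((260, 0, 460, 100), [(0, (310, 0, 460, 150)), (1, (-50, 0, 0, -50))], (-60000, 0, -59619, 0), 1)],
    [((890, 0, 460, 150), [(0, (790, 0, 460, 150)), (1, (100, 0, 0, 0))], (-60000, 0, -59227, 0), 1),
    ((210, 0, 460, 150), [(0, (310, 0, 460, 150)), (1, (-100, 0, 0, 0))], (-59359, 0, -59227, 0), 1)]]
  js := [([(0, (-100, 0, 160, 0)), (1, (100, 0, 0, 0))], (-60, 0, 80, 0)),
    ([(0, (0, 0, 160, 0))], (-60, 0, 80, 0))]
  ce := [⟨11, 9, 3, 0, [],
    [((0, 0), (0, 1), 1, 1), ((0, 2), (0, 1), 1, 1), ((2, 1), (2, 1), 3, 0),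
    ((6, 0), (12, 1), 3, 2), ((19, 1), (19, 1), 3, 0), ((27, 0), (37, 1), 3, 2),
    ((49, 1), (49, 1), 3, 0), ((48, 0), (59, 1), 3, 2), ((64, 0), (64, 1), 1, 1),
    ((64, 2), (64, 1), 1, 1), ((46, 2), (57, 1), 3, 2), ((35, 0), (47, 1), 3, 2),
    ((34, 2), (45, 1), 3, 2), ((1, 2), (1, 2), 3, 0), ((5, 0), (9, 2), 3, 2),
    ((15, 2), (15, 2), 3, 0), ((22, 0), (30, 2), 3, 2), ((40, 2), (40, 2), 3, 0),
    ((42, 0), (51, 2), 3, 2), ((60, 0), (60, 2), 1, 1), ((60, 1), (60, 2), 1, 1),
    ((41, 1), (53, 2), 3, 2), ((32, 0), (43, 2), 3, 2), ((33, 1), (44, 2), 3, 2)],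
    0x808080808080808380808380808383838380808383808080838380808080838080808080838380808080808080808080⟩]

theorem ok1 : allOk 1 d1 = true := by decide +kernel

/-- Tile 2. -/
def d2 : TDa where
  l := [(2, 3, 10, false, false, false), (3, 7, 10, false, false, false),
    (10, 11, 2, false, false, false), (6, 7, 3, false, false, false),
    (9, 10, 7, false, false, false), (11, 14, 2, false, false, false),
    (3, 4, 6, false, false, false), (8, 9, 7, false, false, false),
    (11, 12, 14, false, false, false), (14, 15, 2, false, false, false),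
    (4, 5, 6, false, false, false), (13, 14, 12, false, false, false),
    (1, 2, 15, false, false, false), (0, 1, 15, false, false, false)]
  q := []
  par := [0, 0, 0, 1, 1, 2, 3, 4, 5, 5, 6, 8, 9, 12]
  iv := []
  js := []
  ce := []

theorem ok2 : allOk 2 d2 = true := by decide +kernel

/-- Tile 3. -/
def d3 : TDa where
  l := List.flatten [[(1, 2, 16, false, true, true), (16, 2, 17, true, false, true), (1, 16, 18, true, true, false),
    (2, 19, 17, false, false, false), (16, 17, 20, true, false, true),
    (18, 16, 20, true, true, false), (1, 18, 15, false, false, false),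
    (2, 3, 19, false, false, false), (19, 21, 17, true, false, false),
    (20, 17, 22, false, true, true), (18, 20, 23, false, false, false),
    (18, 23, 15, false, false, false), (0, 1, 15, false, false, false),
    (24, 19, 3, true, false, true), (25, 21, 19, true, true, false),
    (17, 21, 26, false, true, false), (17, 26, 22, false, false, true),
    (20, 22, 23, true, true, false), (14, 15, 23, false, false, false),
    (24, 25, 19, true, false, true), (4, 24, 3, true, true, false),
    (25, 27, 21, false, true, true), (21, 28, 26, true, false, true),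
    (22, 26, 29, false, false, true), (23, 22, 30, true, true, false),
    (23, 31, 14, false, false, false), (32, 25, 24, false, true, true),
    (4, 32, 24, false, true, true), (32, 27, 25, false, false, false),
    (27, 28, 21, false, true, true)],
    [(28, 33, 26, true, true, false), (26, 34, 29, false, false, false),
    (22, 29, 30, true, false, true), (23, 30, 31, false, false, false),
    (13, 14, 31, false, false, false), (32, 4, 6, false, false, false),
    (6, 27, 32, false, false, false), (28, 27, 35, false, false, false),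
    (28, 35, 33, false, true, true), (33, 34, 26, true, false, true),
    (29, 34, 36, false, false, false), (30, 29, 37, false, true, true),
    (30, 37, 31, true, true, false), (31, 38, 13, false, false, false),
    (4, 5, 6, false, false, false), (6, 7, 27, false, false, false),
    (7, 35, 27, false, false, false), (35, 39, 33, false, true, true),
    (33, 39, 34, true, false, true), (34, 40, 36, false, false, false),
    (37, 29, 36, true, false, true), (31, 37, 41, true, true, false),
    (41, 38, 31, false, false, false), (38, 42, 13, false, false, false),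
    (8, 35, 7, false, false, false), (35, 43, 39, false, false, false),
    (39, 44, 34, true, true, false), (34, 44, 40, true, true, false),
    (36, 40, 45, false, false, false), (37, 36, 41, true, false, true)],
    [(41, 46, 38, true, true, false), (38, 47, 42, false, false, false),
    (12, 13, 42, false, false, false), (8, 43, 35, false, false, false),
    (39, 43, 44, false, true, true), (44, 48, 40, true, false, true),
    (45, 40, 10, false, false, false), (36, 45, 46, false, true, true),
    (41, 36, 46, false, true, true), (38, 46, 47, true, true, false),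
    (47, 49, 42, true, true, false), (42, 49, 12, true, true, false),
    (8, 50, 43, false, false, false), (43, 48, 44, false, true, true),
    (48, 51, 40, true, true, false), (40, 51, 10, true, true, false),
    (10, 11, 45, false, false, false), (46, 45, 47, true, false, true),
    (47, 45, 49, false, true, true), (49, 11, 12, true, false, true),
    (8, 9, 50, false, false, false), (48, 43, 50, false, false, false),
    (48, 50, 51, false, true, true), (51, 9, 10, true, false, true),
    (49, 45, 11, true, false, true), (50, 9, 51, false, true, true)]]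
  q := List.flatten [[(15515974, 5533867), (22294058, 9064227), (10089565, 8160051), (28876763, 5507702),
    (15196245, 10445055), (31223956, 11413103), (18346020, 14645796), (9735607, 14821333),
    (34763586, 4213142), (34978978, 8355737), (26899451, 15904069), (40068391, 13442469),
    (34226097, 16204416), (20976704, 19213285), (14974057, 18426807), (9543359, 22071626),
    (39962191, 7202270), (32851168, 19340678), (28378150, 21446978), (40087518, 20921760),
    (20993953, 23474067), (16268594, 21381993), (10970358, 26147068), (34664626, 22226166),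
    (29057201, 25787761), (14854897, 23724179), (10177656, 28373208), (38802345, 25238591),
    (33203948, 24182822), (20923900, 27218135)],
    [(16498224, 25546141), (14748010, 27167254), (35117418, 26214614), (15169913, 28551719),
    (39740560, 27886183), (34783036, 27977712)]]
  par := List.flatten [[0, 0, 0, 1, 1, 2, 2, 3, 3, 4, 5, 6, 6, 7, 8, 8, 9, 9, 11, 13, 13, 14, 15, 16, 17, 18, 19, 20,
    21, 21],
    [22, 23, 23, 24, 25, 27, 28, 29, 30, 30, 31, 32, 33, 34, 35, 36, 37, 38, 39, 40, 40, 42, 43, 43,
    46, 47, 48, 49, 49, 50],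
    [52, 53, 53, 54, 55, 57, 58, 58, 59, 60, 61, 62, 63, 64, 65, 66, 66, 67, 70, 71, 72, 72, 74, 75,
    76, 80]]
  iv := List.flatten [[((310, 0, 200, 50), [(0, (210, 0, 200, 50)), (1, (100, 0, 0, 0))], (-60000, 0, -45028, 0), 1),
    ((370, 0, 280, 50), [(0, (270, 0, 280, 50)), (1, (100, 0, 0, 0))], (-53603, 0, -49853, 0), 1),
    ((210, 0, 200, 50), [(0, (210, 0, 200, 50))], (-59978, 0, -44956, 0), 1),
    ((730, 0, 280, 50), [(0, (730, 0, 280, 50))], (-59952, 0, -60000, 0), 1),
    ((270, 0, 280, 50), [(0, (270, 0, 280, 50))], (-53625, 0, -49692, 0), 1),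
    ((730, 50, 330, 50), [(0, (730, 50, 330, 50))], (-59978, 0, -60000, 0), 1),
    ((370, -50, 330, 50), [(0, (270, -50, 330, 50)), (1, (100, 0, 0, 0))], (-59436, 0, -60000, 0), 1),
    ((270, -50, 330, 50), [(0, (270, -50, 330, 50))], (-59414, 0, -59673, 0), 1),
    ((790, 0, 200, 50), [(0, (790, 0, 200, 50))], (9987, 0, -7518, 0), 1),
    ((830, 0, 280, 50), [(0, (730, 0, 280, 50)), (1, (100, 0, 0, 0))], (-59930, 0, -59839, 0), 1),
    ((730, 0, 380, 50), [(0, (730, 0, 380, 50))], (-59637, 0, -59455, 0), 1),
    ((830, 50, 330, 50), [(0, (730, 50, 330, 50)), (1, (100, 0, 0, 0))], (-60000, 0, -59673, 0), 1),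
    ((830, 0, 380, 50), [(0, (730, 0, 380, 50)), (1, (100, 0, 0, 0))], (-59615, 0, -58962, 0), 1),
    ((370, 0, 380, 50), [(0, (270, 0, 380, 50)), (1, (100, 0, 0, 0))], (-59978, 0, -59106, 0), 1),
    ((270, 0, 380, 50), [(0, (270, 0, 380, 50))], (-60000, 0, -58613, 0), 1),
    ((220, 0, 380, 100), [(0, (270, 0, 380, 50)), (1, (-50, 0, 0, 50))], (-59978, 0, -58575, 0), 1),
    ((890, 0, 200, 50), [(0, (790, 0, 200, 50)), (1, (100, 0, 0, 0))], (9965, 0, -7446, 0), 1),
    ((780, 0, 380, 100), [(0, (730, 0, 380, 50)), (1, (50, 0, 0, 50))], (-59429, 0, -59600, 0), 1),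
    ((730, 0, 380, 150), [(0, (730, 0, 380, 50)), (1, (0, 0, 0, 100))], (-60000, 0, -59956, 0), 1),
    ((880, 0, 380, 100), [(0, (730, 0, 380, 50)), (1, (150, 0, 0, 50))], (-59451, 0, -59031, 0), 1),
    ((370, 0, 380, 150), [(0, (270, 0, 380, 50)), (1, (100, 0, 0, 100))], (-59429, 0, -59500, 0), 1),
    ((320, 0, 380, 100), [(0, (270, 0, 380, 50)), (1, (50, 0, 0, 50))], (-60000, 0, -59144, 0), 1),
    ((210, 0, 460, 150), [(0, (210, 0, 460, 50)), (1, (0, 0, 0, 100))], (-59978, 0, -59220, 0), 1),
    ((830, 0, 380, 150), [(0, (730, 0, 380, 50)), (1, (100, 0, 0, 100))], (-59978, 0, -59309, 0), 1),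
    ((730, 0, 540, 150), [(0, (730, 0, 540, 50)), (1, (0, 0, 0, 100))], (-49911, 0, -52478, 0), 1),
    ((270, 0, 380, 150), [(0, (270, 0, 380, 50)), (1, (0, 0, 0, 100))], (-59451, 0, -58853, 0), 1),
    ((210, 0, 620, 150), [(0, (270, 0, 540, 50)), (1, (0, 0, 0, 100)), (8, (1, 0, 0, 0))], (10070, 0, -6595, 0), 1),
    ((890, 0, 460, 150), [(0, (790, 0, 460, 50)), (1, (100, 0, 0, 100))], (-60000, 0, -59265, 0), 1),
    ((790, 0, 460, 150), [(0, (790, 0, 460, 50)), (1, (0, 0, 0, 100))], (-59978, 0, -60000, 0), 1),
    ((370, 0, 540, 150), [(0, (270, 0, 540, 50)), (1, (100, 0, 0, 100))], (-59978, 0, -60000, 0), 1)],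
    [((310, 0, 460, 150), [(0, (210, 0, 460, 50)), (1, (100, 0, 0, 100))], (-60000, 0, -59956, 0), 1),
    ((270, 0, 540, 150), [(0, (270, 0, 540, 50)), (1, (0, 0, 0, 100))], (-60000, 0, -59176, 0), 1),
    ((830, 0, 540, 150), [(0, (730, 0, 540, 50)), (1, (100, 0, 0, 100))], (-49889, 0, -51654, 0), 1),
    ((310, 0, 620, 150), [(0, (270, 0, 540, 50)), (1, (100, 0, 0, 100)), (8, (1, 0, 0, 0))], (10048, 0, -7508, 0), 1),
    ((890, 0, 620, 150), [(0, (730, 0, 700, 150)), (1, (100, 0, 0, 0)), (9, (-1, 0, 0, 0))], (-60000, 0, -44043, 0), 1),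
    ((790, 0, 620, 150), [(0, (730, 0, 700, 150)), (9, (-1, 0, 0, 0))], (-59978, 0, -44956, 0), 1)]]
  js := [([(0, (0, 0, 160, 100)), (1, (0, 0, 0, -100))], (-60, 0, 80, 0)),
    ([(0, (0, 0, 160, 100)), (1, (0, 0, 0, -100))], (-60, 0, 80, 0))]
  ce := [⟨11, 1, 1, 1, [],
    [((0, 0), (2, 1), 1, 2), ((4, 2), (5, 1), 1, 2), ((9, 0), (17, 1), 1, 2),
    ((32, 2), (24, 1), 1, 2), ((41, 0), (42, 1), 1, 2), ((59, 2), (51, 1), 1, 2),
    ((68, 0), (60, 1), 1, 2), ((77, 2), (69, 1), 1, 2), ((78, 0), (70, 1), 1, 2),
    ((79, 2), (71, 1), 1, 2)],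
    0x81818181808181818180808181808181818181818080818181818181808181808180818180808080818181818181818181818080⟩,
    ⟨3, 9, 1, -1, [],
    [((20, 0), (27, 2), 1, 2), ((19, 1), (26, 2), 1, 2), ((14, 0), (21, 2), 1, 2),
    ((22, 1), (29, 2), 1, 2), ((30, 0), (38, 2), 1, 2), ((48, 1), (47, 2), 1, 2),
    ((56, 0), (64, 2), 1, 2), ((65, 1), (73, 2), 1, 2), ((74, 0), (82, 2), 1, 2),
    ((83, 1), (85, 2), 1, 2)],
    0x807f807f808080807f8080807f8080807f80807f8080807f7f807f8080808080808080808080808080807f7f7f7f7f7f80808080⟩]

theorem ok3 : allOk 3 d3 = true := by decide +kernel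

/-- Tile 4. -/
def d4 : TDa where
  l := List.flatten [[(1, 2, 16, false, true, true), (16, 2, 17, true, false, true), (1, 16, 18, true, true, false),
    (2, 19, 17, false, true, false), (16, 17, 20, true, false, true),
    (18, 16, 20, true, true, false), (1, 18, 15, false, false, false),
    (21, 19, 2, true, false, false), (17, 19, 22, true, true, true),
    (20, 17, 22, false, true, true), (18, 20, 23, false, false, false),
    (18, 23, 15, false, false, false), (0, 1, 15, false, false, false),
    (24, 19, 21, false, true, false), (2, 25, 21, false, false, false),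
    (26, 22, 19, false, true, true), (20, 22, 23, true, true, false),
    (14, 15, 23, false, false, false), (27, 19, 24, true, false, true),
    (24, 21, 28, false, true, true), (2, 3, 25, false, false, false),
    (21, 25, 28, false, true, true), (29, 22, 26, false, false, true),
    (26, 19, 27, true, true, false), (23, 22, 30, true, true, false),
    (14, 23, 31, false, false, false), (29, 27, 24, true, true, true),
    (24, 28, 32, true, true, false), (3, 33, 25, false, true, false),
    (28, 25, 34, true, false, true)],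
    [(35, 22, 29, true, false, false), (26, 27, 29, false, true, true),
    (30, 22, 35, true, true, false), (23, 30, 31, false, false, false),
    (13, 14, 31, false, false, false), (24, 32, 29, false, false, true),
    (32, 28, 34, true, true, false), (36, 33, 3, true, false, false),
    (34, 25, 33, false, true, false), (37, 35, 29, true, false, true),
    (30, 35, 38, false, true, true), (38, 31, 30, false, false, true),
    (31, 39, 13, false, false, false), (37, 29, 32, true, false, false),
    (32, 34, 40, false, true, false), (41, 33, 36, true, true, true),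
    (42, 36, 3, true, false, true), (34, 33, 43, false, true, true),
    (44, 35, 37, true, true, false), (38, 35, 45, true, true, false),
    (38, 45, 31, false, false, false), (46, 39, 31, false, false, false),
    (39, 47, 13, false, false, false), (44, 37, 32, false, false, false),
    (34, 43, 40, true, true, true), (32, 40, 48, false, false, false),
    (33, 41, 49, true, false, true), (50, 41, 36, true, true, false),
    (42, 50, 36, true, false, true), (4, 42, 3, true, true, false)],
    [(43, 33, 49, true, true, false), (45, 35, 44, true, true, false),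
    (45, 51, 31, true, true, false), (46, 52, 39, true, true, false),
    (31, 51, 46, true, true, false), (39, 53, 47, false, false, false),
    (12, 13, 47, false, false, false), (44, 32, 54, false, false, false),
    (49, 40, 43, true, true, false), (55, 48, 40, true, false, true),
    (48, 56, 32, true, false, false), (49, 41, 57, false, true, true),
    (50, 58, 41, false, true, true), (59, 50, 42, false, true, true),
    (4, 59, 42, false, true, true), (45, 44, 51, false, true, true),
    (46, 54, 52, false, true, true), (39, 52, 53, true, true, false),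
    (51, 54, 46, true, false, true), (53, 60, 47, true, true, false),
    (47, 60, 12, true, true, false), (54, 32, 61, false, false, false),
    (54, 51, 44, true, true, false), (49, 57, 40, true, true, true),
    (55, 62, 48, true, false, true), (57, 55, 40, true, true, true),
    (48, 63, 56, true, true, true), (32, 56, 61, false, true, false),
    (41, 64, 57, true, false, true), (59, 58, 50, false, false, false)],
    [(41, 58, 64, true, false, true), (59, 4, 65, false, false, false),
    (54, 66, 52, false, true, true), (52, 66, 53, true, false, true),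
    (53, 66, 60, false, true, true), (60, 11, 12, true, false, true),
    (61, 67, 54, true, false, false), (68, 62, 55, false, true, true),
    (62, 63, 48, true, true, false), (64, 55, 57, true, true, false),
    (61, 56, 63, true, true, true), (69, 58, 59, true, false, false),
    (64, 58, 70, false, true, true), (4, 5, 65, false, false, false),
    (59, 65, 69, false, true, false), (11, 66, 54, false, false, false),
    (11, 60, 66, true, true, false), (71, 67, 61, true, true, false),
    (67, 72, 54, true, false, false), (73, 62, 68, false, false, false),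
    (64, 68, 55, false, true, true), (62, 73, 63, false, true, true),
    (63, 71, 61, true, false, true), (58, 69, 74, true, false, true),
    (70, 58, 74, true, true, false), (70, 75, 64, false, false, true),
    (6, 65, 5, true, false, false), (69, 65, 76, true, false, true),
    (11, 54, 72, false, false, false), (71, 77, 67, false, true, true)],
    [(67, 78, 72, true, false, true), (68, 79, 73, false, false, false),
    (64, 75, 68, false, true, false), (73, 71, 63, false, true, true),
    (74, 69, 80, false, true, true), (70, 74, 75, false, true, false),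
    (76, 65, 6, false, true, true), (79, 69, 76, true, true, false),
    (10, 11, 72, false, false, false), (8, 77, 71, false, false, false),
    (77, 78, 67, false, true, true), (78, 81, 72, true, true, false),
    (68, 75, 79, true, true, false), (73, 79, 8, false, false, false),
    (8, 71, 73, false, false, false), (80, 69, 79, true, true, false),
    (74, 80, 75, true, true, true), (76, 6, 82, true, true, false),
    (79, 76, 82, false, false, false), (72, 81, 10, true, true, false),
    (8, 83, 77, false, false, false), (83, 78, 77, false, false, false),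
    (78, 83, 81, false, true, true), (80, 79, 75, false, true, true),
    (79, 82, 8, false, false, false), (82, 6, 7, true, true, false),
    (81, 9, 10, true, false, true), (8, 9, 83, false, false, false),
    (83, 9, 81, false, true, true), (82, 7, 8, false, false, false)]]
  q := List.flatten [[(13546396, 4463421), (16188984, 6471862), (8955642, 7271300), (19209878, 7977951),
    (12587354, 8573943), (22331101, 6671261), (15601290, 11343995), (8644460, 13319138),
    (21870354, 10368186), (25900442, 5519281), (18611804, 10592760), (19865617, 10397598),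
    (24674828, 9490885), (19770430, 12651494), (13039634, 15624026), (10327298, 20420698),
    (25370267, 15019925), (30494748, 7077771), (27901977, 9875770), (16757776, 15540782),
    (33312015, 5347080), (20315906, 15297215), (13867346, 17495519), (10648292, 25506132),
    (30727178, 12334004), (34250705, 9026035), (35727144, 3731028), (30244400, 9812755),
    (19365150, 17976659), (15344676, 18396569)],
    [(14995464, 22895718), (9601248, 28092221), (31787023, 15924138), (31853696, 9963474),
    (36087480, 6900565), (16405810, 20549184), (15599456, 24946299), (13366286, 26681856),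
    (21996463, 23056277), (34381432, 14175159), (30406534, 17682632), (33551450, 11566807),
    (37911307, 9991184), (39236225, 6407497), (13991661, 28273117), (30257098, 20561920),
    (35624977, 17108563), (34211749, 19224545), (36544240, 12335363), (44304936, 6677752),
    (16990773, 26591510), (32053673, 24755019), (38053722, 15782077), (41386486, 11144454),
    (38331771, 12042867), (37503900, 23633120), (28926941, 27266539), (39690962, 20436895),
    (39542244, 12081506), (39329294, 13763415)],
    [(45206902, 12514560), (38809916, 26820342), (34827721, 27191916), (42751424, 16873067),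
    (40752362, 13465611), (34683789, 28596022), (47591665, 17877525), (39664285, 28521656)]]
  par := List.flatten [[0, 0, 0, 1, 1, 2, 2, 3, 3, 4, 5, 6, 6, 7, 7, 8, 9, 11, 13, 13, 14, 14, 15, 15, 16, 17, 18, 19,
    20, 21],
    [22, 22, 24, 24, 25, 26, 27, 28, 28, 30, 32, 33, 34, 35, 36, 37, 37, 38, 39, 40, 41, 42, 42, 43,
    44, 44, 45, 45, 46, 46],
    [47, 48, 50, 51, 51, 52, 52, 53, 54, 55, 55, 56, 57, 58, 59, 61, 63, 63, 64, 65, 66, 67, 67, 68,
    69, 69, 70, 70, 71, 72],
    [72, 74, 76, 77, 79, 80, 81, 84, 84, 85, 86, 89, 90, 91, 91, 92, 94, 96, 96, 97, 97, 98, 100,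
    101, 102, 102, 103, 104, 105, 107],
    [108, 109, 110, 111, 113, 114, 116, 117, 118, 119, 119, 120, 121, 121, 123, 124, 124, 126, 127,
    128, 129, 130, 131, 132, 133, 137, 139, 140, 142, 144]]
  iv := List.flatten [[((290, 0, 180, 50), [(0, (190, 0, 180, 50)), (1, (100, 0, 0, 0))], (-44987, 0, -60000, 0), 1),
    ((370, 0, 240, 50), [(0, (270, 0, 240, 50)), (1, (100, 0, 0, 0))], (-53495, 0, -48673, 0), 1),
    ((190, 0, 180, 50), [(0, (190, 0, 180, 50))], (-44976, 0, -59951, 0), 1),
    ((470, -50, 290, 50), [(0, (370, -50, 290, 50)), (1, (100, 0, 0, 0))], (-59773, 0, -59665, 0), 1),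
    ((270, 0, 240, 50), [(0, (270, 0, 240, 50))], (-53506, 0, -48560, 0), 1),
    ((470, 0, 240, 50), [(0, (370, -50, 290, 50)), (1, (100, 50, -50, 0))], (-59979, 0, -60000, 0), 1),
    ((370, -50, 290, 50), [(0, (270, -50, 290, 50)), (1, (100, 0, 0, 0))], (-59763, 0, -59549, 0), 1),
    ((270, -50, 290, 50), [(0, (270, -50, 290, 50))], (-59752, 0, -59358, 0), 1),
    ((470, 0, 340, 50), [(0, (370, -50, 290, 50)), (1, (100, 50, 50, 0))], (-59571, 0, -59989, 0), 1),
    ((630, 0, 240, 50), [(0, (630, 50, 290, 50)), (1, (0, -50, -50, 0))], (-59685, 0, -59552, 0), 1),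
    ((370, 0, 340, 50), [(0, (270, -50, 290, 50)), (1, (100, 50, 50, 0))], (-59607, 0, -59798, 0), 1),
    ((470, 0, 340, 50), [(0, (370, -50, 290, 50)), (1, (100, 50, 50, 0))], (-59597, 0, -59992, 0), 1),
    ((550, 0, 300, 50), [(0, (370, -50, 290, 50)), (1, (100, 50, -50, 0)), (9, (1, 0, 0, 0))], (-60000, 0, -59989, 0), 1),
    ((520, -50, 290, 100), [(0, (270, -50, 290, 50)), (1, (250, 0, 0, 50))], (-59550, 0, -60000, 0), 1),
    ((320, -50, 290, 100), [(0, (270, -50, 290, 50)), (1, (50, 0, 0, 50))], (-59571, 0, -59451, 0), 1),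
    ((290, -50, 350, 150), [(0, (190, -50, 350, 50)), (1, (100, 0, 0, 100))], (-59421, 0, -59662, 0), 1),
    ((550, 0, 400, 50), [(0, (370, -50, 290, 50)), (1, (100, 50, 50, 0)), (9, (1, 0, 0, 0))], (-59550, 0, -60000, 0), 1),
    ((630, 50, 290, 50), [(0, (630, 50, 290, 50))], (-59438, 0, -60000, 0), 1),
    ((630, 0, 340, 50), [(0, (630, 50, 290, 50)), (1, (0, -50, 50, 0))], (-59192, 0, -59541, 0), 1),
    ((420, -50, 290, 100), [(0, (270, -50, 290, 50)), (1, (150, 0, 0, 50))], (-59560, 0, -59678, 0), 1),
    ((730, 0, 240, 50), [(0, (730, 0, 240, 50))], (-59437, 0, -60000, 0), 1),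
    ((520, -50, 290, 100), [(0, (270, -50, 290, 50)), (1, (250, 0, 0, 50))], (-59571, 0, -59989, 0), 1),
    ((320, -50, 290, 100), [(0, (270, -50, 290, 50)), (1, (50, 0, 0, 50))], (-59550, 0, -59440, 0), 1),
    ((210, 0, 460, 150), [(0, (110, 0, 460, 50)), (1, (100, 0, 0, 100))], (-59989, 0, -59499, 0), 1),
    ((716, 0, 450, 0), [(0, (716, 0, 450, 0))], (-60000, 0, -60000, 0), 1),
    ((730, 50, 290, 50), [(0, (730, 50, 290, 50))], (-59449, 0, -60000, 0), 1),
    ((810, 0, 180, 50), [(0, (810, 0, 180, 50))], (-7231, 0, 9624, 0), 1),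
    ((630, 0, 340, 50), [(0, (630, 50, 290, 50)), (1, (0, -50, 50, 0))], (-59164, 0, -59546, 0), 1),
    ((470, -50, 290, 150), [(0, (270, -50, 290, 50)), (1, (200, 0, 0, 100))], (-59317, 0, -59831, 0), 1),
    ((370, -50, 290, 150), [(0, (270, -50, 290, 50)), (1, (100, 0, 0, 100))], (-59328, 0, -59556, 0), 1)],
    [((290, 0, 400, 150), [(0, (190, 0, 400, 50)), (1, (100, 0, 0, 100))], (-59709, 0, -59142, 0), 1),
    ((210, 0, 620, 150), [(0, (170, 0, 540, 50)), (1, (100, 0, 0, 100)), (8, (1, 0, 0, 0))], (10033, 0, -6940, 0), 1),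
    ((730, 0, 340, 150), [(0, (730, 50, 290, 50)), (1, (0, -50, 50, 100))], (-59977, 0, -60000, 0), 1),
    ((730, 0, 340, 50), [(0, (730, 50, 290, 50)), (1, (0, -50, 50, 0))], (-59153, 0, -59467, 0), 1),
    ((830, 0, 240, 50), [(0, (730, 0, 240, 50)), (1, (100, 0, 0, 0))], (-59426, 0, -59888, 0), 1),
    ((390, -50, 350, 150), [(0, (190, -50, 350, 50)), (1, (200, 0, 0, 100))], (-59431, 0, -60000, 0), 1),
    ((310, 0, 460, 150), [(0, (110, 0, 460, 50)), (1, (200, 0, 0, 100))], (-60000, 0, -59979, 0), 1),
    ((270, 0, 540, 150), [(0, (170, 0, 540, 50)), (1, (100, 0, 0, 100))], (-60000, 0, -59478, 0), 1),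
    ((390, 0, 400, 150), [(0, (190, 0, 400, 50)), (1, (200, 0, 0, 100))], (-59698, 0, -59559, 0), 1),
    ((780, 0, 340, 100), [(0, (730, 50, 290, 50)), (1, (50, -50, 50, 50))], (-59092, 0, -59477, 0), 1),
    ((735, 0, 648, 0), [(0, (735, 0, 648, 0))], 0, 1),
    ((730, 0, 340, 50), [(0, (730, 50, 290, 50)), (1, (0, -50, 50, 0))], (-59119, 0, -59449, 0), 1),
    ((830, 50, 290, 50), [(0, (730, 50, 290, 50)), (1, (100, 0, 0, 0))], (-59459, 0, -59809, 0), 1),
    ((910, 0, 180, 50), [(0, (810, 0, 180, 50)), (1, (100, 0, 0, 0))], (-7242, 0, 9674, 0), 1),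
    ((310, 0, 620, 150), [(0, (170, 0, 540, 50)), (1, (200, 0, 0, 100)), (8, (1, 0, 0, 0))], (10023, 0, -7504, 0), 1),
    ((730, 0, 440, 150), [(0, (730, 50, 390, 50)), (1, (0, -50, 50, 100))], (-59977, 0, -60000, 0), 1),
    ((830, 0, 340, 150), [(0, (730, 50, 290, 50)), (1, (100, -50, 50, 100))], (-59967, 0, -59657, 0), 1),
    ((730, 50, 390, 150), [(0, (730, 100, 340, 50)), (1, (0, -50, 50, 100))], (-59989, 0, -60000, 0), 1),
    ((830, 0, 340, 50), [(0, (730, 50, 290, 50)), (1, (100, -50, 50, 0))], (-59108, 0, -59179, 0), 1),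
    ((1010, 50, 230, 50), [(0, (1090, 50, 290, 50)), (11, (-1, 0, 0, 0))], (-7239, 0, 9669, 0), 1),
    ((370, 0, 540, 150), [(0, (170, 0, 540, 50)), (1, (200, 0, 0, 100))], (-59989, 0, -60000, 0), 1),
    ((730, 50, 490, 150), [(0, (730, 100, 440, 50)), (1, (0, -50, 50, 100))], (-59989, 0, -60000, 0), 1),
    ((880, 0, 340, 100), [(0, (730, 50, 290, 50)), (1, (150, -50, 50, 50))], (-59103, 0, -59170, 0), 1),
    ((930, 50, 290, 50), [(0, (830, 50, 290, 50)), (1, (100, 0, 0, 0))], (-59470, 0, -59989, 0), 1),
    ((830, 0, 340, 50), [(0, (730, 50, 290, 50)), (1, (100, -50, 50, 0))], (-59077, 0, -59185, 0), 1),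
    ((830, 0, 440, 150), [(0, (730, 50, 390, 50)), (1, (100, -50, 50, 100))], (-59967, 0, -59500, 0), 1),
    ((730, 0, 540, 150), [(0, (730, 50, 490, 50)), (1, (0, -50, 50, 100))], (-53924, 0, -49515, 0), 1),
    ((830, 50, 390, 150), [(0, (730, 100, 340, 50)), (1, (100, -50, 50, 100))], (-60000, 0, -59578, 0), 1),
    ((930, 0, 340, 50), [(0, (830, 50, 290, 50)), (1, (100, -50, 50, 0))], (-59067, 0, -59270, 0), 1),
    ((933, 0, 442, 0), [(0, (933, 0, 442, 0))], (-60000, 0, -60000, 0), 1)],
    [((1010, 50, 330, 50), [(0, (1090, 50, 290, 50)), (1, (0, 0, 100, 0)), (11, (-1, 0, 0, 0))], (-6310, 0, 9680, 0), 1),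
    ((830, 50, 490, 150), [(0, (730, 100, 440, 50)), (1, (100, -50, 50, 100))], (-60000, 0, -59421, 0), 1),
    ((830, 0, 540, 150), [(0, (730, 50, 490, 50)), (1, (100, -50, 50, 100))], (-53913, 0, -48857, 0), 1),
    ((930, 50, 390, 50), [(0, (830, 50, 290, 50)), (1, (100, 0, 100, 0))], (-58584, 0, -60000, 0), 1),
    ((930, 0, 340, 50), [(0, (830, 50, 290, 50)), (1, (100, -50, 50, 0))], (-59003, 0, -59295, 0), 1),
    ((790, 0, 620, 150), [(0, (730, 0, 700, 150)), (10, (-1, 0, 0, 0))], (-59989, 0, -44979, 0), 1),
    ((1090, 50, 390, 50), [(0, (1090, 50, 290, 50)), (1, (0, 0, 100, 0))], (971, 0, -11, 0), 1),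
    ((890, 0, 620, 150), [(0, (730, 0, 700, 150)), (1, (100, 0, 0, 0)), (10, (-1, 0, 0, 0))], (-60000, 0, -44279, 0), 1)]]
  js := [([(0, (100, 0, 160, 100)), (1, (-100, 0, 0, -100))], (-60, 0, 80, 0)),
    ([(0, (260, 100, 0, 0)), (1, (-100, -100, 0, 0))], (80, 0, 60, 0)),
    ([(0, (0, -50, 210, 100)), (1, (0, 50, -50, -100))], (-60, 0, 80, 0)),
    ([(0, (260, 0, 0, 0)), (1, (-100, 0, 0, 0))], (80, 0, 60, 0))]
  ce := [⟨11, 1, 1, 1, [],
    [((0, 0), (2, 1), 1, 2), ((4, 2), (5, 1), 1, 2), ((9, 0), (16, 1), 1, 2),
    ((32, 0), (24, 1), 1, 2), ((40, 1), (40, 1), 1, 0), ((61, 0), (49, 1), 1, 2),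
    ((75, 0), (62, 1), 1, 2), ((78, 2), (64, 1), 1, 2), ((76, 0), (63, 1), 1, 2),
    ((93, 2), (77, 1), 1, 2), ((94, 0), (79, 1), 1, 2), ((95, 2), (80, 1), 1, 2)],
    0x818181818181818181818181818181818181818181818181818181818181808181818181808080818181818180808181818181818080818181818181808181808180818180808080818181818181818181818080⟩,
    ⟨3, 9, 1, -1, [],
    [((59, 0), (74, 2), 1, 2), ((58, 1), (73, 2), 1, 2), ((57, 0), (72, 2), 1, 2),
    ((88, 1), (90, 0), 1, 2), ((99, 0), (110, 2), 1, 2), ((84, 1), (97, 2), 1, 2),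
    ((98, 0), (111, 2), 1, 2), ((112, 1), (123, 2), 1, 2), ((107, 0), (119, 2), 1, 2),
    ((120, 1), (130, 2), 1, 2), ((131, 0), (142, 2), 1, 2), ((146, 1), (148, 2), 1, 2)],
    0x7f7f807f7f7f7f7f7f7f7f807f7f7f7f80807f7f807f80807f7f808080808080807f808080808080808080808080808080808080808080808080808080808080808080808080808080807f7f7f7f7f7f80808080⟩,
    ⟨6, 1, 6, 1, [],
    List.flatten [[((0, 0), (2, 1), 6, 2), ((4, 2), (5, 1), 6, 2), ((9, 0), (16, 1), 6, 2),
    ((24, 0), (24, 1), 1, 1), ((24, 2), (24, 1), 1, 1), ((32, 0), (32, 1), 1, 1),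
    ((32, 2), (32, 1), 1, 1), ((32, 0), (24, 1), 3, 2), ((40, 1), (40, 1), 3, 0),
    ((49, 0), (49, 1), 1, 1), ((49, 2), (49, 1), 1, 1), ((61, 0), (61, 1), 1, 1),
    ((61, 2), (61, 1), 1, 1), ((48, 0), (48, 1), 1, 1), ((48, 2), (48, 1), 1, 1),
    ((39, 1), (39, 1), 3, 0), ((30, 2), (30, 1), 3, 1), ((22, 1), (22, 1), 6, 0),
    ((15, 0), (23, 1), 6, 2), ((18, 1), (18, 1), 6, 0), ((13, 0), (13, 1), 2, 1),
    ((13, 0), (13, 2), 2, 1), ((19, 0), (27, 1), 6, 2), ((29, 2), (36, 1), 6, 2),
    ((38, 0), (38, 1), 2, 1), ((38, 0), (38, 2), 2, 1), ((47, 1), (47, 1), 6, 0),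
    ((56, 2), (60, 1), 6, 2), ((71, 1), (71, 1), 6, 0), ((90, 2), (88, 0), 6, 2)],
    [((102, 1), (102, 1), 6, 0), ((113, 2), (114, 1), 6, 2), ((124, 1), (124, 1), 6, 0),
    ((135, 0), (135, 1), 2, 1), ((135, 2), (135, 1), 2, 1), ((117, 2), (127, 1), 6, 2),
    ((126, 0), (137, 1), 6, 2), ((145, 0), (145, 1), 2, 1), ((145, 2), (145, 1), 2, 1)]],
    0x808080808080808080808080808086808080868080808080868680808080808080868080808080808086868080808086838086808080808680808680808686808680868680808080808080808086868686868080⟩]

theorem ok4 : allOk 4 d4 = true := by decide +kernel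

end Pool.Agent.MP_a4408f_lc
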