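import Mathlib
import Pool.Agent.MP_a4408f_lc.Side
import Pool.Agent.MP_a4408f_lc.Data0
import Pool.Agent.MP_a4408f_lc.Data1
import Pool.Agent.MP_a4408f_lc.Data2
import Pool.Agent.MP_a4408f_lc.Data3

/-! The tile data have all required properties. -/

namespace Pool.Agent.MP_a4408f_lc

open Filter Topology Real

lemma ang_conj (a b c : ℂ) :
    ang ((starRingEnd ℂ) a) ((starRingEnd ℂ) b) ((starRingEnd ℂ) c) = ang a b c :=
  Complex.conjLIE.toLinearIsometry.toAffineIsometry.angle_map b a c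

lemma ar_conj (a b c : ℂ) :
    ar ((starRingEnd ℂ) a) ((starRingEnd ℂ) b) ((starRingEnd ℂ) c) = ar a c b := by
  simp [ar, cr]; ring

lemma gadB {q : ℕ → ℂ} {θ : ℕ → ℝ} {r : List TD} {l : List TD}
    (hl : l = (16, 17, 18, true, true, false) :: (16, 18, 19, false, true, false) ::
      (16, 19, 20, false, true, true) :: (20, 19, 21, true, true, true) ::
      (19, 22, 21, false, false, true) :: (19, 18, 22, true, false, false) :: r)
    (hG : ∀ t ∈ l, Good q t)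
    (h : ∀ e ∈ gin 10, θ e.1 - θ e.2.1 + ev q l e.2.2.2 ≤ e.2.2.1 * (π / 6)) : GadB θ := by
  subst hl
  simp only [List.forall_mem_cons, Good, Lab, Lb] at hG
  obtain ⟨-, ⟨t1, -⟩, ⟨t2, -, -, l1⟩, ⟨t3, -, -, l2⟩, ⟨t4, l5, l3, l6⟩, ⟨t5, l7, l4, -⟩, -⟩ := hG
  simp [gin, ineqs, eF, eA, ev, crn, A1, rt] at h l1 l2 l3 l4 l5 l6 l7
  obtain ⟨h1, h2, h3, h4, h5, h6⟩ := h
  intro f1 f2 f3 f4 fn a1 a2 a3 a4 a5
  refine ⟨by linarith [(ang_arg t1).2.1, (ang_arg t2).2.1], fun w1 w2 w3 w4 => ?_⟩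
  rw [norm_sub_rev] at l1 l2 l3 l4 l6
  exact gadget t1 t2 t3 t4 t5 l1 l2 l3 l4 l5 l6 l7 w1 w2 w3 w4 rfl rfl rfl rfl
    (by linarith) (by linarith) (by linarith) (by linarith) (by linarith) (by linarith)

lemma gadC {q : ℕ → ℂ} {θ : ℕ → ℝ} {r : List TD} {l : List TD}
    (hl : l = (16, 18, 17, false, true, true) :: (16, 19, 18, false, true, false) ::
      (16, 20, 19, true, true, false) :: (20, 21, 19, true, true, true) ::
      (19, 21, 22, true, false, false) :: (19, 22, 18, false, false, true) :: r)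
    (hG : ∀ t ∈ l, Good q t)
    (h : ∀ e ∈ gin 15, θ e.1 - θ e.2.1 + ev q l e.2.2.2 ≤ e.2.2.1 * (π / 6)) : GadC θ := by
  subst hl
  simp only [List.forall_mem_cons, Good, Lab, Lb] at hG
  obtain ⟨-, ⟨t1, -⟩, ⟨t2, l1, -⟩, ⟨t3, l2, -⟩, ⟨t4, l6, l3, l5⟩, ⟨t5, -, l4, l7⟩, -⟩ := hG
  simp [gin, ineqs, eF, eA, ev, crn, A1, rt] at h l1 l2 l3 l4 l5 l6 l7
  obtain ⟨h1, h2, h3, h4, h5, h6⟩ := h
  intro f1 f2 f3 f4 fn a1 a2 a3 a4 a5
  refine ⟨by linarith [(ang_arg t1).2.1, (ang_arg t2).2.1], fun w1 w2 w3 w4 => ?_⟩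
  rw [norm_sub_rev] at l5 l7
  rw [abs_sub_comm] at w1 w2 w3 w4
  rw [← ar_conj] at t1 t2 t3 t4 t5
  rw [← Complex.norm_conj, map_sub] at l1 l2 l3 l4 l5 l6 l7
  refine gadget t1 t2 t3 t4 t5 l1 l2 l3 l4 l5 l6 l7 w1 w2 w3 w4 rfl rfl rfl rfl ?_ ?_ ?_ ?_ ?_ ?_ <;>
    simp only [ang_conj] <;>
    linarith [ang_comm (q 16) (q 19) (q 18), ang_comm (q 16) (q 20) (q 19), ang_comm (q 20) (q 19) (q 16),
      ang_comm (q 20) (q 21) (q 19), ang_comm (q 21) (q 19) (q 20), ang_comm (q 21) (q 22) (q 19),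
      ang_comm (q 22) (q 19) (q 21), ang_comm (q 22) (q 18) (q 19)]

/-- All tiles. -/
def dd (y : ℕ) : TDa :=
  [d0, d1, d2, d3, d4, d5, d6, d7, d8, d9, d10, d11, d12, d13, d14, d15, d16, d17].getD y d0

lemma dd_ok {y : ℕ} (h : y < 18) :
    Top ((dd y).l.map tri) (dd y).n (dd y).q ∧ ceOk y (dd y) = true ∧ flexOk y (dd y) = true := by
  have : allOk y (dd y) = true := by
    interval_cases y
    exacts [ok0, ok1, ok2, ok3, ok4, ok5, ok6, ok7, ok8, ok9, ok10, ok11, ok12, ok13, ok14, ok15,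
      ok16, ok17]
  simp only [allOk, Bool.and_eq_true] at this
  exact ⟨top_of_ok this.1.1, this.1.2, this.2⟩

lemma ex_re (t : ℝ) : (ex t).re = cos t := Complex.exp_ofReal_mul_I_re t
lemma ex_im (t : ℝ) : (ex t).im = sin t := Complex.exp_ofReal_mul_I_im t

lemma adm (L : List BT) {φ : ℝ → ℕ → ℝ} (h : ∀ k, Tendsto (fun t => φ t k) (𝓝[>] 0) (𝓝 0)) (i j : ℕ) :
    Adm (zz L φ i j) := by
  refine ⟨fun t k => ?_, fun k => ?_⟩ <;> unfold zz <;> split_ifs
  · simp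
  · exact Complex.norm_exp_ofReal_mul_I _
  · exact tendsto_const_nhds
  · have : Continuous ex := by unfold ex; fun_prop
    exact (show ex 0 = 1 by simp [ex]) ▸ (this.tendsto 0).comp (h _)

lemma ev_all (L : List BT) {P : ℕ → ℕ → ℝ × ℝ × ℝ → Prop}
    (h : ∀ i j, ∀ᶠ x in FF, P i j x) : ∃ x, ∀ i < Wd L + 2, ∀ j < Ht L + 2, P i j x :=
  FF_ex ((eventually_all_finite (Set.finite_lt_nat _)).2 fun i _ =>
    (eventually_all_finite (Set.finite_lt_nat _)).2 fun j _ => h i j)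

lemma special {L : List BT} {φ : ℝ → ℕ → ℝ} (h : ∀ q ∈ L, ∀ᶠ t in 𝓝[>] 0, bholds q (φ t)) {i j y : ℕ}
    (e : ty L i j = y) (hy : y = 10 ∨ y = 15) : ∀ t ∈ (dd y).l.head?, ∀ᶠ s in 𝓝[>] 0,
      0 < cr (evR (bv (dd y).js (zz L φ i j s)) (subR ((dd y).vd y t.2.1).2.1 ((dd y).vd y t.1).2.1))
        (evR (bv (dd y).js (zz L φ i j s)) (subR ((dd y).vd y t.2.2.1).2.1 ((dd y).vd y t.1).2.1)) := by
  have h3 := ty_spec L i j
  have h5 : pol L j ≤ 1 := by unfold pol; split_ifs <;> omega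
  have hq : gq L j ∈ L := MP_485bb6_lc.getD_mem L _ (by unfold Ht at h3; split_ifs at h3 <;> omega)
  have hm : (gq L j).1 = decide (y = 15) := by
    cases hb : (gq L j).1 <;> simp only [hb] at h3 <;> simp <;> simp at h3 <;> omega
  rcases hy with rfl | rfl
  · rintro t ⟨⟩
    rw [show subR ((dd 10).vd 10 _).2.1 ((dd 10).vd 10 _).2.1 = [(7, 100, 0, 0, 0)] by decide +kernel,
      show subR ((dd 10).vd 10 _).2.1 ((dd 10).vd 10 _).2.1 = [(3, 0, 50, 50, 0), (4, 0, 50, 50, 0),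
        (5, 0, 50, -50, 0), (6, 0, -50, -50, 0)] by decide +kernel]
    refine (h _ hq).mono fun s hs => ?_
    simp [bholds, hm, fs, sin_add, sin_sub, cos_sub] at hs
    simp [bv, zz, gv, cr, v4, ex_re, ex_im]
    linarith
  · rintro t ⟨⟩
    rw [show subR ((dd 15).vd 15 _).2.1 ((dd 15).vd 15 _).2.1 = [(3, 0, 50, -50, 0), (4, 0, 50, -50, 0),
        (5, 0, 50, 50, 0), (6, 0, -50, 50, 0)] by decide +kernel,
      show subR ((dd 15).vd 15 _).2.1 ((dd 15).vd 15 _).2.1 = [(7, 100, 0, 0, 0)] by decide +kernel]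
    refine (h _ hq).mono fun s hs => ?_
    simp [bholds, hm, fs, sin_add, sin_sub, cos_sub] at hs
    simp [bv, zz, gv, cr, v4, ex_re, ex_im]
    linarith

theorem tiles : Tiles (fun y => (dd y).l) (fun y => (dd y).n) (fun y => (dd y).q) where
  top y hy := (dd_ok hy).1
  fact y hy q θ hG int dif := by
    have h := ce_of_ok (dd_ok hy).2.1 (dd_ok hy).1 hG int dif
    refine ⟨fun e he => ?_, ?_, ?_⟩
    · simpa [ev] using h (e.1, e.2.1, e.2.2, []) (List.mem_append_left _ (List.mem_map_of_mem he))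
    · rintro rfl
      exact gadB (r := d10.l.drop 6) (by decide +kernel) hG h
    · rintro rfl
      exact gadC (r := d15.l.drop 6) (by decide +kernel) hG h
  lab L := by
    obtain ⟨x, hx⟩ := ev_all L fun i j => (flex_of_ok (dd_ok (ty_lt L i j)).2.2
      (adm L (φ := fun _ _ => 0) (fun _ => tendsto_const_nhds) i j) (off i j) (i + j)).1
    exact ⟨PP dd L (fun _ _ => 0) x, fun i hi j hj t ht => by
      simp only [PP_gl]; exact hx i hi j hj t ht⟩
  flex L := by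
    rintro ⟨φ, h1, h2⟩
    obtain ⟨x, hx⟩ := ev_all L fun i j => (flex_of_ok (dd_ok (ty_lt L i j)).2.2
      (adm L h1 i j) (off i j) (i + j)).2 (special h2 rfl)
    exact ⟨PP dd L φ x, fun i hi j hj t ht => by simp only [PP_gl]; exact hx i hi j hj t ht,
      PP_bd dd L φ x⟩

open MP_2e8011_lc in
lemma pt_dd {α : Type} [Enc α] (f : TDa → α) : PT fun y => f (dd y) :=
  (PT.getD (PT.const (List.map f [d0, d1, d2, d3, d4, d5, d6, d7, d8, d9, d10, d11, d12, d13, d14, d15,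
    d16, d17])) PT.id (PT.const (f d0))).congr fun y => List.getD_map _ _ f

end Pool.Agent.MP_a4408f_lc
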