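import Mathlib
import Pool.Agent.MP_a4408f_lc.Chain
import Pool.Agent.MP_a4408f_lc.Assemble

/-! The labelled graph of a layout, and completeness from the tile data. -/

namespace Pool.Agent.MP_a4408f_lc

open Real Pool.Agent.MP_2e8011_lc

/-- Remove duplicates. -/
def dd (l : List Vx) : List Vx :=
  ((List.range l.length).filter fun i => decide (¬ l.getD i (0, 0, 0) ∈ l.take i)).map
    fun i => l.getD i (0, 0, 0)

lemma mem_dd {l : List Vx} {x : Vx} : x ∈ dd l ↔ x ∈ l := by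
  simp only [dd, List.mem_map, List.mem_filter, List.mem_range, decide_eq_true_eq]
  constructor
  · rintro ⟨i, ⟨hi, -⟩, rfl⟩
    exact MP_485bb6_lc.getD_mem _ _ hi
  · intro h
    have h1 : ∃ i, i < l.length ∧ l.getD i (0, 0, 0) = x := MP_485bb6_lc.exists_getD _ _ h
    classical
    refine ⟨Nat.find h1, ⟨(Nat.find_spec h1).1, fun hm => ?_⟩, (Nat.find_spec h1).2⟩
    rw [(Nat.find_spec h1).2] at hm
    obtain ⟨k, hk, e⟩ := List.getElem_of_mem hm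
    rw [List.length_take] at hk
    refine Nat.find_min h1 (m := k) (by omega) ⟨by omega, ?_⟩
    rw [List.getElem_take] at e
    rw [List.getD_eq_getElem _ _ (by omega), e]

lemma nodup_dd (l : List Vx) : (dd l).Nodup := by
  refine List.Nodup.map_on ?_ (List.nodup_range.filter _)
  have key : ∀ i j, i < j → j < l.length → l.getD i (0, 0, 0) = l.getD j (0, 0, 0) →
      l.getD j (0, 0, 0) ∈ l.take j := by
    intro i j hij hj e
    rw [← e, List.getD_eq_getElem _ _ (by omega)]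
    exact List.mem_take_iff_getElem.2 ⟨i, by omega, rfl⟩
  intro i hi j hj e
  simp only [List.mem_filter, List.mem_range, decide_eq_true_eq] at hi hj
  rcases lt_trichotomy i j with h | h | h
  · exact absurd (key i j h hj.1 e) hj.2
  · exact h
  · exact absurd (key j i h hi.1 e.symm) hi.2

@[fun_prop] theorem pt_dd : PT dd := by unfold dd; fun_prop

/-- The labelled sides of a triangle. -/
def sd (g : ℕ → Vx) (t : TD) : List (Vx × Vx × Bool) :=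
  [(g t.1, g t.2.1, t.2.2.2.1), (g t.2.1, g t.2.2.1, t.2.2.2.2.1), (g t.2.2.1, g t.1, t.2.2.2.2.2)]

/-- All labelled sides. -/
def sides (tl : ℕ → List TD) (L : List BT) : List (Vx × Vx × Bool) :=
  (List.range (Wd L)).flatMap fun i => (List.range (Ht L)).flatMap fun j =>
    (tl (ty L (i + 1) (j + 1))).flatMap fun t => sd (gl (i + 1) (j + 1)) t

/-- The side joins the two vertices. -/
def jn (e : Vx × Vx × Bool) (u v : Vx) : Bool :=
  decide (e.1 = u ∧ e.2.1 = v ∨ e.1 = v ∧ e.2.1 = u)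

/-- The vertices. -/
def gV (tl : ℕ → List TD) (L : List BT) : List Vx := dd ((sides tl L).map fun e => e.1)

/-- The edges. -/
def gA (tl : ℕ → List TD) (L : List BT) (u v : Vx) : Bool := (sides tl L).any fun e => jn e u v

/-- The short edges. -/
def gB (tl : ℕ → List TD) (L : List BT) (u v : Vx) : Bool :=
  (sides tl L).any fun e => e.2.2 && jn e u v

section
variable {tl : ℕ → List TD}

lemma pt_nvl : PT nv := by
  have h : PT fun L : List BT => (L.flatMap fun q =>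
      List.range (q.2.1 + q.2.2.1 + q.2.2.2.1 + q.2.2.2.2.1 + q.2.2.2.2.2)).length + 1 := by fun_prop
  exact h.congr fun L => by simp [nv, List.length_flatMap]

attribute [fun_prop] pt_nvl

@[fun_prop] lemma pt_Wd : PT Wd := by unfold Wd; fun_prop
@[fun_prop] lemma pt_Ht : PT Ht := by unfold Ht; fun_prop
@[fun_prop] lemma pt_col : PT fun p : List BT × ℕ => col p.1 p.2 := by unfold col; fun_prop
@[fun_prop] lemma pt_gq : PT fun p : List BT × ℕ => gq p.1 p.2 := by unfold gq; fun_prop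
@[fun_prop] lemma pt_tv : PT fun p : List BT × ℕ => tv p.1 p.2 := by unfold tv; fun_prop
@[fun_prop] lemma pt_pol : PT fun p : List BT × ℕ => pol p.1 p.2 := by unfold pol; fun_prop
@[fun_prop] lemma pt_ty : PT fun p : List BT × ℕ × ℕ => ty p.1 p.2.1 p.2.2 := by
  unfold ty; fun_prop
@[fun_prop] lemma pt_loc : PT loc := by unfold loc; fun_prop
@[fun_prop] lemma pt_gl : PT fun p : ℕ × ℕ × ℕ => gl p.1 p.2.1 p.2.2 := by unfold gl; fun_prop
@[fun_prop] lemma pt_jn : PT fun p : (Vx × Vx × Bool) × Vx × Vx => jn p.1 p.2.1 p.2.2 := by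
  unfold jn; fun_prop

lemma pt_sides (h : PT tl) : PT (sides tl) := by
  unfold sides sd
  fun_prop

lemma pt_gV (h : PT tl) : PT (gV tl) := by
  have := pt_sides h
  unfold gV
  fun_prop

lemma pt_gA (h : PT tl) : PT fun p : List BT × Vx × Vx => gA tl p.1 p.2.1 p.2.2 := by
  have := pt_sides h
  unfold gA
  fun_prop

lemma pt_gB (h : PT tl) : PT fun p : List BT × Vx × Vx => gB tl p.1 p.2.1 p.2.2 := by
  have := pt_sides h
  unfold gB
  fun_prop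

/-- The triangles of the tiles. -/
def trL (tl : ℕ → List TD) (L : List BT) (i j : ℕ) : List Vx := (tl (ty L i j)).map tri

variable {L : List BT}

lemma mem_sides {e : Vx × Vx × Bool} : e ∈ sides tl L ↔ ∃ i j, (1 ≤ i ∧ i < Wd L + 1) ∧
    (1 ≤ j ∧ j < Ht L + 1) ∧ ∃ t ∈ tl (ty L i j), e ∈ sd (gl i j) t := by
  simp only [sides, List.mem_flatMap, List.mem_range]
  constructor
  · rintro ⟨i, hi, j, hj, h⟩
    exact ⟨i + 1, j + 1, by omega, by omega, h⟩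
  · rintro ⟨i, j, hi, hj, h⟩
    obtain ⟨i, rfl⟩ : ∃ x, i = x + 1 := ⟨i - 1, by omega⟩
    obtain ⟨j, rfl⟩ : ∃ x, j = x + 1 := ⟨j - 1, by omega⟩
    exact ⟨i, by omega, j, by omega, h⟩

lemma sd_cn {g : ℕ → Vx} {t : TD} {u v : Vx} :
    (∃ s, (u, v, s) ∈ sd g t) ↔ ∃ w, Cn (m3 g (tri t)) u v w := by
  simp only [sd, List.mem_cons, Prod.mk.injEq, List.not_mem_nil, or_false, Cn, m3, tri]
  constructor
  · rintro ⟨s, ⟨rfl, rfl, -⟩ | ⟨rfl, rfl, -⟩ | ⟨rfl, rfl, -⟩⟩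
    exacts [⟨_, Or.inl ⟨rfl, rfl, rfl⟩⟩, ⟨_, Or.inr (Or.inr ⟨rfl, rfl, rfl⟩)⟩,
      ⟨_, Or.inr (Or.inl ⟨rfl, rfl, rfl⟩)⟩]
  · rintro ⟨w, ⟨rfl, rfl, rfl⟩ | ⟨rfl, rfl, rfl⟩ | ⟨rfl, rfl, rfl⟩⟩
    exacts [⟨_, Or.inl ⟨rfl, rfl, rfl⟩⟩, ⟨_, Or.inr (Or.inr ⟨rfl, rfl, rfl⟩)⟩,
      ⟨_, Or.inr (Or.inl ⟨rfl, rfl, rfl⟩)⟩]

lemma sides_cn {u v : Vx} : (∃ s, (u, v, s) ∈ sides tl L) ↔
    ∃ k ∈ Rect (trL tl L) 1 (Wd L + 1) 1 (Ht L + 1), ∃ w, Cn (TT (trL tl L) k) u v w := by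
  constructor
  · rintro ⟨s, hs⟩
    obtain ⟨i, j, hi, hj, t, ht, he⟩ := mem_sides.1 hs
    obtain ⟨k, hk, -, e⟩ := tri_rect (tr := trL tl L) hi hj (List.mem_map_of_mem (f := tri) ht)
    exact ⟨k, hk, e ▸ sd_cn.1 ⟨s, he⟩⟩
  · rintro ⟨k, hk, hc⟩
    obtain ⟨t, ht, e⟩ := rect_tri hk
    obtain ⟨t, ht', rfl⟩ := List.mem_map.1 ht
    obtain ⟨s, hs⟩ := sd_cn.2 (e ▸ hc)
    exact ⟨s, mem_sides.2 ⟨_, _, (mem_rect.1 hk).1, (mem_rect.1 hk).2.1, t, ht', hs⟩⟩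

lemma gA_iff {u v : Vx} : gA tl L u v = true ↔
    Ad (Rect (trL tl L) 1 (Wd L + 1) 1 (Ht L + 1)) (TT (trL tl L)) u v := by
  have : gA tl L u v = true ↔ (∃ s, (u, v, s) ∈ sides tl L) ∨ ∃ s, (v, u, s) ∈ sides tl L := by
    simp only [gA, jn, List.any_eq_true, decide_eq_true_eq]
    constructor
    · rintro ⟨e, he, ⟨rfl, rfl⟩ | ⟨rfl, rfl⟩⟩
      exacts [Or.inl ⟨_, he⟩, Or.inr ⟨_, he⟩]
    · rintro (⟨s, h⟩ | ⟨s, h⟩)
      exacts [⟨_, h, Or.inl ⟨rfl, rfl⟩⟩, ⟨_, h, Or.inr ⟨rfl, rfl⟩⟩]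
  rw [this, sides_cn, sides_cn]
  simp only [Ad, exists_or, and_or_left]

lemma gV_eq : {v | v ∈ gV tl L} = VG (trL tl L) (Wd L) (Ht L) := by
  ext u
  simp only [Set.mem_ofPred_eq, gV, mem_dd, List.mem_map, VG]
  constructor
  · rintro ⟨e, he, rfl⟩
    obtain ⟨k, hk, w, hc⟩ := sides_cn.1 ⟨e.2.2, he⟩
    exact ⟨k, hk, (hc.vt _).2 (Or.inl rfl)⟩
  · rintro ⟨k, hk, hv⟩
    obtain ⟨v, w, hc⟩ := hv.cn
    obtain ⟨s, hs⟩ := sides_cn.2 ⟨k, hk, w, hc⟩
    exact ⟨_, hs, rfl⟩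

lemma lab_iff {p : Vx → ℂ} {g : ℕ → Vx} {t : TD} :
    Lab (fun v => p (g v)) t ↔ ∀ e ∈ sd g t, Lb p e.1 e.2.1 e.2.2 := by
  simp [Lab, Lb, sd]

lemma len_of_lab {p : Vx → ℂ} (h : ∀ e ∈ sides tl L, Lb p e.1 e.2.1 e.2.2) {u v : Vx}
    (ha : gA tl L u v = true) : ‖p u - p v‖ ≤ 1 ↔ gB tl L u v = true := by
  have k : ∀ e ∈ sides tl L, jn e u v = true → (‖p u - p v‖ ≤ 1 ↔ e.2.2 = true) := by
    intro e he hj
    rcases of_decide_eq_true hj with ⟨rfl, rfl⟩ | ⟨rfl, rfl⟩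
    · exact h e he
    · rw [norm_sub_rev]; exact h e he
  simp only [gA, gB, List.any_eq_true, Bool.and_eq_true] at ha ⊢
  obtain ⟨e, he, hj⟩ := ha
  exact ⟨fun h1 => ⟨e, he, (k e he hj).1 h1, hj⟩, fun ⟨e', he', h1, h2⟩ => (k e' he' h2).2 h1⟩

lemma sides_lab {p : Vx → ℂ} (h : ∀ i < Wd L + 2, ∀ j < Ht L + 2, ∀ t ∈ tl (ty L i j),
    Lab (fun v => p (gl i j v)) t) : ∀ e ∈ sides tl L, Lb p e.1 e.2.1 e.2.2 := by
  intro e he
  obtain ⟨i, j, hi, hj, t, ht, hs⟩ := mem_sides.1 he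
  exact lab_iff.1 (h i (by omega) j (by omega) t ht) e hs

variable {tn : ℕ → ℕ} {tq : ℕ → List (ℤ × ℤ)}

lemma Tiles.topL (h : Tiles tl tn tq) (L : List BT) (i j : ℕ) :
    Top (trL tl L i j) (tn (ty L i j)) (tq (ty L i j)) := h.top _ (ty_lt L i j)

lemma Tiles.irr (h : Tiles tl tn tq) {u v : Vx}
    (ha : Ad (Rect (trL tl L) 1 (Wd L + 1) 1 (Ht L + 1)) (TT (trL tl L)) u v) : u ≠ v := by
  rintro rfl
  obtain ⟨k, hk, w, hc⟩ := ha
  exact (Q_emb (h.topL L) (Nat.le_add_left 1 _) (Nat.le_add_left 1 _)).ne hk (or_self_iff.1 hc) rfl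

lemma ad_mem {u v : Vx}
    (ha : Ad (Rect (trL tl L) 1 (Wd L + 1) 1 (Ht L + 1)) (TT (trL tl L)) u v) :
    u ∈ VG (trL tl L) (Wd L) (Ht L) := by
  obtain ⟨k, hk, w, hc | hc⟩ := ha
  exacts [⟨k, hk, (hc.vt _).2 (Or.inl rfl)⟩, ⟨k, hk, (hc.vt _).2 (Or.inr (Or.inl rfl))⟩]

lemma Tiles.wf (h : Tiles tl tn tq) (L : List BT) : Wf {v | v ∈ gV tl L} (gA tl L) (gB tl L) := by
  have sy : ∀ e u v, jn e u v = jn e v u := fun e u v => by simp only [jn, or_comm]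
  refine ⟨fun u _ => Bool.eq_false_iff.2 fun e => h.irr (gA_iff.1 e) rfl, fun u _ v _ => ⟨?_, ?_, ?_⟩⟩
  · simp only [gA, sy _ u v]
  · simp only [gB, sy _ u v]
  · simp only [gA, gB, List.any_eq_true, Bool.and_eq_true]
    exact fun ⟨e, he, h1⟩ => ⟨e, he, h1.2⟩

lemma Tiles.complete (h : Tiles tl tn tq) (hL : BNear L) :
    ∃ p, Real2 {v | v ∈ gV tl L} (gA tl L) (gB tl L) p := by
  obtain ⟨p, h1, h2, h3⟩ := h.flex L hL
  refine ⟨p, ?_, fun u _ v _ => len_of_lab (sides_lab fun i hi j hj t ht => (h1 i hi j hj t ht).2)⟩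
  have E : Emb (Rect (trL tl L) 0 (Wd L + 2) 0 (Ht L + 2)) (TT (trL tl L)) p := by
    refine rect_emb (fun i j => (h.topL L i j).ok) (Nat.zero_le _) (Nat.zero_le _)
      (fun i j hi hj t ht => ?_) (fun i _ _ => h2 i) fun j _ _ => h3 j
    obtain ⟨t, ht', rfl⟩ := List.mem_map.1 ht
    exact (h1 i hi.2 j hj.2 t ht').1
  have mono : ∀ u v, gA tl L u v = true →
      Ad (Rect (trL tl L) 0 (Wd L + 2) 0 (Ht L + 2)) (TT (trL tl L)) u v := fun u v ha => by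
    obtain ⟨k, hk, hw⟩ := gA_iff.1 ha
    exact ⟨k, rect_mono (by omega) (by omega) (by omega) (by omega) hk, hw⟩
  have fu := fun w hw => full_S (W := Wd L) (H := Ht L) (w := w) (h.topL L) hw
  rw [gV_eq]
  refine Draw.sep ⟨fun u hu v hv e => E.inj (fu v hv) (fu u hu) e,
    fun u hu v hv u' hu' v' hv' a1 a2 hne x y1 y2 => E.nx (mono _ _ a1) (mono _ _ a2) (fu _ hu)
      (fu _ hv) (fu _ hu') (fu _ hv') (by rwa [Ne, Sym2.eq_iff]) y1 y2,
    fun u hu v hv w hw a1 hm => ?_⟩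
  have huv : p u ≠ p v := fun e => h.irr (gA_iff.1 a1) (E.inj (fu v hv) (fu u hu) e)
  rcases E.nv (mono _ _ a1) (fu _ hu) (fu _ hw) (openSegment_subset_segment _ _ _ hm) with rfl | rfl
  · exact huv (left_mem_openSegment_iff.1 hm)
  · exact huv (right_mem_openSegment_iff.1 hm)

lemma Tiles.sound (h : Tiles tl tn tq) {p : Vx → ℂ}
    (hp : Real2 {v | v ∈ gV tl L} (gA tl L) (gB tl L) p) : BSat L := by
  obtain ⟨p0, h0⟩ := h.lab L
  rw [gV_eq] at hp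
  have lb : ∀ e ∈ sides tl L, Lb p e.1 e.2.1 e.2.2 := by
    intro e he
    have a : gA tl L e.1 e.2.1 = true := List.any_eq_true.2 ⟨e, he, by simp [jn]⟩
    have := hp.2 _ (ad_mem (gA_iff.1 a)) _ (ad_mem (gA_iff.1 a).symm) a
    rw [Lb, this, ← len_of_lab (sides_lab h0) a]
    exact sides_lab h0 e he
  have pg : PG (VG (trL tl L) (Wd L) (Ht L))
      (Ad (Rect (trL tl L) 1 (Wd L + 1) 1 (Ht L + 1)) (TT (trL tl L))) p :=
    ⟨by simpa only [gA_iff] using hp.1, fun u v => ad_mem, fun u v => Ad.symm, fun u v => h.irr⟩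
  have hW : Wd L = 2 * nv L + 5 := rfl
  obtain ⟨p', e1, θ, e2⟩ := rigid (a := 2) (b := nv L + 3) (a' := nv L + 4) (b' := Wd L) (c := 2)
    (d := Ht L) (h.topL L) pg le_rfl (by omega) le_rfl le_rfl le_rfl (by omega) (by omega)
  have fa : ∀ a b, 1 ≤ a → b ≤ Wd L → Ang (trL tl L) (fun i j => tn (ty L i j)) p' a b 2 (Ht L) θ →
      ∀ i j, (a ≤ i ∧ i < b) → (2 ≤ j ∧ j < Ht L) → Fact (ty L i j) (θ i j) := by
    intro a b ha hb A i j hi hj
    refine h.fact _ (ty_lt L i j) (fun v => p' (gl i j v)) _ (fun t ht => ⟨?_, ?_⟩)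
      (A.int i j hi hj) (A.dif i j)
    · exact A.pos i j hi hj _ (List.mem_map_of_mem (f := tri) ht)
    · refine lab_iff.2 fun e he => ?_
      have := lb e (mem_sides.2 ⟨i, j, by omega, by omega, t, ht, he⟩)
      rwa [Lb, ← e1] at this
  rcases e2 with A | A
  · exact chain (θ := θ) (fun c j _ _ _ _ => A.hor c j (by omega) (by omega))
      (fun c j _ _ _ _ => A.ver c j (by omega) (by omega))
      fun c j _ _ _ _ => fa _ _ (by omega) (by omega) A c j (by omega) (by omega)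
  · refine chain (θ := fun c => θ (c + (nv L + 2))) (fun c j _ _ _ _ => ?_)
      (fun c j _ _ _ _ => A.ver _ j (by omega) (by omega)) fun c j h2 hc _ _ => ?_
    · rw [show c + 1 + (nv L + 2) = c + (nv L + 2) + 1 by omega]
      exact A.hor _ j (by omega) (by omega)
    · rw [← ty_shift L j h2 hc]
      exact fa _ _ (by omega) le_rfl A _ j (by omega) (by omega)

theorem complete_of_tiles (h1 : PT tl) (h : Tiles tl tn tq) :
    N793a5b8e.IsCompleteFor MP_485bb6_lc.ExistsR CF :=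
  complete_of_geometry (0, 0, 0) (gV tl) (gA tl) (gB tl) (pt_gV h1) (pt_gA h1) (pt_gB h1)
    (fun _ => nodup_dd _) h.wf (fun _ => h.complete) fun _ _ => h.sound

/-- Tables are computable in polynomial time. -/
theorem pt_table (D : List (List TD)) : PT fun y : ℕ => D.getD y [] := by fun_prop

end

end Pool.Agent.MP_a4408f_lc
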