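import Mathlib
import Pool.Agent.MP_a4408f_lc.Chain2
import Pool.Agent.MP_a4408f_lc.Assemble

/-! The labelled graph of a list of tests. -/

namespace Pool.Agent.MP_a4408f_lc

open Real Pool.Agent.MP_485bb6_lc Pool.Agent.MP_2e8011_lc

/-- The labelled sides of a triangle. -/
def sides (t : TD) : List (ℕ × ℕ × Bool) :=
  [(t.1, t.2.1, t.2.2.2.1), (t.2.1, t.2.2.1, t.2.2.2.2.1), (t.2.2.1, t.1, t.2.2.2.2.2)]

variable (tl : ℕ → List TD)

/-- All labelled edges. -/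
def eds (L : List BT) : List (MP_a4408f_lc.Vx × MP_a4408f_lc.Vx × Bool) :=
  (List.range (Wd L)).flatMap fun i => (List.range (Ht L)).flatMap fun j =>
    (tl (ty L (i + 1) (j + 1))).flatMap fun t => (sides t).map fun e =>
      (gl (i + 1) (j + 1) e.1, gl (i + 1) (j + 1) e.2.1, e.2.2)

/-- Short edges. -/
def gB (L : List BT) (u v : MP_a4408f_lc.Vx) : Bool :=
  decide ((u, v, true) ∈ eds tl L ∨ (v, u, true) ∈ eds tl L)

/-- Edges. -/
def gA (L : List BT) (u v : MP_a4408f_lc.Vx) : Bool :=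
  gB tl L u v || decide ((u, v, false) ∈ eds tl L ∨ (v, u, false) ∈ eds tl L)

/-- Vertices. -/
def gV (N : ℕ) (L : List BT) : List MP_a4408f_lc.Vx :=
  ((List.range (Wd L + 2)).flatMap fun i => (List.range (Ht L + 2)).flatMap fun j =>
    (List.range N).map fun e => (i, j, e)).filter fun w => decide (w ∈ (eds tl L).map Prod.fst)

/-- The triangles of the layout. -/
def trL (L : List BT) (i j : ℕ) : List MP_a4408f_lc.Vx := (tl (ty L i j)).map tri

variable {tl} {L : List BT}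

lemma mem_eds {x : MP_a4408f_lc.Vx × MP_a4408f_lc.Vx × Bool} : x ∈ eds tl L ↔
    ∃ i j, (1 ≤ i ∧ i < Wd L + 1) ∧ (1 ≤ j ∧ j < Ht L + 1) ∧ ∃ t ∈ tl (ty L i j), ∃ e ∈ sides t,
      x = (gl i j e.1, gl i j e.2.1, e.2.2) := by
  simp only [eds, List.mem_flatMap, List.mem_range, List.mem_map]
  constructor
  · rintro ⟨i, hi, j, hj, t, ht, e, he, rfl⟩
    exact ⟨i + 1, j + 1, by omega, by omega, t, ht, e, he, rfl⟩
  · rintro ⟨i, j, hi, hj, t, ht, e, he, rfl⟩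
    obtain ⟨i, rfl⟩ : ∃ x, i = x + 1 := ⟨i - 1, by omega⟩
    obtain ⟨j, rfl⟩ : ∃ x, j = x + 1 := ⟨j - 1, by omega⟩
    exact ⟨i, by omega, j, by omega, t, ht, e, he, rfl⟩

lemma eds_cn {u v : MP_a4408f_lc.Vx} : (∃ s, (u, v, s) ∈ eds tl L) ↔
    ∃ k ∈ Rect (trL tl L) 1 (Wd L + 1) 1 (Ht L + 1), ∃ w, Cn (TT (trL tl L) k) u v w := by
  constructor
  · rintro ⟨s, h⟩
    obtain ⟨i, j, hi, hj, t, ht, e, he, h⟩ := mem_eds.1 h
    obtain ⟨k, hk, -, ek⟩ := tri_rect (tr := trL tl L) hi hj (List.mem_map_of_mem ht)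
    obtain ⟨rfl, rfl, -⟩ := h
    have c := (cn_self (tri t)).map (gl i j)
    simp only [sides, List.mem_cons, List.not_mem_nil, or_false] at he
    rcases he with rfl | rfl | rfl
    exacts [⟨k, hk, _, ek ▸ c⟩, ⟨k, hk, _, ek ▸ c.rot⟩, ⟨k, hk, _, ek ▸ c.rot.rot⟩]
  · rintro ⟨k, hk, w, hc⟩
    obtain ⟨t, ht, e⟩ := rect_tri hk
    obtain ⟨t, ht', rfl⟩ := List.mem_map.1 ht
    rw [e] at hc
    obtain ⟨x, y, z, hd, rfl, rfl, rfl⟩ := hc.unmap
    have : ∃ s, (x, y, s) ∈ sides t := by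
      obtain ⟨a, b, c, s1, s2, s3⟩ := t
      rcases hd with ⟨⟨⟩⟩ | ⟨⟨⟩⟩ | ⟨⟨⟩⟩
      exacts [⟨s1, by simp [sides]⟩, ⟨s3, by simp [sides]⟩, ⟨s2, by simp [sides]⟩]
    obtain ⟨s, hs⟩ := this
    exact ⟨s, mem_eds.2 ⟨_, _, (mem_rect.1 hk).1, (mem_rect.1 hk).2.1, t, ht', _, hs, rfl⟩⟩

lemma gA_iff {u v : MP_a4408f_lc.Vx} : gA tl L u v = true ↔
    Ad (Rect (trL tl L) 1 (Wd L + 1) 1 (Ht L + 1)) (TT (trL tl L)) u v := by
  simp only [gA, gB, Bool.or_eq_true, decide_eq_true_eq]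
  constructor
  · rintro ((h | h) | h | h) <;> obtain ⟨k, hk, w, c⟩ := eds_cn.1 ⟨_, h⟩
    exacts [⟨k, hk, w, Or.inl c⟩, ⟨k, hk, w, Or.inr c⟩, ⟨k, hk, w, Or.inl c⟩, ⟨k, hk, w, Or.inr c⟩]
  · rintro ⟨k, hk, w, c | c⟩ <;> obtain ⟨s, h⟩ := eds_cn.2 ⟨k, hk, w, c⟩ <;> cases s <;> simp [h]

lemma lab_iff {p : MP_a4408f_lc.Vx → ℂ} : (∀ x ∈ eds tl L, Lb p x.1 x.2.1 x.2.2) ↔
    ∀ i j, (1 ≤ i ∧ i < Wd L + 1) → (1 ≤ j ∧ j < Ht L + 1) → ∀ t ∈ tl (ty L i j),
      Lab (fun v => p (gl i j v)) t := by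
  constructor
  · intro h i j hi hj t ht
    have k := fun e he => h _ (mem_eds.2 ⟨i, j, hi, hj, t, ht, e, he, rfl⟩)
    simp only [sides, List.forall_mem_cons] at k
    exact ⟨k.1, k.2.1, k.2.2.1⟩
  · intro h x hx
    obtain ⟨i, j, hi, hj, t, ht, e, he, rfl⟩ := mem_eds.1 hx
    obtain ⟨a, b, c⟩ := h i j hi hj t ht
    simp only [sides, List.mem_cons, List.not_mem_nil, or_false] at he
    rcases he with rfl | rfl | rfl
    exacts [a, b, c]

lemma gB_of_lab {p : MP_a4408f_lc.Vx → ℂ} (h : ∀ x ∈ eds tl L, Lb p x.1 x.2.1 x.2.2)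
    {u v : MP_a4408f_lc.Vx} (ha : gA tl L u v = true) : ‖p u - p v‖ ≤ 1 ↔ gB tl L u v = true := by
  have a1 := h (u, v, true)
  have a2 := h (v, u, true)
  have a3 := h (u, v, false)
  have a4 := h (v, u, false)
  simp only [Lb, norm_sub_rev (p v)] at a1 a2 a3 a4
  simp only [gA, gB, Bool.or_eq_true, decide_eq_true_eq] at ha ⊢
  tauto

variable {tn : ℕ → ℕ} {tq : ℕ → List (ℤ × ℤ)}

lemma mem_gV (h : Tiles tl tn tq) {N : ℕ} (hN : ∀ y < 18, tn y ≤ N) :
    {v | v ∈ gV tl N L} = VG (trL tl L) (Wd L) (Ht L) := by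
  ext w
  have k : w ∈ (eds tl L).map Prod.fst ↔ w ∈ VG (trL tl L) (Wd L) (Ht L) := by
    rw [List.mem_map]
    constructor
    · rintro ⟨⟨u, v, s⟩, h, rfl⟩
      obtain ⟨k, hk, x, hc⟩ := eds_cn.1 ⟨s, h⟩
      exact ⟨k, hk, (hc.vt u).2 (Or.inl rfl)⟩
    · rintro ⟨k, hk, hv⟩
      obtain ⟨y, z, hc⟩ := hv.cn
      obtain ⟨s, h⟩ := eds_cn.2 ⟨k, hk, z, hc⟩
      exact ⟨_, h, rfl⟩
  simp only [gV, Set.mem_setOf_eq, List.mem_filter, decide_eq_true_eq, k, and_iff_right_iff_imp]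
  intro hw
  obtain ⟨i, j, v, hi, hj, hv, rfl⟩ := (mem_VG fun i j => h.top _ (ty_lt L i j)).1 hw
  have h1 := loc_prop v
  have h2 := hN _ (ty_lt L i j)
  have h3 := (h.top _ (ty_lt L i j)).len.1
  simp only [List.mem_flatMap, List.mem_range, List.mem_map]
  refine ⟨_, ?_, _, ?_, _, ?_, rfl⟩
  · omega
  · omega
  · by_cases h4 : v < 16
    · omega
    · rw [loc_big (not_lt.1 h4)]; simp only; omega

theorem complete_of_tiles' (h1 : PT tl) (h : Tiles tl tn tq) : N793a5b8e.IsCompleteFor ExistsR CF := by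
  obtain ⟨N, hN⟩ : ∃ N, ∀ y < 18, tn y ≤ N :=
    ⟨(Finset.range 18).sup tn, fun y hy => Finset.le_sup (Finset.mem_range.2 hy)⟩
  have hT : ∀ L i j, Top (trL tl L i j) (tn (ty L i j)) (tq (ty L i j)) :=
    fun L i j => h.top _ (ty_lt L i j)
  have p1 : PT nv := by
    refine PT.congr (g := fun L => (L.flatMap fun q => List.range
      (q.2.1 + q.2.2.1 + q.2.2.2.1 + q.2.2.2.2.1 + q.2.2.2.2.2)).length + 1) (by fun_prop) fun L => ?_
    simp [nv]
  have p2 : PT Wd := by unfold Wd; fun_prop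
  have p3 : PT Ht := by unfold Ht; fun_prop
  have p4 : PT fun x : List BT × ℕ => gq x.1 x.2 := by unfold gq; fun_prop
  have p5 : PT fun x : List BT × ℕ => col x.1 x.2 := by unfold col; fun_prop
  have p6 : PT fun x : List BT × ℕ => tv x.1 x.2 := by unfold tv; fun_prop
  have p7 : PT fun x : List BT × ℕ => pol x.1 x.2 := by unfold pol; fun_prop
  have p8 : PT fun x : List BT × ℕ × ℕ => ty x.1 x.2.1 x.2.2 := by unfold ty; fun_prop
  have p9 : PT loc := by unfold loc; fun_prop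
  have p10 : PT (eds tl) := by unfold eds gl sides; fun_prop
  have irr : ∀ L u v, Ad (Rect (trL tl L) 1 (Wd L + 1) 1 (Ht L + 1)) (TT (trL tl L)) u v → u ≠ v := by
    have hQ := fun L => Q_emb (hT L) (Nat.le_add_left 1 (Wd L)) (Nat.le_add_left 1 (Ht L))
    rintro L u v ⟨k, hk, w, hc | hc⟩ rfl <;> exact (hQ L).ne hk hc rfl
  refine complete_of_geometry (0, 0, 0) (gV tl N) (gA tl) (gB tl) (by unfold gV; fun_prop)
    (by unfold gA gB; fun_prop) (by unfold gB; fun_prop) (fun L => List.Nodup.filter _ ?_)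
    (fun L => ⟨fun u _ => ?_, fun u _ v _ => ?_⟩) (fun L hL => ?_) fun L p hp => ?_
  · simpa [SProd.sprod, List.product, List.map_flatMap, Function.comp_def] using
      (List.nodup_range (n := Wd L + 2)).product
        ((List.nodup_range (n := Ht L + 2)).product (List.nodup_range (n := N)))
  · exact Bool.eq_false_iff.2 fun e => irr L u u (gA_iff.1 e) rfl
  · simp only [gA, gB, or_comm]; simp +contextual
  · obtain ⟨p, a1, a2, a3⟩ := h.flex L hL
    have hE : Emb (Rect (trL tl L) 0 (Wd L + 2) 0 (Ht L + 2)) (TT (trL tl L)) p :=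
      rect_emb (fun i j => (hT L i j).ok) (Nat.zero_le _) (Nat.zero_le _) (fun i j hi hj t ht => by
        obtain ⟨t, ht', rfl⟩ := List.mem_map.1 ht
        exact (a1 i hi.2 j hj.2 t ht').1) (fun i _ _ => a2 i) fun j _ _ => a3 j
    refine ⟨p, ?_, fun u _ v _ => gB_of_lab (lab_iff.2 fun i j hi hj t ht =>
      (a1 i (by omega) j (by omega) t ht).2)⟩
    rw [mem_gV h hN]
    have up : ∀ u v, gA tl L u v = true →
        Ad (Rect (trL tl L) 0 (Wd L + 2) 0 (Ht L + 2)) (TT (trL tl L)) u v := fun u v e =>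
      let ⟨k, hk, x⟩ := gA_iff.1 e
      ⟨k, rect_mono (by omega) (by omega) (by omega) (by omega) hk, x⟩
    intro u hu v hv u' hu' v' hv' e1 e2 n1 n2 n3 n4
    have f1 := full_S (hT L) hu
    have f2 := full_S (hT L) hv
    have f3 := full_S (hT L) hu'
    have f4 := full_S (hT L) hv'
    rw [Set.disjoint_left]
    intro x x1 x2
    rcases e1 with e1 | rfl <;> rcases e2 with e2 | rfl
    · obtain ⟨w, w1, w2, -⟩ := hE.nx (up _ _ e1) (up _ _ e2) f1 f2 f3 f4 (by simp; tauto) x1 x2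
      rcases w1 with rfl | rfl <;> tauto
    · rw [segment_same] at x2
      obtain rfl : x = p u' := x2
      rcases hE.nv (up _ _ e1) f1 f3 x1 with rfl | rfl <;> tauto
    · rw [segment_same] at x1
      obtain rfl : x = p u := x1
      rcases hE.nv (up _ _ e2) f3 f1 x2 with rfl | rfl <;> tauto
    · rw [segment_same] at x1 x2
      exact n1 (hE.inj f3 f1 (Eq.trans (Eq.symm x1) x2))
  · obtain ⟨p0, h0⟩ := h.lab L
    have l0 := lab_iff.2 fun i j hi hj => h0 i (by omega) j (by omega)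
    rw [mem_gV h hN] at hp
    have mem : ∀ u v, Ad (Rect (trL tl L) 1 (Wd L + 1) 1 (Ht L + 1)) (TT (trL tl L)) u v →
        u ∈ VG (trL tl L) (Wd L) (Ht L) := by
      rintro u v ⟨k, hk, w, hc | hc⟩ <;> exact ⟨k, hk, (hc.vt u).2 (by simp)⟩
    obtain ⟨p', e1, θ, e2⟩ := rigid (a := 2) (b := nv L + 3) (a' := nv L + 4) (b' := Wd L) (c := 2)
      (d := Ht L) (hT L) (p := p) ⟨by have := hp.1; simp only [gA_iff] at this; exact this, mem, fun _ _ => Ad.symm, irr L⟩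
      le_rfl (by omega) le_rfl le_rfl le_rfl (by omega) (by unfold Wd; omega)
    have l1 : ∀ x ∈ eds tl L, Lb p' x.1 x.2.1 x.2.2 := by
      rintro ⟨u, v, s⟩ hx
      have a : gA tl L u v = true := by cases s <;> simp [gA, gB, hx]
      rw [Lb, e1, hp.2 u (mem _ _ (gA_iff.1 a)) v (mem _ _ (gA_iff.1 a).symm) a, ← gB_of_lab l0 a]
      exact l0 _ hx
    have fin : ∀ a, a + nv L + 3 ≤ Wd L → (∀ c, 2 ≤ c → c ≤ nv L + 2 → col L (a + c) = c) →
        Ang (trL tl L) (fun i j => tn (ty L i j)) p' (a + 2) (a + nv L + 3) 2 (Ht L) θ → BSat L :=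
      fun a ha hc e => chain hc (fun i j hi hj => h.fact _ (ty_lt L i j) _ _
        (fun t ht => ⟨by exact e.pos i j hi hj _ (List.mem_map_of_mem ht),
          lab_iff.1 l1 i j (by omega) (by omega) t ht⟩) (e.int i j hi hj) (e.dif i j)) e.hor e.ver
    rcases e2 with e2 | e2
    · exact fin 0 (by unfold Wd; omega) (fun c _ _ => by unfold col; split_ifs <;> omega)
        (by simpa using e2)
    · refine fin (nv L + 2) (by unfold Wd; omega) (fun c _ _ => by unfold col; split_ifs <;> omega) ?_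
      rwa [show nv L + 2 + nv L + 3 = Wd L by unfold Wd; omega]

end Pool.Agent.MP_a4408f_lc
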